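import Pool.Agent.Lib.MP_eb8f1d_pr.Median

/-!
# The probability that all colours are visible

A system of coins `i : ι` with colours `col i s` and weights `w i s` on the two sides `s : Bool`.
`WW col w` is the total weight of the outcomes which show all colours. It is bounded by removing
colours which occur on at most two sides, one after another.
-/

namespace Pool.Agent.Lib.MP_eb8f1d_pr.AllSeen

open Finset Classical

/-- total weight of the outcomes which show all colours -/
noncomputable def WW {ι κ : Type} [Fintype ι] (col : ι → Bool → κ) (w : ι → Bool → ℝ) : ℝ :=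
  ∑ ω : ι → Bool, if Function.Surjective (fun i => col i (ω i)) then ∏ i, w i (ω i) else 0

theorem WW_nonneg {ι κ : Type} [Fintype ι] (col : ι → Bool → κ) (w : ι → Bool → ℝ)
    (hw : ∀ i s, 0 ≤ w i s) : 0 ≤ WW col w := by
  refine Finset.sum_nonneg fun ω _ => ?_
  split_ifs
  · exact Finset.prod_nonneg fun i _ => hw _ _
  · exact le_rfl

theorem WW_split {ι κ : Type} [Fintype ι] (col : ι → Bool → κ) (w : ι → Bool → ℝ) (i : ι) :
    WW col w = ∑ ω' : {j // j ≠ i} → Bool, ∑ b : Bool,
      if Function.Surjective (fun j => col j ((Equiv.funSplitAt i Bool).symm (b, ω') j))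
        then w i b * ∏ j : {j // j ≠ i}, w j (ω' j) else 0 := by
  rw [WW, ← (Equiv.funSplitAt i Bool).symm.sum_comp, Fintype.sum_prod_type, Finset.sum_comm]
  refine Finset.sum_congr rfl fun ω' _ => Finset.sum_congr rfl fun b _ => ?_
  congr 1
  rw [Fintype.prod_eq_mul_prod_subtype_ne _ i]
  congr 1
  · simp [Equiv.funSplitAt]
  · refine Finset.prod_congr rfl fun j _ => ?_
    simp [Equiv.funSplitAt, j.2]

theorem split_same {ι : Type} (i : ι) (b : Bool) (ω' : {j // j ≠ i} → Bool) :
    (Equiv.funSplitAt i Bool).symm (b, ω') i = b := by
  simp [Equiv.funSplitAt]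

theorem split_ne {ι : Type} (i : ι) (b : Bool) (ω' : {j // j ≠ i} → Bool) (j : {j // j ≠ i}) :
    (Equiv.funSplitAt i Bool).symm (b, ω') j = ω' j := by
  simp [Equiv.funSplitAt, j.2]

/-- a colour which occurs only on the coin `i` -/
theorem WW_delete {ι κ : Type} [Fintype ι] (col : ι → Bool → κ) (w : ι → Bool → ℝ) (i : ι) (v : κ)
    (hv : ∀ (j : {j // j ≠ i}) (s : Bool), col j s ≠ v) :
    WW col w = (∑ b : Bool, if col i b = v then w i b else 0) *
      WW (fun (j : {j // j ≠ i}) s => (⟨col j s, hv j s⟩ : {u // u ≠ v})) (fun j s => w j s) := by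
  rw [WW_split col w i, WW, Finset.mul_sum]
  refine Finset.sum_congr (by ext; simp) fun ω' _ => ?_
  rw [Finset.sum_mul]
  refine Finset.sum_congr rfl fun b _ => ?_
  have key : Function.Surjective (fun j => col j ((Equiv.funSplitAt i Bool).symm (b, ω') j)) ↔
      (col i b = v ∧ Function.Surjective
        (fun j : {j // j ≠ i} => (⟨col j (ω' j), hv j (ω' j)⟩ : {u // u ≠ v}))) := by
    constructor
    · intro h
      have hib : col i b = v := by
        obtain ⟨j, hj⟩ := h v
        by_cases hji : j = i
        · subst hji
          simpa only [split_same] using hj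
        · have := hv ⟨j, hji⟩ (ω' ⟨j, hji⟩)
          rw [← split_ne i b ω' ⟨j, hji⟩] at this
          exact absurd hj this
      refine ⟨hib, fun u => ?_⟩
      obtain ⟨j, hj⟩ := h u.1
      have hji : j ≠ i := by
        rintro rfl
        simp only [split_same] at hj
        exact u.2 (hj.symm.trans hib)
      refine ⟨⟨j, hji⟩, Subtype.ext ?_⟩
      show col j (ω' ⟨j, hji⟩) = u.1
      rw [← split_ne i b ω' ⟨j, hji⟩]
      exact hj
    · rintro ⟨h1, h2⟩ u
      by_cases hu : u = v
      · exact ⟨i, by simp only [split_same]; rw [h1, hu]⟩
      · obtain ⟨j, hj⟩ := h2 ⟨u, hu⟩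
        refine ⟨j, ?_⟩
        show col j ((Equiv.funSplitAt i Bool).symm (b, ω') j) = u
        rw [split_ne]
        exact congrArg Subtype.val hj
  by_cases h1 : col i b = v
  · by_cases h2 : Function.Surjective
        (fun j : {j // j ≠ i} => (⟨col j (ω' j), hv j (ω' j)⟩ : {u // u ≠ v}))
    · rw [if_pos (key.2 ⟨h1, h2⟩), if_pos h1, if_pos h2]
    · rw [if_neg (fun h => h2 (key.1 h).2), if_neg h2, mul_zero]
  · rw [if_neg (fun h => h1 (key.1 h).1), if_neg h1, zero_mul]

/-- a colour which occurs on exactly two sides, of different coins `i`, `j` -/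
theorem WW_contract {ι κ : Type} [Fintype ι] [Fintype κ] (hcard : Fintype.card ι = Fintype.card κ)
    (col : ι → Bool → κ) (w : ι → Bool → ℝ) (i j : ι) (hij : i ≠ j) (s r : Bool) (v : κ)
    (hi : col i s = v) (hj : col j r = v) (hi' : col i (!s) ≠ v) (hj' : col j (!r) ≠ v)
    (hv : ∀ k, k ≠ i → k ≠ j → ∀ x, col k x ≠ v)
    (hc : ∀ (k : {k // k ≠ j}) (x : Bool),
      (if k.1 = i ∧ x = s then col j (!r) else col k x) ≠ v) :
    WW col w = WW (fun (k : {k // k ≠ j}) x =>
        (⟨if k.1 = i ∧ x = s then col j (!r) else col k x, hc k x⟩ : {u // u ≠ v}))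
      (fun k x => w k x * (if k.1 = i then w j (if x = s then !r else r) else 1)) := by
  rw [WW_split col w j, WW]
  refine Finset.sum_congr (by ext; simp) fun ω' _ => ?_
  set ii : {k // k ≠ j} := ⟨i, hij⟩ with hii
  set b₀ : Bool := if ω' ii = s then !r else r with hb₀
  have hoi : ∀ b, (Equiv.funSplitAt j Bool).symm (b, ω') i = ω' ii := fun b => split_ne j b ω' ii
  rw [Finset.sum_eq_single b₀]
  · have key : Function.Surjective (fun k => col k ((Equiv.funSplitAt j Bool).symm (b₀, ω') k)) ↔
        Function.Surjective (fun k : {k // k ≠ j} =>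
          (⟨if k.1 = i ∧ ω' k = s then col j (!r) else col k (ω' k), hc k (ω' k)⟩ : {u // u ≠ v})) := by
      constructor
      · intro h u
        obtain ⟨k, hk⟩ := h u.1
        by_cases hkj : k = j
        · subst hkj
          simp only [split_same] at hk
          have hos : ω' ii = s := by
            by_contra hne
            rw [hb₀, if_neg hne, hj] at hk
            exact u.2 hk.symm
          refine ⟨ii, Subtype.ext ?_⟩
          show (if ii.1 = i ∧ ω' ii = s then col k (!r) else col ii (ω' ii)) = u.1
          rw [if_pos ⟨rfl, hos⟩, ← hk, hb₀, if_pos hos]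
        · refine ⟨⟨k, hkj⟩, Subtype.ext ?_⟩
          show (if k = i ∧ ω' ⟨k, hkj⟩ = s then col j (!r) else col k (ω' ⟨k, hkj⟩)) = u.1
          have hk' : col k (ω' ⟨k, hkj⟩) = u.1 := by
            rw [← split_ne j b₀ ω' ⟨k, hkj⟩]
            exact hk
          rw [if_neg, hk']
          rintro ⟨rfl, h2⟩
          rw [h2, hi] at hk'
          exact u.2 hk'.symm
      · intro h u
        by_cases hu : u = v
        · by_cases hos : ω' ii = s
          · refine ⟨i, ?_⟩
            show col i ((Equiv.funSplitAt j Bool).symm (b₀, ω') i) = u
            rw [hoi, hos, hi, hu]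
          · refine ⟨j, ?_⟩
            show col j ((Equiv.funSplitAt j Bool).symm (b₀, ω') j) = u
            rw [split_same, hb₀, if_neg hos, hj, hu]
        · obtain ⟨k, hk⟩ := h ⟨u, hu⟩
          have hk' : (if k.1 = i ∧ ω' k = s then col j (!r) else col k (ω' k)) = u :=
            congrArg Subtype.val hk
          by_cases hki : k.1 = i ∧ ω' k = s
          · rw [if_pos hki] at hk'
            have hos : ω' ii = s := by
              have : k = ii := Subtype.ext hki.1
              rw [← this]
              exact hki.2
            refine ⟨j, ?_⟩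
            show col j ((Equiv.funSplitAt j Bool).symm (b₀, ω') j) = u
            rw [split_same, hb₀, if_pos hos, hk']
          · rw [if_neg hki] at hk'
            refine ⟨k, ?_⟩
            show col k ((Equiv.funSplitAt j Bool).symm (b₀, ω') k) = u
            rw [split_ne, hk']
    have hprod : w j b₀ * ∏ k : {k // k ≠ j}, w k (ω' k) = ∏ k : {k // k ≠ j},
        (w k (ω' k) * (if k.1 = i then w j (if ω' k = s then !r else r) else 1)) := by
      rw [Finset.prod_mul_distrib, mul_comm]
      congr 1
      rw [Finset.prod_eq_single ii]
      · rw [if_pos rfl]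
      · intro k _ hk
        rw [if_neg]
        intro h
        exact hk (Subtype.ext h)
      · intro h
        exact absurd (Finset.mem_univ _) h
    by_cases hs : Function.Surjective (fun k => col k ((Equiv.funSplitAt j Bool).symm (b₀, ω') k))
    · rw [if_pos hs, if_pos (key.1 hs), hprod]
    · rw [if_neg hs, if_neg (fun h => hs (key.2 h))]
  · intro b _ hb
    rw [if_neg]
    intro hs
    by_cases hos : ω' ii = s
    · -- both coins show `v`
      have hbr : b = r := by
        rw [hb₀, if_pos hos] at hb
        cases b <;> cases r <;> simp_all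
      have hinj := ((Fintype.bijective_iff_surjective_and_card _).2 ⟨hs, hcard⟩).1
      apply hij
      apply hinj
      show col i ((Equiv.funSplitAt j Bool).symm (b, ω') i) =
        col j ((Equiv.funSplitAt j Bool).symm (b, ω') j)
      rw [hoi, split_same, hos, hi, hbr, hj]
    · have hbr : b = !r := by
        rw [hb₀, if_neg hos] at hb
        cases b <;> cases r <;> simp_all
      have hos' : ω' ii = !s := by
        cases h : ω' ii <;> cases s <;> simp_all
      obtain ⟨k, hk⟩ := hs v
      by_cases hkj : k = j
      · subst hkj
        simp only [split_same] at hk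
        rw [hbr] at hk
        exact hj' hk
      · by_cases hki : k = i
        · subst hki
          simp only [hoi] at hk
          rw [hos'] at hk
          exact hi' hk
        · exact hv k hki hkj _ hk
  · intro h
    exact absurd (Finset.mem_univ _) h

/-- the bound for a total size of parity `s` -/
noncomputable def bd (μ : ℝ) (s : ℕ) : ℝ := if Even s then 1 else μ

theorem bd_mul {μ : ℝ} (h0 : 0 ≤ μ) (h1 : μ ≤ 1) {x y : ℝ} {s t : ℕ} (hx0 : 0 ≤ x) (_hy0 : 0 ≤ y)
    (hx : x ≤ bd μ s) (hy : y ≤ bd μ t) : x * y ≤ bd μ (s + t) := by
  unfold bd at *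
  by_cases hs : Even s <;> by_cases ht : Even t
  · rw [if_pos hs] at hx
    rw [if_pos ht] at hy
    rw [if_pos (hs.add ht)]
    nlinarith
  · rw [if_pos hs] at hx
    rw [if_neg ht] at hy
    rw [if_neg (by rw [Nat.even_add]; tauto)]
    nlinarith
  · rw [if_neg hs] at hx
    rw [if_pos ht] at hy
    rw [if_neg (by rw [Nat.even_add]; tauto)]
    nlinarith
  · rw [if_neg hs] at hx
    rw [if_neg ht] at hy
    rw [if_pos (by rw [Nat.even_add]; tauto)]
    nlinarith

/-- the invariant: `e i` is the number of coins merged into coin `i` -/
structure Gd {ι κ : Type} (μ : ℝ) (col : ι → Bool → κ) (w : ι → Bool → ℝ) (e : ι → ℕ) : Prop where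
  nn : ∀ i s, 0 ≤ w i s
  ev : ∀ i, Even (e i) → w i true + w i false ≤ 1
  od : ∀ i, ¬ Even (e i) → (∀ s, w i s ≤ μ) ∧ w i true ^ 2 + w i false ^ 2 ≤ 1
  eq : ∀ i, ¬ Even (e i) → col i true = col i false → w i true + w i false ≤ μ

theorem WW_le {μ : ℝ} (h0 : 0 ≤ μ) (h1 : μ ≤ 1) (n : ℕ) :
    ∀ (ι κ : Type) [Fintype ι] [Fintype κ] (col : ι → Bool → κ) (w : ι → Bool → ℝ) (e : ι → ℕ),
      Fintype.card ι = n → Fintype.card κ = n → Gd μ col w e → WW col w ≤ bd μ (∑ i, e i) := by
  induction n with
  | zero =>
    intro ι κ _ _ col w e hι hκ G
    have : IsEmpty ι := Fintype.card_eq_zero_iff.1 hι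
    have h2 : bd μ (∑ i, e i) = 1 := by simp [bd]
    rw [h2, WW]
    simp only [Finset.univ_unique, Finset.sum_singleton]
    split_ifs
    · simp
    · exact zero_le_one
  | succ n ih =>
    intro ι κ _ _ col w e hι hκ G
    have hcardι : ∀ i : ι, Fintype.card {j // j ≠ i} = n := by
      intro i
      have := Fintype.card_subtype_compl (fun j => j = i)
      simp only [Fintype.card_subtype_eq, hι] at this
      simpa using this
    have hcardκ : ∀ v : κ, Fintype.card {u // u ≠ v} = n := by
      intro i
      have := Fintype.card_subtype_compl (fun j => j = i)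
      simp only [Fintype.card_subtype_eq, hκ] at this
      simpa using this
    have : Nonempty κ := Fintype.card_pos_iff.1 (by omega)
    have : Nonempty ι := Fintype.card_pos_iff.1 (by omega)
    obtain ⟨v, hv⟩ := Fintype.exists_card_fiber_le_of_card_le_mul
      (f := fun x : ι × Bool => col x.1 x.2) (n := 2) (by
        rw [Fintype.card_prod, Fintype.card_bool, hι, hκ])
    by_cases hF : ∃ x : ι × Bool, col x.1 x.2 = v ∧ ∃ y : ι × Bool, col y.1 y.2 = v ∧ x.1 ≠ y.1
    · obtain ⟨⟨i, s⟩, hi, ⟨j, r⟩, hj, hij⟩ := hF
      simp only at hi hj hij
      have hmem : ∀ k x, col k x = v → (k = i ∧ x = s) ∨ (k = j ∧ x = r) := by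
        intro k x hk
        by_contra hne
        push Not at hne
        have h3 : ({(i, s), (j, r), (k, x)} : Finset (ι × Bool)) ⊆
            Finset.univ.filter (fun x : ι × Bool => col x.1 x.2 = v) := by
          intro z hz
          simp only [Finset.mem_insert, Finset.mem_singleton] at hz
          simp only [Finset.mem_filter, Finset.mem_univ, true_and]
          rcases hz with rfl | rfl | rfl
          · exact hi
          · exact hj
          · exact hk
        have h4 := Finset.card_le_card h3
        rw [Finset.card_insert_of_notMem, Finset.card_insert_of_notMem, Finset.card_singleton] at h4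
        · omega
        · simp only [Finset.mem_singleton, Prod.mk.injEq]
          rintro ⟨rfl, rfl⟩
          exact hne.2 rfl rfl
        · simp only [Finset.mem_insert, Finset.mem_singleton, Prod.mk.injEq]
          rintro (⟨h, -⟩ | ⟨rfl, rfl⟩)
          · exact hij h
          · exact hne.1 rfl rfl
      have hi' : col i (!s) ≠ v := by
        intro h
        rcases hmem _ _ h with ⟨-, h⟩ | ⟨h, -⟩
        · cases s <;> simp at h
        · exact hij h
      have hj' : col j (!r) ≠ v := by
        intro h
        rcases hmem _ _ h with ⟨h, -⟩ | ⟨-, h⟩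
        · exact hij h.symm
        · cases r <;> simp at h
      have hvo : ∀ k, k ≠ i → k ≠ j → ∀ x, col k x ≠ v := by
        intro k hki hkj x h
        rcases hmem _ _ h with ⟨h, -⟩ | ⟨h, -⟩
        · exact hki h
        · exact hkj h
      have hc : ∀ (k : {k // k ≠ j}) (x : Bool),
          (if k.1 = i ∧ x = s then col j (!r) else col k x) ≠ v := by
        intro k x
        split_ifs with h
        · exact hj'
        · intro h'
          rcases hmem _ _ h' with h'' | ⟨h'', -⟩
          · exact h h''
          · exact k.2 h''
      rw [WW_contract (hι.trans hκ.symm) col w i j hij s r v hi hj hi' hj' hvo hc]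
      have hsum : ∑ k, e k = ∑ k : {k // k ≠ j}, (e k + if k.1 = i then e j else 0) := by
        rw [Fintype.sum_eq_add_sum_subtype_ne e j, Finset.sum_add_distrib, add_comm]
        congr 1
        rw [Finset.sum_eq_single (⟨i, hij⟩ : {k // k ≠ j})]
        · rw [if_pos rfl]
        · intro k _ hk
          rw [if_neg]
          intro h
          exact hk (Subtype.ext h)
        · intro h
          exact absurd (Finset.mem_univ _) h
      rw [hsum]
      refine ih _ _ _ _ _ (hcardι j) (hcardκ v) ?_
      set yt := w j (if true = s then !r else r) with hyt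
      set yf := w j (if false = s then !r else r) with hyf
      have hyt0 : 0 ≤ yt := G.nn _ _
      have hyf0 : 0 ≤ yf := G.nn _ _
      have hyev : Even (e j) → yt + yf ≤ 1 := by
        intro h
        have := G.ev j h
        rw [hyt, hyf]
        cases s <;> cases r <;> simp <;> linarith
      have hyod : ¬ Even (e j) → yt ≤ μ ∧ yf ≤ μ ∧ yt ^ 2 + yf ^ 2 ≤ 1 := by
        intro h
        have h5 := (G.od j h).1
        have h6 := (G.od j h).2
        refine ⟨h5 _, h5 _, ?_⟩
        rw [hyt, hyf]
        cases s <;> cases r <;> simp <;> linarith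
      have hx0 : ∀ x, 0 ≤ w i x := G.nn i
      refine ⟨?_, ?_, ?_, ?_⟩
      · intro k x
        refine mul_nonneg (G.nn _ _) ?_
        split_ifs
        · exact G.nn _ _
        · exact G.nn _ _
        · exact zero_le_one
      · intro k hk
        by_cases hki : k.1 = i
        · simp only [hki, if_true] at hk ⊢
          rw [← hyt, ← hyf]
          by_cases hei : Even (e i)
          · have hej : Even (e j) := by
              rw [Nat.even_add] at hk
              exact hk.1 hei
            have h7 := G.ev i hei
            have h8 := hyev hej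
            nlinarith [mul_nonneg (hx0 true) hyf0, mul_nonneg (hx0 false) hyt0,
              mul_nonneg (hx0 true) hyt0, mul_nonneg (hx0 false) hyf0]
          · have hej : ¬ Even (e j) := by
              rw [Nat.even_add] at hk
              exact fun h => hei (hk.2 h)
            have h7 := (G.od i hei).2
            have h8 := (hyod hej).2.2
            nlinarith [sq_nonneg (w i true - yt), sq_nonneg (w i false - yf)]
        · simp only [hki, if_false, add_zero, mul_one] at hk ⊢
          exact G.ev _ hk
      · intro k hk
        by_cases hki : k.1 = i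
        · simp only [hki, if_true] at hk ⊢
          have hall : (w i true * yt ≤ μ ∧ w i false * yf ≤ μ) ∧
              (w i true * yt) ^ 2 + (w i false * yf) ^ 2 ≤ 1 := by
            by_cases hei : Even (e i)
            · have hej : ¬ Even (e j) := by
                rw [Nat.even_add] at hk
                tauto
              have h7 := G.ev i hei
              obtain ⟨h8, h9, h10⟩ := hyod hej
              have hxt : w i true ≤ 1 := by linarith [hx0 false]
              have hxf : w i false ≤ 1 := by linarith [hx0 true]
              refine ⟨⟨by nlinarith [hx0 true], by nlinarith [hx0 false]⟩, ?_⟩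
              have e1 : w i true ^ 2 ≤ 1 := by nlinarith [hx0 true]
              have e2 : w i false ^ 2 ≤ 1 := by nlinarith [hx0 false]
              nlinarith [sq_nonneg yt, sq_nonneg yf]
            · have hej : Even (e j) := by
                rw [Nat.even_add] at hk
                tauto
              have h7 := (G.od i hei).1
              have h7' := (G.od i hei).2
              have h8 := hyev hej
              have hxt : yt ≤ 1 := by linarith
              have hxf : yf ≤ 1 := by linarith
              refine ⟨⟨by nlinarith [hx0 true, h7 true], by nlinarith [hx0 false, h7 false]⟩, ?_⟩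
              have e1 : yt ^ 2 ≤ 1 := by nlinarith
              have e2 : yf ^ 2 ≤ 1 := by nlinarith
              nlinarith [sq_nonneg (w i true), sq_nonneg (w i false)]
          refine ⟨?_, ?_⟩
          · intro x
            cases x
            · exact hall.1.2
            · exact hall.1.1
          · rw [← hyt, ← hyf]
            exact hall.2
        · simp only [hki, if_false, add_zero, mul_one] at hk ⊢
          exact G.od _ hk
      · intro k hk hcol
        by_cases hki : k.1 = i
        · simp only [hki, if_true] at hk ⊢
          rw [← hyt, ← hyf]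
          by_cases hei : Even (e i)
          · have hej : ¬ Even (e j) := by
              rw [Nat.even_add] at hk
              tauto
            have h7 := G.ev i hei
            obtain ⟨h8, h9, h10⟩ := hyod hej
            nlinarith [hx0 true, hx0 false]
          · have hej : Even (e j) := by
              rw [Nat.even_add] at hk
              tauto
            have h7 := (G.od i hei).1
            have h8 := hyev hej
            nlinarith [hx0 true, hx0 false, h7 true, h7 false]
        · simp only [hki, if_false, add_zero, mul_one, false_and] at hk hcol ⊢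
          exact G.eq _ hk (congrArg Subtype.val hcol)
    · push Not at hF
      obtain ⟨i, hi⟩ : ∃ i : ι, ∀ (j : {j // j ≠ i}) (s : Bool), col j s ≠ v := by
        by_cases hne : ∃ x : ι × Bool, col x.1 x.2 = v
        · obtain ⟨x, hx⟩ := hne
          exact ⟨x.1, fun j s h => j.2 (hF x hx (j.1, s) h).symm⟩
        · push Not at hne
          exact ⟨Classical.arbitrary ι, fun j s => hne (j.1, s)⟩
      rw [WW_delete col w i v hi, Fintype.sum_eq_add_sum_subtype_ne e i]
      refine bd_mul h0 h1 ?_ (WW_nonneg _ _ fun j s => G.nn j s) ?_ ?_
      · refine Finset.sum_nonneg fun b _ => ?_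
        split_ifs
        · exact G.nn _ _
        · exact le_rfl
      · rw [Fintype.sum_bool]
        have ht := G.nn i true
        have hf := G.nn i false
        unfold bd
        split_ifs with a1 a2 a3 a4 a5 a6
        all_goals first
          | linarith [G.ev i (by assumption)]
          | exact G.eq i (by assumption) ((by assumption : col i true = v).trans
              (by assumption : col i false = v).symm)
          | linarith [(G.od i (by assumption)).1 true, (G.od i (by assumption)).1 false]
      · refine ih _ _ _ _ _ (hcardι i) (hcardκ v) ⟨fun j s => G.nn j s, fun j => G.ev j,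
          fun j => G.od j, fun j hj h => G.eq j hj (congrArg Subtype.val h)⟩

end Pool.Agent.Lib.MP_eb8f1d_pr.AllSeen
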