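import Pool.Agent.Lib.MP_eb8f1d_pr.Basic

/-! Module EB-O: medians of the extremal distributions. -/

set_option autoImplicit false

namespace Pool.Agent.Lib.MP_eb8f1d_pr

open Finset Polynomial

namespace Med

theorem bin_nonneg {N : ℕ} {r : ℝ} (h0 : 0 ≤ r) (h1 : r ≤ 1) (j : ℕ) : 0 ≤ bin N r j := by
  unfold bin
  have : 0 ≤ 1 - r := by linarith
  positivity

theorem bin_pos {N : ℕ} {r : ℝ} (h0 : 0 < r) (h1 : r < 1) {j : ℕ} (hj : j ≤ N) :
    0 < bin N r j := by
  unfold bin
  have h2 : 0 < 1 - r := by linarith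
  have h3 : (0 : ℝ) < (N.choose j : ℝ) := by exact_mod_cast Nat.choose_pos hj
  positivity

theorem bin_zero {N : ℕ} {r : ℝ} {j : ℕ} (hj : N < j) : bin N r j = 0 := by
  unfold bin
  rw [Nat.choose_eq_zero_of_lt hj]
  simp

/-- one step of the binomial weights -/
theorem bin_succ (N : ℕ) (r : ℝ) (j : ℕ) (hj : j + 1 ≤ N) :
    bin N r (j + 1) * ((j + 1) * (1 - r)) = bin N r j * ((N - j) * r) := by
  unfold bin
  have h1 : (N.choose (j + 1) : ℝ) * (j + 1) = (N.choose j : ℝ) * (N - j) := by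
    have := Nat.choose_succ_right_eq N j
    have h2 : ((N.choose (j + 1) * (j + 1) : ℕ) : ℝ) = ((N.choose j * (N - j) : ℕ) : ℝ) := by
      rw [this]
    push_cast [Nat.cast_sub (show j ≤ N by omega)] at h2
    exact h2
  have h3 : N - j = (N - (j + 1)) + 1 := by omega
  rw [h3, pow_succ (1 - r) (N - (j + 1)), pow_succ r j]
  linear_combination (r ^ j * r * (1 - r) ^ (N - (j + 1)) * (1 - r)) * h1

theorem sum_bin (N : ℕ) (r : ℝ) : ∑ j ∈ range (N + 1), bin N r j = 1 := by
  have h := add_pow r (1 - r) N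
  have h1 : (r + (1 - r)) ^ N = 1 := by
    have : r + (1 - r) = 1 := by ring
    rw [this, one_pow]
  rw [h1] at h
  rw [h]
  refine Finset.sum_congr rfl fun j _ => ?_
  unfold bin
  ring

theorem sum_mul_bin (N : ℕ) (r : ℝ) : ∑ j ∈ range (N + 1), (j : ℝ) * bin N r j = N * r := by
  cases N with
  | zero => simp [bin]
  | succ N =>
    rw [Finset.sum_range_succ']
    simp only [Nat.cast_zero, zero_mul, add_zero]
    have h : ∀ j ∈ range (N + 1), ((j + 1 : ℕ) : ℝ) * bin (N + 1) r (j + 1) =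
        ((N + 1 : ℕ) : ℝ) * r * bin N r j := by
      intro j _
      unfold bin
      have h1 : ((N + 1 : ℕ) : ℝ) * (N.choose j : ℝ) = ((N + 1).choose (j + 1) : ℝ) * ((j + 1 : ℕ) : ℝ) := by
        exact_mod_cast Nat.add_one_mul_choose_eq N j
      rw [show N + 1 - (j + 1) = N - j by omega, pow_succ r j]
      linear_combination (-(r ^ j * r * (1 - r) ^ (N - j))) * h1
    rw [Finset.sum_congr rfl h, ← Finset.mul_sum, sum_bin, mul_one]

theorem coeff_pow (r : ℝ) (N j : ℕ) :
    ((C (1 - r) + C r * X : ℝ[X]) ^ N).coeff j = bin N r j := by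
  rw [add_comm, add_pow, finsetSum_coeff]
  have h : ∀ m ∈ range (N + 1), ((C r * X : ℝ[X]) ^ m * C (1 - r) ^ (N - m) *
      ((N.choose m : ℕ) : ℝ[X])).coeff j = if j = m then bin N r m else 0 := by
    intro m _
    have : (C r * X : ℝ[X]) ^ m * C (1 - r) ^ (N - m) * ((N.choose m : ℕ) : ℝ[X]) =
        C (bin N r m) * X ^ m := by
      unfold bin
      simp only [map_mul, map_pow, map_natCast, map_sub, map_one]
      ring
    rw [this, coeff_C_mul_X_pow]
  rw [Finset.sum_congr rfl h, Finset.sum_ite_eq]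
  split_ifs with hj
  · rfl
  · rw [bin_zero]
    simpa using hj

theorem cyc_two (a : ℝ) : cyc a 2 = C (1 - 2 * a) + C (2 * a) * X := by
  simp only [cyc, uu, map_sub, map_mul, map_one, map_ofNat]
  ring

theorem cyc_three (a : ℝ) : cyc a 3 = C (1 - 3 * a) + C (3 * a) * X := by
  simp only [cyc, uu, map_sub, map_mul, map_one, map_ofNat]
  ring

theorem cum_two (a : ℝ) (N k : ℕ) :
    cum (gf a (Multiset.replicate N 2)) k = ∑ j ∈ range (k + 1), bin N (2 * a) j := by
  unfold cum gf
  rw [Multiset.map_replicate, Multiset.prod_replicate, cyc_two]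
  refine Finset.sum_congr rfl fun j _ => coeff_pow _ _ _

theorem cum_three (a : ℝ) (N k : ℕ) :
    cum (gf a (3 ::ₘ Multiset.replicate N 2)) k =
      ∑ j ∈ range (k + 1), bin N (2 * a) j - 3 * a * bin N (2 * a) k := by
  unfold cum gf
  rw [Multiset.map_cons, Multiset.prod_cons, Multiset.map_replicate, Multiset.prod_replicate,
    cyc_two, cyc_three]
  set P : ℝ[X] := (C (1 - 2 * a) + C (2 * a) * X) ^ N with hP
  have hc : ∀ j, P.coeff j = bin N (2 * a) j := fun j => coeff_pow _ _ _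
  have h0 : ((C (1 - 3 * a) + C (3 * a) * X) * P).coeff 0 = (1 - 3 * a) * P.coeff 0 := by
    rw [add_mul, coeff_add, coeff_C_mul, mul_assoc, coeff_C_mul, coeff_X_mul_zero]
    ring
  have hs : ∀ j, ((C (1 - 3 * a) + C (3 * a) * X) * P).coeff (j + 1) =
      (1 - 3 * a) * P.coeff (j + 1) + 3 * a * P.coeff j := by
    intro j
    rw [add_mul, coeff_add, coeff_C_mul, mul_assoc, coeff_C_mul, coeff_X_mul]
  induction k with
  | zero =>
    simp only [zero_add, Finset.sum_range_one]
    rw [h0, hc]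
    ring
  | succ k ih =>
    rw [Finset.sum_range_succ, ih, hs, hc, hc, Finset.sum_range_succ _ (k + 1)]
    ring

/-- the binomial median bound -/
theorem half_le (N : ℕ) (r : ℝ) (h0 : 0 < r) (h1 : r ≤ 1 / 2) (k : ℕ)
    (hk : N * r - 1 / 2 ≤ k) : 1 / 2 ≤ ∑ j ∈ range (k + 1), bin N r j := by
  have hr1 : r < 1 := by linarith
  by_cases hkN : N ≤ k
  · have : ∑ j ∈ range (N + 1), bin N r j ≤ ∑ j ∈ range (k + 1), bin N r j :=
      Finset.sum_le_sum_of_subset_of_nonneg (Finset.range_mono (by omega))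
        (fun j _ _ => bin_nonneg h0.le hr1.le j)
    rw [sum_bin] at this
    linarith
  push Not at hkN
  set f : ℕ → ℝ := bin N r with hf
  set G : ℕ → ℝ := fun i => if i ≤ k then f (k - i) else 0 with hG
  set H : ℕ → ℝ := fun i => f (k + 1 + i) with hH
  have hGnn : ∀ i, 0 ≤ G i := by
    intro i
    simp only [hG]
    split_ifs
    · exact bin_nonneg h0.le hr1.le _
    · exact le_rfl
  have hHnn : ∀ i, 0 ≤ H i := fun i => bin_nonneg h0.le hr1.le _
  set M := N + k + 2 with hM
  -- sums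
  have sG : ∀ w : ℕ → ℝ, ∑ i ∈ range M, w i * G i = ∑ j ∈ range (k + 1), w (k - j) * f j := by
    intro w
    rw [← Finset.sum_range_reflect (fun j => w (k - j) * f j) (k + 1)]
    rw [← Finset.sum_subset (Finset.range_mono (show k + 1 ≤ M by omega))]
    · refine Finset.sum_congr rfl fun i hi => ?_
      have hi' : i ≤ k := by simpa [Nat.lt_succ_iff] using hi
      simp only [hG]
      rw [if_pos hi', show k + 1 - 1 - i = k - i by omega, show k - (k - i) = i by omega]
    · intro i _ hi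
      have hi' : ¬ i ≤ k := by simpa [Nat.lt_succ_iff] using hi
      simp only [hG]
      rw [if_neg hi', mul_zero]
  have sH : ∀ v : ℕ → ℝ, ∑ i ∈ range M, v (k + 1 + i) * H i +
      ∑ j ∈ range (k + 1), v j * f j = ∑ j ∈ range (N + 1), v j * f j := by
    intro v
    have h2 := Finset.sum_range_add (fun j => v j * f j) (k + 1) M
    have h3 : ∑ j ∈ range (N + 1), v j * f j = ∑ j ∈ range (k + 1 + M), v j * f j := by
      apply Finset.sum_subset (Finset.range_mono (by omega))
      intro j _ hj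
      have hj' : N < j := by simpa using hj
      have : f j = 0 := bin_zero hj'
      rw [this, mul_zero]
    rw [h3, h2, add_comm]
  -- single crossing
  have hq : 0 < 1 - r := by linarith only [h0, h1]
  have hNk : (0 : ℝ) < N - k := by
    have : (k : ℝ) < N := by exact_mod_cast hkN
    linarith
  have h00 : H 0 ≤ G 0 := by
    have e := bin_succ N r k (by omega)
    simp only [hH, hG, Nat.zero_le, if_true, Nat.sub_zero, add_zero, hf]
    have hk1 : (0 : ℝ) < (k + 1) * (1 - r) := by positivity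
    have hfk : 0 ≤ bin N r k := bin_nonneg h0.le hr1.le _
    have hle : (N - k) * r ≤ (k + 1) * (1 - r) := by nlinarith only [h1, hk]
    have := mul_le_mul_of_nonneg_left hle hfk
    rw [← e] at this
    exact le_of_mul_le_mul_right this hk1
  set ψ : ℕ → ℝ := fun i => (((N : ℝ) - k) ^ 2 - ((i : ℝ) + 1) ^ 2) * r ^ 2 -
    (((k : ℝ) + 1) ^ 2 - ((i : ℝ) + 1) ^ 2) * (1 - r) ^ 2 with hψ
  have hψmono : ∀ i, ψ i ≤ ψ (i + 1) := by
    intro i
    simp only [hψ]
    push_cast
    have h2 : r ^ 2 ≤ (1 - r) ^ 2 := by nlinarith only [h1]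
    have h3 : (0 : ℝ) ≤ 2 * i + 3 := by positivity
    nlinarith only [h2, h3, mul_nonneg h3 (sub_nonneg.2 h2)]
  have hstep : ∀ i, G i ≤ H i → 0 ≤ ψ i → G (i + 1) ≤ H (i + 1) := by
    intro i hi hp
    by_cases hik : i + 1 ≤ k
    · have hGi : G i = f (k - (i + 1) + 1) := by
        simp only [hG]
        rw [if_pos (by omega)]
        congr 1
        omega
      have hGi1 : G (i + 1) = f (k - (i + 1)) := by
        simp only [hG]
        rw [if_pos hik]
      have eG := bin_succ N r (k - (i + 1)) (by omega)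
      have hGpos : 0 < G i := by
        rw [hGi]
        exact bin_pos h0 hr1 (by omega)
      have hHpos : 0 < H i := lt_of_lt_of_le hGpos hi
      have hiN : k + 1 + i ≤ N := by
        by_contra hcon
        push Not at hcon
        have : H i = 0 := bin_zero hcon
        linarith
      have hcast : ((k - (i + 1) : ℕ) : ℝ) = (k : ℝ) - i - 1 := by
        rw [Nat.cast_sub hik]
        push_cast
        ring
      rw [hcast] at eG
      have hik' : (i : ℝ) + 1 ≤ k := by exact_mod_cast hik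
      have hiN' : (k : ℝ) + 1 + i ≤ N := by exact_mod_cast hiN
      have hα : 0 < ((k : ℝ) + 2 + i) * (1 - r) := by positivity
      have hγ : 0 < ((k : ℝ) - i) * (1 - r) := mul_pos (by linarith) hq
      have hδ : 0 < ((N : ℝ) - k + i + 1) * r := mul_pos (by linarith only [h0, h1, hiN']) h0
      have hprod : ((k : ℝ) + 2 + i) * (1 - r) * (((k : ℝ) - i) * (1 - r)) ≤
          ((N : ℝ) - k - 1 - i) * r * (((N : ℝ) - k + i + 1) * r) := by
        have : ((N : ℝ) - k - 1 - i) * r * (((N : ℝ) - k + i + 1) * r) -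
          ((k : ℝ) + 2 + i) * (1 - r) * (((k : ℝ) - i) * (1 - r)) = ψ i := by
          simp only [hψ]
          ring
        linarith
      have hiN2 : k + 1 + i + 1 ≤ N := by
        by_contra hcon
        have h5 : N = k + 1 + i := by omega
        have h6 : (N : ℝ) = k + 1 + i := by exact_mod_cast h5
        rw [h6] at hprod
        nlinarith only [hprod, hα, hγ, mul_pos hα hγ]
      have eH := bin_succ N r (k + 1 + i) hiN2
      have eH' : H (i + 1) * (((k : ℝ) + 2 + i) * (1 - r)) = H i * (((N : ℝ) - k - 1 - i) * r) := by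
        simp only [hH, hf]
        rw [show k + 1 + (i + 1) = k + 1 + i + 1 by omega]
        push_cast at eH
        linear_combination eH
      have eG' : G i * (((k : ℝ) - i) * (1 - r)) = G (i + 1) * (((N : ℝ) - k + i + 1) * r) := by
        rw [hGi, hGi1]
        simp only [hf]
        linear_combination eG
      have hG1nn := hGnn (i + 1)
      have key : G (i + 1) * ((((N : ℝ) - k + i + 1) * r) * (((k : ℝ) + 2 + i) * (1 - r))) ≤
          H (i + 1) * ((((N : ℝ) - k + i + 1) * r) * (((k : ℝ) + 2 + i) * (1 - r))) := by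
        calc G (i + 1) * ((((N : ℝ) - k + i + 1) * r) * (((k : ℝ) + 2 + i) * (1 - r)))
            = G i * (((k : ℝ) + 2 + i) * (1 - r) * (((k : ℝ) - i) * (1 - r))) := by
              linear_combination (-(((k : ℝ) + 2 + i) * (1 - r))) * eG'
          _ ≤ H i * (((k : ℝ) + 2 + i) * (1 - r) * (((k : ℝ) - i) * (1 - r))) :=
              mul_le_mul_of_nonneg_right hi (mul_pos hα hγ).le
          _ ≤ H i * (((N : ℝ) - k - 1 - i) * r * (((N : ℝ) - k + i + 1) * r)) :=
              mul_le_mul_of_nonneg_left hprod hHpos.le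
          _ = _ := by linear_combination (-((((N : ℝ) - k + i + 1) * r))) * eH'
      exact le_of_mul_le_mul_right key (mul_pos hδ hα)
    · have : G (i + 1) = 0 := by
        simp only [hG]
        rw [if_neg hik]
      rw [this]
      exact hHnn _
  -- the two sums
  have hS1 : ∑ i ∈ range M, (H i - G i) = 1 - 2 * ∑ j ∈ range (k + 1), f j := by
    have e1 := sG (fun _ => 1)
    have e2 := sH (fun _ => 1)
    simp only [one_mul] at e1 e2
    rw [sum_bin] at e2
    rw [Finset.sum_sub_distrib, e1]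
    linarith only [e2]
  have hS2 : ∑ i ∈ range M, (2 * (i : ℝ) + 1) * (H i - G i) = 2 * (N * r) - 2 * k - 1 := by
    have e1 := sG (fun i => 2 * (i : ℝ) + 1)
    have e2 := sH (fun j => 2 * (j : ℝ) - 2 * k - 1)
    have e3 : ∑ i ∈ range M, (2 * ((k + 1 + i : ℕ) : ℝ) - 2 * k - 1) * H i =
        ∑ i ∈ range M, (2 * (i : ℝ) + 1) * H i := by
      refine Finset.sum_congr rfl fun i _ => ?_
      push_cast
      ring
    have e4 : ∑ j ∈ range (k + 1), (2 * ((k - j : ℕ) : ℝ) + 1) * f j =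
        - ∑ j ∈ range (k + 1), (2 * (j : ℝ) - 2 * k - 1) * f j := by
      rw [← Finset.sum_neg_distrib]
      refine Finset.sum_congr rfl fun j hj => ?_
      have hj' : j ≤ k := by simpa [Nat.lt_succ_iff] using hj
      rw [Nat.cast_sub hj']
      ring
    have e5 : ∑ j ∈ range (N + 1), (2 * (j : ℝ) - 2 * k - 1) * f j =
        2 * (N * r) - 2 * k - 1 := by
      have h1 := sum_mul_bin N r
      have h2 := sum_bin N r
      have : ∀ j ∈ range (N + 1), (2 * (j : ℝ) - 2 * k - 1) * f j =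
          2 * ((j : ℝ) * bin N r j) - (2 * k + 1) * bin N r j := by
        intro j _
        simp only [hf]
        ring
      rw [Finset.sum_congr rfl this, Finset.sum_sub_distrib, ← Finset.mul_sum, ← Finset.mul_sum,
        h1, h2]
      ring
    have e6 : ∑ i ∈ range M, (2 * (i : ℝ) + 1) * (H i - G i) =
        ∑ i ∈ range M, (2 * (i : ℝ) + 1) * H i - ∑ i ∈ range M, (2 * (i : ℝ) + 1) * G i := by
      rw [← Finset.sum_sub_distrib]
      refine Finset.sum_congr rfl fun i _ => by ring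
    rw [e6, e1, e4, ← e3]
    rw [e5] at e2
    linarith only [e2]
  by_cases hall : ∀ i, H i ≤ G i
  · have : ∑ i ∈ range M, (H i - G i) ≤ 0 :=
      Finset.sum_nonpos fun i _ => by linarith [hall i]
    rw [hS1] at this
    linarith only [this]
  push Not at hall
  classical
  set i₀ := Nat.find hall with hi₀
  have hi0 : G i₀ < H i₀ := Nat.find_spec hall
  have hlt : ∀ i < i₀, H i ≤ G i := fun i hi => not_lt.1 (Nat.find_min hall hi)
  have hpos : 1 ≤ i₀ := by
    rcases Nat.eq_zero_or_pos i₀ with h | h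
    · rw [h] at hi0
      linarith only [h00, hi0]
    · exact h
  obtain ⟨m, hm⟩ : ∃ m, i₀ = m + 1 := ⟨i₀ - 1, by omega⟩
  have hge : ∀ i, i₀ ≤ i → G i ≤ H i := by
    by_cases hik : i₀ ≤ k
    · have hψ0 : 0 ≤ ψ m := by
        have hHm := hlt m (by omega)
        have hHpos : 0 < H i₀ := lt_of_le_of_lt (hGnn _) hi0
        have hiN : k + 1 + i₀ ≤ N := by
          by_contra hcon
          push Not at hcon
          have : H i₀ = 0 := bin_zero hcon
          linarith
        have hGm : G m = f (k - (m + 1) + 1) := by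
          simp only [hG]
          rw [if_pos (by omega)]
          congr 1
          omega
        have hGm1 : G i₀ = f (k - (m + 1)) := by
          simp only [hG]
          rw [if_pos hik, hm]
        have eG := bin_succ N r (k - (m + 1)) (by omega)
        have eH := bin_succ N r (k + 1 + m) (by omega)
        have hcast : ((k - (m + 1) : ℕ) : ℝ) = (k : ℝ) - m - 1 := by
          rw [Nat.cast_sub (by omega)]
          push_cast
          ring
        rw [hcast] at eG
        have hik' : (m : ℝ) + 1 ≤ k := by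
          have : m + 1 ≤ k := by omega
          exact_mod_cast this
        have hiN' : (k : ℝ) + 1 + m + 1 ≤ N := by
          have : k + 1 + m + 1 ≤ N := by omega
          exact_mod_cast this
        have hα : 0 < ((k : ℝ) + 2 + m) * (1 - r) := by (clear * - hr1; positivity)
        have hγ : 0 < ((k : ℝ) - m) * (1 - r) := mul_pos (by linarith only [h0, h1, hcast]) hq
        have hδ : 0 < ((N : ℝ) - k + m + 1) * r := mul_pos (by linarith) h0
        have eH' : H i₀ * (((k : ℝ) + 2 + m) * (1 - r)) = H m * (((N : ℝ) - k - 1 - m) * r) := by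
          rw [hm]
          simp only [hH, hf]
          rw [show k + 1 + (m + 1) = k + 1 + m + 1 by omega]
          push_cast at eH
          linear_combination eH
        have eG' : G m * (((k : ℝ) - m) * (1 - r)) = G i₀ * (((N : ℝ) - k + m + 1) * r) := by
          rw [hGm, hGm1]
          simp only [hf]
          linear_combination eG
        by_contra hneg
        push Not at hneg
        have hprod : ((N : ℝ) - k - 1 - m) * r * (((N : ℝ) - k + m + 1) * r) ≤
            ((k : ℝ) + 2 + m) * (1 - r) * (((k : ℝ) - m) * (1 - r)) := by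
          have : ((N : ℝ) - k - 1 - m) * r * (((N : ℝ) - k + m + 1) * r) -
            ((k : ℝ) + 2 + m) * (1 - r) * (((k : ℝ) - m) * (1 - r)) = ψ m := by
            simp only [hψ]
            ring
          linarith
        have key : H i₀ * ((((N : ℝ) - k + m + 1) * r) * (((k : ℝ) + 2 + m) * (1 - r))) ≤
            G i₀ * ((((N : ℝ) - k + m + 1) * r) * (((k : ℝ) + 2 + m) * (1 - r))) := by
          calc H i₀ * ((((N : ℝ) - k + m + 1) * r) * (((k : ℝ) + 2 + m) * (1 - r)))
              = H m * (((N : ℝ) - k - 1 - m) * r * (((N : ℝ) - k + m + 1) * r)) := by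
                linear_combination ((((N : ℝ) - k + m + 1) * r)) * eH'
            _ ≤ H m * (((k : ℝ) + 2 + m) * (1 - r) * (((k : ℝ) - m) * (1 - r))) :=
                mul_le_mul_of_nonneg_left hprod (hHnn m)
            _ ≤ G m * (((k : ℝ) + 2 + m) * (1 - r) * (((k : ℝ) - m) * (1 - r))) :=
                mul_le_mul_of_nonneg_right hHm (mul_pos hα hγ).le
            _ = _ := by linear_combination (((k : ℝ) + 2 + m) * (1 - r)) * eG'
        have := le_of_mul_le_mul_right key (mul_pos hδ hα)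
        linarith only [hi0, this]
      have hψall : ∀ i, m ≤ i → 0 ≤ ψ i := by
        intro i hi
        induction i, hi using Nat.le_induction with
        | base => exact hψ0
        | succ i _ ih => exact ih.trans (hψmono i)
      intro i hi
      induction i, hi using Nat.le_induction with
      | base => exact hi0.le
      | succ i hi ih => exact hstep i ih (hψall i (by omega))
    · intro i hi
      have : G i = 0 := by
        simp only [hG]
        rw [if_neg (by omega)]
      rw [this]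
      exact hHnn _
  have hsum : 0 ≤ ∑ i ∈ range M, ((2 * (i : ℝ) + 1) - (2 * (i₀ : ℝ) + 1)) * (H i - G i) := by
    apply Finset.sum_nonneg
    intro i _
    rcases lt_or_ge i i₀ with h | h
    · have h1 := hlt i h
      have h2 : (i : ℝ) ≤ i₀ := by exact_mod_cast h.le
      nlinarith
    · have h1 := hge i h
      have h2 : (i₀ : ℝ) ≤ i := by exact_mod_cast h
      nlinarith
  have hsplit : ∑ i ∈ range M, ((2 * (i : ℝ) + 1) - (2 * (i₀ : ℝ) + 1)) * (H i - G i) =
      ∑ i ∈ range M, (2 * (i : ℝ) + 1) * (H i - G i) -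
        (2 * (i₀ : ℝ) + 1) * ∑ i ∈ range M, (H i - G i) := by
    rw [Finset.mul_sum, ← Finset.sum_sub_distrib]
    refine Finset.sum_congr rfl fun i _ => by ring
  rw [hsplit, hS1, hS2] at hsum
  have hc : (0 : ℝ) < 2 * (i₀ : ℝ) + 1 := by positivity
  by_contra hcon
  push Not at hcon
  have : 0 < (2 * (i₀ : ℝ) + 1) * (1 - 2 * ∑ j ∈ range (k + 1), f j) :=
    mul_pos hc (by linarith only [hcon])
  linarith

end Med

namespace Med

/-- derivative of the binomial distribution function in the parameter -/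
theorem deriv_cdf (N : ℕ) (x : ℝ) : ∀ k m : ℕ, k + 1 + m = N →
    HasDerivAt (fun y : ℝ => ∑ j ∈ range (k + 1), bin N y j)
      (-(((m : ℝ) + 1) * (N.choose k : ℝ) * x ^ k * (1 - x) ^ m)) x
  | 0, m, h => by
    have h1 : HasDerivAt (fun y : ℝ => (1 - y) ^ N) ((N : ℝ) * (1 - x) ^ (N - 1) * (-1)) x := by
      have h2 : HasDerivAt (fun y : ℝ => 1 - y) (-1) x := by
        simpa using (hasDerivAt_id x).const_sub 1
      exact h2.pow N
    have h3 : (fun y : ℝ => ∑ j ∈ range (0 + 1), bin N y j) = fun y : ℝ => (1 - y) ^ N := by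
      funext y
      simp [bin]
    rw [h3]
    convert h1 using 1
    have h4 : N - 1 = m := by omega
    have h5 : (N : ℝ) = m + 1 := by
      have : N = m + 1 := by omega
      rw [this]
      push_cast
      ring
    rw [h4, h5]
    simp
  | k + 1, m, h => by
    have ih := deriv_cdf N x k (m + 1) (by omega)
    have h2 : HasDerivAt (fun y : ℝ => 1 - y) (-1) x := by
      simpa using (hasDerivAt_id x).const_sub 1
    have h3 : HasDerivAt (fun y : ℝ => bin N y (k + 1))
        ((N.choose (k + 1) : ℝ) * (((k + 1 : ℕ) : ℝ) * x ^ k) * (1 - x) ^ (N - (k + 1)) +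
          (N.choose (k + 1) : ℝ) * x ^ (k + 1) *
            (((N - (k + 1) : ℕ) : ℝ) * (1 - x) ^ (N - (k + 1) - 1) * (-1))) x := by
      unfold bin
      have h4 := ((hasDerivAt_pow (k + 1) x).const_mul (N.choose (k + 1) : ℝ)).mul
        (h2.pow (N - (k + 1)))
      exact h4
    have h5 : (fun y : ℝ => ∑ j ∈ range (k + 1 + 1), bin N y j) =
        fun y : ℝ => ∑ j ∈ range (k + 1), bin N y j + bin N y (k + 1) := by
      funext y
      rw [Finset.sum_range_succ]
    rw [h5]
    refine (ih.add h3).congr_deriv ?_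
    have h6 : N - (k + 1) = m + 1 := by omega
    have h7 : (N.choose (k + 1) : ℝ) * (k + 1) = (N.choose k : ℝ) * (m + 1 + 1) := by
      have := Nat.choose_succ_right_eq N k
      have h8 : N - k = m + 1 + 1 := by omega
      rw [h8] at this
      exact_mod_cast this
    rw [h6, show m + 1 - 1 = m by omega]
    push_cast
    linear_combination (x ^ k * (1 - x) ^ (m + 1)) * h7

/-- the ratio estimate -/
theorem ratio_lower (k m : ℕ) (r ξ δ : ℝ) (h0 : 0 < r) (hr : r < ξ) (hξ : ξ ≤ 1 / 2)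
    (hδ : ξ - r ≤ δ) (hk : ((k : ℝ) + m) * ξ ≤ k + 1 / 2) :
    r ^ k * (1 - r) ^ m * (1 - δ / r) ≤ ξ ^ k * (1 - ξ) ^ m := by
  have hξ0 : 0 < ξ := h0.trans hr
  have h1 : 0 < 1 - ξ := by linarith
  have h2 : 0 < 1 - r := by linarith
  have ha : 0 < ξ / r := div_pos hξ0 h0
  have hb : 0 < (1 - ξ) / (1 - r) := div_pos h1 h2
  set E := (k : ℝ) * Real.log (ξ / r) + (m : ℝ) * Real.log ((1 - ξ) / (1 - r)) with hE
  have e1 : ξ ^ k * (1 - ξ) ^ m = r ^ k * (1 - r) ^ m * Real.exp E := by
    rw [hE, Real.exp_add, Real.exp_nat_mul, Real.exp_nat_mul, Real.exp_log ha, Real.exp_log hb,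
      div_pow, div_pow]
    field_simp
  have l1 : 1 - r / ξ ≤ Real.log (ξ / r) := by
    have := Real.one_sub_inv_le_log_of_pos ha
    rwa [inv_div] at this
  have l2 : 1 - (1 - r) / (1 - ξ) ≤ Real.log ((1 - ξ) / (1 - r)) := by
    have := Real.one_sub_inv_le_log_of_pos hb
    rwa [inv_div] at this
  have l3 : (k : ℝ) * (1 - r / ξ) + (m : ℝ) * (1 - (1 - r) / (1 - ξ)) ≤ E := by
    rw [hE]
    exact add_le_add (mul_le_mul_of_nonneg_left l1 (Nat.cast_nonneg k))
      (mul_le_mul_of_nonneg_left l2 (Nat.cast_nonneg m))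
  have l4 : (k : ℝ) * (1 - r / ξ) + (m : ℝ) * (1 - (1 - r) / (1 - ξ)) =
      (ξ - r) * (k - (k + m) * ξ) / (ξ * (1 - ξ)) := by
    field_simp
    ring
  have l5 : - (δ / r) ≤ (ξ - r) * (k - (k + m) * ξ) / (ξ * (1 - ξ)) := by
    rw [le_div_iff₀ (mul_pos hξ0 h1)]
    have hδ0 : 0 < δ := by linarith only [hr, hδ]
    have l6 : -(1 / 2 : ℝ) * δ ≤ (ξ - r) * (k - (k + m) * ξ) := by
      have hx : -(1 / 2 : ℝ) ≤ k - (k + m) * ξ := by linarith only [hk]
      nlinarith only [hk, hr, hδ]
    have l7 : r * (1 / 2) ≤ ξ * (1 - ξ) := by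
      have : (1 / 2 : ℝ) ≤ 1 - ξ := by linarith only [hξ]
      exact mul_le_mul hr.le this (by norm_num) hξ0.le
    have l8 : (1 / 2 : ℝ) * δ ≤ δ / r * (ξ * (1 - ξ)) := by
      calc (1 / 2 : ℝ) * δ = δ / r * (r * (1 / 2)) := by field_simp
        _ ≤ _ := mul_le_mul_of_nonneg_left l7 (div_pos hδ0 h0).le
    linarith only [l6, l8]
  have l9 : 1 - δ / r ≤ Real.exp E := by
    have := Real.add_one_le_exp E
    linarith only [l3, l4, l5, this]
  rw [e1]
  exact mul_le_mul_of_nonneg_left l9 (by positivity)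

/-- the last inequality -/
theorem final_ineq (N k m : ℕ) (hN : N = k + 1 + m) (a r ξ δ : ℝ) (hr0 : 0 < r) (hq1 : 0 < 1 - r)
    (hδ0 : 0 ≤ δ)
    (hfac : 3 * a * (1 - r) ≤ δ * (m + 1) * (1 - δ / r))
    (hrat : r ^ k * (1 - r) ^ m * (1 - δ / r) ≤ ξ ^ k * (1 - ξ) ^ m) :
    3 * a * bin N r k ≤ δ * (((m : ℝ) + 1) * (N.choose k : ℝ) * ξ ^ k * (1 - ξ) ^ m) := by
  have hbin : bin N r k = (N.choose k : ℝ) * (r ^ k * (1 - r) ^ m) * (1 - r) := by
    unfold bin
    rw [show N - k = m + 1 by omega, pow_succ]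
    ring
  have hA : (0 : ℝ) < r ^ k * (1 - r) ^ m := by positivity
  rw [hbin]
  generalize r ^ k * (1 - r) ^ m = A at *
  have h1 : (0 : ℝ) ≤ (N.choose k : ℝ) := Nat.cast_nonneg _
  have e1 : 3 * a * ((N.choose k : ℝ) * A * (1 - r)) = (N.choose k : ℝ) * A * (3 * a * (1 - r)) := by
    ring
  have e2 : (N.choose k : ℝ) * A * (3 * a * (1 - r)) ≤
      (N.choose k : ℝ) * A * (δ * (m + 1) * (1 - δ / r)) :=
    mul_le_mul_of_nonneg_left hfac (mul_nonneg h1 hA.le)
  have e3 : (N.choose k : ℝ) * A * (δ * (m + 1) * (1 - δ / r)) =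
      (N.choose k : ℝ) * (δ * (m + 1)) * (A * (1 - δ / r)) := by ring
  have e4 : (N.choose k : ℝ) * (δ * (m + 1)) * (A * (1 - δ / r)) ≤
      (N.choose k : ℝ) * (δ * (m + 1)) * (ξ ^ k * (1 - ξ) ^ m) :=
    mul_le_mul_of_nonneg_left hrat (by (clear * - hδ0; positivity))
  have e5 : (N.choose k : ℝ) * (δ * (m + 1)) * (ξ ^ k * (1 - ξ) ^ m) =
      δ * (((m : ℝ) + 1) * (N.choose k : ℝ) * ξ ^ k * (1 - ξ) ^ m) := by ring
  linarith only [e2, e4]

theorem xi_bound (k m N : ℕ) (r ξ δ : ℝ) (hN : (k : ℝ) + m + 1 = N) (hξ : 0 ≤ ξ)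
    (hξ2 : ξ ≤ r + δ) (h : (k : ℝ) + 1 / 2 = N * (r + δ)) :
    ((k : ℝ) + m) * ξ ≤ k + 1 / 2 := by
  have h2 : (0 : ℝ) ≤ (k : ℝ) + m := by positivity
  have h3 := mul_le_mul_of_nonneg_left hξ2 h2
  have h4 : (k : ℝ) + m = N - 1 := by linarith
  rw [h4] at h3 ⊢
  nlinarith only [h, h3, hξ, hξ2]

end Med

open Med in
theorem median_even (a : ℝ) (ha : 0 < a) (ha4 : 4 * a ≤ 1) (n : ℕ) (hn : Even n) (k : ℕ)
    (hk : n * a - 1 / 2 ≤ k) : 1 / 2 ≤ cum (gf a (Multiset.replicate (n / 2) 2)) k := by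
  rw [cum_two]
  apply half_le _ _ (by linarith) (by linarith)
  obtain ⟨m, rfl⟩ := hn
  have : (m + m) / 2 = m := by omega
  rw [this]
  push_cast at hk
  linarith

open Med in
theorem median_odd (a : ℝ) (ha : 0 < a) (ha4 : 4 * a < 1) (η : ℝ) (hη : 0 < η) :
    ∃ N : ℕ, ∀ n ≥ N, Odd n → ∀ k : ℕ, n * a - 1 / 2 + η ≤ k →
      1 / 2 ≤ cum (gf a (3 ::ₘ Multiset.replicate ((n - 3) / 2) 2)) k := by
  set r := 2 * a with hr
  have hr0 : 0 < r := by linarith
  have hr2 : r < 1 / 2 := by linarith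
  set η' := min η 1 with hη'
  have hη'0 : 0 < η' := lt_min hη one_pos
  have hη'1 : η' ≤ 1 := min_le_right _ _
  have hη'2 : η' ≤ η := min_le_left _ _
  clear_value η'
  -- large N
  have t1 : Filter.Tendsto (fun N : ℕ => (3 : ℝ) / N) Filter.atTop (nhds 0) :=
    tendsto_const_div_atTop_nhds_zero_nat 3
  have t2 : Filter.Tendsto (fun N : ℕ => (3 : ℝ) / N / r) Filter.atTop (nhds 0) := by
    simpa using t1.div_const r
  have t3 : Filter.Tendsto (fun N : ℕ => (3 * a + η') * (1 - r - 3 / N) * (1 - 3 / N / r))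
      Filter.atTop (nhds ((3 * a + η') * (1 - r - 0) * (1 - 0))) :=
    (((tendsto_const_nhds.sub t1).const_mul (3 * a + η'))).mul (tendsto_const_nhds.sub t2)
  have hlim : 3 * a * (1 - r) < (3 * a + η') * (1 - r - 0) * (1 - 0) := by
    have : 0 < 1 - r := by linarith
    nlinarith only [ha, ha4, hη'0]
  have ev := ((t3.eventually (lt_mem_nhds hlim)).and ((t1.eventually (gt_mem_nhds
    (show (0 : ℝ) < 1 / 2 - r by linarith))).and ((t2.eventually (gt_mem_nhds
    (show (0 : ℝ) < 1 by norm_num))).and (Filter.eventually_ge_atTop 1))))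
  obtain ⟨N₀, hN₀⟩ := Filter.eventually_atTop.1 ev
  refine ⟨2 * N₀ + 3, fun n hn hodd k hk => ?_⟩
  obtain ⟨q, hq⟩ := hodd
  set N := (n - 3) / 2 with hN
  have hnN : n = 2 * N + 3 := by omega
  clear_value N
  have hNN₀ : N₀ ≤ N := by omega
  obtain ⟨g1, g2, g3, g4⟩ := hN₀ N hNN₀
  have hNpos : (0 : ℝ) < N := by
    have : (1 : ℝ) ≤ N := by exact_mod_cast g4
    linarith only [ha, ha4, this]
  rw [cum_three]
  -- monotone in k
  set P : ℕ → ℝ := fun k => ∑ j ∈ range (k + 1), bin N r j - 3 * a * bin N r k with hP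
  have hr1 : r ≤ 1 := by linarith only [ha, ha4]
  have hmono : Monotone P := by
    apply monotone_nat_of_le_succ
    intro j
    simp only [hP]
    rw [Finset.sum_range_succ _ (j + 1)]
    have b1 := bin_nonneg (N := N) hr0.le hr1 (j + 1)
    have b2 := bin_nonneg (N := N) hr0.le hr1 j
    have b3 : 0 ≤ 1 - 3 * a := by linarith only [ha, ha4]
    nlinarith only [b1, b2, b3, ha, mul_nonneg b3 b1, mul_nonneg ha.le b2]
  have hkn : (N : ℝ) * r + 3 * a - 1 / 2 + η' ≤ k := by
    rw [hnN] at hk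
    push_cast at hk
    rw [hr]
    linarith only [hk, hη'2]
  have hx0 : 0 ≤ (N : ℝ) * r + 3 * a - 1 / 2 + η' := by
    have e1 : 3 / (N : ℝ) / r < 1 := g3
    rw [div_div, div_lt_one (mul_pos hNpos hr0)] at e1
    linarith only [e1, ha, ha4, hη'0]
  set k₀ := ⌈(N : ℝ) * r + 3 * a - 1 / 2 + η'⌉₊ with hk₀
  have hk₀k : k₀ ≤ k := Nat.ceil_le.2 hkn
  have hk₀1 : (N : ℝ) * r + 3 * a - 1 / 2 + η' ≤ k₀ := Nat.le_ceil _
  have hk₀2 : (k₀ : ℝ) < (N : ℝ) * r + 3 * a - 1 / 2 + η' + 1 := Nat.ceil_lt_add_one hx0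
  have hPk : P k₀ ≤ P k := hmono hk₀k
  clear_value k₀
  suffices h : 1 / 2 ≤ P k₀ from h.trans hPk
  set δ := ((k₀ : ℝ) + 1 / 2) / N - r with hδ
  have hδN : δ * N = k₀ + 1 / 2 - N * r := by
    rw [hδ]
    field_simp
  clear_value δ
  have hδ1 : 3 * a + η' ≤ δ * N := by linarith only [hk₀1, hδN]
  have hδ2 : δ * N ≤ 3 := by linarith only [ha, ha4, hk₀2, hδN, hη'1]
  have hδ3 : δ ≤ 3 / N := by rwa [le_div_iff₀ hNpos]
  have hδ0 : 0 < δ := by
    by_contra hcon
    push Not at hcon
    nlinarith only [ha, hcon, hk₀1, hδN, hη'0]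
  have hr' : r + δ ≤ 1 / 2 := by linarith only [g2, hδ3]
  have hk₀N : k₀ < N := by
    have e1 : (k₀ : ℝ) + 1 / 2 = N * (r + δ) := by linarith only [hδN]
    have e2 : (k₀ : ℝ) < N := by nlinarith only [g2, hNpos, ha, hδ0, hδ3, hδN]
    exact_mod_cast e2
  obtain ⟨m, hm⟩ : ∃ m, k₀ + 1 + m = N := ⟨N - (k₀ + 1), by omega⟩
  have hmN : (m : ℝ) + 1 = N - k₀ := by
    rw [← hm]
    push_cast
    ring
  -- mean value theorem
  obtain ⟨ξ, ⟨hξ1, hξ2⟩, hξ⟩ := exists_hasDerivAt_eq_slope
    (fun y : ℝ => ∑ j ∈ range (k₀ + 1), bin N y j)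
    (fun x => -(((m : ℝ) + 1) * (N.choose k₀ : ℝ) * x ^ k₀ * (1 - x) ^ m))
    (show r < r + δ by linarith only [hδ0])
    (fun x _ => (deriv_cdf N x k₀ m hm).continuousAt.continuousWithinAt)
    (fun x _ => deriv_cdf N x k₀ m hm)
  have hhalf := half_le N (r + δ) (by linarith only [ha, hξ1, hξ2]) hr' k₀ (by linarith only [hδN])
  have hmv : ∑ j ∈ range (k₀ + 1), bin N r j = ∑ j ∈ range (k₀ + 1), bin N (r + δ) j +
      δ * (((m : ℝ) + 1) * (N.choose k₀ : ℝ) * ξ ^ k₀ * (1 - ξ) ^ m) := by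
    have e1 : r + δ - r = δ := by ring
    simp only [e1] at hξ
    rw [eq_div_iff hδ0.ne'] at hξ
    linarith only [hξ]
  have hk1 : ((k₀ : ℝ) + m) * ξ ≤ k₀ + 1 / 2 :=
    xi_bound k₀ m N r ξ δ (by linarith only [hmN]) (by linarith only [ha, hξ1]) hξ2.le (by linarith only [hδN])
  have hrat := ratio_lower k₀ m r ξ δ hr0 hξ1 (by linarith only [g2, hδ3, hξ2]) (by linarith only [hξ2]) hk1
  -- final inequality
  have hq1 : 0 < 1 - r := by linarith only [g2, ha, hδ3, hξ1, hξ2]
  have hfac : 3 * a * (1 - r) ≤ δ * (m + 1) * (1 - δ / r) := by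
    have f1 : (1 - r - 3 / N) * N ≤ (m : ℝ) + 1 := by
      rw [hmN]
      have : (1 - r - 3 / (N : ℝ)) * N = N - N * r - 3 := by
        field_simp
      rw [this]
      linarith only [g2, ha, hk₀2, hδ3, hη'1, hξ1, hξ2]
    have f2 : 1 - 3 / (N : ℝ) / r ≤ 1 - δ / r := by
      have := div_le_div_of_nonneg_right hδ3 hr0.le
      linarith only [this]
    have f3 : 0 ≤ 1 - 3 / (N : ℝ) / r := by linarith only [g3]
    have f4 : 0 ≤ 1 - r - 3 / (N : ℝ) := by linarith only [g2, ha, hδ3, hξ1, hξ2]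
    calc 3 * a * (1 - r) ≤ (3 * a + η') * (1 - r - 3 / N) * (1 - 3 / N / r) := g1.le
      _ ≤ (δ * N) * (1 - r - 3 / N) * (1 - 3 / N / r) :=
          mul_le_mul_of_nonneg_right (mul_le_mul_of_nonneg_right hδ1 f4) f3
      _ = δ * ((1 - r - 3 / N) * N) * (1 - 3 / N / r) := by ring
      _ ≤ δ * (m + 1) * (1 - 3 / N / r) :=
          mul_le_mul_of_nonneg_right (mul_le_mul_of_nonneg_left f1 hδ0.le) f3
      _ ≤ δ * (m + 1) * (1 - δ / r) :=
          mul_le_mul_of_nonneg_left f2 (by positivity)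
  have hfin := final_ineq N k₀ m (by omega) a r ξ δ hr0 hq1 hδ0.le hfac hrat
  simp only [hP]
  rw [hmv]
  linarith only [hfin, hhalf]

end Pool.Agent.Lib.MP_eb8f1d_pr
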