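import Pool.Agent.Lib.MP_eb8f1d_pr.Basic

/-!
# Moments of the number of unseen colours
-/

set_option autoImplicit false

namespace Pool.Agent.Lib.MP_eb8f1d_pr

open Finset

variable {n : ℕ}

theorem seen_add_U (c : Coloring n) (ω : Fin n → Bool) : seen c ω + U c ω = n := by
  have h : univ.filter (Unseen c ω) = (univ.image (vis c ω))ᶜ := by
    ext v
    simp only [mem_filter, mem_univ, true_and, mem_compl, mem_image, not_exists, Unseen]
  unfold seen U
  rw [h, card_add_card_compl, Fintype.card_fin]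

/-- the colours shown by the coins other than `e` -/
def rest (c : Coloring n) (ω : Fin n → Bool) (e : Fin n) : Finset (Fin n) :=
  (univ.erase e).image (vis c ω)

theorem image_vis (c : Coloring n) (ω : Fin n → Bool) (e : Fin n) :
    univ.image (vis c ω) = insert (vis c ω e) (rest c ω e) := by
  unfold rest
  rw [← Finset.image_insert, Finset.insert_erase (Finset.mem_univ e)]

theorem rest_flp (c : Coloring n) (ω : Fin n → Bool) (e : Fin n) :
    rest c (flp e ω) e = rest c ω e := by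
  unfold rest
  refine Finset.image_congr fun i hi => ?_
  have hie : i ≠ e := by simpa using hi
  simp only [vis, flp_ne hie]

theorem U_flp (c : Coloring n) (ω : Fin n → Bool) (e : Fin n) :
    |(U c (flp e ω) : ℤ) - (U c ω : ℤ)| ≤ 1 := by
  have h1 := seen_add_U c ω
  have h2 := seen_add_U c (flp e ω)
  unfold seen at h1 h2
  rw [image_vis c ω e] at h1
  rw [image_vis c (flp e ω) e, rest_flp] at h2
  have a1 := Finset.card_le_card (Finset.subset_insert (vis c ω e) (rest c ω e))
  have a2 := Finset.card_insert_le (vis c ω e) (rest c ω e)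
  have b1 := Finset.card_le_card (Finset.subset_insert (vis c (flp e ω) e) (rest c ω e))
  have b2 := Finset.card_insert_le (vis c (flp e ω) e) (rest c ω e)
  rw [abs_le]
  constructor <;> omega

/-- `U` as a sum of indicators -/
theorem U_eq_sum (c : Coloring n) (ω : Fin n → Bool) :
    (U c ω : ℝ) = ∑ v, if Unseen c ω v then (1 : ℝ) else 0 := by
  unfold U
  rw [Finset.card_filter]
  push_cast
  rfl

/-- indicator of `Unseen` as a product -/
theorem unseen_prod (c : Coloring n) (ω : Fin n → Bool) (v : Fin n) :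
    (if Unseen c ω v then (1 : ℝ) else 0) =
      ∏ i, (if (if ω i then c.h i else c.t i) ≠ v then (1 : ℝ) else 0) := by
  by_cases h : Unseen c ω v
  · rw [if_pos h]
    symm
    refine Finset.prod_eq_one fun i _ => ?_
    exact if_pos (h i)
  · rw [if_neg h]
    unfold Unseen at h
    push Not at h
    obtain ⟨i, hi⟩ := h
    symm
    refine Finset.prod_eq_zero (Finset.mem_univ i) ?_
    exact if_neg (not_not.2 hi)

theorem Ex_unseen (p : ℝ) (c : Coloring n) (v : Fin n) :
    Ex p (fun ω => if Unseen c ω v then (1 : ℝ) else 0) = wgt p (da c v) (db c v) := by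
  have h1 : Ex p (fun ω => if Unseen c ω v then (1 : ℝ) else 0) =
      Ex p (fun ω => ∏ i, (fun (i : Fin n) (b : Bool) =>
        (if (if b then c.h i else c.t i) ≠ v then (1 : ℝ) else 0)) i (ω i)) :=
    Ex_congr fun ω => unseen_prod c ω v
  rw [h1]
  refine (Ex_prod p (fun (i : Fin n) (b : Bool) =>
    (if (if b then c.h i else c.t i) ≠ v then (1 : ℝ) else 0))).trans ?_
  have h2 : ∀ i : Fin n, (p * (if (if (true : Bool) then c.h i else c.t i) ≠ v then (1 : ℝ) else 0) +
      (1 - p) * (if (if (false : Bool) then c.h i else c.t i) ≠ v then (1 : ℝ) else 0)) =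
      (if c.h i = v then (1 - p) else 1) * (if c.t i = v then p else 1) := by
    intro i
    have hne := c.ne i
    by_cases hh : c.h i = v
    · have ht : c.t i ≠ v := fun h => hne (hh.trans h.symm)
      simp [hh, ht]
    · by_cases ht : c.t i = v
      · simp [hh, ht]
      · simp [hh, ht]
  rw [Finset.prod_congr rfl fun i _ => h2 i, Finset.prod_mul_distrib]
  unfold wgt da db
  congr 1
  · rw [Finset.prod_ite]; simp
  · rw [Finset.prod_ite]; simp

theorem Ex_U (p : ℝ) (c : Coloring n) : Ex p (fun ω => (U c ω : ℝ)) = EU p c := by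
  have h : Ex p (fun ω => (U c ω : ℝ)) =
      Ex p (fun ω => ∑ v, if Unseen c ω v then (1 : ℝ) else 0) :=
    Ex_congr fun ω => U_eq_sum c ω
  rw [h, Ex_sum]
  unfold EU
  exact Finset.sum_congr rfl fun v _ => Ex_unseen p c v

theorem wgt_nonneg {p : ℝ} (h0 : 0 ≤ p) (h1 : p ≤ 1) (a b : ℕ) : 0 ≤ wgt p a b :=
  mul_nonneg (pow_nonneg (by linarith) _) (pow_nonneg h0 _)

theorem wgt_le_one {p : ℝ} (h0 : 0 ≤ p) (h1 : p ≤ 1) (a b : ℕ) : wgt p a b ≤ 1 :=
  mul_le_one₀ (pow_le_one₀ (by linarith) (by linarith)) (pow_nonneg h0 _) (pow_le_one₀ h0 h1)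

theorem Ex_unseen_two {p : ℝ} (h0 : 0 ≤ p) (h1 : p ≤ 1) (c : Coloring n) (u v : Fin n)
    (huv : u ≠ v) :
    Ex p (fun ω => (if Unseen c ω u then (1 : ℝ) else 0) *
      (if Unseen c ω v then (1 : ℝ) else 0)) ≤
      wgt p (da c u) (db c u) * wgt p (da c v) (db c v) := by
  rw [← Ex_unseen p c u, ← Ex_unseen p c v]
  have e1 : ∀ v : Fin n, Ex p (fun ω => if Unseen c ω v then (1 : ℝ) else 0) =
      ∏ i, (p * (if c.h i ≠ v then (1 : ℝ) else 0) + (1 - p) *
        (if c.t i ≠ v then (1 : ℝ) else 0)) := by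
    intro v
    have h1 : Ex p (fun ω => if Unseen c ω v then (1 : ℝ) else 0) =
      Ex p (fun ω => ∏ i, (fun (i : Fin n) (b : Bool) =>
        (if (if b then c.h i else c.t i) ≠ v then (1 : ℝ) else 0)) i (ω i)) :=
      Ex_congr fun ω => unseen_prod c ω v
    rw [h1]
    refine (Ex_prod p (fun (i : Fin n) (b : Bool) =>
      (if (if b then c.h i else c.t i) ≠ v then (1 : ℝ) else 0))).trans ?_
    refine Finset.prod_congr rfl fun i _ => ?_
    simp
  have e2 : Ex p (fun ω => (if Unseen c ω u then (1 : ℝ) else 0) *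
      (if Unseen c ω v then (1 : ℝ) else 0)) =
      ∏ i, (p * ((if c.h i ≠ u then (1 : ℝ) else 0) * (if c.h i ≠ v then (1 : ℝ) else 0)) +
        (1 - p) * ((if c.t i ≠ u then (1 : ℝ) else 0) * (if c.t i ≠ v then (1 : ℝ) else 0))) := by
    have h1 : Ex p (fun ω => (if Unseen c ω u then (1 : ℝ) else 0) *
        (if Unseen c ω v then (1 : ℝ) else 0)) =
      Ex p (fun ω => ∏ i, (fun (i : Fin n) (b : Bool) =>
        (if (if b then c.h i else c.t i) ≠ u then (1 : ℝ) else 0) *
        (if (if b then c.h i else c.t i) ≠ v then (1 : ℝ) else 0)) i (ω i)) := by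
      refine Ex_congr fun ω => ?_
      rw [unseen_prod c ω u, unseen_prod c ω v, ← Finset.prod_mul_distrib]
    rw [h1]
    refine (Ex_prod p (fun (i : Fin n) (b : Bool) =>
      (if (if b then c.h i else c.t i) ≠ u then (1 : ℝ) else 0) *
        (if (if b then c.h i else c.t i) ≠ v then (1 : ℝ) else 0))).trans ?_
    refine Finset.prod_congr rfl fun i _ => ?_
    simp
  rw [e2, e1 u, e1 v, ← Finset.prod_mul_distrib]
  refine Finset.prod_le_prod ?_ ?_
  · intro i _
    have hq : 0 ≤ 1 - p := by linarith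
    refine add_nonneg (mul_nonneg h0 (mul_nonneg ?_ ?_)) (mul_nonneg hq (mul_nonneg ?_ ?_)) <;>
      split_ifs <;> norm_num
  · intro i _
    have hne := c.ne i
    have hq : 0 ≤ p * (1 - p) := mul_nonneg h0 (by linarith)
    by_cases a1 : c.h i = u <;> by_cases a2 : c.h i = v <;> by_cases a3 : c.t i = u <;>
      by_cases a4 : c.t i = v
    all_goals first
      | (exfalso; exact huv (a1.symm.trans a2))
      | (exfalso; exact huv (a3.symm.trans a4))
      | (exfalso; exact hne (a1.trans a3.symm))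
      | (exfalso; exact hne (a2.trans a4.symm))
      | (simp only [a1, a2, a3, a4, huv, huv.symm, ne_eq, not_true, not_false_iff, if_true,
          if_false]; nlinarith)

theorem Ex_U_sq {p : ℝ} (h0 : 0 ≤ p) (h1 : p ≤ 1) (c : Coloring n) :
    Ex p (fun ω => (U c ω : ℝ) ^ 2) ≤ EU p c ^ 2 + EU p c := by
  have e1 : Ex p (fun ω => (U c ω : ℝ) ^ 2) =
      ∑ u, ∑ v, Ex p (fun ω => (if Unseen c ω u then (1 : ℝ) else 0) *
        (if Unseen c ω v then (1 : ℝ) else 0)) := by
    rw [← Finset.sum_congr rfl fun u _ => Ex_sum univ p (fun (v : Fin n) ω =>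
      (if Unseen c ω u then (1 : ℝ) else 0) * (if Unseen c ω v then (1 : ℝ) else 0))]
    rw [← Ex_sum]
    refine Ex_congr fun ω => ?_
    rw [U_eq_sum, sq, Finset.sum_mul_sum]
  rw [e1]
  have e2 : EU p c ^ 2 + EU p c = ∑ u, ∑ v, (wgt p (da c u) (db c u) * wgt p (da c v) (db c v) +
      if u = v then wgt p (da c u) (db c u) else 0) := by
    simp only [Finset.sum_add_distrib]
    simp only [Finset.sum_ite_eq, Finset.mem_univ, if_true]
    rw [sq, EU, Finset.sum_mul_sum]
  rw [e2]
  refine Finset.sum_le_sum fun u _ => Finset.sum_le_sum fun v _ => ?_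
  by_cases huv : u = v
  · subst huv
    simp only [if_true]
    have h2 : Ex p (fun ω => (if Unseen c ω u then (1 : ℝ) else 0) *
        (if Unseen c ω u then (1 : ℝ) else 0)) =
        Ex p (fun ω => (if Unseen c ω u then (1 : ℝ) else 0)) :=
      Ex_congr fun ω => by split_ifs <;> norm_num
    rw [h2, Ex_unseen]
    have := wgt_nonneg h0 h1 (da c u) (db c u)
    nlinarith
  · simp only [huv, if_false, add_zero]
    exact Ex_unseen_two h0 h1 c u v huv

theorem EU_nonneg {p : ℝ} (h0 : 0 ≤ p) (h1 : p ≤ 1) (c : Coloring n) : 0 ≤ EU p c :=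
  Finset.sum_nonneg fun _ _ => wgt_nonneg h0 h1 _ _

theorem EU_le_card {p : ℝ} (h0 : 0 ≤ p) (h1 : p ≤ 1) (c : Coloring n) : EU p c ≤ n := by
  unfold EU
  refine (Finset.sum_le_card_nsmul _ _ 1 fun v _ => wgt_le_one h0 h1 _ _).trans ?_
  simp

theorem EU_le {p : ℝ} (h0 : 0 ≤ p) (h1 : p ≤ 1) (c : Coloring n) (k : ℕ)
    (h : 1 / 2 ≤ Pr p (fun ω => U c ω ≤ k)) : EU p c ≤ k + Real.sqrt (2 * n) := by
  classical
  by_contra hcon
  have hlt : (k : ℝ) + Real.sqrt (2 * n) < EU p c := not_le.1 hcon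
  have hs : 0 ≤ Real.sqrt (2 * n) := Real.sqrt_nonneg _
  -- Chebyshev
  have h2 : (EU p c - k) ^ 2 * Pr p (fun ω => U c ω ≤ k) ≤
      Ex p (fun ω => ((U c ω : ℝ) - EU p c) ^ 2) := by
    unfold Pr
    rw [← Ex_const_mul]
    refine Ex_mono h0 h1 fun ω => ?_
    by_cases hU : U c ω ≤ k
    · have hU' : (U c ω : ℝ) ≤ k := by exact_mod_cast hU
      simp only [hU, if_true, mul_one]
      nlinarith
    · simp only [hU, if_false, mul_zero]
      positivity
  have h3 : Ex p (fun ω => ((U c ω : ℝ) - EU p c) ^ 2) ≤ EU p c := by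
    have e : Ex p (fun ω => ((U c ω : ℝ) - EU p c) ^ 2) =
        Ex p (fun ω => (U c ω : ℝ) ^ 2) - EU p c ^ 2 := by
      have e1 : Ex p (fun ω => ((U c ω : ℝ) - EU p c) ^ 2) =
          Ex p (fun ω => ((U c ω : ℝ) ^ 2 - (2 * EU p c) * (U c ω : ℝ)) + EU p c ^ 2) :=
        Ex_congr fun ω => by ring
      rw [e1, Ex_add, Ex_sub, Ex_const_mul, Ex_U, Ex_const]
      ring
    rw [e]
    have := Ex_U_sq h0 h1 c
    linarith
  have h4 := EU_le_card h0 h1 c
  have h5 : Real.sqrt (2 * n) ^ 2 = 2 * n := Real.sq_sqrt (by positivity)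
  have h6 : 2 * (n : ℝ) < (EU p c - k) ^ 2 := by nlinarith
  nlinarith

end Pool.Agent.Lib.MP_eb8f1d_pr
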