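import Pool.Agent.Lib.MP_eb8f1d_pr.Basic

/-! Module EB-K: the law of the number of unseen colours of a permutation colouring. -/

set_option autoImplicit false

namespace Pool.Agent.Lib.MP_eb8f1d_pr

open Finset Polynomial

variable {n : ℕ}

/-! ### transfer matrix -/

/-- transfer matrix -/
noncomputable def kT (p x : ℝ) : Matrix Bool Bool ℝ :=
  Matrix.of (fun b b' => bw p b' * (if b = true ∧ b' = false then x else 1))

theorem kT_sq (p x : ℝ) : kT p x * kT p x = kT p x - (p * (1 - p) * (1 - x)) • (1 : Matrix Bool Bool ℝ) := by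
  ext b b'
  cases b <;> cases b' <;> simp [kT, Matrix.mul_apply] <;> ring

theorem kT_pow (p x : ℝ) (m : ℕ) :
    kT p x ^ (m + 2) = kT p x ^ (m + 1) - (p * (1 - p) * (1 - x)) • kT p x ^ m := by
  have h1 : kT p x ^ (m + 2) = kT p x ^ m * (kT p x * kT p x) := by
    rw [pow_add, pow_two]
  rw [h1, kT_sq, mul_sub, ← pow_succ, Matrix.mul_smul, mul_one]

theorem kT_trace (p x : ℝ) (L : ℕ) :
    (kT p x ^ L).trace = (cyc (p * (1 - p)) L).eval x := by
  induction L using Nat.strong_induction_on with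
  | _ L ih =>
    match L with
    | 0 =>
      simp [cyc, Matrix.trace]
    | 1 =>
      simp [cyc, Matrix.trace, kT]
    | (m + 2) =>
      rw [kT_pow, Matrix.trace_sub, Matrix.trace_smul, ih (m + 1) (by omega), ih m (by omega)]
      simp only [cyc, uu, eval_sub, eval_mul, eval_C, eval_one, eval_X, smul_eq_mul]

/-- path sums -/
noncomputable def kA (t : Bool → Bool → ℝ) (m : ℕ) (b b' : Bool) : ℝ :=
  ∑ v : Fin (m + 1) → Bool, if v 0 = b ∧ v (Fin.last m) = b' then
    ∏ j : Fin m, t (v j.castSucc) (v j.succ) else 0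

theorem kA_eq (t : Bool → Bool → ℝ) (m : ℕ) (b b' : Bool) :
    kA t m b b' = (Matrix.of t ^ m) b b' := by
  induction m generalizing b with
  | zero =>
    unfold kA
    rw [pow_zero, Matrix.one_apply]
    rw [← (Equiv.funUnique (Fin 1) Bool).symm.sum_comp]
    simp only [Fin.last_zero, Finset.univ_eq_empty, Finset.prod_empty]
    rcases b with _ | _ <;> rcases b' with _ | _ <;> simp
  | succ m ih =>
    rw [pow_succ', Matrix.mul_apply]
    simp only [← ih]
    unfold kA
    rw [← (Fin.consEquiv (fun _ : Fin (m + 2) => Bool)).sum_comp, Fintype.sum_prod_type]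
    simp only [Fin.consEquiv_apply]
    have h1 : ∀ (c : Bool) (w : Fin (m + 1) → Bool),
        (if (Fin.cons c w : Fin (m + 2) → Bool) 0 = b ∧
            (Fin.cons c w : Fin (m + 2) → Bool) (Fin.last (m + 1)) = b' then
          ∏ j : Fin (m + 1), t ((Fin.cons c w : Fin (m + 2) → Bool) j.castSucc)
            ((Fin.cons c w : Fin (m + 2) → Bool) j.succ) else 0) =
        if c = b then (if w (Fin.last m) = b' then
          t b (w 0) * ∏ j : Fin m, t (w j.castSucc) (w j.succ) else 0) else 0 := by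
      intro c w
      rw [← Fin.succ_last, Fin.cons_zero, Fin.cons_succ, Fin.prod_univ_succ]
      simp only [Fin.castSucc_zero, Fin.cons_zero, Fin.cons_succ, ← Fin.succ_castSucc]
      by_cases hc : c = b
      · subst hc
        simp
      · simp [hc]
    simp only [h1]
    rw [Finset.sum_comm]
    simp only [Finset.sum_ite_eq', Finset.mem_univ, if_true, Finset.mul_sum]
    rw [Finset.sum_comm]
    refine Finset.sum_congr rfl (fun w _ => ?_)
    rw [Finset.sum_eq_single (w 0)]
    · by_cases h : w (Fin.last m) = b' <;> simp [h]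
    · intro c _ hc
      rw [if_neg (fun h => hc h.1.symm), mul_zero]
    · intro h
      exact absurd (Finset.mem_univ _) h

/-- cyclic sums -/
theorem cyc_sum (t : Bool → Bool → ℝ) (m : ℕ) :
    ∑ w : Fin (m + 1) → Bool, ∏ j : Fin (m + 1), t (w j) (w (j + 1)) =
      (Matrix.of t ^ (m + 1)).trace := by
  rw [pow_succ, Matrix.trace]
  simp only [Matrix.diag_apply, Matrix.mul_apply, ← kA_eq, Matrix.of_apply]
  have h1 : ∀ w : Fin (m + 1) → Bool, ∏ j : Fin (m + 1), t (w j) (w (j + 1)) =
      ∑ b : Bool, ∑ b' : Bool, (if w 0 = b ∧ w (Fin.last m) = b' then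
        ∏ j : Fin m, t (w j.castSucc) (w j.succ) else 0) * t b' b := by
    intro w
    rw [Fin.prod_univ_castSucc, Fin.last_add_one]
    have h2 : ∀ j : Fin m, (j.castSucc + 1 : Fin (m + 1)) = j.succ := fun j => by
      simp
    simp only [h2]
    rcases h0 : w 0 with _ | _ <;> rcases h3 : w (Fin.last m) with _ | _ <;>
      simp
  rw [Finset.sum_congr rfl (fun w _ => h1 w), Finset.sum_comm]
  refine Finset.sum_congr rfl (fun b _ => ?_)
  rw [Finset.sum_comm]
  refine Finset.sum_congr rfl (fun b' _ => ?_)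
  unfold kA
  rw [Finset.sum_mul]

/-! ### product functional of a permutation -/

/-- `x` to the number of descents along `σ` -/
noncomputable def kF {ι : Type*} [Fintype ι] (x : ℝ) (σ : Equiv.Perm ι) (ω : ι → Bool) : ℝ :=
  ∏ i, (if ω i = true ∧ ω (σ i) = false then x else 1)

theorem kF_one {ι : Type*} [Fintype ι] (x : ℝ) (ω : ι → Bool) :
    kF x (1 : Equiv.Perm ι) ω = 1 := by
  unfold kF
  refine Finset.prod_eq_one (fun i _ => ?_)
  rw [if_neg]
  rintro ⟨h1, h2⟩
  rw [Equiv.Perm.one_apply] at h2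
  rw [h1] at h2
  exact Bool.noConfusion h2

theorem kF_mul {ι : Type*} [Fintype ι] (x : ℝ) (σ τ : Equiv.Perm ι)
    (h : σ.Disjoint τ) (ω : ι → Bool) :
    kF x (σ * τ) ω = kF x σ ω * kF x τ ω := by
  unfold kF
  rw [← Finset.prod_mul_distrib]
  refine Finset.prod_congr rfl (fun i _ => ?_)
  have hno : ¬ (ω i = true ∧ ω i = false) := by
    rintro ⟨h1, h2⟩
    rw [h1] at h2
    exact Bool.noConfusion h2
  rcases h i with hi | hi
  · have h1 : (σ * τ) i = τ i := by
      rw [h.commute.eq, Equiv.Perm.mul_apply, hi]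
    rw [h1, hi, if_neg hno, one_mul]
  · have h1 : (σ * τ) i = σ i := by
      rw [Equiv.Perm.mul_apply, hi]
    rw [h1, hi, if_neg hno, mul_one]

theorem kF_dep {ι : Type*} [Fintype ι] [DecidableEq ι] (x : ℝ) (σ : Equiv.Perm ι) (S : Finset ι)
    (hS : σ.support ⊆ S) : DependsOn' (kF x σ) S := by
  intro ω ω' h
  unfold kF
  refine Finset.prod_congr rfl (fun i _ => ?_)
  by_cases hi : i ∈ σ.support
  · rw [h i (hS hi), h (σ i) (hS (Equiv.Perm.apply_mem_support.mpr hi))]
  · rw [Equiv.Perm.notMem_support] at hi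
    rw [hi]
    cases ω i <;> cases ω' i <;> simp

theorem kF_cycle {ι : Type*} [Fintype ι] [DecidableEq ι] (p x : ℝ) (σ : Equiv.Perm ι)
    (hσ : σ.IsCycle) :
    Ex p (kF x σ) = (cyc (p * (1 - p)) σ.support.card).eval x := by
  classical
  obtain ⟨m, hm⟩ : ∃ m, σ.support.card = m + 1 := by
    have := hσ.two_le_card_support
    exact ⟨σ.support.card - 1, by omega⟩
  obtain ⟨x0, hx0, hx1⟩ := hσ
  have hcyc : σ.IsCycle := ⟨x0, hx0, hx1⟩
  have hord : orderOf σ = m + 1 := by rw [hcyc.orderOf, hm]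
  let e : Fin (m + 1) → ι := fun j => (σ ^ (j : ℕ)) x0
  have he : Function.Injective e := by
    intro i j hij
    have h1 : (σ ^ (i : ℕ)) x0 = (σ ^ (j : ℕ)) x0 := hij
    have h2 : σ ^ (i : ℕ) = σ ^ (j : ℕ) := by
      exact (hcyc.pow_eq_pow_iff).mpr ⟨x0, hx0, h1⟩
    have h3 := pow_inj_mod.mp h2
    rw [hord, Nat.mod_eq_of_lt i.isLt, Nat.mod_eq_of_lt j.isLt] at h3
    exact Fin.ext h3
  have hsucc : ∀ j, σ (e j) = e (j + 1) := by
    intro j
    show σ ((σ ^ (j : ℕ)) x0) = (σ ^ ((j + 1 : Fin (m + 1)) : ℕ)) x0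
    rw [← Equiv.Perm.mul_apply, ← pow_succ']
    congr 1
    rw [pow_inj_mod, hord, Fin.val_add]
    rcases m with _ | m
    · simp
    · simp
  have himg : univ.image e = σ.support := by
    apply Finset.eq_of_subset_of_card_le
    · intro i hi
      obtain ⟨j, -, rfl⟩ := Finset.mem_image.mp hi
      show (σ ^ (j : ℕ)) x0 ∈ σ.support
      rw [Equiv.Perm.pow_apply_mem_support, Equiv.Perm.mem_support]
      exact hx0
    · rw [Finset.card_image_of_injective _ he, Finset.card_univ, Fintype.card_fin, hm]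
  have hF : ∀ ω : ι → Bool, kF x σ ω =
      (fun w : Fin (m + 1) → Bool => ∏ j, (if w j = true ∧ w (j + 1) = false then x else 1))
        (fun k => ω (e k)) := by
    intro ω
    show kF x σ ω = ∏ j, (if ω (e j) = true ∧ ω (e (j + 1)) = false then x else 1)
    unfold kF
    rw [← Finset.prod_subset (Finset.subset_univ σ.support), ← himg,
      Finset.prod_image (fun a _ b _ h => he h)]
    · refine Finset.prod_congr rfl (fun j _ => ?_)
      rw [hsucc]
    · intro i _ hi
      rw [Equiv.Perm.notMem_support] at hi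
      rw [hi]
      cases ω i <;> simp
  rw [Ex_congr hF]
  refine (Ex_comp_injective p e he (fun w : Fin (m + 1) → Bool =>
    ∏ j, (if w j = true ∧ w (j + 1) = false then x else 1))).trans ?_
  rw [hm, ← kT_trace]
  unfold kT
  rw [← cyc_sum]
  unfold Ex
  refine Finset.sum_congr rfl (fun w _ => ?_)
  have h1 : wt p w = ∏ j : Fin (m + 1), bw p (w (j + 1)) := by
    unfold wt
    exact (Equiv.prod_comp (Equiv.addRight (1 : Fin (m + 1))) (fun j => bw p (w j))).symm
  rw [h1, ← Finset.prod_mul_distrib]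

theorem Ex_kF {ι : Type*} [Fintype ι] [DecidableEq ι] (p x : ℝ) (σ : Equiv.Perm ι) :
    Ex p (kF x σ) = (gf (p * (1 - p)) σ.cycleType).eval x := by
  classical
  induction σ using Equiv.Perm.cycle_induction_on with
  | base_one =>
    rw [Ex_congr (g := fun _ => 1) (fun ω => kF_one x ω), Ex_one, Equiv.Perm.cycleType_one]
    simp [gf]
  | base_cycles σ hσ =>
    rw [kF_cycle p x σ hσ, hσ.cycleType]
    simp [gf]
  | induction_disjoint σ τ hd hσ h1 h2 =>
    rw [Ex_congr (fun ω => kF_mul x σ τ hd ω),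
      Ex_mul_of_dependsOn p σ.support _ _ (kF_dep x σ _ (Finset.Subset.refl _))
        (kF_dep x τ _ ?_), h1, h2, hd.cycleType_mul]
    · simp [gf]
    · intro i hi
      rw [Finset.mem_compl]
      intro hi'
      rw [Equiv.Perm.mem_support] at hi hi'
      rcases hd i with h | h
      · exact hi' h
      · exact hi h

/-- number of descents along `σ` -/
def kN {ι : Type*} [Fintype ι] (σ : Equiv.Perm ι) (ω : ι → Bool) : ℕ :=
  (univ.filter (fun i => ω i = true ∧ ω (σ i) = false)).card

theorem kF_eq {ι : Type*} [Fintype ι] (x : ℝ) (σ : Equiv.Perm ι) (ω : ι → Bool) :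
    kF x σ ω = x ^ kN σ ω := by
  unfold kF kN
  rw [Finset.prod_ite, Finset.prod_const, Finset.prod_const_one, mul_one]

theorem Pr_kN {ι : Type*} [Fintype ι] [DecidableEq ι] (p : ℝ) (σ : Equiv.Perm ι) (k : ℕ) :
    Pr p (fun ω => kN σ ω ≤ k) = cum (gf (p * (1 - p)) σ.cycleType) k := by
  classical
  have hP : (∑ ω : ι → Bool, C (wt p ω) * (X : ℝ[X]) ^ kN σ ω) =
      gf (p * (1 - p)) σ.cycleType := by
    apply Polynomial.funext
    intro x
    rw [← Ex_kF]
    simp only [eval_finsetSum, eval_mul, eval_C, eval_pow, eval_X]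
    unfold Ex
    refine Finset.sum_congr rfl (fun ω _ => ?_)
    rw [kF_eq]
  rw [← hP, Pr_eq]
  unfold cum Ex
  simp only [Polynomial.finsetSum_coeff, Polynomial.coeff_C_mul, Polynomial.coeff_X_pow]
  rw [Finset.sum_comm]
  refine Finset.sum_congr rfl (fun ω _ => ?_)
  rw [← Finset.mul_sum]
  congr 1
  rw [Finset.sum_ite_eq']
  simp

/-! ### the colourings -/

theorem U_eq_kN (c : Coloring n) (hE tE : Equiv.Perm (Fin n)) (hh : ∀ i, c.h i = hE i)
    (ht : ∀ i, c.t i = tE i) (ω : Fin n → Bool) :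
    U c ω = kN (hE⁻¹ * tE) ω := by
  have hun : ∀ v, Unseen c ω v ↔ (ω (tE⁻¹ v) = true ∧ ω (hE⁻¹ v) = false) := by
    intro v
    constructor
    · intro h
      constructor
      · have h1 := h (tE⁻¹ v)
        by_contra h2
        apply h1
        unfold vis
        rw [if_neg h2, ht]
        simp
      · have h1 := h (hE⁻¹ v)
        rcases hb : ω (hE⁻¹ v) with _ | _
        · rfl
        · exfalso
          apply h1
          unfold vis
          rw [if_pos hb, hh]
          simp
    · rintro ⟨h1, h2⟩ i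
      unfold vis
      by_cases hi : ω i = true
      · rw [if_pos hi, hh]
        intro h3
        rw [← h3] at h2
        simp only [Equiv.Perm.inv_def, Equiv.symm_apply_apply] at h2
        rw [hi] at h2
        exact Bool.noConfusion h2
      · rw [if_neg hi, ht]
        intro h3
        rw [← h3] at h1
        simp only [Equiv.Perm.inv_def, Equiv.symm_apply_apply] at h1
        exact hi h1
  unfold U kN
  symm
  refine Finset.card_bij (fun i _ => tE i) ?_ ?_ ?_
  · intro i hi
    rw [Finset.mem_filter] at hi ⊢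
    refine ⟨Finset.mem_univ _, ?_⟩
    rw [hun]
    simpa using hi.2
  · intro i _ j _ hij
    exact tE.injective hij
  · intro v hv
    rw [Finset.mem_filter] at hv
    have h1 := (hun v).mp hv.2
    refine ⟨tE⁻¹ v, ?_, by simp⟩
    rw [Finset.mem_filter]
    refine ⟨Finset.mem_univ _, ?_⟩
    simpa using h1

theorem Pr_ofPerm (p : ℝ) (σ : Equiv.Perm (Fin n)) (hσ : ∀ i, σ i ≠ i) (k : ℕ) :
    Pr p (fun ω => U (ofPerm σ hσ) ω ≤ k) = cum (gf (p * (1 - p)) σ.cycleType) k := by
  rw [← Pr_kN]
  refine Pr_congr (fun ω => ?_)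
  rw [U_eq_kN (ofPerm σ hσ) 1 σ (fun i => rfl) (fun i => rfl) ω]
  simp

theorem Pr_isPerm (p : ℝ) (c : Coloring n) (hc : IsPerm c) :
    ∃ s : Multiset ℕ, (∀ L ∈ s, 2 ≤ L) ∧ s.sum = n ∧
      ∀ k, Pr p (fun ω => U c ω ≤ k) = cum (gf (p * (1 - p)) s) k := by
  classical
  have hsurj : Function.Surjective c.h := by
    intro v
    have h1 := (hc v).1
    unfold da at h1
    obtain ⟨i, hi⟩ := Finset.card_pos.mp
      (by rw [h1]; norm_num : 0 < (univ.filter (fun i => c.h i = v)).card)
    exact ⟨i, (Finset.mem_filter.mp hi).2⟩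
  have tsurj : Function.Surjective c.t := by
    intro v
    have h1 := (hc v).2
    unfold db at h1
    obtain ⟨i, hi⟩ := Finset.card_pos.mp
      (by rw [h1]; norm_num : 0 < (univ.filter (fun i => c.t i = v)).card)
    exact ⟨i, (Finset.mem_filter.mp hi).2⟩
  let hE : Equiv.Perm (Fin n) := Equiv.ofBijective c.h (Finite.surjective_iff_bijective.mp hsurj)
  let tE : Equiv.Perm (Fin n) := Equiv.ofBijective c.t (Finite.surjective_iff_bijective.mp tsurj)
  have hne : ∀ i, (hE⁻¹ * tE) i ≠ i := by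
    intro i h
    rw [Equiv.Perm.mul_apply, Equiv.Perm.inv_eq_iff_eq] at h
    exact c.ne i h.symm
  refine ⟨(hE⁻¹ * tE).cycleType, fun L hL => Equiv.Perm.two_le_of_mem_cycleType hL, ?_, ?_⟩
  · rw [Equiv.Perm.sum_cycleType]
    have : (hE⁻¹ * tE).support = univ := by
      apply Finset.eq_univ_of_forall
      intro i
      rw [Equiv.Perm.mem_support]
      exact hne i
    rw [this, Finset.card_univ, Fintype.card_fin]
  · intro k
    rw [← Pr_kN]
    refine Pr_congr (fun ω => ?_)
    rw [U_eq_kN c hE tE (fun i => rfl) (fun i => rfl) ω]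

end Pool.Agent.Lib.MP_eb8f1d_pr
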