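import Pool.Agent.Lib.MP_eb8f1d_pr.AllSeen
import Pool.Agent.Lib.MP_eb8f1d_pr.PermGF
import Pool.Agent.Lib.MP_eb8f1d_pr.Medians
import Pool.Agent.Lib.MP_eb8f1d_pr.Moments

/-!
# All colours visible, or all but one: optimal colourings
-/

namespace Pool.Agent.Lib.MP_eb8f1d_pr

open Finset

variable {n : ℕ}

/-- the largest probability that all colours are visible -/
noncomputable def pAll (n : ℕ) (p : ℝ) : ℝ :=
  max p (1 - p) ^ (n % 2) * (1 - 2 * (p * (1 - p))) ^ (n / 2)

/-- Opposite pairs of coins (heads colour `i`, tails colour `σ i`, where `σ` is a product of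
transpositions) and, outside the pairs, one coin `e` whose more likely side has a colour which is
on no other coin. -/
structure PairsAndOne (p : ℝ) (c : Coloring n) (σ : Equiv.Perm (Fin n)) (e : Fin n) : Prop where
  type : σ.cycleType = Multiset.replicate ((n - 1) / 2) 2
  fix : σ e = e
  pairs : ∀ i, i ≠ e → c.h i = i ∧ c.t i = σ i
  one : (1 / 2 ≤ p ∧ c.h e = e) ∨ (p ≤ 1 / 2 ∧ c.t e = e)

namespace AllSeen

theorem seen_iff (c : Coloring n) (ω : Fin n → Bool) :
    seen c ω = n ↔ Function.Surjective (vis c ω) := by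
  unfold seen
  constructor
  · intro h
    have h1 : univ.image (vis c ω) = univ := by
      apply Finset.eq_univ_of_card
      rw [h, Fintype.card_fin]
    intro v
    have h2 : v ∈ univ.image (vis c ω) := by
      rw [h1]
      exact Finset.mem_univ v
    obtain ⟨i, -, hi⟩ := Finset.mem_image.1 h2
    exact ⟨i, hi⟩
  · intro h
    rw [Finset.image_univ_of_surjective h, Finset.card_univ, Fintype.card_fin]

/-- the two sides of a coin -/
def side (c : Coloring n) (i : Fin n) (s : Bool) : Fin n := if s then c.h i else c.t i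

theorem Pr_eq_WW (p : ℝ) (c : Coloring n) (r : ℝ) (hr : r ≠ 0) :
    Pr p (fun ω => seen c ω = n) = r ^ n * WW (side c) (fun _ s => bw p s / r) := by
  classical
  rw [Pr_eq, Ex, WW, Finset.mul_sum]
  refine Finset.sum_congr (by ext; simp) fun ω _ => ?_
  have h1 : (seen c ω = n) ↔ Function.Surjective (fun i => side c i (ω i)) := seen_iff c ω
  by_cases h : seen c ω = n
  · rw [if_pos h, if_pos (h1.1 h), mul_one, wt]
    rw [Finset.prod_div_distrib, Finset.prod_const, Finset.card_univ, Fintype.card_fin]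
    field_simp
  · rw [if_neg h, if_neg (fun h' => h (h1.2 h')), mul_zero, mul_zero]

theorem sq_sum (p : ℝ) : p ^ 2 + (1 - p) ^ 2 = 1 - 2 * (p * (1 - p)) := by ring

theorem Pr_all_le {p : ℝ} (h0 : 0 < p) (h1 : p < 1) (c : Coloring n) :
    Pr p (fun ω => seen c ω = n) ≤ pAll n p := by
  set P : ℝ := 1 - 2 * (p * (1 - p)) with hP
  have hPpos : 0 < P := by rw [hP]; nlinarith [sq_nonneg (2 * p - 1)]
  set r : ℝ := Real.sqrt P with hr
  have hrpos : 0 < r := Real.sqrt_pos.2 hPpos
  have hr2 : r ^ 2 = P := Real.sq_sqrt hPpos.le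
  set mx : ℝ := max p (1 - p) with hmx
  have hmx1 : p ≤ mx := le_max_left _ _
  have hmx2 : 1 - p ≤ mx := le_max_right _ _
  have hmx0 : 0 < mx := lt_of_lt_of_le h0 hmx1
  have hmx3 : mx ≤ r := by
    apply Real.le_sqrt_of_sq_le
    rcases max_choice p (1 - p) with h | h
    · rw [hmx, h, hP]
      nlinarith [sq_nonneg (1 - p)]
    · rw [hmx, h, hP]
      nlinarith [sq_nonneg p]
  rw [Pr_eq_WW p c r hrpos.ne']
  have hG : Gd (mx / r) (side c) (fun _ s => bw p s / r) (fun _ => 1) := by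
    refine ⟨?_, ?_, ?_, ?_⟩
    · intro i s
      exact div_nonneg (bw_nonneg h0.le h1.le s) hrpos.le
    · intro i hi
      exact absurd hi (by decide)
    · intro i _
      refine ⟨?_, ?_⟩
      · intro s
        apply div_le_div_of_nonneg_right _ hrpos.le
        cases s
        · rw [bw_false]; exact hmx2
        · rw [bw_true]; exact hmx1
      · simp only [bw_true, bw_false, div_pow]
        rw [← add_div, hr2, sq_sum, div_self hPpos.ne']
    · intro i _ h
      exact absurd h (c.ne i)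
  have hle := WW_le (div_nonneg hmx0.le hrpos.le) ((div_le_one hrpos).2 hmx3) n (Fin n) (Fin n)
    (side c) _ _ (Fintype.card_fin n) (Fintype.card_fin n) hG
  have hs : ∑ _i : Fin n, 1 = n := by simp
  rw [hs] at hle
  refine (mul_le_mul_of_nonneg_left hle (pow_nonneg hrpos.le n)).trans (le_of_eq ?_)
  unfold bd pAll
  rw [← hP, ← hmx]
  rcases Nat.even_or_odd n with he | ho
  · obtain ⟨m, hm⟩ := he
    have hm' : n = 2 * m := by omega
    have e1 : n / 2 = m := by omega
    have e2 : n % 2 = 0 := by omega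
    rw [if_pos ⟨m, hm⟩, e1, e2, hm', pow_mul, hr2]
    ring
  · obtain ⟨m, hm⟩ := ho
    have e1 : n / 2 = m := by omega
    have e2 : n % 2 = 1 := by omega
    rw [if_neg (by rw [Nat.not_even_iff_odd]; exact ⟨m, hm⟩), e1, e2, hm, pow_succ, pow_mul, hr2]
    field_simp

theorem Pr_false' (p : ℝ) : Pr (ι := Fin n) p (fun _ => False) = 0 := by
  classical
  rw [Pr_eq]
  simp

theorem Pr_true' (p : ℝ) : Pr (ι := Fin n) p (fun _ => True) = 1 := by
  classical
  rw [Pr_eq]
  simp

theorem seen_le' (c : Coloring n) (ω : Fin n → Bool) : seen c ω ≤ n := by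
  have := seen_add_U c ω
  omega

/-- the set defining the median is an initial segment -/
theorem le_med_iff {p : ℝ} (h0 : 0 ≤ p) (h1 : p ≤ 1) (c : Coloring n) (m : ℕ) :
    m ≤ med p c ↔ 1 / 2 ≤ Pr p (fun ω => m ≤ seen c ω) := by
  set A : Set ℕ := {m : ℕ | 1 / 2 ≤ Pr p (fun ω => m ≤ seen c ω)} with hA
  have hbdd : BddAbove A := by
    refine ⟨n, fun m hm => ?_⟩
    by_contra hlt
    push Not at hlt
    have : Pr p (fun ω => m ≤ seen c ω) = 0 := by
      rw [← Pr_false' (n := n) p]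
      refine Pr_congr fun ω => ?_
      have := seen_le' c ω
      constructor
      · intro h'; omega
      · intro h'; exact h'.elim
    simp only [hA, Set.mem_ofPred_eq, this] at hm
    norm_num at hm
  have hne : A.Nonempty := by
    refine ⟨0, ?_⟩
    have : Pr p (fun ω => 0 ≤ seen c ω) = 1 := by
      rw [← Pr_true' (n := n) p]
      exact Pr_congr fun ω => by simp
    simp only [hA, Set.mem_ofPred_eq, this]
    norm_num
  have hmem : med p c ∈ A := Nat.sSup_mem hne hbdd
  constructor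
  · intro h
    exact le_trans hmem (Pr_mono h0 h1 fun ω hω => h.trans hω)
  · intro h
    exact le_csSup hbdd h

theorem med_le_n {p : ℝ} (h0 : 0 ≤ p) (h1 : p ≤ 1) (c : Coloring n) : med p c ≤ n := by
  by_contra hlt
  push Not at hlt
  have h := (le_med_iff h0 h1 c (n + 1)).1 hlt
  have : Pr p (fun ω => n + 1 ≤ seen c ω) = 0 := by
    rw [← Pr_false' (n := n) p]
    refine Pr_congr fun ω => ?_
    have := seen_le' c ω
    constructor
    · intro h'; omega
    · intro h'; exact h'.elim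
  rw [this] at h
  norm_num at h

theorem med_le_M {p : ℝ} (h0 : 0 ≤ p) (h1 : p ≤ 1) (c : Coloring n) : med p c ≤ M n p := by
  unfold M
  exact le_csSup ⟨n, by rintro _ ⟨c, rfl⟩; exact med_le_n h0 h1 c⟩ ⟨c, rfl⟩

theorem M_attained {p : ℝ} (h0 : 0 ≤ p) (h1 : p ≤ 1) (c₀ : Coloring n) :
    ∃ c : Coloring n, med p c = M n p := by
  have : M n p ∈ Set.range (fun c : Coloring n => med p c) :=
    Nat.sSup_mem ⟨_, c₀, rfl⟩ ⟨n, by rintro _ ⟨c, rfl⟩; exact med_le_n h0 h1 c⟩
  exact this

theorem M_le_n {p : ℝ} (h0 : 0 ≤ p) (h1 : p ≤ 1) (c₀ : Coloring n) : M n p ≤ n := by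
  obtain ⟨c, hc⟩ := M_attained h0 h1 c₀
  rw [← hc]
  exact med_le_n h0 h1 c

theorem n_le_med_iff {p : ℝ} (h0 : 0 ≤ p) (h1 : p ≤ 1) (c : Coloring n) :
    n ≤ med p c ↔ 1 / 2 ≤ Pr p (fun ω => seen c ω = n) := by
  rw [le_med_iff h0 h1]
  have : Pr p (fun ω => n ≤ seen c ω) = Pr p (fun ω => seen c ω = n) := by
    refine Pr_congr fun ω => ?_
    have := seen_le' c ω
    constructor
    · intro h; omega
    · intro h; omega
  rw [this]

theorem pred_le_med_iff {p : ℝ} (h0 : 0 ≤ p) (h1 : p ≤ 1) (hn : 1 ≤ n) (c : Coloring n) :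
    n - 1 ≤ med p c ↔ 1 / 2 ≤ Pr p (fun ω => U c ω ≤ 1) := by
  rw [le_med_iff h0 h1]
  have : Pr p (fun ω => n - 1 ≤ seen c ω) = Pr p (fun ω => U c ω ≤ 1) := by
    refine Pr_congr fun ω => ?_
    have := seen_add_U c ω
    constructor
    · intro h; omega
    · intro h; omega
  rw [this]

theorem seen_eq_iff_U (p : ℝ) (c : Coloring n) :
    Pr p (fun ω => seen c ω = n) = Pr p (fun ω => U c ω ≤ 0) := by
  refine Pr_congr fun ω => ?_
  have := seen_add_U c ω
  constructor
  · intro h; omega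
  · intro h; omega

/-- opposite pairs -/
theorem pairs_eq {p : ℝ} (he : Even n) (σ : Equiv.Perm (Fin n)) (hσ : ∀ i, σ i ≠ i)
    (ht : σ.cycleType = Multiset.replicate (n / 2) 2) :
    Pr p (fun ω => seen (ofPerm σ hσ) ω = n) = pAll n p := by
  rw [seen_eq_iff_U, Pr_ofPerm, ht, Med.cum_two]
  have e2 : n % 2 = 0 := Nat.even_iff.1 he
  simp only [zero_add, Finset.sum_range_one, pAll, e2, pow_zero, one_mul, bin, Nat.choose_zero_right,
    Nat.cast_one, Nat.sub_zero]

theorem Ex_coin (p : ℝ) (e : Fin n) (b : Bool) :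
    Ex p (fun ω : Fin n → Bool => if ω e = b then 1 else 0) = bw p b := by
  have h1 : ∀ ω : Fin n → Bool, (if ω e = b then (1 : ℝ) else 0) =
      ∏ i, (fun (i : Fin n) (x : Bool) => if i = e then (if x = b then (1 : ℝ) else 0) else 1) i (ω i) := by
    intro ω
    rw [Finset.prod_eq_single e]
    · simp
    · intro i _ hi
      simp [hi]
    · intro h
      exact absurd (Finset.mem_univ _) h
  rw [Ex_congr h1, Ex_prod p (fun (i : Fin n) (x : Bool) =>
    if i = e then (if x = b then (1 : ℝ) else 0) else 1), Finset.prod_eq_single e]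
  · cases b <;> simp
  · intro i _ hi
    simp [hi]
  · intro h
    exact absurd (Finset.mem_univ _) h

theorem pendant_ge {p : ℝ} (h0 : 0 < p) (h1 : p < 1) (ho : Odd n) (c : Coloring n)
    (σ : Equiv.Perm (Fin n)) (e : Fin n) (h : PairsAndOne p c σ e) :
    pAll n p ≤ Pr p (fun ω => seen c ω = n) := by
  classical
  obtain ⟨b, hb, hbe⟩ : ∃ b : Bool, bw p b = max p (1 - p) ∧ side c e b = e := by
    rcases h.one with ⟨h2, h3⟩ | ⟨h2, h3⟩
    · exact ⟨true, by rw [bw_true, max_eq_left (by linarith)], h3⟩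
    · exact ⟨false, by rw [bw_false, max_eq_right (by linarith)], h3⟩
  have hE : Ex p (fun ω : Fin n → Bool => kF 0 σ ω * (if ω e = b then 1 else 0)) = pAll n p := by
    rw [Ex_mul_of_dependsOn p σ.support _ _ (kF_dep 0 σ _ (Finset.Subset.refl _)), Ex_kF, Ex_coin,
      hb, h.type]
    · obtain ⟨m, hm⟩ := ho
      have e1 : n / 2 = m := by omega
      have e2 : n % 2 = 1 := by omega
      have e3 : (n - 1) / 2 = m := by omega
      unfold gf pAll
      rw [Multiset.map_replicate, Multiset.prod_replicate, Med.cyc_two, e1, e2, e3]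
      simp
      ring
    · intro ω ω' hω
      have he : e ∈ (σ.support)ᶜ := by
        rw [Finset.mem_compl, Equiv.Perm.mem_support, not_not]
        exact h.fix
      show (if ω e = b then (1 : ℝ) else 0) = if ω' e = b then 1 else 0
      rw [hω e he]
  rw [← hE, Pr_eq]
  refine Ex_mono h0.le h1.le fun ω => ?_
  by_cases hcond : kN σ ω = 0 ∧ ω e = b
  · have hs : seen c ω = n := by
      rw [seen_iff]
      have hno : ∀ i, ¬ (ω i = true ∧ ω (σ i) = false) := by
        intro i hi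
        have : i ∈ univ.filter (fun i => ω i = true ∧ ω (σ i) = false) := by
          rw [Finset.mem_filter]
          exact ⟨Finset.mem_univ _, hi⟩
        have h5 := hcond.1
        unfold kN at h5
        rw [Finset.card_eq_zero] at h5
        rw [h5] at this
        exact absurd this (Finset.notMem_empty _)
      intro v
      by_cases hv : v = e
      · refine ⟨e, ?_⟩
        show side c e (ω e) = v
        rw [hcond.2, hbe, hv]
      · by_cases hωv : ω v = true
        · refine ⟨v, ?_⟩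
          unfold vis
          rw [if_pos hωv]
          exact (h.pairs v hv).1
        · have hωv' : ω v = false := by simpa using hωv
          have hu : σ.symm v ≠ e := by
            intro hu
            apply hv
            rw [← h.fix, ← hu, Equiv.apply_symm_apply]
          have hωu : ω (σ.symm v) ≠ true := by
            intro hωu
            exact hno (σ.symm v) ⟨hωu, by rw [Equiv.apply_symm_apply]; exact hωv'⟩
          refine ⟨σ.symm v, ?_⟩
          unfold vis
          rw [if_neg hωu, (h.pairs _ hu).2, Equiv.apply_symm_apply]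
    rw [if_pos hs, kF_eq, hcond.1, pow_zero, if_pos hcond.2, mul_one]
  · have hz : kF 0 σ ω * (if ω e = b then (1 : ℝ) else 0) = 0 := by
      by_cases h5 : ω e = b
      · have h6 : kN σ ω ≠ 0 := fun h6 => hcond ⟨h6, h5⟩
        rw [kF_eq, zero_pow h6, zero_mul]
      · rw [if_neg h5, mul_zero]
    rw [hz]
    split_ifs <;> norm_num

theorem exists_perm (n : ℕ) (m : Multiset ℕ) (hm : m.sum = n) (h2 : ∀ a ∈ m, 2 ≤ a) :
    ∃ σ : Equiv.Perm (Fin n), (∀ i, σ i ≠ i) ∧ σ.cycleType = m := by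
  classical
  obtain ⟨σ, hσ⟩ := (Equiv.Perm.exists_with_cycleType_iff (α := Fin n) (m := m)).2
    ⟨by rw [hm, Fintype.card_fin], h2⟩
  refine ⟨σ, fun i hi => ?_, hσ⟩
  have h3 := σ.sum_cycleType
  rw [hσ, hm] at h3
  have h4 : σ.support = univ := by
    apply Finset.eq_univ_of_card
    rw [← h3, Fintype.card_fin]
  have h5 : i ∈ σ.support := by
    rw [h4]
    exact Finset.mem_univ i
  rw [Equiv.Perm.mem_support] at h5
  exact h5 hi

theorem exists_pendant (hn : 2 ≤ n) (ho : Odd n) (p : ℝ) :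
    ∃ (c : Coloring n) (σ : Equiv.Perm (Fin n)) (e : Fin n), PairsAndOne p c σ e := by
  classical
  obtain ⟨m, hm⟩ := ho
  obtain ⟨σ, hσ⟩ := (Equiv.Perm.exists_with_cycleType_iff (α := Fin n)
    (m := Multiset.replicate ((n - 1) / 2) 2)).2
    ⟨by rw [Multiset.sum_replicate, Fintype.card_fin, smul_eq_mul]; omega,
      fun a ha => (Multiset.eq_of_mem_replicate ha).ge⟩
  have h3 := σ.sum_cycleType
  rw [hσ, Multiset.sum_replicate, smul_eq_mul] at h3
  have h4 : ∃ e, e ∉ σ.support := by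
    by_contra hne
    push Not at hne
    have h5 : σ.support = univ := Finset.eq_univ_of_forall hne
    rw [h5, Finset.card_univ, Fintype.card_fin] at h3
    omega
  obtain ⟨e, he⟩ := h4
  have hfix : σ e = e := by
    rw [Equiv.Perm.mem_support, not_not] at he
    exact he
  have huniq : ∀ i, i ≠ e → σ i ≠ i := by
    intro i hi hfi
    have h6 : σ.support ⊆ (univ.erase e).erase i := by
      intro j hj
      rw [Equiv.Perm.mem_support] at hj
      rw [Finset.mem_erase, Finset.mem_erase]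
      refine ⟨?_, ?_, Finset.mem_univ _⟩
      · rintro rfl; exact hj hfi
      · rintro rfl; exact hj hfix
    have h7 := Finset.card_le_card h6
    rw [Finset.card_erase_of_mem (Finset.mem_erase.2 ⟨hi, Finset.mem_univ _⟩),
      Finset.card_erase_of_mem (Finset.mem_univ _), Finset.card_univ, Fintype.card_fin] at h7
    omega
  obtain ⟨z, hz⟩ : ∃ z : Fin n, z ≠ e := by
    have : Nontrivial (Fin n) := Fin.nontrivial_iff_two_le.2 hn
    exact exists_ne e
  by_cases hp : 1 / 2 ≤ p
  · refine ⟨⟨id, fun i => if i = e then z else σ i, fun i => ?_⟩, σ, e, hσ, hfix, ?_, ?_⟩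
    · by_cases hi : i = e
      · rw [if_pos hi, hi]; exact hz.symm
      · rw [if_neg hi]; exact (huniq i hi).symm
    · intro i hi
      exact ⟨rfl, if_neg hi⟩
    · exact Or.inl ⟨hp, rfl⟩
  · refine ⟨⟨fun i => if i = e then z else i, fun i => σ i, fun i => ?_⟩, σ, e, hσ, hfix, ?_, ?_⟩
    · by_cases hi : i = e
      · rw [if_pos hi, hi, hfix]; exact hz
      · rw [if_neg hi]; exact (huniq i hi).symm
    · intro i hi
      exact ⟨if_neg hi, rfl⟩
    · exact Or.inr ⟨by linarith, hfix⟩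

theorem M_eq_n_iff (hn : 2 ≤ n) {p : ℝ} (h0 : 0 < p) (h1 : p < 1) :
    M n p = n ↔ 1 / 2 ≤ pAll n p := by
  rcases Nat.even_or_odd n with he | ho
  · obtain ⟨σ, hσ, ht⟩ := exists_perm n (Multiset.replicate (n / 2) 2)
      (by rw [Multiset.sum_replicate, smul_eq_mul]; obtain ⟨m, hm⟩ := he; omega)
      (fun a ha => (Multiset.eq_of_mem_replicate ha).ge)
    constructor
    · intro h
      obtain ⟨c, hc⟩ := M_attained h0.le h1.le (ofPerm σ hσ)
      have h3 := (n_le_med_iff h0.le h1.le c).1 (by rw [hc, h])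
      exact h3.trans (Pr_all_le h0 h1 c)
    · intro h
      rw [← pairs_eq he σ hσ ht] at h
      have h3 := (n_le_med_iff h0.le h1.le _).2 h
      exact le_antisymm (M_le_n h0.le h1.le (ofPerm σ hσ)) (h3.trans (med_le_M h0.le h1.le _))
  · obtain ⟨c₀, σ, e, hc₀⟩ := exists_pendant hn ho p
    constructor
    · intro h
      obtain ⟨c, hc⟩ := M_attained h0.le h1.le c₀
      have h3 := (n_le_med_iff h0.le h1.le c).1 (by rw [hc, h])
      exact h3.trans (Pr_all_le h0 h1 c)
    · intro h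
      have h3 := (n_le_med_iff h0.le h1.le _).2 (h.trans (pendant_ge h0 h1 ho c₀ σ e hc₀))
      exact le_antisymm (M_le_n h0.le h1.le c₀) (h3.trans (med_le_M h0.le h1.le _))

/-! ### all but one colour visible -/

theorem bcdf_zero (N : ℕ) (r : ℝ) : bcdf N r 0 = 0 := by simp [bcdf]

theorem bcdf_one (N : ℕ) (r : ℝ) : bcdf N r 1 = (1 - r) ^ N := by simp [bcdf, bin]

theorem bcdf_two (N : ℕ) (r : ℝ) : bcdf N r 2 = (1 - r) ^ N + N * r * (1 - r) ^ (N - 1) := by
  simp [bcdf, Finset.sum_range_succ, bin]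

theorem pairs_U1 {p : ℝ} (σ : Equiv.Perm (Fin n)) (hσ : ∀ i, σ i ≠ i)
    (ht : σ.cycleType = Multiset.replicate (n / 2) 2) :
    Pr p (fun ω => U (ofPerm σ hσ) ω ≤ 1) = F2 n (p * (1 - p)) 1 := by
  rw [Pr_ofPerm, ht, Med.cum_two]
  rfl

theorem tri_U1 {p : ℝ} (σ : Equiv.Perm (Fin n)) (hσ : ∀ i, σ i ≠ i)
    (ht : σ.cycleType = 3 ::ₘ Multiset.replicate ((n - 3) / 2) 2) :
    Pr p (fun ω => U (ofPerm σ hσ) ω ≤ 1) = F3 n (p * (1 - p)) 1 := by
  rw [Pr_ofPerm, ht, Med.cum_three]
  simp only [F3, bcdf, Finset.sum_range_succ, Finset.sum_range_zero]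
  ring

theorem tri_U0 {p : ℝ} (σ : Equiv.Perm (Fin n)) (hσ : ∀ i, σ i ≠ i)
    (ht : σ.cycleType = 3 ::ₘ Multiset.replicate ((n - 3) / 2) 2) :
    Pr p (fun ω => seen (ofPerm σ hσ) ω = n) =
      (1 - 3 * (p * (1 - p))) * (1 - 2 * (p * (1 - p))) ^ ((n - 3) / 2) := by
  rw [seen_eq_iff_U, Pr_ofPerm, ht, Med.cum_three]
  simp only [zero_add, Finset.sum_range_one, bin, Nat.choose_zero_right, Nat.cast_one, pow_zero,
    Nat.sub_zero]
  ring

theorem quarter {p : ℝ} (h0 : 0 < p) (h1 : p < 1) :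
    0 < p * (1 - p) ∧ p * (1 - p) ≤ 1 / 4 :=
  ⟨mul_pos h0 (by linarith), by nlinarith [sq_nonneg (2 * p - 1)]⟩

theorem F2_small {n : ℕ} (hn : 2 ≤ n) (he : Even n) (h6 : n ≤ 6) {a : ℝ} (h0 : 0 < a)
    (h1 : a ≤ 1 / 4) : 1 / 2 ≤ F2 n a 1 := by
  unfold F2
  rw [show (1 + 1 : ℕ) = 2 from rfl, bcdf_two]
  obtain ⟨m, hm⟩ := he
  have hm' : m = 1 ∨ m = 2 ∨ m = 3 := by omega
  rcases hm' with rfl | rfl | rfl
  · rw [hm]
    norm_num
  · rw [hm]
    norm_num
    nlinarith
  · rw [hm]
    norm_num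
    nlinarith [mul_nonneg (show (0 : ℝ) ≤ 1 / 2 - 2 * a by linarith)
      (show (0 : ℝ) ≤ 1 + 2 * (2 * a) - 2 * (2 * a) ^ 2 by nlinarith)]

theorem F3_small {n : ℕ} (hn : 2 ≤ n) (ho : Odd n) (h6 : n ≤ 6) {a : ℝ} (h0 : 0 < a)
    (h1 : a ≤ 1 / 4) : 1 / 2 ≤ F3 n a 1 := by
  unfold F3
  rw [show (1 + 1 : ℕ) = 2 from rfl, bcdf_two, bcdf_one]
  obtain ⟨m, hm⟩ := ho
  have hm' : m = 1 ∨ m = 2 := by omega
  rcases hm' with rfl | rfl
  · rw [hm]
    norm_num
  · rw [hm]
    norm_num
    nlinarith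

end AllSeen

end Pool.Agent.Lib.MP_eb8f1d_pr
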