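import Pool.Agent.Lib.MP_eb8f1d_pr.AllSeenMain

/-!
# The region `n p (1 - p) ≤ 3 / 2`
-/

namespace Pool.Agent.Lib.MP_eb8f1d_pr

open Finset

variable {n : ℕ}

namespace AllSeen

theorem F2_region {n : ℕ} {a : ℝ} (he : Even n) (h0 : 0 < a) (h1 : a ≤ 1 / 4)
    (hna : n * a ≤ 3 / 2) : 1 / 2 ≤ F2 n a 1 := by
  obtain ⟨m, hm⟩ := he
  have e1 : n / 2 = m := by omega
  have h2 := Med.half_le m (2 * a) (by linarith) (by linarith) 1 (by
    rw [hm] at hna
    push_cast at hna ⊢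
    linarith)
  unfold F2
  rw [e1]
  exact h2

theorem anti (K : ℕ) (a b : ℝ) (ha : 0 ≤ a) (hab : a ≤ b) (hb : b ≤ 1 / 4) :
    (1 - 2 * b) ^ K * (1 + 2 * b * K - 6 * b ^ 2 * (K + 1)) ≤
      (1 - 2 * a) ^ K * (1 + 2 * a * K - 6 * a ^ 2 * (K + 1)) := by
  rcases Nat.eq_zero_or_pos K with hK | hK
  · subst hK
    simp
    nlinarith
  obtain ⟨J, rfl⟩ : ∃ J, K = J + 1 := ⟨K - 1, by omega⟩
  set G : ℝ → ℝ := fun x => (1 - 2 * x) ^ (J + 1) *
    (1 + 2 * x * ((J + 1 : ℕ) : ℝ) - 6 * x ^ 2 * (((J + 1 : ℕ) : ℝ) + 1)) with hG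
  have hder : ∀ x, HasDerivAt G ((1 - 2 * x) ^ J * (4 * x * ((J : ℝ) + 2) *
      (3 * x * ((J : ℝ) + 3) - ((J : ℝ) + 4)))) x := by
    intro x
    have d1 : HasDerivAt (fun x : ℝ => 1 - 2 * x) (-2) x := by
      have := ((hasDerivAt_id x).const_mul 2).const_sub 1
      simpa using this
    have d2 := d1.pow (J + 1)
    have d3 : HasDerivAt (fun x : ℝ => 1 + 2 * x * ((J + 1 : ℕ) : ℝ) -
        6 * x ^ 2 * (((J + 1 : ℕ) : ℝ) + 1))
        (2 * ((J + 1 : ℕ) : ℝ) - 12 * x * (((J + 1 : ℕ) : ℝ) + 1)) x := by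
      have e1 : HasDerivAt (fun x : ℝ => 2 * x * ((J + 1 : ℕ) : ℝ)) (2 * ((J + 1 : ℕ) : ℝ)) x := by
        have := ((hasDerivAt_id x).const_mul 2).mul_const ((J + 1 : ℕ) : ℝ)
        simpa using this
      have e2 : HasDerivAt (fun x : ℝ => 6 * x ^ 2 * (((J + 1 : ℕ) : ℝ) + 1))
          (12 * x * (((J + 1 : ℕ) : ℝ) + 1)) x := by
        have e3 : HasDerivAt (fun x : ℝ => 6 * x ^ 2 * (((J + 1 : ℕ) : ℝ) + 1))
            (6 * (((2 : ℕ) : ℝ) * x ^ (2 - 1) * 1) * (((J + 1 : ℕ) : ℝ) + 1)) x :=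
          (((hasDerivAt_id x).pow 2).const_mul 6).mul_const (((J + 1 : ℕ) : ℝ) + 1)
        refine e3.congr_deriv ?_
        rw [show (2 - 1 : ℕ) = 1 from rfl]
        push_cast
        ring
      exact (e1.const_add 1).sub e2
    have d4 : HasDerivAt G (((J + 1 : ℕ) : ℝ) * (1 - 2 * x) ^ (J + 1 - 1) * (-2) *
        (1 + 2 * x * ((J + 1 : ℕ) : ℝ) - 6 * x ^ 2 * (((J + 1 : ℕ) : ℝ) + 1)) +
        (1 - 2 * x) ^ (J + 1) * (2 * ((J + 1 : ℕ) : ℝ) - 12 * x * (((J + 1 : ℕ) : ℝ) + 1))) x :=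
      d2.mul d3
    refine d4.congr_deriv ?_
    rw [Nat.add_sub_cancel]
    push_cast
    ring
  have hanti : AntitoneOn G (Set.Icc 0 (1 / 4)) := by
    apply antitoneOn_of_deriv_nonpos (convex_Icc 0 (1 / 4))
    · exact fun x _ => (hder x).continuousAt.continuousWithinAt
    · exact fun x _ => (hder x).differentiableAt.differentiableWithinAt
    · intro x hx
      rw [interior_Icc] at hx
      rw [(hder x).deriv]
      have hx0 := hx.1
      have hx1 := hx.2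
      have hJ : (0 : ℝ) ≤ J := Nat.cast_nonneg J
      have h3 : 0 ≤ (1 - 2 * x) ^ J := pow_nonneg (by linarith) J
      have h4 : 0 ≤ 4 * x * ((J : ℝ) + 2) := by positivity
      have h5 : 3 * x * ((J : ℝ) + 3) - ((J : ℝ) + 4) ≤ 0 := by nlinarith
      exact mul_nonpos_of_nonneg_of_nonpos h3 (mul_nonpos_of_nonneg_of_nonpos h4 h5)
  exact hanti ⟨ha, hab.trans hb⟩ ⟨ha.trans hab, hb⟩ hab

theorem exp_bound : Real.exp (3 / 2) ≤ 9 / 2 := by
  have h1 : Real.exp (3 / 2) ^ 2 = Real.exp 1 ^ 3 := by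
    rw [← Real.exp_nat_mul, ← Real.exp_nat_mul]
    norm_num
  have h2 := Real.exp_one_lt_d9
  have h3 : Real.exp 1 ^ 3 ≤ 2.7182818286 ^ 3 :=
    pow_le_pow_left₀ (Real.exp_pos 1).le h2.le 3
  have h4 : Real.exp (3 / 2) ^ 2 ≤ (9 / 2) ^ 2 := by
    rw [h1]
    refine h3.trans ?_
    norm_num
  exact (pow_le_pow_iff_left₀ (Real.exp_pos _).le (by norm_num) two_ne_zero).1 h4

theorem pow_bound (N : ℕ) (hN : 2 ≤ N) :
    (1 + 3 / (2 * (N : ℝ))) ^ N ≤ (20 * (N : ℝ) + 3) / (4 * N + 6) := by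
  by_cases h : 12 ≤ N
  · have hN0 : (0 : ℝ) < N := by exact_mod_cast (by omega : 0 < N)
    have hN12 : (12 : ℝ) ≤ N := by exact_mod_cast h
    have h1 : (1 + 3 / (2 * (N : ℝ))) ^ N ≤ Real.exp (3 / 2) := by
      have h2 : 1 + 3 / (2 * (N : ℝ)) ≤ Real.exp (3 / (2 * (N : ℝ))) := by
        have := Real.add_one_le_exp (3 / (2 * (N : ℝ)))
        linarith
      have h3 := pow_le_pow_left₀ (by positivity) h2 N
      rw [← Real.exp_nat_mul] at h3
      refine h3.trans (le_of_eq ?_)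
      congr 1
      field_simp
    refine h1.trans (exp_bound.trans ?_)
    rw [le_div_iff₀ (by linarith)]
    linarith
  · push Not at h
    interval_cases N <;> norm_num

theorem F3_region {n : ℕ} (hn : 2 ≤ n) (ho : Odd n) {a : ℝ} (h0 : 0 < a)
    (h1 : a ≤ 1 / 4) (hna : n * a ≤ 3 / 2) : 1 / 2 ≤ F3 n a 1 := by
  by_cases h6 : n ≤ 6
  · exact F3_small hn ho h6 h0 h1
  push Not at h6
  unfold F3
  rw [show (1 + 1 : ℕ) = 2 from rfl, bcdf_two, bcdf_one]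
  obtain ⟨m, hm⟩ := ho
  obtain ⟨K, hK⟩ : ∃ K, (n - 3) / 2 = K + 1 := ⟨(n - 3) / 2 - 1, by omega⟩
  have hn' : n = 2 * (K + 1) + 3 := by omega
  have hK1 : 1 ≤ K := by omega
  rw [hK]
  set N : ℝ := (K : ℝ) + 1 with hN
  have hNn : (n : ℝ) = 2 * N + 3 := by rw [hn']; push_cast; rw [hN]
  have hN2 : (2 : ℝ) ≤ N := by
    have : (1 : ℝ) ≤ K := by exact_mod_cast hK1
    linarith
  set b : ℝ := 3 / (4 * N + 6) with hb
  have hab : a ≤ b := by
    rw [hb, le_div_iff₀ (by linarith)]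
    rw [hNn] at hna
    linarith
  have hb4 : b ≤ 1 / 4 := by
    rw [hb, div_le_div_iff₀ (by linarith) (by norm_num)]
    linarith
  have hanti := anti K a b h0.le hab hb4
  have hexp : (1 - 3 * a) * ((1 - 2 * a) ^ (K + 1) + ((K + 1 : ℕ) : ℝ) * (2 * a) *
      (1 - 2 * a) ^ (K + 1 - 1)) + 3 * a * (1 - 2 * a) ^ (K + 1) =
      (1 - 2 * a) ^ K * (1 + 2 * a * K - 6 * a ^ 2 * (K + 1)) := by
    rw [Nat.add_sub_cancel]
    push_cast
    ring
  rw [hexp]
  refine le_trans ?_ hanti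
  have h1b : 1 - 2 * b = (1 + 3 / (2 * N))⁻¹ := by
    rw [hb]
    field_simp
    ring
  have hpb := pow_bound (K + 1) (by omega)
  have hcast : ((K + 1 : ℕ) : ℝ) = N := by rw [hN]; push_cast; rfl
  rw [hcast] at hpb
  have hpos : 0 < 1 + 3 / (2 * N) := by positivity
  have hval : (1 - 2 * b) ^ K * (1 + 2 * b * K - 6 * b ^ 2 * (K + 1)) =
      (1 - 2 * b) ^ (K + 1) * ((20 * N + 3) / (8 * N + 12)) := by
    have hKN : (K : ℝ) = N - 1 := by rw [hN]; ring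
    have h7 : 1 + 2 * b * K - 6 * b ^ 2 * (K + 1) = (1 - 2 * b) * ((20 * N + 3) / (8 * N + 12)) := by
      rw [hKN, hb]
      field_simp
      ring
    rw [h7, pow_succ]
    ring
  rw [hval, h1b, inv_pow]
  have h8 : (4 * N + 6) * (1 + 3 / (2 * N)) ^ (K + 1) ≤ 20 * N + 3 := by
    rw [le_div_iff₀ (by linarith)] at hpb
    linarith
  have h9 : 0 < (1 + 3 / (2 * N)) ^ (K + 1) := pow_pos hpos _
  rw [inv_mul_eq_div, div_div, div_le_div_iff₀ (by norm_num) (by positivity)]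
  nlinarith

theorem main (n : ℕ) (hn : 2 ≤ n) (p : ℝ) (h0 : 0 < p) (h1 : p < 1)
    (hnp : n * (p * (1 - p)) ≤ 3 / 2) :
    (1 / 2 ≤ pAll n p → M n p = n) ∧ (pAll n p < 1 / 2 → M n p = n - 1) ∧
    (Even n → ∀ (σ : Equiv.Perm (Fin n)) (hσ : ∀ i, σ i ≠ i),
      σ.cycleType = Multiset.replicate (n / 2) 2 → med p (ofPerm σ hσ) = M n p) ∧
    (Odd n → 1 / 2 ≤ pAll n p →
      ∀ (c : Coloring n) (σ : Equiv.Perm (Fin n)) (e : Fin n), PairsAndOne p c σ e →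
        med p c = M n p) ∧
    (Odd n → pAll n p < 1 / 2 → ∀ (σ : Equiv.Perm (Fin n)) (hσ : ∀ i, σ i ≠ i),
      σ.cycleType = 3 ::ₘ Multiset.replicate ((n - 3) / 2) 2 → med p (ofPerm σ hσ) = M n p) := by
  obtain ⟨ha0, ha1⟩ := quarter h0 h1
  have hiff := M_eq_n_iff hn h0 h1
  have evenkey : Even n → ∀ (σ : Equiv.Perm (Fin n)) (hσ : ∀ i, σ i ≠ i),
      σ.cycleType = Multiset.replicate (n / 2) 2 →
      med p (ofPerm σ hσ) = M n p ∧ n - 1 ≤ M n p := by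
    intro he σ hσ ht
    have h2 : n - 1 ≤ med p (ofPerm σ hσ) := by
      rw [pred_le_med_iff h0.le h1.le (by omega), pairs_U1 σ hσ ht]
      exact F2_region he ha0 ha1 hnp
    have h3 := med_le_M h0.le h1.le (ofPerm σ hσ)
    have h4 := M_le_n h0.le h1.le (ofPerm σ hσ)
    refine ⟨?_, h2.trans h3⟩
    by_cases hM : M n p = n
    · have h5 := hiff.1 hM
      rw [← pairs_eq he σ hσ ht] at h5
      have h6 := (n_le_med_iff h0.le h1.le _).2 h5
      omega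
    · omega
  have oddkey : Odd n → ∀ (σ : Equiv.Perm (Fin n)) (hσ : ∀ i, σ i ≠ i),
      σ.cycleType = 3 ::ₘ Multiset.replicate ((n - 3) / 2) 2 →
      n - 1 ≤ med p (ofPerm σ hσ) ∧ n - 1 ≤ M n p := by
    intro ho σ hσ ht
    have h2 : n - 1 ≤ med p (ofPerm σ hσ) := by
      rw [pred_le_med_iff h0.le h1.le (by omega), tri_U1 σ hσ ht]
      exact F3_region hn ho ha0 ha1 hnp
    exact ⟨h2, h2.trans (med_le_M h0.le h1.le (ofPerm σ hσ))⟩
  have hle : M n p ≤ n := by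
    obtain ⟨z, w, hzw⟩ : ∃ z w : Fin n, z ≠ w := by
      have : Nontrivial (Fin n) := Fin.nontrivial_iff_two_le.2 hn
      exact exists_pair_ne _
    exact M_le_n h0.le h1.le ⟨fun _ => z, fun _ => w, fun _ => hzw⟩
  have hge : n - 1 ≤ M n p := by
    rcases Nat.even_or_odd n with he | ho
    · obtain ⟨σ, hσ, ht⟩ := exists_perm n (Multiset.replicate (n / 2) 2)
        (by rw [Multiset.sum_replicate, smul_eq_mul]; obtain ⟨m, hm⟩ := he; omega)
        (fun a ha => (Multiset.eq_of_mem_replicate ha).ge)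
      exact (evenkey he σ hσ ht).2
    · obtain ⟨σ, hσ, ht⟩ := exists_perm n (3 ::ₘ Multiset.replicate ((n - 3) / 2) 2)
        (by
          rw [Multiset.sum_cons, Multiset.sum_replicate, smul_eq_mul]
          obtain ⟨m, hm⟩ := ho
          omega)
        (fun a ha => by
          rcases Multiset.mem_cons.1 ha with rfl | ha
          · norm_num
          · exact (Multiset.eq_of_mem_replicate ha).ge)
      exact (oddkey ho σ hσ ht).2
  have hsmall : pAll n p < 1 / 2 → M n p = n - 1 := by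
    intro hlt
    have hM : M n p ≠ n := fun h => absurd (hiff.1 h) (not_le.2 hlt)
    omega
  refine ⟨hiff.2, hsmall, fun he σ hσ ht => (evenkey he σ hσ ht).1, ?_, ?_⟩
  · intro ho htop c σ e hc
    have h2 := (n_le_med_iff h0.le h1.le _).2 (htop.trans (pendant_ge h0 h1 ho c σ e hc))
    have h3 := med_le_M h0.le h1.le c
    omega
  · intro ho hlt σ hσ ht
    have h2 := (oddkey ho σ hσ ht).1
    have h3 := med_le_M h0.le h1.le (ofPerm σ hσ)
    have h4 := hsmall hlt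
    omega

end AllSeen

end Pool.Agent.Lib.MP_eb8f1d_pr
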