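import Pool.Agent.Lib.MP_eb8f1d_pr.Defs

set_option autoImplicit false

namespace Pool.Agent.Lib.MP_eb8f1d_pr

open Finset

variable {ι : Type*} [Fintype ι] [DecidableEq ι]

@[simp] theorem bw_true (p : ℝ) : bw p true = p := by simp [bw]

@[simp] theorem bw_false (p : ℝ) : bw p false = 1 - p := by simp [bw]

theorem bw_pos {p : ℝ} (h0 : 0 < p) (h1 : p < 1) (b : Bool) : 0 < bw p b := by
  cases b <;> simp <;> linarith

theorem bw_nonneg {p : ℝ} (h0 : 0 ≤ p) (h1 : p ≤ 1) (b : Bool) : 0 ≤ bw p b := by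
  cases b <;> simp <;> linarith

omit [DecidableEq ι] in
theorem wt_pos {p : ℝ} (h0 : 0 < p) (h1 : p < 1) (ω : ι → Bool) : 0 < wt p ω :=
  Finset.prod_pos fun _ _ => bw_pos h0 h1 _

omit [DecidableEq ι] in
theorem wt_nonneg {p : ℝ} (h0 : 0 ≤ p) (h1 : p ≤ 1) (ω : ι → Bool) : 0 ≤ wt p ω :=
  Finset.prod_nonneg fun _ _ => bw_nonneg h0 h1 _

/-- expectation of a product of functions of single coins -/
theorem Ex_prod (p : ℝ) (g : ι → Bool → ℝ) :
    Ex p (fun ω => ∏ i, g i (ω i)) = ∏ i, (p * g i true + (1 - p) * g i false) := by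
  have h := Finset.prod_univ_sum (fun _ : ι => (univ : Finset Bool))
    (fun i b => bw p b * g i b)
  rw [Fintype.piFinset_univ] at h
  simp only [Fintype.sum_bool, bw_true, bw_false] at h
  rw [h]
  unfold Ex wt
  refine Finset.sum_congr rfl fun ω _ => ?_
  rw [Finset.prod_mul_distrib]

@[simp] theorem Ex_one (p : ℝ) : Ex p (fun _ : ι → Bool => (1 : ℝ)) = 1 := by
  have h := Ex_prod (ι := ι) p (fun _ _ => 1)
  simpa using h

theorem sum_wt (p : ℝ) : ∑ ω : ι → Bool, wt p ω = 1 := by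
  have := Ex_one (ι := ι) p
  simpa [Ex] using this

theorem Ex_add (p : ℝ) (f g : (ι → Bool) → ℝ) :
    Ex p (fun ω => f ω + g ω) = Ex p f + Ex p g := by
  simp [Ex, mul_add, Finset.sum_add_distrib]

theorem Ex_sub (p : ℝ) (f g : (ι → Bool) → ℝ) :
    Ex p (fun ω => f ω - g ω) = Ex p f - Ex p g := by
  simp [Ex, mul_sub, Finset.sum_sub_distrib]

theorem Ex_const_mul (p a : ℝ) (f : (ι → Bool) → ℝ) :
    Ex p (fun ω => a * f ω) = a * Ex p f := by
  simp only [Ex, Finset.mul_sum]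
  refine Finset.sum_congr rfl fun ω _ => by ring

@[simp] theorem Ex_const (p a : ℝ) : Ex p (fun _ : ι → Bool => a) = a := by
  have := Ex_const_mul (ι := ι) p a (fun _ => 1)
  simpa using this

theorem Ex_sum {κ : Type*} (s : Finset κ) (p : ℝ) (f : κ → (ι → Bool) → ℝ) :
    Ex p (fun ω => ∑ k ∈ s, f k ω) = ∑ k ∈ s, Ex p (f k) := by
  simp only [Ex, Finset.mul_sum]
  rw [Finset.sum_comm]

theorem Ex_mono {p : ℝ} (h0 : 0 ≤ p) (h1 : p ≤ 1) {f g : (ι → Bool) → ℝ}
    (h : ∀ ω, f ω ≤ g ω) : Ex p f ≤ Ex p g :=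
  Finset.sum_le_sum fun ω _ => mul_le_mul_of_nonneg_left (h ω) (wt_nonneg h0 h1 ω)

theorem Ex_nonneg {p : ℝ} (h0 : 0 ≤ p) (h1 : p ≤ 1) {f : (ι → Bool) → ℝ}
    (h : ∀ ω, 0 ≤ f ω) : 0 ≤ Ex p f :=
  Finset.sum_nonneg fun ω _ => mul_nonneg (wt_nonneg h0 h1 ω) (h ω)

theorem Ex_congr {p : ℝ} {f g : (ι → Bool) → ℝ} (h : ∀ ω, f ω = g ω) : Ex p f = Ex p g :=
  Finset.sum_congr rfl fun ω _ => by rw [h ω]

theorem Pr_nonneg {p : ℝ} (h0 : 0 ≤ p) (h1 : p ≤ 1) (A : (ι → Bool) → Prop) : 0 ≤ Pr p A := by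
  classical
  exact Ex_nonneg h0 h1 fun ω => by split_ifs <;> norm_num

theorem Pr_mono {p : ℝ} (h0 : 0 ≤ p) (h1 : p ≤ 1) {A B : (ι → Bool) → Prop}
    (h : ∀ ω, A ω → B ω) : Pr p A ≤ Pr p B := by
  classical
  refine Ex_mono h0 h1 fun ω => ?_
  by_cases hA : A ω
  · simp [hA, h ω hA]
  · by_cases hB : B ω <;> simp [hA, hB]

theorem Pr_le_one {p : ℝ} (h0 : 0 ≤ p) (h1 : p ≤ 1) (A : (ι → Bool) → Prop) : Pr p A ≤ 1 := by
  classical
  rw [← Ex_one (ι := ι) p]
  exact Ex_mono h0 h1 fun ω => by split_ifs <;> norm_num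

theorem Pr_congr {p : ℝ} {A B : (ι → Bool) → Prop} (h : ∀ ω, A ω ↔ B ω) : Pr p A = Pr p B := by
  classical
  exact Ex_congr fun ω => by simp [h ω]

theorem Pr_not {p : ℝ} (A : (ι → Bool) → Prop) : Pr p (fun ω => ¬ A ω) = 1 - Pr p A := by
  classical
  have : Pr p (fun ω => ¬ A ω) = Ex p (fun ω => 1 - (if A ω then (1 : ℝ) else 0)) :=
    Ex_congr fun ω => by by_cases h : A ω <;> simp [h]
  rw [this, Ex_sub]
  simp [Pr]

theorem Pr_or_le {p : ℝ} (h0 : 0 ≤ p) (h1 : p ≤ 1) (A B : (ι → Bool) → Prop) :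
    Pr p (fun ω => A ω ∨ B ω) ≤ Pr p A + Pr p B := by
  classical
  unfold Pr
  rw [← Ex_add]
  refine Ex_mono h0 h1 fun ω => ?_
  by_cases hA : A ω <;> by_cases hB : B ω <;> simp [hA, hB]

/-- `Pr` as an expectation with an arbitrary decidability instance -/
theorem Pr_eq {p : ℝ} (A : (ι → Bool) → Prop) [DecidablePred A] :
    Pr p A = Ex p (fun ω => if A ω then 1 else 0) := by
  classical
  unfold Pr
  exact Ex_congr fun ω => by by_cases h : A ω <;> simp [h]

omit [DecidableEq ι] [Fintype ι] in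
theorem mix_self [DecidableEq ι] (B : Finset ι) (ω : ι → Bool) : mix B ω ω = ω := by
  funext i; simp [mix]

theorem wt_mix (p : ℝ) (B : Finset ι) (ω ω' : ι → Bool) :
    wt p (mix B ω' ω) * wt p (mix B ω ω') = wt p ω * wt p ω' := by
  unfold wt
  rw [← Finset.prod_mul_distrib, ← Finset.prod_mul_distrib]
  refine Finset.prod_congr rfl fun i _ => ?_
  by_cases h : i ∈ B <;> simp [mix, h, mul_comm]

/-- two independent tosses: exchanging the coins of `B` preserves the law -/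
theorem sum_mix (p : ℝ) (B : Finset ι) (F : (ι → Bool) → (ι → Bool) → ℝ) :
    ∑ ω, ∑ ω', wt p ω * wt p ω' * F (mix B ω' ω) (mix B ω ω') =
      ∑ ω, ∑ ω', wt p ω * wt p ω' * F ω ω' := by
  rw [← Fintype.sum_prod_type', ← Fintype.sum_prod_type']
  have hinv : Function.Involutive
      (fun x : (ι → Bool) × (ι → Bool) => (mix B x.2 x.1, mix B x.1 x.2)) := by
    rintro ⟨ω, ω'⟩
    refine Prod.ext ?_ ?_ <;> funext i <;> by_cases h : i ∈ B <;> simp [mix, h]
  refine Fintype.sum_equiv hinv.toPerm _ _ ?_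
  rintro ⟨ω, ω'⟩
  simp only [Function.Involutive.coe_toPerm]
  rw [wt_mix]

theorem Ex_mix (p : ℝ) (B : Finset ι) (f : (ι → Bool) → ℝ) :
    Ex p (fun σ => Ex p (fun ω => f (mix B σ ω))) = Ex p f := by
  have h := sum_mix p B (fun x _ => f x)
  have h1 : ∑ ω : ι → Bool, ∑ ω' : ι → Bool, wt p ω * wt p ω' * f (mix B ω' ω) =
      Ex p (fun σ => Ex p (fun ω => f (mix B σ ω))) := by
    rw [Finset.sum_comm]
    unfold Ex
    refine Finset.sum_congr rfl fun ω _ => ?_
    rw [Finset.mul_sum]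
    refine Finset.sum_congr rfl fun ω' _ => ?_
    ring
  have h2 : ∑ ω : ι → Bool, ∑ ω' : ι → Bool, wt p ω * wt p ω' * f ω = Ex p f := by
    unfold Ex
    refine Finset.sum_congr rfl fun ω _ => ?_
    have : ∑ ω' : ι → Bool, wt p ω * wt p ω' * f ω =
        (∑ ω' : ι → Bool, wt p ω') * (wt p ω * f ω) := by
      rw [Finset.sum_mul]
      refine Finset.sum_congr rfl fun ω' _ => ?_
      ring
    rw [this, sum_wt, one_mul]
  rw [← h1, h, h2]

/-- `f` only looks at the coins of `S` -/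
def DependsOn' {α : Type*} (f : (ι → Bool) → α) (S : Finset ι) : Prop :=
  ∀ ω ω', (∀ i ∈ S, ω i = ω' i) → f ω = f ω'

/-- independence -/
theorem Ex_mul_of_dependsOn (p : ℝ) (S : Finset ι) (f g : (ι → Bool) → ℝ)
    (hf : DependsOn' f S) (hg : DependsOn' g Sᶜ) :
    Ex p (fun ω => f ω * g ω) = Ex p f * Ex p g := by
  rw [← Ex_mix p S]
  have : ∀ σ ω : ι → Bool, f (mix S σ ω) * g (mix S σ ω) = f σ * g ω := by
    intro σ ω
    rw [hf (mix S σ ω) σ (fun i hi => by simp [mix, hi]),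
      hg (mix S σ ω) ω (fun i hi => by simp [mix, Finset.mem_compl.mp hi])]
  simp only [this]
  simp only [Ex_const_mul]
  have h2 : ∀ σ : ι → Bool, f σ * Ex p (fun ω => g ω) = Ex p g * f σ := fun σ => mul_comm _ _
  simp only [h2]
  rw [Ex_const_mul, mul_comm]

omit [Fintype ι] in
theorem flp_flp (e : ι) (ω : ι → Bool) : flp e (flp e ω) = ω := by
  funext i
  by_cases h : i = e
  · subst h; simp [flp]
  · simp [flp, h]

omit [Fintype ι] in
@[simp] theorem flp_same (e : ι) (ω : ι → Bool) : flp e ω e = !ω e := by simp [flp]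

omit [Fintype ι] in
theorem flp_ne {e i : ι} (h : i ≠ e) (ω : ι → Bool) : flp e ω i = ω i := by simp [flp, h]

theorem wt_flp {p : ℝ} (e : ι) (ω : ι → Bool) (h : ω e = true) :
    p * wt p (flp e ω) = (1 - p) * wt p ω := by
  unfold wt
  rw [← Finset.mul_prod_erase univ _ (Finset.mem_univ e),
    ← Finset.mul_prod_erase univ (fun i => bw p (ω i)) (Finset.mem_univ e)]
  have : ∏ i ∈ univ.erase e, bw p (flp e ω i) = ∏ i ∈ univ.erase e, bw p (ω i) :=
    Finset.prod_congr rfl fun i hi => by rw [flp_ne (Finset.ne_of_mem_erase hi)]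
  rw [this]
  simp [h]
  ring

/-- change of variable `ω ↦ flp e ω` -/
theorem Ex_flp (p : ℝ) (e : ι) (F : (ι → Bool) → ℝ) :
    (1 - p) * Ex p (fun ω => if ω e = true then F (flp e ω) else 0) =
      p * Ex p (fun ω => if ω e = true then 0 else F ω) := by
  have hinv : Function.Involutive (flp (ι := ι) e) := flp_flp e
  unfold Ex
  rw [Finset.mul_sum, Finset.mul_sum]
  refine Fintype.sum_equiv hinv.toPerm _ _ ?_
  intro ω
  simp only [Function.Involutive.coe_toPerm]
  by_cases h : ω e = true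
  · simp only [h, if_true, flp_same, Bool.not_true, Bool.false_eq_true, if_false]
    rw [← mul_assoc, ← mul_assoc, wt_flp e ω h]
  · simp [h]

/-- marginals: restricting to an injective family of coins -/
theorem Ex_comp_injective {κ : Type*} [Fintype κ] [DecidableEq κ] (p : ℝ) (e : κ → ι)
    (he : Function.Injective e) (Ψ : (κ → Bool) → ℝ) :
    Ex p (fun ω : ι → Bool => Ψ (fun k => ω (e k))) = Ex p Ψ := by
  classical
  unfold Ex
  have h1 : ∀ ω : ι → Bool, wt p ω =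
      wt p (fun k => ω (e k)) * ∏ i ∈ (univ.image e)ᶜ, bw p (ω i) := by
    intro ω
    unfold wt
    rw [← Finset.prod_mul_prod_compl (univ.image e) (fun i => bw p (ω i)),
      Finset.prod_image (fun x _ y _ h => he h)]
  let φ := Equiv.piEquivPiSubtypeProd (fun i => i ∈ univ.image e) (fun _ : ι => Bool)
  have key : ∑ ω : ι → Bool, wt p ω * Ψ (fun k => ω (e k)) =
      ∑ x : ({i // i ∈ univ.image e} → Bool) × ({i // i ∉ univ.image e} → Bool),
        (wt p (fun k => x.1 ⟨e k, Finset.mem_image_of_mem e (Finset.mem_univ k)⟩) *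
          Ψ (fun k => x.1 ⟨e k, Finset.mem_image_of_mem e (Finset.mem_univ k)⟩)) *
          wt p x.2 := by
    refine Fintype.sum_equiv φ _ _ ?_
    intro ω
    rw [h1 ω]
    have h2 : ∏ i ∈ (univ.image e)ᶜ, bw p (ω i) = wt p (φ ω).2 := by
      unfold wt
      rw [← Finset.prod_coe_sort]
      refine Fintype.prod_equiv (Equiv.subtypeEquivRight fun i => by simp) _ _ ?_
      intro i
      simp [φ, Equiv.piEquivPiSubtypeProd]
    rw [h2]
    simp only [φ, Equiv.piEquivPiSubtypeProd, Equiv.coe_fn_mk]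
    ring
  rw [key, Fintype.sum_prod_type]
  simp only []
  have h3 : ∀ x : {i // i ∈ univ.image e} → Bool,
      ∑ y : {i // i ∉ univ.image e} → Bool,
        (wt p (fun k => x ⟨e k, Finset.mem_image_of_mem e (Finset.mem_univ k)⟩) *
          Ψ (fun k => x ⟨e k, Finset.mem_image_of_mem e (Finset.mem_univ k)⟩)) * wt p y =
      (wt p (fun k => x ⟨e k, Finset.mem_image_of_mem e (Finset.mem_univ k)⟩) *
          Ψ (fun k => x ⟨e k, Finset.mem_image_of_mem e (Finset.mem_univ k)⟩)) := by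
    intro x
    rw [← Finset.mul_sum, sum_wt, mul_one]
  simp only [h3]
  have hb : Function.Bijective
      (fun k : κ => (⟨e k, Finset.mem_image_of_mem e (Finset.mem_univ k)⟩ :
        {i // i ∈ univ.image e})) := by
    constructor
    · intro x y h
      exact he (Subtype.ext_iff.mp h)
    · rintro ⟨i, hi⟩
      obtain ⟨k, -, rfl⟩ := Finset.mem_image.mp hi
      exact ⟨k, rfl⟩
  exact Fintype.sum_equiv (Equiv.arrowCongr (Equiv.ofBijective _ hb).symm (Equiv.refl Bool)) _ _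
    (fun x => by
      have : (Equiv.arrowCongr (Equiv.ofBijective _ hb).symm (Equiv.refl Bool)) x =
          fun k => x ⟨e k, Finset.mem_image_of_mem e (Finset.mem_univ k)⟩ := by
        funext k
        simp [Equiv.arrowCongr]
      rw [this])

end Pool.Agent.Lib.MP_eb8f1d_pr
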