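import Mathlib

set_option autoImplicit false

namespace Pool.Agent.Lib.MP_eb8f1d_pr

open Finset

namespace Poi

/-- Poisson distribution function -/
noncomputable def g (k : ℕ) (x : ℝ) : ℝ :=
  ∑ j ∈ range (k + 1), Real.exp (-x) * x ^ j / (j.factorial : ℝ)

theorem g_succ (k : ℕ) (x : ℝ) :
    g (k + 1) x = g k x + Real.exp (-x) * x ^ (k + 1) / ((k + 1).factorial : ℝ) := by
  unfold g
  rw [Finset.sum_range_succ]

theorem hasDeriv_expneg (x : ℝ) :
    HasDerivAt (fun y : ℝ => Real.exp (-y)) (-Real.exp (-x)) x := by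
  have := (hasDerivAt_neg x).exp
  refine this.congr_deriv ?_
  ring

theorem hasDeriv_term (k : ℕ) (x : ℝ) :
    HasDerivAt (fun y : ℝ => Real.exp (-y) * y ^ (k + 1) / ((k + 1).factorial : ℝ))
      (Real.exp (-x) * x ^ k / (k.factorial : ℝ) -
        Real.exp (-x) * x ^ (k + 1) / ((k + 1).factorial : ℝ)) x := by
  have h1 : HasDerivAt (fun y : ℝ => Real.exp (-y)) (-Real.exp (-x)) x := hasDeriv_expneg x
  have h2 : HasDerivAt (fun y : ℝ => y ^ (k + 1)) (((k : ℝ) + 1) * x ^ k) x := by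
    have := hasDerivAt_pow (k + 1) x
    simpa using this
  have h3 := (h1.mul h2).div_const ((k + 1).factorial : ℝ)
  refine h3.congr_deriv ?_
  have hf : ((k + 1).factorial : ℝ) = ((k : ℝ) + 1) * (k.factorial : ℝ) := by
    rw [Nat.factorial_succ]; push_cast; ring
  have hk : (k.factorial : ℝ) ≠ 0 := by positivity
  have hk1 : ((k : ℝ) + 1) ≠ 0 := by positivity
  rw [hf]
  field_simp
  ring

theorem hasDeriv_g (k : ℕ) (x : ℝ) :
    HasDerivAt (g k) (-(Real.exp (-x) * x ^ k / (k.factorial : ℝ))) x := by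
  induction k with
  | zero =>
    have h : g 0 = fun y => Real.exp (-y) := by
      funext y
      simp [g]
    rw [h]
    refine (hasDeriv_expneg x).congr_deriv ?_
    simp
  | succ k ih =>
    have h : g (k + 1) = fun y => g k y + Real.exp (-y) * y ^ (k + 1) / ((k + 1).factorial : ℝ) := by
      funext y
      exact g_succ k y
    rw [h]
    have := ih.add (hasDeriv_term k x)
    refine this.congr_deriv ?_
    ring

/-! ### step 1: monotonicity -/

theorem one_add_le (y : ℝ) (hy : 0 ≤ y) : 1 + y ≤ Real.exp (y - y ^ 2 / 2 + y ^ 3 / 3) := by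
  have h1 : ∀ z : ℝ, 0 ≤ z → HasDerivAt
      (fun z : ℝ => z - z ^ 2 / 2 + z ^ 3 / 3 - Real.log (1 + z))
      (1 - z + z ^ 2 - 1 / (1 + z)) z := by
    intro z hz
    have e1 : HasDerivAt (fun z : ℝ => Real.log (1 + z)) (1 / (1 + z)) z := by
      have := (hasDerivAt_id z).const_add 1
      exact this.log (by simp; linarith)
    have e2 : HasDerivAt (fun z : ℝ => z ^ 2 / 2) z z := by
      have := (hasDerivAt_pow 2 z).div_const 2
      refine this.congr_deriv ?_
      push_cast; ring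
    have e3 : HasDerivAt (fun z : ℝ => z ^ 3 / 3) (z ^ 2) z := by
      have := (hasDerivAt_pow 3 z).div_const 3
      refine this.congr_deriv ?_
      push_cast; ring
    have := (((hasDerivAt_id z).sub e2).add e3).sub e1
    exact this
  have hmono : MonotoneOn (fun z : ℝ => z - z ^ 2 / 2 + z ^ 3 / 3 - Real.log (1 + z))
      (Set.Ici 0) := by
    apply monotoneOn_of_deriv_nonneg (convex_Ici 0)
    · intro z hz
      exact (h1 z hz).continuousAt.continuousWithinAt
    · intro z hz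
      rw [interior_Ici] at hz
      exact (h1 z (le_of_lt hz)).differentiableAt.differentiableWithinAt
    · intro z hz
      rw [interior_Ici] at hz
      have hz0 : 0 < z := hz
      rw [(h1 z hz0.le).deriv]
      have : 1 - z + z ^ 2 - 1 / (1 + z) = z ^ 3 / (1 + z) := by
        field_simp
        ring
      rw [this]
      positivity
  have h2 := hmono (Set.mem_Ici.mpr le_rfl) (Set.mem_Ici.mpr hy) hy
  simp only at h2
  have h3 : Real.log (1 + y) ≤ y - y ^ 2 / 2 + y ^ 3 / 3 := by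
    have : (0 : ℝ) - 0 ^ 2 / 2 + 0 ^ 3 / 3 - Real.log (1 + 0) = 0 := by simp
    linarith
  calc 1 + y = Real.exp (Real.log (1 + y)) := (Real.exp_log (by linarith)).symm
    _ ≤ _ := Real.exp_le_exp.mpr h3

theorem eta_le (k : ℕ) (hk : 2 ≤ k) (x : ℝ) (hx0 : 0 ≤ x) (hx1 : x ≤ 1) :
    (1 + x / ((k : ℝ) + 3 / 4)) ^ (k + 1) * Real.exp (-x) ≤
      1 + 1 / ((k : ℝ) + 3 / 4) * (x / 4 - x ^ 2 / 2) +
        3 / 20 * (1 / ((k : ℝ) + 3 / 4)) * x ^ 3 := by
  have hk2 : (2 : ℝ) ≤ k := by exact_mod_cast hk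
  set m : ℝ := (k : ℝ) + 3 / 4 with hm
  have hm0 : 0 < m := by linarith
  set μ : ℝ := 1 / m with hμ
  have hμ0 : 0 < μ := by positivity
  have hμm : μ * m = 1 := by rw [hμ]; field_simp
  have hμ1 : μ ≤ 4 / 11 := by
    rw [hμ, div_le_div_iff₀ hm0 (by norm_num)]
    linarith
  have hy : x / m = μ * x := by rw [hμ]; ring
  rw [hy]
  have hyn : 0 ≤ μ * x := by positivity
  set E : ℝ := μ * (x / 4 - x ^ 2 / 2) + μ ^ 2 * (x ^ 3 / 3 - x ^ 2 / 8) + μ ^ 3 * x ^ 3 / 12
    with hE
  have hpow : (1 + μ * x) ^ (k + 1) * Real.exp (-x) ≤ Real.exp E := by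
    have h1 : (1 + μ * x) ^ (k + 1) ≤
        Real.exp ((μ * x) - (μ * x) ^ 2 / 2 + (μ * x) ^ 3 / 3) ^ (k + 1) :=
      pow_le_pow_left₀ (by positivity) (one_add_le _ hyn) _
    have h2 : Real.exp ((μ * x) - (μ * x) ^ 2 / 2 + (μ * x) ^ 3 / 3) ^ (k + 1) * Real.exp (-x) =
        Real.exp E := by
      rw [← Real.exp_nat_mul, ← Real.exp_add]
      congr 1
      have hk1 : ((k + 1 : ℕ) : ℝ) = m + 1 / 4 := by rw [hm]; push_cast; ring
      rw [hk1, hE]
      have e1 : m * (μ * x - (μ * x) ^ 2 / 2 + (μ * x) ^ 3 / 3) =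
          x - μ * x ^ 2 / 2 + μ ^ 2 * x ^ 3 / 3 := by
        have : m * (μ * x - (μ * x) ^ 2 / 2 + (μ * x) ^ 3 / 3) =
          (μ * m) * (x - μ * x ^ 2 / 2 + μ ^ 2 * x ^ 3 / 3) := by ring
        rw [this, hμm, one_mul]
      linear_combination e1
    rw [← h2]
    exact mul_le_mul_of_nonneg_right h1 (Real.exp_pos _).le
  refine hpow.trans ?_
  set w : ℝ := (1 / 4 - x / 2) + μ * (x ^ 2 / 3 - x / 8) + μ ^ 2 * x ^ 2 / 12 with hw
  have hEw : E = μ * x * w := by rw [hE, hw]; ring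
  have hxx : x ^ 2 ≤ x := by nlinarith
  have hμx : μ * x ≤ 4 / 11 := by nlinarith
  have hw1 : w ≤ 1 / 4 := by
    have h1 : μ * (x ^ 2 / 3 - x / 8) ≤ 4 / 11 * (x / 3) := by
      have : x ^ 2 / 3 - x / 8 ≤ x / 3 := by linarith
      nlinarith
    have h2 : μ ^ 2 * x ^ 2 / 12 ≤ x / 12 := by
      have : μ ^ 2 ≤ 1 := by nlinarith
      have : μ ^ 2 * x ^ 2 ≤ 1 * x := mul_le_mul this hxx (by positivity) (by norm_num)
      linarith
    rw [hw]; linarith
  have hw2 : -(1 / 4) ≤ w := by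
    have h2 : 0 ≤ μ ^ 2 * x ^ 2 / 12 := by positivity
    have h3 : -(1 / 4 - (1 / 4 - x / 2)) ≤ 0 := by linarith
    by_cases hx : 3 / 8 ≤ x
    · have : 0 ≤ μ * (x ^ 2 / 3 - x / 8) := by
        apply mul_nonneg hμ0.le
        nlinarith
      rw [hw]; linarith
    · push Not at hx
      have : -(1 : ℝ) * (1 / 8) ≤ μ * (x ^ 2 / 3 - x / 8) := by
        have h4 : -(x / 8) ≤ x ^ 2 / 3 - x / 8 := by nlinarith [sq_nonneg x]
        have h5 : μ * (-(x / 8)) ≤ μ * (x ^ 2 / 3 - x / 8) := mul_le_mul_of_nonneg_left h4 hμ0.le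
        nlinarith
      rw [hw]; linarith
  have hwsq : w ^ 2 ≤ 1 / 16 := by nlinarith
  have hEabs : |E| ≤ 1 := by
    rw [hEw, abs_le]
    constructor <;> nlinarith
  have h4 := Real.abs_exp_sub_one_sub_id_le hEabs
  have h5 : Real.exp E ≤ 1 + E + E ^ 2 := by
    have := (abs_le.mp h4).2
    linarith
  refine h5.trans ?_
  have hE2 : E ^ 2 ≤ μ ^ 2 * x ^ 2 / 16 := by
    have : E ^ 2 = (μ ^ 2 * x ^ 2) * w ^ 2 := by rw [hEw]; ring
    rw [this]
    have : 0 ≤ μ ^ 2 * x ^ 2 := by positivity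
    nlinarith
  have hfin : μ ^ 2 * (x ^ 3 / 3 - x ^ 2 / 8) + μ ^ 3 * x ^ 3 / 12 + μ ^ 2 * x ^ 2 / 16 ≤
      3 / 20 * μ * x ^ 3 := by
    have e1 : μ ^ 2 * (x ^ 3 / 3 - x ^ 2 / 8) + μ ^ 3 * x ^ 3 / 12 + μ ^ 2 * x ^ 2 / 16 =
        μ * x ^ 3 * (μ * (1 / 3 + μ / 12)) - μ ^ 2 * x ^ 2 / 16 := by ring
    have e2 : μ * (1 / 3 + μ / 12) ≤ 3 / 20 := by nlinarith
    have e3 : 0 ≤ μ * x ^ 3 := by positivity
    have e4 : 0 ≤ μ ^ 2 * x ^ 2 / 16 := by positivity
    rw [e1]
    nlinarith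
  rw [hE] at hE2 ⊢
  linarith

theorem Q_lt_succ (k : ℕ) (hk : 2 ≤ k) :
    g k ((k : ℝ) + 3 / 4) < g (k + 1) ((k : ℝ) + 1 + 3 / 4) := by
  set m : ℝ := (k : ℝ) + 3 / 4 with hm
  have hk2 : (2 : ℝ) ≤ k := by exact_mod_cast hk
  have hm0 : 0 < m := by linarith
  set ψ : ℝ → ℝ := fun x => Real.exp (-x) * x ^ (k + 1) / ((k + 1).factorial : ℝ) with hψ
  have hψm : 0 < ψ m := by
    simp only [hψ]
    positivity
  set μ : ℝ := 1 / m with hμ
  have hμ0 : 0 < μ := by positivity
  set Pi : ℝ → ℝ := fun x => x + μ * (x ^ 2 / 8 - x ^ 3 / 6) + 3 / 80 * μ * x ^ 4 with hPi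
  have hPid : ∀ x : ℝ, HasDerivAt Pi (1 + μ * (x / 4 - x ^ 2 / 2) + 3 / 20 * μ * x ^ 3) x := by
    intro x
    have e2 := (hasDerivAt_pow 2 x).div_const 8
    have e3 := (hasDerivAt_pow 3 x).div_const 6
    have e4 := (hasDerivAt_pow 4 x).const_mul (3 / 80 * μ)
    have := ((hasDerivAt_id x).add ((e2.sub e3).const_mul μ)).add e4
    refine this.congr_deriv ?_
    push_cast
    ring
  have hφd : ∀ x : ℝ, HasDerivAt (fun x => g (k + 1) (m + x) + ψ m * Pi x)
      (-(ψ (m + x)) + ψ m * (1 + μ * (x / 4 - x ^ 2 / 2) + 3 / 20 * μ * x ^ 3)) x := by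
    intro x
    have e1 : HasDerivAt (fun x => g (k + 1) (m + x)) (-(ψ (m + x))) x := by
      exact (hasDeriv_g (k + 1) (m + x)).comp_const_add m x
    exact e1.add ((hPid x).const_mul (ψ m))
  have hmono : MonotoneOn (fun x => g (k + 1) (m + x) + ψ m * Pi x) (Set.Icc 0 1) := by
    apply monotoneOn_of_deriv_nonneg (convex_Icc 0 1)
    · intro x _
      exact (hφd x).continuousAt.continuousWithinAt
    · intro x _
      exact (hφd x).differentiableAt.differentiableWithinAt
    · intro x hx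
      rw [interior_Icc] at hx
      rw [(hφd x).deriv]
      have h1 : ψ (m + x) = ψ m * ((1 + x / m) ^ (k + 1) * Real.exp (-x)) := by
        simp only [hψ]
        have : m + x = m * (1 + x / m) := by field_simp
        rw [show Real.exp (-(m + x)) = Real.exp (-m) * Real.exp (-x) by
          rw [← Real.exp_add]; congr 1; ring]
        rw [this, mul_pow]
        ring
      rw [h1]
      have h2 := eta_le k hk x hx.1.le hx.2.le
      have h3 := mul_le_mul_of_nonneg_left h2 hψm.le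
      linarith
  have h1 := hmono (Set.left_mem_Icc.mpr zero_le_one) (Set.right_mem_Icc.mpr zero_le_one)
    zero_le_one
  simp only [hPi] at h1
  have h2 : g (k + 1) m = g k m + ψ m := g_succ k m
  rw [add_zero, h2] at h1
  have h3 : (k : ℝ) + 1 + 3 / 4 = m + 1 := by rw [hm]; ring
  rw [h3]
  have h4 : 0 < ψ m * μ := mul_pos hψm hμ0
  nlinarith

/-! ### step 2 -/

theorem R_le (k : ℕ) : g k ((k : ℝ) + 1) ≤ 1 / 2 := by
  set μ : ℝ := (k : ℝ) + 1 with hμ
  have hμ0 : 0 < μ := by positivity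
  have key : ∀ i : ℕ, i ≤ k → μ ^ (k - i) / ((k - i).factorial : ℝ) ≤
      μ ^ (k + 1 + i) / ((k + 1 + i).factorial : ℝ) := by
    intro i
    induction i with
    | zero =>
      intro _
      simp only [Nat.sub_zero, Nat.add_zero]
      rw [Nat.factorial_succ, pow_succ]
      push_cast
      rw [← hμ]
      have : (0 : ℝ) < (k.factorial : ℝ) := by positivity
      apply le_of_eq
      field_simp
    | succ i ih =>
      intro hi
      have ih' := ih (by omega)
      obtain ⟨j, hj⟩ : ∃ j, k - i = j + 1 := ⟨k - i - 1, by omega⟩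
      have hj' : k - (i + 1) = j := by omega
      rw [hj] at ih'
      rw [hj', show k + 1 + (i + 1) = (k + 1 + i) + 1 by ring, Nat.factorial_succ (k + 1 + i),
        pow_succ μ (k + 1 + i)]
      rw [Nat.factorial_succ j, pow_succ μ j] at ih'
      have hjk : ((j : ℝ) + 1) + i = k := by
        have : j + 1 + i = k := by omega
        exact_mod_cast this
      push_cast at ih' ⊢
      have f1 : (0 : ℝ) < (j.factorial : ℝ) := by positivity
      have f2 : (0 : ℝ) < ((k + 1 + i).factorial : ℝ) := by positivity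
      have f3 : (0 : ℝ) < (j : ℝ) + 1 := by positivity
      have f4 : (0 : ℝ) < (k : ℝ) + 1 + i + 1 := by positivity
      -- `a_{j} = a_{j+1} * (j+1)/μ`
      have e1 : μ ^ j / (j.factorial : ℝ) =
          (μ ^ j * μ / (((j : ℝ) + 1) * (j.factorial : ℝ))) * (((j : ℝ) + 1) / μ) := by
        field_simp
      have e2 : μ ^ (k + 1 + i) * μ / (((k : ℝ) + 1 + i + 1) * ((k + 1 + i).factorial : ℝ)) =
          (μ ^ (k + 1 + i) / ((k + 1 + i).factorial : ℝ)) * (μ / ((k : ℝ) + 1 + i + 1)) := by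
        field_simp
      rw [e1, e2]
      apply mul_le_mul ih' _ (by positivity) (by positivity)
      rw [div_le_div_iff₀ hμ0 f4]
      have : (j : ℝ) + 1 = μ - 1 - i := by rw [hμ]; linarith
      rw [this]
      have h5 : (k : ℝ) + 1 + i + 1 = μ + 1 + i := by rw [hμ]; ring
      rw [h5]
      nlinarith [sq_nonneg ((i : ℝ) + 1)]
  have hexp : ∑ j ∈ range (k + 1 + (k + 1)), μ ^ j / (j.factorial : ℝ) ≤ Real.exp μ :=
    Real.sum_le_exp_of_nonneg hμ0.le _
  rw [Finset.sum_range_add] at hexp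
  have hrefl : ∑ j ∈ range (k + 1), μ ^ j / (j.factorial : ℝ) ≤
      ∑ i ∈ range (k + 1), μ ^ (k + 1 + i) / ((k + 1 + i).factorial : ℝ) := by
    rw [← Finset.sum_range_reflect]
    apply Finset.sum_le_sum
    intro i hi
    have hi' : i ≤ k := by
      have := Finset.mem_range.mp hi
      omega
    have := key i hi'
    rw [show k + 1 - 1 - i = k - i by omega]
    exact this
  have hg : g k μ = Real.exp (-μ) * ∑ j ∈ range (k + 1), μ ^ j / (j.factorial : ℝ) := by
    unfold g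
    rw [Finset.mul_sum]
    refine Finset.sum_congr rfl fun j _ => by ring
  rw [hg]
  have h1 : 2 * ∑ j ∈ range (k + 1), μ ^ j / (j.factorial : ℝ) ≤ Real.exp μ := by linarith
  have h2 : Real.exp (-μ) * Real.exp μ = 1 := by rw [← Real.exp_add]; simp
  have h3 : 0 < Real.exp (-μ) := Real.exp_pos _
  nlinarith

/-! ### step 3 -/

theorem Q_sub_R_le (k : ℕ) (hk : 1 ≤ k) :
    g k ((k : ℝ) + 3 / 4) ≤ g k ((k : ℝ) + 1) + 1 / 4 * (1 / Real.sqrt (2 * Real.pi * k)) := by
  have hk0 : (0 : ℝ) < k := by exact_mod_cast hk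
  obtain ⟨ξ, hξ, hd⟩ := exists_hasDerivAt_eq_slope (g k)
    (fun x => -(Real.exp (-x) * x ^ k / (k.factorial : ℝ)))
    (show (k : ℝ) + 3 / 4 < (k : ℝ) + 1 by linarith)
    (fun x _ => (hasDeriv_g k x).continuousAt.continuousWithinAt)
    (fun x _ => hasDeriv_g k x)
  have hξ0 : 0 < ξ := by linarith [hξ.1]
  have hsl : g k ((k : ℝ) + 3 / 4) - g k ((k : ℝ) + 1) =
      1 / 4 * (Real.exp (-ξ) * ξ ^ k / (k.factorial : ℝ)) := by
    rw [show ((k : ℝ) + 1 - ((k : ℝ) + 3 / 4)) = 1 / 4 by ring] at hd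
    rw [eq_div_iff (by norm_num)] at hd
    linarith
  have hmax : Real.exp (-ξ) * ξ ^ k ≤ (k / Real.exp 1) ^ k := by
    have h1 : ξ / k ≤ Real.exp (ξ / k - 1) := by
      have := Real.add_one_le_exp (ξ / k - 1)
      linarith
    have h2 : (ξ / k) ^ k ≤ Real.exp (ξ / k - 1) ^ k := pow_le_pow_left₀ (by positivity) h1 _
    rw [← Real.exp_nat_mul] at h2
    have h3 : (k : ℝ) * (ξ / k - 1) = ξ - k := by field_simp
    rw [h3, div_pow, div_le_iff₀ (by positivity)] at h2
    rw [div_pow, ← Real.exp_nat_mul, mul_one, le_div_iff₀ (Real.exp_pos _)]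
    have h4 : Real.exp (-ξ) * ξ ^ k * Real.exp k ≤
        Real.exp (-ξ) * (Real.exp (ξ - k) * (k : ℝ) ^ k) * Real.exp k := by
      apply mul_le_mul_of_nonneg_right _ (Real.exp_pos _).le
      exact mul_le_mul_of_nonneg_left h2 (Real.exp_pos _).le
    refine h4.trans (le_of_eq ?_)
    have h5 : Real.exp (-ξ) * (Real.exp (ξ - k) * (k : ℝ) ^ k) * Real.exp k =
        (Real.exp (-ξ) * Real.exp (ξ - k) * Real.exp k) * (k : ℝ) ^ k := by ring
    rw [h5, ← Real.exp_add, ← Real.exp_add]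
    have : -ξ + (ξ - k) + k = 0 := by ring
    rw [this, Real.exp_zero, one_mul]
  have hst := Stirling.le_factorial_stirling k
  have hfac : (0 : ℝ) < (k.factorial : ℝ) := by positivity
  have hsq : 0 < Real.sqrt (2 * Real.pi * k) := Real.sqrt_pos.mpr (by positivity)
  have hke : (0 : ℝ) < (k / Real.exp 1) ^ k := by positivity
  have h6 : Real.exp (-ξ) * ξ ^ k / (k.factorial : ℝ) ≤ 1 / Real.sqrt (2 * Real.pi * k) := by
    rw [div_le_div_iff₀ hfac hsq, one_mul]
    calc Real.exp (-ξ) * ξ ^ k * Real.sqrt (2 * Real.pi * k)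
        ≤ (k / Real.exp 1) ^ k * Real.sqrt (2 * Real.pi * k) :=
          mul_le_mul_of_nonneg_right hmax hsq.le
      _ = Real.sqrt (2 * Real.pi * k) * (k / Real.exp 1) ^ k := mul_comm _ _
      _ ≤ _ := hst
  linarith

end Poi

open Poi in
theorem poisson_lt_half (k : ℕ) :
    ∑ j ∈ range (k + 1), Real.exp (-((k : ℝ) + 3 / 4)) * ((k : ℝ) + 3 / 4) ^ j /
      (j.factorial : ℝ) < 1 / 2 := by
  change g k ((k : ℝ) + 3 / 4) < 1 / 2
  rcases Nat.lt_or_ge k 2 with hk | hk
  · interval_cases k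
    · simp only [g]
      norm_num
      have h1 : (2 : ℝ) < Real.exp (3 / 4) := by
        have := Real.quadratic_le_exp_of_nonneg (show (0 : ℝ) ≤ 3 / 4 by norm_num)
        norm_num at this
        linarith
      rw [Real.exp_neg]
      rw [inv_lt_comm₀ (Real.exp_pos _) (by norm_num)]
      norm_num
      exact h1
    · simp only [g]
      norm_num [Finset.sum_range_succ]
      have h1 : (11 / 2 : ℝ) < Real.exp (7 / 4) := by
        have := Real.sum_le_exp_of_nonneg (show (0 : ℝ) ≤ 7 / 4 by norm_num) 6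
        norm_num [Finset.sum_range_succ, Nat.factorial] at this
        linarith
      rw [Real.exp_neg]
      have h2 : (Real.exp (7 / 4))⁻¹ < 2 / 11 := by
        rw [inv_lt_comm₀ (Real.exp_pos _) (by norm_num)]
        norm_num
        exact h1
      linarith
  · by_contra hcon
    push Not at hcon
    set Q : ℕ → ℝ := fun j => g j ((j : ℝ) + 3 / 4) with hQ
    have hstep : ∀ j, 2 ≤ j → Q j < Q (j + 1) := by
      intro j hj
      have := Q_lt_succ j hj
      simp only [hQ]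
      push_cast
      exact this
    have hmono : ∀ j, k + 1 ≤ j → Q (k + 1) ≤ Q j := by
      intro j hj
      induction j, hj using Nat.le_induction with
      | base => exact le_rfl
      | succ j hj ih => exact ih.trans (hstep j (by omega)).le
    have hgap : 1 / 2 < Q (k + 1) := lt_of_le_of_lt hcon (hstep k hk)
    have hlim : Filter.Tendsto (fun j : ℕ => 1 / 2 + 1 / 4 * (1 / Real.sqrt (2 * Real.pi * j)))
        Filter.atTop (nhds (1 / 2 + 1 / 4 * 0)) := by
      apply Filter.Tendsto.const_add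
      apply Filter.Tendsto.const_mul
      have h1 : Filter.Tendsto (fun j : ℕ => Real.sqrt (2 * Real.pi * j)) Filter.atTop
          Filter.atTop := by
        apply Real.tendsto_sqrt_atTop.comp
        apply Filter.Tendsto.const_mul_atTop (by positivity)
        exact tendsto_natCast_atTop_atTop
      have h2 := h1.inv_tendsto_atTop
      refine h2.congr fun j => ?_
      simp only [Pi.inv_apply, one_div]
    have h2 : Q (k + 1) ≤ 1 / 2 + 1 / 4 * 0 := by
      apply ge_of_tendsto hlim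
      filter_upwards [Filter.eventually_ge_atTop (k + 1)] with j hj
      have e1 := hmono j hj
      have e2 := Q_sub_R_le j (by omega)
      have e3 := R_le j
      simp only [hQ] at e1 ⊢
      linarith
    linarith

end Pool.Agent.Lib.MP_eb8f1d_pr
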