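import Pool.Agent.Lib.MP_eb8f1d_pr.Hoeffding
import Pool.Agent.Lib.MP_eb8f1d_pr.PoissonHalf

set_option autoImplicit false

namespace Pool.Agent.Lib.MP_eb8f1d_pr

open Finset Polynomial

namespace BH

theorem pb_replicate (r : ℝ) (N : ℕ) : pb (Multiset.replicate N r) = LL r ^ N := by
  rw [pb_eq, Multiset.map_replicate, Multiset.prod_replicate]

theorem cum_LL_pow (r : ℝ) (N k : ℕ) : cum (LL r ^ N) k = ∑ j ∈ range (k + 1), bin N r j := by
  unfold cum
  exact Finset.sum_congr rfl fun j _ => Med.coeff_pow r N j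

theorem emS_replicate (N : ℕ) (r : ℝ) (f : ℝ → ℝ) :
    emS (Multiset.replicate N r) f = N * f r := by
  unfold emS
  rw [Multiset.map_replicate, Multiset.sum_replicate, nsmul_eq_mul]

/-- one splitting step -/
theorem split_one (N k : ℕ) (r : ℝ) (h0 : 0 < r) (h1 : r ≤ 3 / 4) (h : (N : ℝ) * r = k + 3 / 4)
    (i j : ℕ) (hij : i + j + 1 = N) :
    cum (LL r ^ (i + 1) * LL (r / 2) ^ (2 * j)) k ≤
      cum (LL r ^ i * LL (r / 2) ^ (2 * (j + 1))) k := by
  set s : Multiset ℝ := Multiset.replicate i r + Multiset.replicate (2 * j) (r / 2) with hs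
  have hG : pb s = LL r ^ i * LL (r / 2) ^ (2 * j) := by
    rw [hs, pb_add, pb_replicate, pb_replicate]
  have e1 : LL r ^ (i + 1) * LL (r / 2) ^ (2 * j) = LL r * pb s := by
    rw [hG]; ring
  have e2 : LL r ^ i * LL (r / 2) ^ (2 * (j + 1)) = LL (r / 2) * (LL (r / 2) * pb s) := by
    rw [hG]; ring
  rw [e1, e2, cum_LL_mul, cum_LL_LL_mul]
  have hmem : ∀ x ∈ s, 0 ≤ x ∧ x ≤ r := by
    intro x hx
    rw [hs, Multiset.mem_add] at hx
    rcases hx with hx | hx
    · rw [Multiset.eq_of_mem_replicate hx]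
      exact ⟨h0.le, le_rfl⟩
    · rw [Multiset.eq_of_mem_replicate hx]
      constructor <;> linarith
  have hnn : ∀ l, 0 ≤ (pb s).coeff l := by
    intro l
    apply pb_nonneg
    intro x hx
    exact ⟨(hmem x hx).1, by linarith [(hmem x hx).2]⟩
  have key : (X * pb s).coeff k ≤ (pb s).coeff k := by
    cases k with
    | zero =>
      rw [coeff_X_mul_zero]
      exact hnn 0
    | succ k =>
      rw [coeff_X_mul]
      have hsum : s.sum = ((i : ℝ) + j) * r := by
        rw [hs, Multiset.sum_add, Multiset.sum_replicate, Multiset.sum_replicate]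
        simp only [nsmul_eq_mul]
        push_cast
        ring
      have hN : (N : ℝ) = i + j + 1 := by
        rw [← hij]; push_cast; ring
      have hsum2 : s.sum = (k : ℝ) + 1 + 3 / 4 - r := by
        rw [hsum]
        have : ((i : ℝ) + j) * r = N * r - r := by rw [hN]; ring
        rw [this, h]
        push_cast
        ring
      have hD0 : 0 < emS s (fun r => r * (1 - r)) := by
        have e : emS s (fun r => r * (1 - r)) =
            i * (r * (1 - r)) + (2 * j : ℕ) * (r / 2 * (1 - r / 2)) := by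
          rw [hs]
          unfold emS
          rw [Multiset.map_add, Multiset.sum_add]
          rw [Multiset.map_replicate, Multiset.sum_replicate, nsmul_eq_mul,
            Multiset.map_replicate, Multiset.sum_replicate, nsmul_eq_mul]
        rw [e]
        have hk0 : (0 : ℝ) ≤ k := Nat.cast_nonneg k
        have h2 : (1 : ℝ) ≤ ((i : ℝ) + j) * r := by
          rw [← hsum, hsum2]; linarith
        have hi0 : (0 : ℝ) ≤ i := Nat.cast_nonneg i
        have hj0 : (0 : ℝ) ≤ j := Nat.cast_nonneg j
        have h3 : (1 / 4 : ℝ) * (((i : ℝ) + j) * r) ≤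
            i * (r * (1 - r)) + (2 * j : ℕ) * (r / 2 * (1 - r / 2)) := by
          push_cast
          have hi1 : (1 / 4 : ℝ) * (i * r) ≤ i * (r * (1 - r)) := by
            have : (i : ℝ) * (r * (1 - r)) = (1 - r) * (i * r) := by ring
            rw [this]
            apply mul_le_mul_of_nonneg_right (by linarith) (by positivity)
          have hj1 : (1 / 4 : ℝ) * (j * r) ≤ 2 * j * (r / 2 * (1 - r / 2)) := by
            have : 2 * (j : ℝ) * (r / 2 * (1 - r / 2)) = (1 - r / 2) * (j * r) := by ring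
            rw [this]
            apply mul_le_mul_of_nonneg_right (by linarith) (by positivity)
          linarith
        linarith
      have hem := em_base h0 (by linarith : r < 1) s.card s rfl hmem k
        ((k : ℝ) + 1 - s.sum) _ rfl rfl (by
          rw [hsum2]
          nlinarith)
      have hNn : (k : ℝ) + 1 - s.sum ≤ 0 := by rw [hsum2]; linarith
      have hDp : 0 < emS s (fun r => r * (1 - r)) - r * ((k : ℝ) + 1 - s.sum) := by nlinarith
      have hq : ((k : ℝ) + 1 - s.sum) / (emS s (fun r => r * (1 - r)) -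
          r * ((k : ℝ) + 1 - s.sum)) ≤ 0 := div_nonpos_of_nonpos_of_nonneg hNn hDp.le
      refine hem.trans ?_
      have := hnn (k + 1)
      nlinarith
  have : 0 ≤ r / 2 * (r / 2) * ((pb s).coeff k - (X * pb s).coeff k) := by
    apply mul_nonneg (by positivity)
    linarith
  linarith

theorem split_all (N k : ℕ) (r : ℝ) (h0 : 0 < r) (h1 : r ≤ 3 / 4)
    (h : (N : ℝ) * r = k + 3 / 4) :
    cum (LL r ^ N) k ≤ cum (LL (r / 2) ^ (2 * N)) k := by
  have key : ∀ j i : ℕ, i + j = N →
      cum (LL r ^ N) k ≤ cum (LL r ^ i * LL (r / 2) ^ (2 * j)) k := by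
    intro j
    induction j with
    | zero =>
      intro i hi
      rw [Nat.add_zero] at hi
      rw [hi, Nat.mul_zero, pow_zero, mul_one]
    | succ j ih =>
      intro i hi
      exact (ih (i + 1) (by omega)).trans (split_one N k r h0 h1 h i j (by omega))
  have := key N 0 (by omega)
  rwa [pow_zero, one_mul] at this

theorem split_iter (N k : ℕ) (r : ℝ) (h0 : 0 < r) (h1 : r ≤ 3 / 4)
    (h : (N : ℝ) * r = k + 3 / 4) (m : ℕ) :
    cum (LL r ^ N) k ≤ cum (LL (r / 2 ^ m) ^ (2 ^ m * N)) k := by
  induction m with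
  | zero => rw [pow_zero, div_one, pow_zero, one_mul]
  | succ m ih =>
    refine ih.trans ?_
    have h2 : (0 : ℝ) < 2 ^ m := by positivity
    have h3 : (1 : ℝ) ≤ 2 ^ m := one_le_pow₀ (by norm_num)
    have h4 : r / 2 ^ m ≤ 3 / 4 := by
      rw [div_le_iff₀ h2]
      nlinarith
    have h5 := split_all (2 ^ m * N) k (r / 2 ^ m) (by positivity) h4 (by
      push_cast
      rw [← h]
      field_simp)
    have e1 : r / 2 ^ m / 2 = r / 2 ^ (m + 1) := by
      rw [div_div, pow_succ]
    have e2 : 2 * (2 ^ m * N) = 2 ^ (m + 1) * N := by ring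
    rw [e1, e2] at h5
    exact h5

theorem case_small (N k : ℕ) (r : ℝ) (h0 : 0 < r) (h1 : r ≤ 3 / 4)
    (h : (N : ℝ) * r = k + 3 / 4) :
    ∑ j ∈ range (k + 1), bin N r j < 1 / 2 := by
  rw [← cum_LL_pow]
  refine lt_of_le_of_lt ?_ (poisson_lt_half k)
  have hN : 0 < N := by
    rcases Nat.eq_zero_or_pos N with rfl | hN
    · exfalso
      have : (0 : ℝ) ≤ k := Nat.cast_nonneg k
      simp at h
      linarith
    · exact hN
  have hNr : (0 : ℝ) < N := by exact_mod_cast hN
  have hpoi : ∀ j : ℕ, Filter.Tendsto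
      (fun n : ℕ => (n.choose j : ℝ) * (((k : ℝ) + 3 / 4) / n) ^ j *
        (1 - ((k : ℝ) + 3 / 4) / n) ^ (n - j)) Filter.atTop
      (nhds (Real.exp (-((k : ℝ) + 3 / 4)) * ((k : ℝ) + 3 / 4) ^ j / j.factorial)) := by
    intro j
    apply ProbabilityTheory.tendsto_choose_mul_pow_of_tendsto_mul_atTop
      (p := fun n : ℕ => ((k : ℝ) + 3 / 4) / n)
    apply tendsto_const_nhds.congr'
    filter_upwards [Filter.eventually_gt_atTop 0] with n hn
    have : (0 : ℝ) < n := by exact_mod_cast hn
    field_simp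
  have hsub : Filter.Tendsto (fun m : ℕ => 2 ^ m * N) Filter.atTop Filter.atTop := by
    apply Filter.tendsto_atTop_mono (f := fun m => m)
    · intro m
      have := Nat.lt_two_pow_self (n := m)
      nlinarith
    · exact Filter.tendsto_id
  have hterm : ∀ j : ℕ, Filter.Tendsto (fun m : ℕ => bin (2 ^ m * N) (r / 2 ^ m) j) Filter.atTop
      (nhds (Real.exp (-((k : ℝ) + 3 / 4)) * ((k : ℝ) + 3 / 4) ^ j / j.factorial)) := by
    intro j
    refine ((hpoi j).comp hsub).congr fun m => ?_
    simp only [Function.comp_apply]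
    unfold bin
    have e : ((k : ℝ) + 3 / 4) / ((2 ^ m * N : ℕ) : ℝ) = r / 2 ^ m := by
      rw [← h]
      push_cast
      field_simp
    rw [e]
  have hsum : Filter.Tendsto (fun m : ℕ => cum (LL (r / 2 ^ m) ^ (2 ^ m * N)) k) Filter.atTop
      (nhds (∑ j ∈ range (k + 1), Real.exp (-((k : ℝ) + 3 / 4)) * ((k : ℝ) + 3 / 4) ^ j /
        (j.factorial : ℝ))) := by
    have := tendsto_finsetSum (range (k + 1)) fun j _ => hterm j
    refine this.congr fun m => ?_
    rw [cum_LL_pow]
  exact ge_of_tendsto' hsum (split_iter N k r h0 h1 h)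

theorem case_large (N k : ℕ) (r : ℝ) (h0 : 3 / 4 < r) (h1 : r < 1)
    (h : (N : ℝ) * r = k + 3 / 4) :
    ∑ j ∈ range (k + 1), bin N r j < 1 / 2 := by
  have hk0 : (0 : ℝ) ≤ k := Nat.cast_nonneg k
  have hN : 0 < N := by
    rcases Nat.eq_zero_or_pos N with rfl | hN
    · exfalso
      simp at h
      linarith
    · exact hN
  have hNr : (0 : ℝ) < N := by exact_mod_cast hN
  have hkN : k + 1 ≤ N := by
    have : (k : ℝ) < N := by nlinarith
    have : k < N := by exact_mod_cast this
    omega
  obtain ⟨m, hm⟩ : ∃ m, k + 1 + m = N := ⟨N - (k + 1), by omega⟩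
  set r' : ℝ := r - 1 / (4 * N) with hr'
  have hN1 : (1 : ℝ) ≤ N := by exact_mod_cast hN
  have hq : 1 / (4 * (N : ℝ)) ≤ 1 / 4 := by
    rw [div_le_div_iff₀ (by positivity) (by norm_num)]
    linarith
  have hq0 : 0 < 1 / (4 * (N : ℝ)) := by positivity
  have hr'1 : 1 / 2 ≤ r' := by rw [hr']; linarith
  have hr'2 : r' < r := by rw [hr']; linarith
  have hNr' : (N : ℝ) * r' = k + 1 / 2 := by
    rw [hr', mul_sub, h]
    have : (N : ℝ) * (1 / (4 * N)) = 1 / 4 := by field_simp
    rw [this]; ring
  have hmR : (k : ℝ) + 1 + m = N := by exact_mod_cast hm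
  -- reflection
  have hhalf := Med.half_le N (1 - r') (by linarith) (by linarith) m (by
    rw [mul_sub, hNr']; linarith)
  have hrefl : ∑ j ∈ range (m + 1), bin N (1 - r') j = 1 - ∑ j ∈ range (k + 1), bin N r' j := by
    have hs := Med.sum_bin N r'
    have hNN : N + 1 = (k + 1) + (m + 1) := by omega
    rw [hNN, Finset.sum_range_add] at hs
    have : ∑ j ∈ range (m + 1), bin N (1 - r') j = ∑ i ∈ range (m + 1), bin N r' (k + 1 + i) := by
      rw [← Finset.sum_range_reflect]
      refine Finset.sum_congr rfl fun i hi => ?_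
      have hi' : i < m + 1 := Finset.mem_range.mp hi
      unfold bin
      have e1 : m + 1 - 1 - i = N - (k + 1 + i) := by omega
      have hle : k + 1 + i ≤ N := by omega
      rw [e1, Nat.choose_symm hle, show N - (N - (k + 1 + i)) = k + 1 + i by omega,
        show 1 - (1 - r') = r' by ring]
      ring
    rw [this]
    linarith
  rw [hrefl] at hhalf
  have hanti : StrictAntiOn (fun y : ℝ => ∑ j ∈ range (k + 1), bin N y j) (Set.Icc r' r) := by
    apply strictAntiOn_of_deriv_neg (convex_Icc r' r)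
    · intro x _
      exact (Med.deriv_cdf N x k m hm).continuousAt.continuousWithinAt
    · intro x hx
      rw [interior_Icc] at hx
      rw [(Med.deriv_cdf N x k m hm).deriv]
      have hx0 : 0 < x := by linarith [hx.1]
      have hx1 : 0 < 1 - x := by linarith [hx.2]
      have hc : (0 : ℝ) < (N.choose k : ℝ) := by exact_mod_cast Nat.choose_pos (by omega)
      have : 0 < ((m : ℝ) + 1) * (N.choose k : ℝ) * x ^ k * (1 - x) ^ m := by positivity
      linarith
  have hlt := hanti (Set.left_mem_Icc.mpr hr'2.le) (Set.right_mem_Icc.mpr hr'2.le) hr'2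
  simp only at hlt
  linarith

end BH

theorem bin_lt_half (N k : ℕ) (r : ℝ) (h0 : 0 < r) (h1 : r < 1) (h : N * r = k + 3 / 4) :
    ∑ j ∈ range (k + 1), bin N r j < 1 / 2 := by
  rcases le_or_gt r (3 / 4) with hr | hr
  · exact BH.case_small N k r h0 hr h
  · exact BH.case_large N k r hr h1 h

end Pool.Agent.Lib.MP_eb8f1d_pr
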