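import Pool.Agent.Lib.MP_eb8f1d_pr.Medians

set_option autoImplicit false

namespace Pool.Agent.Lib.MP_eb8f1d_pr

open Finset

namespace ER

theorem bin_succ' (N : ℕ) (r : ℝ) (j : ℕ) :
    bin N r (j + 1) * (((j : ℝ) + 1) * (1 - r)) = bin N r j * (((N : ℝ) - j) * r) := by
  rcases Nat.lt_or_ge j N with h | h
  · exact Med.bin_succ N r j h
  · rw [Med.bin_zero (by omega : N < j + 1)]
    rcases Nat.eq_or_lt_of_le h with h | h
    · subst h; simp
    · rw [Med.bin_zero h]; simp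

/-- partial Stein identity -/
theorem stein (N : ℕ) (r : ℝ) (ψ : ℕ → ℝ) (k : ℕ) :
    ∑ j ∈ range (k + 1), (((N : ℝ) - j) * r * ψ (j + 1) - j * (1 - r) * ψ j) * bin N r j =
      ((N : ℝ) - k) * r * ψ (k + 1) * bin N r k := by
  induction k with
  | zero => simp
  | succ k ih =>
    rw [Finset.sum_range_succ, ih]
    have h := bin_succ' N r k
    push_cast
    linear_combination (-(ψ (k + 1))) * h

theorem stein_all (N : ℕ) (r : ℝ) (ψ : ℕ → ℝ) :
    ∑ j ∈ range (N + 1), (((N : ℝ) - j) * r * ψ (j + 1) - j * (1 - r) * ψ j) * bin N r j = 0 := by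
  rw [stein]
  ring

/-- `E y = 0` -/
theorem mom1 (N : ℕ) (r : ℝ) : ∑ j ∈ range (N + 1), ((j : ℝ) - N * r) * bin N r j = 0 := by
  have h := stein_all N r (fun _ => -1)
  rw [← h]
  refine Finset.sum_congr rfl fun j _ => by ring

/-- `E y ^ 2 = v` -/
theorem mom2 (N : ℕ) (r : ℝ) : ∑ j ∈ range (N + 1), ((j : ℝ) - N * r) ^ 2 * bin N r j =
    N * r * (1 - r) := by
  have h := stein_all N r (fun j => (j : ℝ) - N * r)
  have e : ∀ j ∈ range (N + 1), (((N : ℝ) - j) * r * (((j + 1 : ℕ) : ℝ) - N * r) -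
      j * (1 - r) * ((j : ℝ) - N * r)) * bin N r j =
      (N * r * (1 - r)) * bin N r j - r * (((j : ℝ) - N * r) * bin N r j) -
        ((j : ℝ) - N * r) ^ 2 * bin N r j := by
    intro j _
    push_cast
    ring
  rw [Finset.sum_congr rfl e, Finset.sum_sub_distrib, Finset.sum_sub_distrib, ← Finset.mul_sum,
    ← Finset.mul_sum, mom1, Med.sum_bin] at h
  linarith

theorem mom3 (N : ℕ) (r : ℝ) : ∑ j ∈ range (N + 1), ((j : ℝ) - N * r) ^ 3 * bin N r j =
    N * r * (1 - r) * (1 - 2 * r) := by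
  have h := stein_all N r (fun j => ((j : ℝ) - N * r) ^ 2)
  have e : ∀ j ∈ range (N + 1), (((N : ℝ) - j) * r * (((j + 1 : ℕ) : ℝ) - N * r) ^ 2 -
      j * (1 - r) * ((j : ℝ) - N * r) ^ 2) * bin N r j =
      (N * r * (1 - r)) * bin N r j + (2 * (N * r * (1 - r)) - r) *
        (((j : ℝ) - N * r) * bin N r j) - 2 * r * (((j : ℝ) - N * r) ^ 2 * bin N r j) -
        ((j : ℝ) - N * r) ^ 3 * bin N r j := by
    intro j _
    push_cast
    ring
  rw [Finset.sum_congr rfl e, Finset.sum_sub_distrib, Finset.sum_sub_distrib,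
    Finset.sum_add_distrib, ← Finset.mul_sum, ← Finset.mul_sum, ← Finset.mul_sum, mom1, mom2,
    Med.sum_bin] at h
  linarith

theorem mom4 (N : ℕ) (r : ℝ) : ∑ j ∈ range (N + 1), ((j : ℝ) - N * r) ^ 4 * bin N r j =
    3 * (N * r * (1 - r)) ^ 2 + N * r * (1 - r) * (1 - 6 * r * (1 - r)) := by
  have h := stein_all N r (fun j => ((j : ℝ) - N * r) ^ 3)
  have e : ∀ j ∈ range (N + 1), (((N : ℝ) - j) * r * (((j + 1 : ℕ) : ℝ) - N * r) ^ 3 -
      j * (1 - r) * ((j : ℝ) - N * r) ^ 3) * bin N r j =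
      (N * r * (1 - r)) * bin N r j + (3 * (N * r * (1 - r)) - r) *
        (((j : ℝ) - N * r) * bin N r j) + (3 * (N * r * (1 - r)) - 3 * r) *
        (((j : ℝ) - N * r) ^ 2 * bin N r j) - 3 * r *
        (((j : ℝ) - N * r) ^ 3 * bin N r j) -
        ((j : ℝ) - N * r) ^ 4 * bin N r j := by
    intro j _
    push_cast
    ring
  rw [Finset.sum_congr rfl e, Finset.sum_sub_distrib, Finset.sum_sub_distrib,
    Finset.sum_add_distrib, Finset.sum_add_distrib, ← Finset.mul_sum, ← Finset.mul_sum,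
    ← Finset.mul_sum, ← Finset.mul_sum, mom1, mom2, mom3, Med.sum_bin] at h
  linarith

/-- one-sided first moment -/
theorem one1 (N k : ℕ) (r : ℝ) :
    ∑ j ∈ range (k + 1), ((k : ℝ) - j) * bin N r j =
      (k - N * r) * ∑ j ∈ range (k + 1), bin N r j + (N - k) * r * bin N r k := by
  have h := stein N r (fun _ => 1) k
  have e : ∀ j ∈ range (k + 1), (((N : ℝ) - j) * r * 1 - j * (1 - r) * 1) * bin N r j =
      ((k : ℝ) - j) * bin N r j - (k - N * r) * bin N r j := by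
    intro j _
    ring
  rw [Finset.sum_congr rfl e, Finset.sum_sub_distrib, ← Finset.mul_sum] at h
  linarith

/-- one-sided third moment -/
theorem one3 (N k : ℕ) (r : ℝ) :
    ∑ j ∈ range (k + 1), ((k : ℝ) - j) ^ 3 * bin N r j =
      (k - N * r) * ∑ j ∈ range (k + 1), ((k : ℝ) - j) ^ 2 * bin N r j +
      (1 - r) * (2 * k * ∑ j ∈ range (k + 1), ((k : ℝ) - j) * bin N r j +
        k * ∑ j ∈ range (k + 1), bin N r j -
        2 * ∑ j ∈ range (k + 1), ((k : ℝ) - j) ^ 2 * bin N r j -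
        ∑ j ∈ range (k + 1), ((k : ℝ) - j) * bin N r j) := by
  have h := stein N r (fun j => ((k : ℝ) + 1 - j) ^ 2) k
  have e : ∀ j ∈ range (k + 1), (((N : ℝ) - j) * r * ((k : ℝ) + 1 - ((j + 1 : ℕ) : ℝ)) ^ 2 -
      j * (1 - r) * ((k : ℝ) + 1 - j) ^ 2) * bin N r j =
      ((k : ℝ) - j) ^ 3 * bin N r j - (k - N * r) * (((k : ℝ) - j) ^ 2 * bin N r j) -
      (1 - r) * ((2 * k - 1) * (((k : ℝ) - j) * bin N r j) +
        k * bin N r j - 2 * (((k : ℝ) - j) ^ 2 * bin N r j)) := by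
    intro j _
    push_cast
    ring
  rw [Finset.sum_congr rfl e, Finset.sum_sub_distrib, Finset.sum_sub_distrib, ← Finset.mul_sum,
    ← Finset.mul_sum, Finset.sum_sub_distrib, Finset.sum_add_distrib, ← Finset.mul_sum,
    ← Finset.mul_sum, ← Finset.mul_sum] at h
  push_cast at h
  linarith

theorem sum2_le (N k : ℕ) (r C : ℝ) (h0 : 0 < r) (h1 : r < 1) (hC : |(k : ℝ) - N * r| ≤ C) :
    ∑ j ∈ range (N + 1), ((k : ℝ) - j) ^ 2 * bin N r j ≤ C ^ 2 + N * r * (1 - r) := by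
  have e : ∀ j ∈ range (N + 1), ((k : ℝ) - j) ^ 2 * bin N r j =
      (k - N * r) ^ 2 * bin N r j - 2 * (k - N * r) * (((j : ℝ) - N * r) * bin N r j) +
        ((j : ℝ) - N * r) ^ 2 * bin N r j := by
    intro j _
    ring
  rw [Finset.sum_congr rfl e, Finset.sum_add_distrib, Finset.sum_sub_distrib, ← Finset.mul_sum,
    ← Finset.mul_sum, mom1, mom2, Med.sum_bin]
  have : ((k : ℝ) - N * r) ^ 2 ≤ C ^ 2 := by
    rw [← sq_abs]
    exact pow_le_pow_left₀ (abs_nonneg _) hC 2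
  linarith

theorem sum4_le (N k : ℕ) (r C : ℝ) (h0 : 0 < r) (h1 : r < 1) (hC : |(k : ℝ) - N * r| ≤ C) :
    ∑ j ∈ range (N + 1), ((k : ℝ) - j) ^ 4 * bin N r j ≤
      8 * C ^ 4 + 8 * (3 * (N * r * (1 - r)) ^ 2 + N * r * (1 - r)) := by
  have e : ∀ j ∈ range (N + 1), ((k : ℝ) - j) ^ 4 * bin N r j ≤
      8 * (k - N * r) ^ 4 * bin N r j + 8 * (((j : ℝ) - N * r) ^ 4 * bin N r j) := by
    intro j _
    have hb : 0 ≤ bin N r j := Med.bin_nonneg h0.le h1.le j
    have h2 : ((k : ℝ) - j) ^ 4 ≤ 8 * (k - N * r) ^ 4 + 8 * ((j : ℝ) - N * r) ^ 4 := by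
      have hx : (k : ℝ) - j = (k - N * r) - ((j : ℝ) - N * r) := by ring
      rw [hx]
      generalize (k : ℝ) - N * r = x
      generalize (j : ℝ) - N * r = y
      have h3 : (x - y) ^ 2 ≤ 2 * x ^ 2 + 2 * y ^ 2 := by nlinarith [sq_nonneg (x + y)]
      have h4 : (x - y) ^ 4 ≤ (2 * x ^ 2 + 2 * y ^ 2) ^ 2 := by
        have : (x - y) ^ 4 = ((x - y) ^ 2) ^ 2 := by ring
        rw [this]
        exact pow_le_pow_left₀ (sq_nonneg _) h3 2
      nlinarith [sq_nonneg (x ^ 2 - y ^ 2)]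
    nlinarith
  refine (Finset.sum_le_sum e).trans ?_
  rw [Finset.sum_add_distrib, ← Finset.mul_sum, ← Finset.mul_sum, mom4, Med.sum_bin]
  have h5 : ((k : ℝ) - N * r) ^ 4 ≤ C ^ 4 := by
    have : ((k : ℝ) - N * r) ^ 4 = |(k : ℝ) - N * r| ^ 4 := by
      rw [← abs_pow, abs_of_nonneg (by positivity)]
    rw [this]
    exact pow_le_pow_left₀ (abs_nonneg _) hC 4
  have h6 : 0 ≤ (N : ℝ) * r * (1 - r) := by
    have : 0 ≤ 1 - r := by linarith
    positivity
  have h7 : (N : ℝ) * r * (1 - r) * (1 - 6 * r * (1 - r)) ≤ N * r * (1 - r) := by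
    have : 0 ≤ 6 * r * (1 - r) := by
      have : 0 ≤ 1 - r := by linarith
      positivity
    nlinarith
  linarith

/-- lower bound for the weight near the mean -/
theorem bin_lower (N k : ℕ) (r C : ℝ) (h0 : 0 < r) (h1 : r < 1) (hkN : k ≤ N)
    (hC : |(k : ℝ) - N * r| ≤ C) (hv : (C + 1) ^ 2 * 256 ≤ N * r * (1 - r)) :
    1 ≤ 256 * (N * r * (1 - r)) * bin N r k ^ 2 := by
  set v : ℝ := N * r * (1 - r) with hvdef
  have hC0 : 0 ≤ C := (abs_nonneg _).trans hC
  have hvpos : 0 < v := by nlinarith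
  set s := Real.sqrt v with hs
  have hs0 : 0 < s := Real.sqrt_pos.mpr hvpos
  have hss : s ^ 2 = v := Real.sq_sqrt hvpos.le
  have hsC : 16 * (C + 1) ≤ s := by
    apply Real.le_sqrt_of_sq_le
    nlinarith
  have hv1 : 1 ≤ v := by nlinarith
  have hb : ∀ j, 0 ≤ bin N r j := fun j => Med.bin_nonneg h0.le h1.le j
  -- lower bound for the absolute moment
  have habs : 3 / 8 * s ≤ ∑ j ∈ range (N + 1), |(j : ℝ) - N * r| * bin N r j := by
    have hpt : ∀ j ∈ range (N + 1),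
        1 / (2 * s) * (((j : ℝ) - N * r) ^ 2 * bin N r j) -
          1 / (32 * s ^ 3) * (((j : ℝ) - N * r) ^ 4 * bin N r j) ≤
        |(j : ℝ) - N * r| * bin N r j := by
      intro j _
      have h2 : 1 / (2 * s) * ((j : ℝ) - N * r) ^ 2 - 1 / (32 * s ^ 3) * ((j : ℝ) - N * r) ^ 4 ≤
          |(j : ℝ) - N * r| := by
        have e2 : ((j : ℝ) - N * r) ^ 2 = |(j : ℝ) - N * r| ^ 2 := (sq_abs _).symm
        have e4 : ((j : ℝ) - N * r) ^ 4 = |(j : ℝ) - N * r| ^ 4 := by
          rw [← abs_pow, abs_of_nonneg (by positivity)]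
        rw [e2, e4]
        have hy0 : 0 ≤ |(j : ℝ) - N * r| := abs_nonneg _
        generalize |(j : ℝ) - N * r| = y at hy0 ⊢
        rcases le_or_gt y (2 * s) with hy | hy
        · have h3 : 1 / (2 * s) * y ^ 2 ≤ y := by
            rw [one_div_mul_eq_div, div_le_iff₀ (by positivity)]
            nlinarith
          have h4 : 0 ≤ 1 / (32 * s ^ 3) * y ^ 4 := by positivity
          linarith
        · have h3 : 1 / (2 * s) * y ^ 2 - 1 / (32 * s ^ 3) * y ^ 4 =
              2 * s - (y ^ 2 - 8 * s ^ 2) ^ 2 / (32 * s ^ 3) := by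
            field_simp
            ring
          have h4 : 0 ≤ (y ^ 2 - 8 * s ^ 2) ^ 2 / (32 * s ^ 3) := by positivity
          linarith
      have := mul_le_mul_of_nonneg_right h2 (hb j)
      linarith
    have hsum := Finset.sum_le_sum hpt
    rw [Finset.sum_sub_distrib, ← Finset.mul_sum, ← Finset.mul_sum, mom2, mom4, ← hvdef] at hsum
    refine le_trans ?_ hsum
    have h5 : 3 * v ^ 2 + v * (1 - 6 * r * (1 - r)) ≤ 4 * v ^ 2 := by
      have : 0 ≤ 6 * r * (1 - r) := by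
        have : 0 ≤ 1 - r := by linarith
        positivity
      nlinarith
    have h6 : 1 / (32 * s ^ 3) * (3 * v ^ 2 + v * (1 - 6 * r * (1 - r))) ≤
        1 / (32 * s ^ 3) * (4 * v ^ 2) := mul_le_mul_of_nonneg_left h5 (by positivity)
    have h7 : 1 / (32 * s ^ 3) * (4 * v ^ 2) = s / 8 := by
      rw [← hss]
      field_simp
      ring
    have h8 : 1 / (2 * s) * v = s / 2 := by
      rw [← hss]
      field_simp
    linarith
  have hR := stein N r (fun _ => 1) k
  have hR' : ∑ j ∈ range (k + 1), (-((j : ℝ) - N * r)) * bin N r j =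
      ((N : ℝ) - k) * r * bin N r k := by
    rw [mul_one] at hR
    rw [← hR]
    refine Finset.sum_congr rfl fun j _ => by ring
  have hkN1 : N + 1 = (k + 1) + (N - k) := by omega
  have hall := mom1 N r
  have hmass := Med.sum_bin N r
  rw [hkN1, Finset.sum_range_add] at hall hmass habs
  have hneg : ∑ j ∈ range (k + 1), (-((j : ℝ) - N * r)) * bin N r j =
      -∑ j ∈ range (k + 1), ((j : ℝ) - N * r) * bin N r j := by
    rw [← Finset.sum_neg_distrib]
    refine Finset.sum_congr rfl fun j _ => by ring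
  have hlow : ∑ j ∈ range (k + 1), |(j : ℝ) - N * r| * bin N r j ≤
      ∑ j ∈ range (k + 1), (-((j : ℝ) - N * r)) * bin N r j +
        2 * C * ∑ j ∈ range (k + 1), bin N r j := by
    rw [Finset.mul_sum, ← Finset.sum_add_distrib]
    refine Finset.sum_le_sum fun j hj => ?_
    have hjk : (j : ℝ) ≤ k := by
      have := Finset.mem_range.mp hj
      exact_mod_cast (by omega : j ≤ k)
    have h2 : |(j : ℝ) - N * r| ≤ -((j : ℝ) - N * r) + 2 * C := by
      rw [abs_le]
      have := (abs_le.mp hC).2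
      constructor <;> linarith
    have := mul_le_mul_of_nonneg_right h2 (hb j)
    linarith
  have hup : ∑ x ∈ range (N - k), |((k + 1 + x : ℕ) : ℝ) - N * r| * bin N r (k + 1 + x) ≤
      ∑ x ∈ range (N - k), (((k + 1 + x : ℕ) : ℝ) - N * r) * bin N r (k + 1 + x) +
        2 * C * ∑ x ∈ range (N - k), bin N r (k + 1 + x) := by
    rw [Finset.mul_sum, ← Finset.sum_add_distrib]
    refine Finset.sum_le_sum fun j hj => ?_
    have hjk : (k : ℝ) ≤ ((k + 1 + j : ℕ) : ℝ) := by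
      exact_mod_cast (by omega : k ≤ k + 1 + j)
    have h2 : |((k + 1 + j : ℕ) : ℝ) - N * r| ≤ (((k + 1 + j : ℕ) : ℝ) - N * r) + 2 * C := by
      rw [abs_le]
      have := (abs_le.mp hC).1
      constructor <;> linarith
    have := mul_le_mul_of_nonneg_right h2 (hb (k + 1 + j))
    linarith
  have hRR : s / 8 ≤ ((N : ℝ) - k) * r * bin N r k := by
    have e1 : 2 * C * ∑ j ∈ range (k + 1), bin N r j +
        2 * C * ∑ x ∈ range (N - k), bin N r (k + 1 + x) = 2 * C := by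
      rw [← mul_add, hmass, mul_one]
    linarith
  have hNk : ((N : ℝ) - k) * r ≤ 2 * v := by
    have e1 : ((N : ℝ) - k) * r = v - r * (k - N * r) := by rw [hvdef]; ring
    have h2 := (abs_le.mp hC).1
    rw [e1]
    nlinarith
  have h9 : s / 8 ≤ 2 * v * bin N r k :=
    hRR.trans (mul_le_mul_of_nonneg_right hNk (hb k))
  have h10 : (s / 8) ^ 2 ≤ (2 * v * bin N r k) ^ 2 :=
    pow_le_pow_left₀ (by positivity) h9 2
  have h11 : (s / 8) ^ 2 = v / 64 := by rw [← hss]; ring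
  rw [h11] at h10
  have h12 : (2 * v * bin N r k) ^ 2 = v * (4 * v * bin N r k ^ 2) := by ring
  rw [h12] at h10
  have h13 : v * (1 / 64) ≤ v * (4 * v * bin N r k ^ 2) := by linarith
  have h14 := le_of_mul_le_mul_left h13 hvpos
  linarith

end ER

end Pool.Agent.Lib.MP_eb8f1d_pr
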