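import Pool.Agent.Lib.MP_eb8f1d_pr.BinMoments

set_option autoImplicit false

namespace Pool.Agent.Lib.MP_eb8f1d_pr

open Finset

namespace ER

/-- the ratio factor -/
noncomputable def tt (x y p q e : ℝ) (i : ℕ) : ℝ :=
  ((1 - x * e) ^ 2 - p * ((i : ℝ) * e) ^ 2) / ((1 + y * e) ^ 2 - q * ((i : ℝ) * e) ^ 2)

/-- the ratio `f (k + 1 + i) / f (k - i)` -/
noncomputable def hh (x y p q e : ℝ) : ℕ → ℝ
  | 0 => (1 - x * e) / (1 + y * e)
  | (i + 1) => tt x y p q e (i + 1) * hh x y p q e i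

/-- cubic approximation of the ratio -/
noncomputable def PP (x y p q e : ℝ) (i : ℕ) : ℝ :=
  1 - 2 * (x + y) * e * i + (q - p) / 3 * e ^ 2 * (i : ℝ) ^ 3

theorem tt_est {x y p q e B : ℝ} (hB : 1 ≤ B) (hx : |x| ≤ B) (hy : |y| ≤ B) (hp0 : 0 ≤ p)
    (hp1 : p ≤ 1) (hq0 : 0 ≤ q) (hq1 : q ≤ 1) (he0 : 0 ≤ e) (he1 : B * e ≤ 1 / 8) (i : ℕ)
    (hs : ((i : ℝ) * e) ^ 2 ≤ 1 / 8) :
    |tt x y p q e i - (1 - 2 * (x + y) * e + (q - p) * ((i : ℝ) * e) ^ 2)| ≤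
      100 * B ^ 3 * (e ^ 2 + (((i : ℝ) * e) ^ 2) ^ 2) := by
  set s : ℝ := ((i : ℝ) * e) ^ 2 with hsdef
  have hs0 : 0 ≤ s := sq_nonneg _
  have hx1 := (abs_le.mp hx).1
  have hx2 := (abs_le.mp hx).2
  have hy1 := (abs_le.mp hy).1
  have hy2 := (abs_le.mp hy).2
  have he8 : e ≤ 1 / 8 := by nlinarith only [hB, he0, he1]
  set D : ℝ := (1 + y * e) ^ 2 - q * s with hD
  have hye : -(1 / 8) ≤ y * e := by nlinarith only [he0, he1, hy1]
  have hD2 : 1 / 2 ≤ D := by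
    have h1 : (7 / 8 : ℝ) ^ 2 ≤ (1 + y * e) ^ 2 := pow_le_pow_left₀ (by norm_num) (by linarith) 2
    have h2 : q * s ≤ 1 / 8 := by nlinarith
    rw [hD]
    norm_num at h1
    linarith
  have hDpos : 0 < D := by linarith
  have e1 : tt x y p q e i - (1 - 2 * (x + y) * e + (q - p) * s) =
      (e ^ 2 * (x ^ 2 - y ^ 2 + 4 * y * (x + y)) + 2 * (x + y) * y ^ 2 * e ^ 3 -
        2 * (x + y) * q * (e * s) - (q - p) * (2 * y * (e * s) + y ^ 2 * e ^ 2 * s - q * s ^ 2)) /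
        D := by
    unfold tt
    rw [← hsdef, ← hD]
    rw [eq_div_iff hDpos.ne', sub_mul, div_mul_cancel₀ _ hDpos.ne', hD]
    ring
  rw [e1, abs_div, abs_of_pos hDpos, div_le_iff₀ hDpos]
  have hB0 : 0 < B := by linarith
  have hB2 : 1 ≤ B ^ 2 := one_le_pow₀ hB
  have hB3 : B ^ 2 ≤ B ^ 3 := by nlinarith only [hB]
  have hx2 : x ^ 2 ≤ B ^ 2 := by rw [← sq_abs]; exact pow_le_pow_left₀ (abs_nonneg _) hx 2
  have hy2' : y ^ 2 ≤ B ^ 2 := by rw [← sq_abs]; exact pow_le_pow_left₀ (abs_nonneg _) hy 2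
  have hxy : |x + y| ≤ 2 * B := (abs_add_le x y).trans (by linarith)
  have hqp : |q - p| ≤ 1 := by rw [abs_le]; constructor <;> linarith
  have hes : e * s ≤ e ^ 2 + s ^ 2 := by nlinarith only [sq_nonneg (e - s)]
  have hes0 : 0 ≤ e * s := mul_nonneg he0 hs0
  have t1 : |e ^ 2 * (x ^ 2 - y ^ 2 + 4 * y * (x + y))| ≤ e ^ 2 * (10 * B ^ 3) := by
    rw [abs_mul, abs_of_nonneg (sq_nonneg e)]
    apply mul_le_mul_of_nonneg_left _ (sq_nonneg e)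
    have a1 : |x ^ 2 - y ^ 2| ≤ B ^ 2 := by
      rw [abs_le]; constructor <;> nlinarith [sq_nonneg x, sq_nonneg y]
    have a2 : |4 * y * (x + y)| ≤ 8 * B ^ 2 := by
      rw [abs_mul, abs_mul]
      have : |(4 : ℝ)| = 4 := by norm_num
      rw [this]
      have : |y| * |x + y| ≤ B * (2 * B) := mul_le_mul hy hxy (abs_nonneg _) hB0.le
      nlinarith only [this]
    have := abs_add_le (x ^ 2 - y ^ 2) (4 * y * (x + y))
    nlinarith only [a1, a2, hB2, hB3, this]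
  have t2 : |2 * (x + y) * y ^ 2 * e ^ 3| ≤ e ^ 2 * B ^ 3 := by
    rw [abs_mul, abs_mul, abs_mul, abs_of_nonneg (sq_nonneg y),
      abs_of_nonneg (show 0 ≤ e ^ 3 by positivity)]
    have : |(2 : ℝ)| = 2 := by norm_num
    rw [this]
    have a1 : |x + y| * y ^ 2 ≤ 2 * B * B ^ 2 := mul_le_mul hxy hy2' (sq_nonneg _) (by linarith)
    have a2 : 2 * |x + y| * y ^ 2 * e ^ 3 = 2 * (|x + y| * y ^ 2) * (e * e ^ 2) := by ring
    rw [a2]
    have a3 : 2 * (|x + y| * y ^ 2) ≤ 4 * B ^ 3 := by nlinarith only [a1]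
    have a4 : 2 * (|x + y| * y ^ 2) * (e * e ^ 2) ≤ 4 * B ^ 3 * (e * e ^ 2) :=
      mul_le_mul_of_nonneg_right a3 (by positivity)
    have a5 : e * e ^ 2 ≤ 1 / 8 * e ^ 2 := mul_le_mul_of_nonneg_right he8 (sq_nonneg _)
    have a6 : 4 * B ^ 3 * (e * e ^ 2) ≤ 4 * B ^ 3 * (1 / 8 * e ^ 2) :=
      mul_le_mul_of_nonneg_left a5 (by positivity)
    have a7 : 0 ≤ B ^ 3 * e ^ 2 := by positivity
    linarith
  have t3 : |2 * (x + y) * q * (e * s)| ≤ 4 * B ^ 3 * (e ^ 2 + s ^ 2) := by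
    rw [abs_mul, abs_mul, abs_mul, abs_of_nonneg hq0, abs_of_nonneg hes0]
    have : |(2 : ℝ)| = 2 := by norm_num
    rw [this]
    have a1 : 2 * |x + y| * q ≤ 4 * B ^ 3 := by
      have : |x + y| * q ≤ 2 * B * 1 := mul_le_mul hxy hq1 hq0 (by linarith)
      nlinarith only [hB, hB2, hB3, this]
    exact mul_le_mul a1 hes hes0 (by positivity)
  have t4 : |(q - p) * (2 * y * (e * s) + y ^ 2 * e ^ 2 * s - q * s ^ 2)| ≤
      5 * B ^ 3 * (e ^ 2 + s ^ 2) := by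
    rw [abs_mul]
    have a1 : |2 * y * (e * s)| ≤ 2 * B ^ 3 * (e ^ 2 + s ^ 2) := by
      rw [abs_mul, abs_mul, abs_of_nonneg hes0]
      have : |(2 : ℝ)| = 2 := by norm_num
      rw [this]
      exact mul_le_mul (by nlinarith only [hB, hB2, hB3, hy]) hes hes0 (by positivity)
    have a2 : |y ^ 2 * e ^ 2 * s| ≤ B ^ 3 * (e ^ 2 + s ^ 2) := by
      rw [abs_of_nonneg (by positivity)]
      have : y ^ 2 * e ^ 2 * s = y ^ 2 * (e ^ 2 * s) := by ring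
      rw [this]
      refine mul_le_mul (by linarith) ?_ (by positivity) (by positivity)
      nlinarith only [hs, sq_nonneg e, sq_nonneg s]
    have a3 : |q * s ^ 2| ≤ B ^ 3 * (e ^ 2 + s ^ 2) := by
      rw [abs_of_nonneg (by positivity)]
      refine mul_le_mul (by linarith) (by nlinarith only [sq_nonneg e]) (by positivity) (by positivity)
    have a4 := abs_sub (2 * y * (e * s) + y ^ 2 * e ^ 2 * s) (q * s ^ 2)
    have a5 := abs_add_le (2 * y * (e * s)) (y ^ 2 * e ^ 2 * s)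
    have a6 : |2 * y * (e * s) + y ^ 2 * e ^ 2 * s - q * s ^ 2| ≤
      5 * B ^ 3 * (e ^ 2 + s ^ 2) := by
      have : 0 ≤ B ^ 3 * (e ^ 2 + s ^ 2) := by positivity
      linarith
    calc |q - p| * |2 * y * (e * s) + y ^ 2 * e ^ 2 * s - q * s ^ 2| ≤
        1 * (5 * B ^ 3 * (e ^ 2 + s ^ 2)) := mul_le_mul hqp a6 (abs_nonneg _) (by norm_num)
      _ = _ := by ring
  have h1 := abs_sub (e ^ 2 * (x ^ 2 - y ^ 2 + 4 * y * (x + y)) + 2 * (x + y) * y ^ 2 * e ^ 3 -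
        2 * (x + y) * q * (e * s)) ((q - p) * (2 * y * (e * s) + y ^ 2 * e ^ 2 * s - q * s ^ 2))
  have h2 := abs_sub (e ^ 2 * (x ^ 2 - y ^ 2 + 4 * y * (x + y)) + 2 * (x + y) * y ^ 2 * e ^ 3)
        (2 * (x + y) * q * (e * s))
  have h3 := abs_add_le (e ^ 2 * (x ^ 2 - y ^ 2 + 4 * y * (x + y)))
    (2 * (x + y) * y ^ 2 * e ^ 3)
  have h4 : 0 ≤ B ^ 3 * e ^ 2 := by positivity
  have h5 : 0 ≤ B ^ 3 * s ^ 2 := by positivity
  have h6 : 100 * B ^ 3 * (e ^ 2 + s ^ 2) * (1 / 2) ≤ 100 * B ^ 3 * (e ^ 2 + s ^ 2) * D :=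
    mul_le_mul_of_nonneg_left hD2 (by positivity)
  linarith only [h1, h2, h3, h4, h5, h6, t1, t2, t3, t4]

end ER

end Pool.Agent.Lib.MP_eb8f1d_pr
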