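import Pool.Agent.Lib.MP_eb8f1d_pr.BinRatio

set_option autoImplicit false

namespace Pool.Agent.Lib.MP_eb8f1d_pr

open Finset

namespace ER

theorem mono_I {B e : ℝ} (hB : 1 ≤ B) (he0 : 0 ≤ e) {I i : ℕ} (hi : i ≤ I)
    (hI : 400 * B ^ 3 * (e + I * e + (I : ℝ) ^ 3 * e ^ 2) ≤ 1) :
    400 * B ^ 3 * (e + i * e + (i : ℝ) ^ 3 * e ^ 2) ≤ 1 := by
  refine le_trans ?_ hI
  have hiI : (i : ℝ) ≤ I := by exact_mod_cast hi
  have hi0 : (0 : ℝ) ≤ i := Nat.cast_nonneg i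
  have h3 : (i : ℝ) ^ 3 ≤ (I : ℝ) ^ 3 := pow_le_pow_left₀ hi0 hiI 3
  have h4 : (i : ℝ) * e ≤ I * e := mul_le_mul_of_nonneg_right hiI he0
  have h5 : (i : ℝ) ^ 3 * e ^ 2 ≤ (I : ℝ) ^ 3 * e ^ 2 :=
    mul_le_mul_of_nonneg_right h3 (sq_nonneg e)
  apply mul_le_mul_of_nonneg_left _ (by positivity)
  linarith

theorem side {B e : ℝ} (hB : 1 ≤ B) (he0 : 0 ≤ e) {i : ℕ}
    (hI : 400 * B ^ 3 * (e + i * e + (i : ℝ) ^ 3 * e ^ 2) ≤ 1) :
    B * e ≤ 1 / 8 ∧ e ≤ 1 / 400 ∧ (i : ℝ) * e ≤ 1 / 400 ∧ ((i : ℝ) * e) ^ 2 ≤ 1 / 8 := by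
  have hi0 : (0 : ℝ) ≤ i := Nat.cast_nonneg i
  have hB3 : 1 ≤ B ^ 3 := one_le_pow₀ hB
  have hB1 : B ≤ B ^ 3 := by
    have : B ^ 1 ≤ B ^ 3 := pow_le_pow_right₀ hB (by norm_num)
    simpa using this
  have a1 : 0 ≤ (i : ℝ) * e := by positivity
  have a2 : 0 ≤ (i : ℝ) ^ 3 * e ^ 2 := by positivity
  have b1 : 0 ≤ B ^ 3 * (i * e) := by positivity
  have b2 : 0 ≤ B ^ 3 * ((i : ℝ) ^ 3 * e ^ 2) := by positivity
  have b3 : 0 ≤ B ^ 3 * e := by positivity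
  have c1 : B * e ≤ B ^ 3 * e := mul_le_mul_of_nonneg_right hB1 he0
  have c2 : 1 * e ≤ B ^ 3 * e := mul_le_mul_of_nonneg_right hB3 he0
  have c3 : 1 * ((i : ℝ) * e) ≤ B ^ 3 * (i * e) := mul_le_mul_of_nonneg_right hB3 a1
  have h3 : (i : ℝ) * e ≤ 1 / 400 := by linarith
  refine ⟨by linarith, by linarith, h3, ?_⟩
  nlinarith only [a1, a2, b1, b2, b3, c3, hB3, hI, he0]

theorem tt_crude {x y p q e B : ℝ} (hB : 1 ≤ B) (hx : |x| ≤ B) (hy : |y| ≤ B) (hp0 : 0 ≤ p)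
    (hp1 : p ≤ 1) (hq0 : 0 ≤ q) (hq1 : q ≤ 1) (he0 : 0 ≤ e) (i : ℕ)
    (hI : 400 * B ^ 3 * (e + i * e + (i : ℝ) ^ 3 * e ^ 2) ≤ 1) :
    |tt x y p q e i - 1| ≤ 200 * B ^ 3 * (e + ((i : ℝ) * e) ^ 2) := by
  obtain ⟨h1, h2, h3, h4⟩ := side hB he0 hI
  have hest := tt_est hB hx hy hp0 hp1 hq0 hq1 he0 h1 i h4
  set s : ℝ := ((i : ℝ) * e) ^ 2 with hs
  have hs0 : 0 ≤ s := sq_nonneg _
  have hxy : |x + y| ≤ 2 * B := (abs_add_le x y).trans (by linarith)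
  have hqp : |q - p| ≤ 1 := by rw [abs_le]; constructor <;> linarith
  have hB3 : 1 ≤ B ^ 3 := one_le_pow₀ hB
  have hB1 : B ≤ B ^ 3 := by
    have : B ^ 1 ≤ B ^ 3 := pow_le_pow_right₀ hB (by norm_num)
    simpa using this
  have e1 : tt x y p q e i - 1 = (tt x y p q e i - (1 - 2 * (x + y) * e + (q - p) * s)) +
      (-(2 * (x + y) * e)) + (q - p) * s := by ring
  rw [e1]
  have a1 := abs_add_le ((tt x y p q e i - (1 - 2 * (x + y) * e + (q - p) * s)) +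
      (-(2 * (x + y) * e))) ((q - p) * s)
  have a2 := abs_add_le (tt x y p q e i - (1 - 2 * (x + y) * e + (q - p) * s))
      (-(2 * (x + y) * e))
  have a3 : |-(2 * (x + y) * e)| ≤ 4 * B ^ 3 * e := by
    rw [abs_neg, abs_mul, abs_mul, abs_of_nonneg he0]
    have : |(2 : ℝ)| = 2 := by norm_num
    rw [this]
    apply mul_le_mul_of_nonneg_right _ he0
    linarith only [hB1, hxy]
  have a4 : |(q - p) * s| ≤ s := by
    rw [abs_mul, abs_of_nonneg hs0]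
    nlinarith
  have a5 : 100 * B ^ 3 * (e ^ 2 + s ^ 2) ≤ 100 * B ^ 3 * (e + s) := by
    apply mul_le_mul_of_nonneg_left _ (by positivity)
    nlinarith
  have a6 : s ≤ B ^ 3 * s := by nlinarith
  have a7 : 0 ≤ B ^ 3 * e := by positivity
  have a8 : 0 ≤ B ^ 3 * s := by positivity
  linarith

theorem hh_crude {x y p q e B : ℝ} (hB : 1 ≤ B) (hx : |x| ≤ B) (hy : |y| ≤ B) (hp0 : 0 ≤ p)
    (hp1 : p ≤ 1) (hq0 : 0 ≤ q) (hq1 : q ≤ 1) (he0 : 0 ≤ e) : ∀ I : ℕ,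
    400 * B ^ 3 * (e + I * e + (I : ℝ) ^ 3 * e ^ 2) ≤ 1 →
    |hh x y p q e I - 1| ≤ 400 * B ^ 3 * (e + I * e + (I : ℝ) ^ 3 * e ^ 2) := by
  intro I
  induction I with
  | zero =>
    intro hI
    obtain ⟨h1, h2, h3, h4⟩ := side hB he0 hI
    simp only [hh, Nat.cast_zero, zero_mul, add_zero, ne_eq, OfNat.ofNat_ne_zero,
      not_false_eq_true, zero_pow]
    have hy1 := (abs_le.mp hy).1
    have hye : -(1 / 8) ≤ y * e := by nlinarith only [h1, he0, hy1]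
    have hd : 0 < 1 + y * e := by linarith
    have e1 : (1 - x * e) / (1 + y * e) - 1 = (-(x + y) * e) / (1 + y * e) := by
      rw [eq_div_iff hd.ne', sub_mul, div_mul_cancel₀ _ hd.ne']
      ring
    rw [e1, abs_div, abs_of_pos hd, div_le_iff₀ hd, abs_mul, abs_neg, abs_of_nonneg he0]
    have hxy : |x + y| ≤ 2 * B := (abs_add_le x y).trans (by linarith only [hx, hy])
    have hB1 : B ≤ B ^ 3 := by
      have : B ^ 1 ≤ B ^ 3 := pow_le_pow_right₀ hB (by norm_num)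
      simpa using this
    have a1 : |x + y| * e ≤ 2 * B ^ 3 * e := mul_le_mul_of_nonneg_right (by linarith only [hB1, hxy]) he0
    have a2 : 400 * B ^ 3 * e * (7 / 8) ≤ 400 * B ^ 3 * e * (1 + y * e) :=
      mul_le_mul_of_nonneg_left (by linarith only [hye]) (by positivity)
    have a3 : 0 ≤ B ^ 3 * e := by positivity
    linarith only [a1, a2, a3]
  | succ i ih =>
    intro hI
    have hI' := mono_I hB he0 (Nat.le_succ i) hI
    have ih' := ih hI'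
    have htt := tt_crude hB hx hy hp0 hp1 hq0 hq1 he0 (i + 1) hI
    have h2 : |hh x y p q e i| ≤ 2 := by
      have : hh x y p q e i = (hh x y p q e i - 1) + 1 := by ring
      rw [this]
      have := abs_add_le (hh x y p q e i - 1) 1
      rw [abs_one] at this
      linarith
    have e1 : hh x y p q e (i + 1) - 1 =
        (hh x y p q e i - 1) + (tt x y p q e (i + 1) - 1) * hh x y p q e i := by
      simp only [hh]; ring
    rw [e1]
    have a1 := abs_add_le (hh x y p q e i - 1) ((tt x y p q e (i + 1) - 1) * hh x y p q e i)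
    have a2 : |(tt x y p q e (i + 1) - 1) * hh x y p q e i| ≤
        (200 * B ^ 3 * (e + (((i + 1 : ℕ) : ℝ) * e) ^ 2)) * 2 := by
      rw [abs_mul]
      exact mul_le_mul htt h2 (abs_nonneg _) (by positivity)
    refine a1.trans ((add_le_add ih' a2).trans ?_)
    have hi0 : (0 : ℝ) ≤ i := Nat.cast_nonneg i
    have a3 : (200 * B ^ 3 * (e + (((i + 1 : ℕ) : ℝ) * e) ^ 2)) * 2 =
        400 * B ^ 3 * (e + ((i : ℝ) + 1) ^ 2 * e ^ 2) := by push_cast; ring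
    rw [a3, ← mul_add]
    apply mul_le_mul_of_nonneg_left _ (by positivity)
    push_cast
    have a4 : (i : ℝ) ^ 3 + ((i : ℝ) + 1) ^ 2 ≤ ((i : ℝ) + 1) ^ 3 := by nlinarith [sq_nonneg (i : ℝ)]
    have a5 : ((i : ℝ) ^ 3 + ((i : ℝ) + 1) ^ 2) * e ^ 2 ≤ ((i : ℝ) + 1) ^ 3 * e ^ 2 :=
      mul_le_mul_of_nonneg_right a4 (sq_nonneg e)
    linarith

theorem pow_step (l : ℝ) (hl : 1 ≤ l) (e : ℝ) (he0 : 0 ≤ e) :
    ((l - 1) ^ 2 * e ^ 2 + (l - 1) ^ 4 * e ^ 3 + (l - 1) ^ 6 * e ^ 4) +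
      (l * e ^ 2 + l ^ 3 * e ^ 3 + l ^ 5 * e ^ 4) ≤
      l ^ 2 * e ^ 2 + l ^ 4 * e ^ 3 + l ^ 6 * e ^ 4 := by
  have h0 : 0 ≤ l - 1 := by linarith
  have h1 : l - 1 ≤ l := by linarith
  have hl0 : 0 ≤ l := by linarith
  have a2 : (l - 1) ^ 2 ≤ (l - 1) * l := by nlinarith
  have a4 : (l - 1) ^ 4 ≤ (l - 1) * l ^ 3 := by
    have : (l - 1) ^ 4 = (l - 1) * (l - 1) ^ 3 := by ring
    rw [this]
    exact mul_le_mul_of_nonneg_left (pow_le_pow_left₀ h0 h1 3) h0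
  have a6 : (l - 1) ^ 6 ≤ (l - 1) * l ^ 5 := by
    have : (l - 1) ^ 6 = (l - 1) * (l - 1) ^ 5 := by ring
    rw [this]
    exact mul_le_mul_of_nonneg_left (pow_le_pow_left₀ h0 h1 5) h0
  have b2 : (l - 1) ^ 2 * e ^ 2 ≤ (l - 1) * l * e ^ 2 :=
    mul_le_mul_of_nonneg_right a2 (by positivity)
  have b4 : (l - 1) ^ 4 * e ^ 3 ≤ (l - 1) * l ^ 3 * e ^ 3 :=
    mul_le_mul_of_nonneg_right a4 (by positivity)
  have b6 : (l - 1) ^ 6 * e ^ 4 ≤ (l - 1) * l ^ 5 * e ^ 4 :=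
    mul_le_mul_of_nonneg_right a6 (by positivity)
  nlinarith only [b2, b4, b6]

theorem hh_fine {x y p q e B : ℝ} (hB : 1 ≤ B) (hx : |x| ≤ B) (hy : |y| ≤ B) (hp0 : 0 ≤ p)
    (hp1 : p ≤ 1) (hq0 : 0 ≤ q) (hq1 : q ≤ 1) (he0 : 0 ≤ e) : ∀ I : ℕ,
    400 * B ^ 3 * (e + I * e + (I : ℝ) ^ 3 * e ^ 2) ≤ 1 →
    |hh x y p q e I - PP x y p q e I| ≤ 200000 * B ^ 6 *
      (e + ((I : ℝ) ^ 2 * e ^ 2 + (I : ℝ) ^ 4 * e ^ 3 + (I : ℝ) ^ 6 * e ^ 4)) := by
  have hB6 : B ^ 3 ≤ B ^ 6 := pow_le_pow_right₀ hB (by norm_num)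
  have hB60 : 1 ≤ B ^ 6 := one_le_pow₀ hB
  intro I
  induction I with
  | zero =>
    intro hI
    have h := hh_crude hB hx hy hp0 hp1 hq0 hq1 he0 0 hI
    simp only [PP, Nat.cast_zero, mul_zero, sub_zero, ne_eq, OfNat.ofNat_ne_zero,
      not_false_eq_true, zero_pow, add_zero, zero_mul] at h ⊢
    refine h.trans ?_
    apply mul_le_mul_of_nonneg_right _ he0
    linarith
  | succ i ih =>
    intro hI
    have hI' := mono_I hB he0 (Nat.le_succ i) hI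
    have ih' := ih hI'
    have htt := tt_crude hB hx hy hp0 hp1 hq0 hq1 he0 (i + 1) hI
    have hcr := hh_crude hB hx hy hp0 hp1 hq0 hq1 he0 i hI'
    obtain ⟨h1, h2, h3, h4⟩ := side hB he0 hI
    have hest := tt_est hB hx hy hp0 hp1 hq0 hq1 he0 h1 (i + 1) h4
    have hi0 : (0 : ℝ) ≤ i := Nat.cast_nonneg i
    set l : ℝ := ((i + 1 : ℕ) : ℝ) with hl
    have hli : (i : ℝ) = l - 1 := by rw [hl]; push_cast; ring
    have hl1 : 1 ≤ l := by linarith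
    have hl0 : 0 ≤ l := by linarith only [hli]
    rw [hli] at ih' hcr
    set L : ℝ := 1 - 2 * (x + y) * e + (q - p) * (l * e) ^ 2 with hL
    have e1 : hh x y p q e (i + 1) - PP x y p q e (i + 1) =
        (hh x y p q e i - PP x y p q e i) +
        (tt x y p q e (i + 1) - 1) * (hh x y p q e i - 1) +
        (tt x y p q e (i + 1) - L) + (q - p) * e ^ 2 * (l - 1 / 3) := by
      simp only [hh, PP, ← hl, hli, hL]; ring
    rw [e1]
    have a1 := abs_add_le ((hh x y p q e i - PP x y p q e i) +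
        (tt x y p q e (i + 1) - 1) * (hh x y p q e i - 1) +
        (tt x y p q e (i + 1) - L)) ((q - p) * e ^ 2 * (l - 1 / 3))
    have a2 := abs_add_le ((hh x y p q e i - PP x y p q e i) +
        (tt x y p q e (i + 1) - 1) * (hh x y p q e i - 1)) (tt x y p q e (i + 1) - L)
    have a3 := abs_add_le (hh x y p q e i - PP x y p q e i)
        ((tt x y p q e (i + 1) - 1) * (hh x y p q e i - 1))
    have b1 : |(q - p) * e ^ 2 * (l - 1 / 3)| ≤ l * e ^ 2 := by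
      rw [abs_mul, abs_mul, abs_of_nonneg (sq_nonneg e),
        abs_of_nonneg (show 0 ≤ l - 1 / 3 by linarith only [hli])]
      have hqp : |q - p| ≤ 1 := by rw [abs_le]; constructor <;> linarith
      have c1 : |q - p| * e ^ 2 ≤ 1 * e ^ 2 := mul_le_mul_of_nonneg_right hqp (sq_nonneg e)
      have c2 : |q - p| * e ^ 2 * (l - 1 / 3) ≤ 1 * e ^ 2 * l :=
        mul_le_mul c1 (by linarith only []) (by linarith only [hli]) (by positivity)
      linarith only [c2]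
    -- the product term
    have b2 : |(tt x y p q e (i + 1) - 1) * (hh x y p q e i - 1)| ≤
        160000 * B ^ 6 * (l * e ^ 2 + l ^ 3 * e ^ 3 + l ^ 5 * e ^ 4) := by
      rw [abs_mul]
      have c1 : 400 * B ^ 3 * (e + (l - 1) * e + (l - 1) ^ 3 * e ^ 2) ≤
          400 * B ^ 3 * (l * e + l ^ 3 * e ^ 2) := by
        apply mul_le_mul_of_nonneg_left _ (by positivity)
        have : (l - 1) ^ 3 ≤ l ^ 3 := pow_le_pow_left₀ (by linarith only [hli]) (by linarith only []) 3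
        have := mul_le_mul_of_nonneg_right this (sq_nonneg e)
        linarith
      have c2 := mul_le_mul htt (hcr.trans c1) (abs_nonneg _)
        (show 0 ≤ 200 * B ^ 3 * (e + (l * e) ^ 2) by positivity)
      refine c2.trans ?_
      have c3 : 200 * B ^ 3 * (e + (l * e) ^ 2) * (400 * B ^ 3 * (l * e + l ^ 3 * e ^ 2)) =
          80000 * B ^ 6 * (l * e ^ 2 + 2 * (l ^ 3 * e ^ 3) + l ^ 5 * e ^ 4) := by ring
      rw [c3]
      have c4 : 0 ≤ B ^ 6 * (l * e ^ 2) := by (clear * - hB; positivity)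
      have c5 : 0 ≤ B ^ 6 * (l ^ 5 * e ^ 4) := by positivity
      linarith only [c4, c5]
    have b3 : 100 * B ^ 3 * (e ^ 2 + ((l * e) ^ 2) ^ 2) ≤
        100 * B ^ 6 * (l * e ^ 2 + l ^ 5 * e ^ 4) := by
      have c1 : e ^ 2 + ((l * e) ^ 2) ^ 2 ≤ l * e ^ 2 + l ^ 5 * e ^ 4 := by
        have d1 : 1 * e ^ 2 ≤ l * e ^ 2 := mul_le_mul_of_nonneg_right hl1 (sq_nonneg e)
        have d2 : l ^ 4 ≤ l ^ 5 := pow_le_pow_right₀ hl1 (by norm_num)
        have d3 : l ^ 4 * e ^ 4 ≤ l ^ 5 * e ^ 4 := mul_le_mul_of_nonneg_right d2 (by positivity)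
        have d4 : ((l * e) ^ 2) ^ 2 = l ^ 4 * e ^ 4 := by ring
        linarith only [d1, d3]
      exact mul_le_mul (by linarith) c1 (by positivity) (by positivity)
    have b4 := pow_step l hl1 e he0
    have b5 : 200000 * B ^ 6 * ((((l - 1) ^ 2 * e ^ 2 + (l - 1) ^ 4 * e ^ 3 + (l - 1) ^ 6 * e ^ 4) +
      (l * e ^ 2 + l ^ 3 * e ^ 3 + l ^ 5 * e ^ 4))) ≤
      200000 * B ^ 6 * (l ^ 2 * e ^ 2 + l ^ 4 * e ^ 3 + l ^ 6 * e ^ 4) :=
      mul_le_mul_of_nonneg_left b4 (by positivity)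
    have d1 : 0 ≤ l * e ^ 2 := by positivity
    have d2 : 0 ≤ B ^ 6 * (l ^ 3 * e ^ 3) := by positivity
    have d3 : 0 ≤ B ^ 6 * (l ^ 5 * e ^ 4) := by positivity
    have d4 : l * e ^ 2 ≤ B ^ 6 * (l * e ^ 2) := by nlinarith only [d1, hB60]
    linarith only [a1, a2, a3, b1, b2, b3, b5, d1, d2, d3, d4, hest, ih']

/-- the ratio of the binomial weights -/
theorem bin_ratio (N k : ℕ) (r v e : ℝ) (h0 : 0 < r) (h1 : r < 1) (hN : 0 < N)
    (hv : v = N * r * (1 - r)) (he : e * v = 1) (i : ℕ) (hi : i ≤ k)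
    (hd : ∀ l : ℕ, l ≤ k → 1 + (1 - r) * ((k : ℝ) - N * r + 1) * e ≠ 0 ∧
      (1 + (1 - r) * ((k : ℝ) - N * r + 1) * e) ^ 2 - (1 - r) ^ 2 * ((l : ℝ) * e) ^ 2 ≠ 0) :
    bin N r (k + 1 + i) = hh (r * ((k : ℝ) - N * r)) ((1 - r) * ((k : ℝ) - N * r + 1)) (r ^ 2)
      ((1 - r) ^ 2) e i * bin N r (k - i) := by
  have hNr : (0 : ℝ) < N := by exact_mod_cast hN
  have h1r : 0 < 1 - r := by linarith
  have hvpos : 0 < v := by rw [hv]; positivity
  have e1 : 1 - r * ((k : ℝ) - N * r) * e = r * ((N : ℝ) - k) * e := by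
    have : 1 = e * (N * r * (1 - r)) := by rw [← hv, he]
    linear_combination this
  have e2 : 1 + (1 - r) * ((k : ℝ) - N * r + 1) * e = (1 - r) * ((k : ℝ) + 1) * e := by
    have : 1 = e * (N * r * (1 - r)) := by rw [← hv, he]
    linear_combination this
  have he0 : e ≠ 0 := by
    rintro rfl
    simp at he
  induction i with
  | zero =>
    simp only [hh, Nat.add_zero, Nat.sub_zero]
    rw [e1, e2]
    have hk1 : (0 : ℝ) < (k : ℝ) + 1 := by positivity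
    have h := bin_succ' N r k
    rw [div_mul_eq_mul_div, eq_div_iff (by positivity)]
    linear_combination e * h
  | succ i ih =>
    have ih' := ih (by omega)
    simp only [hh]
    obtain ⟨j, hj⟩ : ∃ j, k = j + (i + 1) := ⟨k - (i + 1), by omega⟩
    have hj1 : k - (i + 1) = j := by omega
    have hj2 : k - i = j + 1 := by omega
    rw [hj1, show k + 1 + (i + 1) = (k + 1 + i) + 1 by ring]
    rw [hj2] at ih'
    have hA := bin_succ' N r (k + 1 + i)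
    have hB := bin_succ' N r j
    have hkj : (k : ℝ) = j + (i + 1) := by exact_mod_cast hj
    have htt : tt (r * ((k : ℝ) - N * r)) ((1 - r) * ((k : ℝ) - N * r + 1)) (r ^ 2)
      ((1 - r) ^ 2) e (i + 1) =
      (r ^ 2 * (((N : ℝ) - k) - (i + 1)) * (((N : ℝ) - k) + (i + 1))) /
      ((1 - r) ^ 2 * ((k : ℝ) + 1 - (i + 1)) * ((k : ℝ) + 1 + (i + 1))) := by
      unfold tt
      have hden := (hd (i + 1) (by omega)).2
      rw [e2] at hden
      rw [e1, e2]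
      rw [div_eq_div_iff hden]
      · push_cast
        ring
      · have a1 : (k : ℝ) + 1 - (i + 1) = (j : ℝ) + 1 := by rw [hkj]; ring
        rw [a1]
        (clear * - h1; positivity)
    rw [htt]
    have a1 : (k : ℝ) + 1 - (i + 1) = (j : ℝ) + 1 := by rw [hkj]; ring
    rw [a1]
    have hpos1 : (0 : ℝ) < (j : ℝ) + 1 := by positivity
    have hpos2 : (0 : ℝ) < (k : ℝ) + 1 + (i + 1) := by positivity
    rw [div_mul_eq_mul_div, div_mul_eq_mul_div, eq_div_iff (by (clear * - h1; positivity))]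
    rw [ih'] at hA
    push_cast at hA
    -- hA : b(k+2+i) ((k+1+i)+1)(1-r) = (h * b(j+1)) ((N-(k+1+i)) r)
    -- hB : b(j+1) ((j+1)(1-r)) = b(j) ((N-j) r)
    have hNj : (N : ℝ) - j = (N - k) + (i + 1) := by rw [hkj]; ring
    rw [hNj] at hB
    linear_combination ((1 - r) * ((j : ℝ) + 1)) * hA +
      (r * (((N : ℝ) - k) - (i + 1)) * hh (r * ((k : ℝ) - N * r))
        ((1 - r) * ((k : ℝ) - N * r + 1)) (r ^ 2) ((1 - r) ^ 2) e i) * hB

end ER

end Pool.Agent.Lib.MP_eb8f1d_pr
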