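import Pool.Agent.Lib.MP_eb8f1d_pr.Moments

/-!
# Crossing (hybrid) argument and a lower bound for the mass at the median
-/

set_option autoImplicit false

namespace Pool.Agent.Lib.MP_eb8f1d_pr

open Finset

variable {n : ℕ}

/-- the first `m` coins -/
def firstCoins (n m : ℕ) : Finset (Fin n) := univ.filter (fun i => (i : ℕ) < m)

theorem mix_firstCoins_apply (σ ω : Fin n → Bool) (m : ℕ) (i : Fin n) :
    mix (firstCoins n m) σ ω i = if (i : ℕ) < m then σ i else ω i := by
  simp [mix, firstCoins]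

theorem mix_firstCoins_zero (σ ω : Fin n → Bool) : mix (firstCoins n 0) σ ω = ω := by
  funext i; simp [mix, firstCoins]

theorem mix_firstCoins_all (σ ω : Fin n → Bool) : mix (firstCoins n n) σ ω = σ := by
  funext i; simp [mix, firstCoins]

/-- one more coin changes nothing or flips one coin -/
theorem mix_firstCoins_succ (σ ω : Fin n → Bool) (m : ℕ) :
    mix (firstCoins n (m + 1)) σ ω = mix (firstCoins n m) σ ω ∨
      ∃ e : Fin n, mix (firstCoins n (m + 1)) σ ω = flp e (mix (firstCoins n m) σ ω) := by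
  by_cases hm : m < n
  · by_cases h : σ ⟨m, hm⟩ = ω ⟨m, hm⟩
    · left
      funext i
      rw [mix_firstCoins_apply, mix_firstCoins_apply]
      by_cases hi : (i : ℕ) < m
      · rw [if_pos (Nat.lt_succ_of_lt hi), if_pos hi]
      · rw [if_neg hi]
        by_cases hi' : (i : ℕ) = m
        · have : i = ⟨m, hm⟩ := Fin.ext hi'
          subst this
          rw [if_pos (Nat.lt_succ_self _), h]
        · rw [if_neg (by omega)]
    · right
      refine ⟨⟨m, hm⟩, ?_⟩
      funext i
      by_cases hi' : (i : ℕ) = m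
      · have : i = ⟨m, hm⟩ := Fin.ext hi'
        subst this
        rw [flp_same, mix_firstCoins_apply, mix_firstCoins_apply,
          if_pos (Nat.lt_succ_self _), if_neg (lt_irrefl _)]
        revert h
        cases σ ⟨m, hm⟩ <;> cases ω ⟨m, hm⟩ <;> simp
      · have hne : i ≠ ⟨m, hm⟩ := fun h => hi' (by rw [h])
        rw [flp_ne hne, mix_firstCoins_apply, mix_firstCoins_apply]
        by_cases hi : (i : ℕ) < m
        · rw [if_pos (Nat.lt_succ_of_lt hi), if_pos hi]
        · rw [if_neg hi, if_neg (by omega)]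
  · left
    funext i
    have h1 : (i : ℕ) < m := lt_of_lt_of_le i.isLt (not_lt.mp hm)
    rw [mix_firstCoins_apply, mix_firstCoins_apply, if_pos h1, if_pos (Nat.lt_succ_of_lt h1)]

/-- discrete intermediate values along the hybrids -/
theorem exists_hybrid (V : (Fin n → Bool) → ℤ)
    (hV : ∀ i ω, |V (flp i ω) - V ω| ≤ 1) (k : ℤ) (σ ω : Fin n → Bool)
    (h0 : V ω ≤ k) (h1 : k < V σ) :
    ∃ m ∈ range n, V (mix (firstCoins n m) σ ω) = k := by
  classical
  have hex : ∃ m, k < V (mix (firstCoins n m) σ ω) := ⟨n, by rwa [mix_firstCoins_all]⟩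
  have hn : k < V (mix (firstCoins n n) σ ω) := by rwa [mix_firstCoins_all]
  set m0 := Nat.find hex with hm0
  have hs : k < V (mix (firstCoins n m0) σ ω) := Nat.find_spec hex
  have hle : m0 ≤ n := Nat.find_min' hex hn
  have hpos : m0 ≠ 0 := by
    intro h
    rw [h, mix_firstCoins_zero] at hs
    omega
  obtain ⟨m, hm⟩ := Nat.exists_eq_succ_of_ne_zero hpos
  have hmin : ¬ k < V (mix (firstCoins n m) σ ω) := Nat.find_min hex (by omega)
  refine ⟨m, Finset.mem_range.mpr (by omega), ?_⟩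
  rw [hm] at hs
  rcases mix_firstCoins_succ σ ω m with h | ⟨e, h⟩
  · rw [Nat.succ_eq_add_one, h] at hs
    omega
  · rw [Nat.succ_eq_add_one, h] at hs
    have := hV e (mix (firstCoins n m) σ ω)
    rw [abs_le] at this
    omega

theorem crossing {p : ℝ} (h0 : 0 ≤ p) (h1 : p ≤ 1) (V : (Fin n → Bool) → ℤ)
    (hV : ∀ i ω, |V (flp i ω) - V ω| ≤ 1) (k : ℤ) :
    Pr p (fun ω => V ω ≤ k) * Pr p (fun ω => k < V ω) ≤ n * Pr p (fun ω => V ω = k) := by
  have hL : Pr p (fun ω => V ω ≤ k) * Pr p (fun ω => k < V ω) =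
      Ex p (fun σ => Ex p (fun ω =>
        (if k < V σ then (1 : ℝ) else 0) * (if V ω ≤ k then 1 else 0))) := by
    rw [Pr_eq, Pr_eq]
    have : ∀ σ : Fin n → Bool, Ex p (fun ω =>
        (if k < V σ then (1 : ℝ) else 0) * (if V ω ≤ k then 1 else 0)) =
        Ex p (fun ω => if V ω ≤ k then (1 : ℝ) else 0) * (if k < V σ then (1 : ℝ) else 0) := by
      intro σ
      rw [Ex_const_mul, mul_comm]
    simp only [this]
    rw [Ex_const_mul]
  have hR : (n : ℝ) * Pr p (fun ω => V ω = k) =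
      Ex p (fun σ => Ex p (fun ω =>
        ∑ m ∈ range n, (if V (mix (firstCoins n m) σ ω) = k then (1 : ℝ) else 0))) := by
    have h2 : ∀ σ : Fin n → Bool, Ex p (fun ω =>
        ∑ m ∈ range n, (if V (mix (firstCoins n m) σ ω) = k then (1 : ℝ) else 0)) =
        ∑ m ∈ range n, Ex p (fun ω =>
          (if V (mix (firstCoins n m) σ ω) = k then (1 : ℝ) else 0)) := fun σ =>
      Ex_sum (range n) p (fun m ω => if V (mix (firstCoins n m) σ ω) = k then (1 : ℝ) else 0)
    simp only [h2]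
    rw [Ex_sum (range n) p (fun m σ => Ex p (fun ω =>
          (if V (mix (firstCoins n m) σ ω) = k then (1 : ℝ) else 0)))]
    have h3 : ∀ m ∈ range n, Ex p (fun σ => Ex p (fun ω =>
          (if V (mix (firstCoins n m) σ ω) = k then (1 : ℝ) else 0))) =
        Pr p (fun ω => V ω = k) := by
      intro m _
      rw [Ex_mix p (firstCoins n m) (fun ω => if V ω = k then (1 : ℝ) else 0), Pr_eq]
    rw [Finset.sum_congr rfl h3, Finset.sum_const, Finset.card_range, nsmul_eq_mul]
  rw [hL, hR]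
  refine Ex_mono h0 h1 fun σ => Ex_mono h0 h1 fun ω => ?_
  have hnn : ∀ m ∈ range n,
      (0 : ℝ) ≤ (if V (mix (firstCoins n m) σ ω) = k then (1 : ℝ) else 0) := by
    intro m _
    split_ifs <;> norm_num
  by_cases hσ : k < V σ
  · by_cases hω : V ω ≤ k
    · obtain ⟨m, hm, hk⟩ := exists_hybrid V hV k σ ω hω hσ
      have := Finset.single_le_sum hnn hm
      rw [if_pos hk] at this
      simpa [hσ, hω] using this
    · simp only [hω, if_false, mul_zero]
      exact Finset.sum_nonneg hnn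
  · simp only [hσ, if_false, zero_mul]
    exact Finset.sum_nonneg hnn

theorem pmf_lower {p : ℝ} (h0 : 0 ≤ p) (h1 : p ≤ 1) (c : Coloring n) (k : ℕ)
    (h : 1 / 2 ≤ Pr p (fun ω => U c ω ≤ k)) (hk : (k : ℝ) < EU p c) :
    1 / (8 * (n : ℝ) ^ 2) ≤ Pr p (fun ω => U c ω = k) := by
  rcases Nat.eq_zero_or_pos n with hn | hn
  · subst hn
    have : EU p c = 0 := by simp [EU]
    rw [this] at hk
    exact absurd hk (not_lt.mpr (Nat.cast_nonneg k))
  have hn1 : (1 : ℝ) ≤ n := by exact_mod_cast hn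
  have hn0 : (0 : ℝ) < n := by linarith
  by_cases hq : 1 / 4 ≤ Pr p (fun ω => U c ω = k)
  · have h8 : 1 / (8 * (n : ℝ) ^ 2) ≤ 1 / 4 := by
      rw [div_le_div_iff₀ (by positivity) (by norm_num)]
      nlinarith
    linarith
  rw [not_le] at hq
  -- split the event `U ≤ k`
  have hsplit : Pr p (fun ω => U c ω ≤ k) ≤
      Pr p (fun ω => U c ω < k) + Pr p (fun ω => U c ω = k) := by
    refine le_trans (Pr_mono h0 h1 (B := fun ω => U c ω < k ∨ U c ω = k) ?_)
      (Pr_or_le h0 h1 _ _)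
    intro ω hω
    exact lt_or_eq_of_le hω
  have hlow : 1 / 4 ≤ Pr p (fun ω => U c ω < k) := by linarith
  -- first moment
  have hmean : EU p c - k ≤ n * Pr p (fun ω => k < U c ω) - Pr p (fun ω => U c ω < k) := by
    have e1 : EU p c - k = Ex p (fun ω => (U c ω : ℝ) - k) := by
      rw [Ex_sub, Ex_U, Ex_const]
    have e2 : n * Pr p (fun ω => k < U c ω) - Pr p (fun ω => U c ω < k) =
        Ex p (fun ω => n * (if k < U c ω then (1 : ℝ) else 0) -
          (if U c ω < k then (1 : ℝ) else 0)) := by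
      rw [Ex_sub, Ex_const_mul, Pr_eq, Pr_eq]
    rw [e1, e2]
    refine Ex_mono h0 h1 fun ω => ?_
    have hU : U c ω ≤ n := by
      have := seen_add_U c ω
      omega
    rcases lt_trichotomy (U c ω) k with hlt | heq | hgt
    · have h2 : ¬ k < U c ω := by omega
      simp only [hlt, h2, if_true, if_false, mul_zero]
      have : (U c ω : ℝ) + 1 ≤ k := by exact_mod_cast hlt
      linarith
    · simp [heq]
    · have h2 : ¬ U c ω < k := by omega
      simp only [hgt, h2, if_true, if_false, mul_one, sub_zero]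
      have h3 : (U c ω : ℝ) ≤ n := by exact_mod_cast hU
      have h4 : (0 : ℝ) ≤ k := Nat.cast_nonneg k
      linarith
  have hup : 1 / 4 < n * Pr p (fun ω => k < U c ω) := by linarith
  -- crossing
  have hcr := crossing h0 h1 (fun ω => (U c ω : ℤ)) (fun i ω => U_flp c ω i) (k : ℤ)
  have c1 : Pr p (fun ω => (U c ω : ℤ) ≤ (k : ℤ)) = Pr p (fun ω => U c ω ≤ k) :=
    Pr_congr fun ω => by exact_mod_cast Iff.rfl
  have c2 : Pr p (fun ω => (k : ℤ) < (U c ω : ℤ)) = Pr p (fun ω => k < U c ω) :=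
    Pr_congr fun ω => by exact_mod_cast Iff.rfl
  have c3 : Pr p (fun ω => (U c ω : ℤ) = (k : ℤ)) = Pr p (fun ω => U c ω = k) :=
    Pr_congr fun ω => by exact_mod_cast Iff.rfl
  rw [c1, c2, c3] at hcr
  have hx0 : 0 ≤ Pr p (fun ω => k < U c ω) := Pr_nonneg h0 h1 _
  have h5 : 1 / 2 * Pr p (fun ω => k < U c ω) ≤ n * Pr p (fun ω => U c ω = k) :=
    le_trans (mul_le_mul_of_nonneg_right h hx0) hcr
  have h6 : 1 / 8 < (n : ℝ) ^ 2 * Pr p (fun ω => U c ω = k) := by
    have := mul_le_mul_of_nonneg_left h5 hn0.le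
    nlinarith
  rw [div_le_iff₀ (by positivity)]
  nlinarith

end Pool.Agent.Lib.MP_eb8f1d_pr
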