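import Pool.Agent.Lib.MP_eb8f1d_pr.Defs

/-! Module EB-M: sign lemma for the coefficients of Poisson-binomial polynomials. -/

set_option autoImplicit false

namespace Pool.Agent.Lib.MP_eb8f1d_pr

open Finset Polynomial

/-- sum of a function over a multiset -/
noncomputable def emS (s : Multiset ℝ) (f : ℝ → ℝ) : ℝ := (s.map f).sum

theorem emS_erase {s : Multiset ℝ} {r : ℝ} (h : r ∈ s) (f : ℝ → ℝ) :
    emS s f = f r + emS (s.erase r) f := (Multiset.sum_map_erase h).symm

theorem emS_mono {s : Multiset ℝ} {f g : ℝ → ℝ} (h : ∀ r ∈ s, f r ≤ g r) :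
    emS s f ≤ emS s g := Multiset.sum_map_le_sum_map f g h

theorem emS_congr {s : Multiset ℝ} {f g : ℝ → ℝ} (h : ∀ r ∈ s, f r = g r) :
    emS s f = emS s g := by
  unfold emS
  rw [Multiset.map_congr rfl h]

theorem emS_add (s : Multiset ℝ) (f g : ℝ → ℝ) :
    emS s (fun r => f r + g r) = emS s f + emS s g := Multiset.sum_map_add

theorem emS_mul (s : Multiset ℝ) (a : ℝ) (f : ℝ → ℝ) :
    emS s (fun r => a * f r) = a * emS s f := Multiset.sum_map_mul_left

theorem emS_id (s : Multiset ℝ) : emS s (fun r => r) = s.sum := by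
  unfold emS
  rw [Multiset.map_id']

theorem emS_nonneg {s : Multiset ℝ} {f : ℝ → ℝ} (h : ∀ r ∈ s, 0 ≤ f r) : 0 ≤ emS s f := by
  apply Multiset.sum_nonneg
  intro x hx
  rw [Multiset.mem_map] at hx
  obtain ⟨r, hr, rfl⟩ := hx
  exact h r hr

theorem pb_erase {s : Multiset ℝ} {r : ℝ} (h : r ∈ s) :
    pb s = (C (1 - r) + C r * X) * pb (s.erase r) := (Multiset.prod_map_erase h).symm

theorem pb_coeff_zero {s : Multiset ℝ} {r : ℝ} (h : r ∈ s) :
    (pb s).coeff 0 = (1 - r) * (pb (s.erase r)).coeff 0 := by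
  rw [pb_erase h, add_mul, coeff_add, coeff_C_mul, mul_assoc, coeff_C_mul, coeff_X_mul_zero,
    mul_zero, add_zero]

theorem pb_coeff_succ {s : Multiset ℝ} {r : ℝ} (h : r ∈ s) (k : ℕ) :
    (pb s).coeff (k + 1) =
      (1 - r) * (pb (s.erase r)).coeff (k + 1) + r * (pb (s.erase r)).coeff k := by
  rw [pb_erase h, add_mul, coeff_add, coeff_C_mul, mul_assoc, coeff_C_mul, coeff_X_mul]

theorem pb_coeff_nonneg (m : ℕ) : ∀ s : Multiset ℝ, s.card = m → (∀ r ∈ s, 0 ≤ r ∧ r ≤ 1) →
    ∀ k, 0 ≤ (pb s).coeff k := by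
  induction m with
  | zero =>
    intro s hs _ k
    rw [Multiset.card_eq_zero] at hs
    subst hs
    simp only [pb, Multiset.map_zero, Multiset.prod_zero, coeff_one]
    split_ifs <;> norm_num
  | succ m ih =>
    intro s hs h k
    obtain ⟨r, hr⟩ : ∃ r, r ∈ s := by
      apply Multiset.exists_mem_of_ne_zero
      rintro rfl
      simp at hs
    have hc : (s.erase r).card = m := by
      rw [Multiset.card_erase_of_mem hr, hs]
      rfl
    have h' : ∀ r' ∈ s.erase r, 0 ≤ r' ∧ r' ≤ 1 := fun r' hr' => h r' (Multiset.mem_of_mem_erase hr')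
    have hr1 := h r hr
    rcases k with _ | k
    · rw [pb_coeff_zero hr]
      exact mul_nonneg (by linarith) (ih _ hc h' 0)
    · rw [pb_coeff_succ hr]
      exact add_nonneg (mul_nonneg (by linarith) (ih _ hc h' _))
        (mul_nonneg hr1.1 (ih _ hc h' _))

theorem pb_coeff_deriv (s : Multiset ℝ) (k : ℕ) :
    ((k : ℝ) + 1) * (pb s).coeff (k + 1) = emS s (fun r => r * (pb (s.erase r)).coeff k) := by
  have h1 : derivative (pb s) = (s.map (fun r => pb (s.erase r) * C r)).sum := by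
    unfold pb
    rw [derivative_prod]
    congr 1
    apply Multiset.map_congr rfl
    intro r _
    simp
  have h2 := congrArg (fun P : ℝ[X] => P.coeff k) h1
  simp only [coeff_derivative] at h2
  rw [mul_comm, h2]
  have h3 : ((s.map (fun r => pb (s.erase r) * C r)).sum).coeff k =
      ((s.map (fun r => pb (s.erase r) * C r)).map (fun P : ℝ[X] => P.coeff k)).sum := by
    exact map_multiset_sum (Polynomial.lcoeff ℝ k) (s.map (fun r => pb (s.erase r) * C r))
  rw [h3, Multiset.map_map]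
  unfold emS
  congr 1
  apply Multiset.map_congr rfl
  intro r _
  simp only [Function.comp_apply, coeff_mul_C]
  ring

/-- `∑ r = ∑ r (1 - r) + ∑ r ^ 2` -/
theorem em_mu (s : Multiset ℝ) :
    s.sum = emS s (fun r => r * (1 - r)) + emS s (fun r => r ^ 2) := by
  rw [← emS_id, ← emS_add]
  apply emS_congr
  intro r _
  ring

theorem em_Q {ρ : ℝ} {s : Multiset ℝ} (h : ∀ r ∈ s, 0 ≤ r ∧ r ≤ ρ) :
    emS s (fun r => r ^ 2) ≤ ρ * s.sum := by
  rw [← emS_id, ← emS_mul]
  apply emS_mono
  intro r hr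
  have := h r hr
  nlinarith

/-- one term of the base bound -/
theorem em_term {ρ x y r g F : ℝ} (hρ : ρ < 1) (hx : -1 ≤ x) (hr0 : 0 ≤ r) (hr : r ≤ ρ)
    (hg : 0 ≤ g) (hF : F ≤ (1 + r * x) * g) (hF0 : 0 ≤ F) (hy : y * (1 + ρ * x) = x) :
    (r + r * (1 - r) * y) * F ≤ (1 + x) * (r * g) := by
  have h1ρ : 0 < 1 + ρ * x := by nlinarith
  have hyx : 0 ≤ y * x := by
    have : y * x * (1 + ρ * x) = x ^ 2 := by
      calc y * x * (1 + ρ * x) = x * (y * (1 + ρ * x)) := by ring
        _ = x ^ 2 := by rw [hy]; ring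
    by_contra hcon
    push Not at hcon
    have h2 := mul_neg_of_neg_of_pos hcon h1ρ
    rw [this] at h2
    nlinarith [sq_nonneg x]
  by_cases h : 0 ≤ 1 + (1 - r) * y
  · have h3 : y * (1 + r * x) ≤ x := by
      have : y * (1 + ρ * x) - y * (1 + r * x) = (y * x) * (ρ - r) := by ring
      have h4 : 0 ≤ (y * x) * (ρ - r) := mul_nonneg hyx (by linarith)
      linarith
    have h5 : (1 + (1 - r) * y) * (1 + r * x) ≤ 1 + x := by
      have h6 : (1 - r) * (y * (1 + r * x)) ≤ (1 - r) * x :=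
        mul_le_mul_of_nonneg_left h3 (by linarith)
      linarith
    calc (r + r * (1 - r) * y) * F = r * ((1 + (1 - r) * y) * F) := by ring
      _ ≤ r * ((1 + (1 - r) * y) * ((1 + r * x) * g)) :=
          mul_le_mul_of_nonneg_left (mul_le_mul_of_nonneg_left hF h) hr0
      _ = ((1 + (1 - r) * y) * (1 + r * x)) * (r * g) := by ring
      _ ≤ (1 + x) * (r * g) := mul_le_mul_of_nonneg_right h5 (mul_nonneg hr0 hg)
  · push Not at h
    have h7 : (r + r * (1 - r) * y) * F ≤ 0 := by
      have : (r + r * (1 - r) * y) = r * (1 + (1 - r) * y) := by ring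
      rw [this]
      exact mul_nonpos_of_nonpos_of_nonneg (mul_nonpos_of_nonneg_of_nonpos hr0 h.le) hF0
    have h8 : 0 ≤ (1 + x) * (r * g) := mul_nonneg (by linarith) (mul_nonneg hr0 hg)
    linarith

/-- base bound -/
theorem em_base {ρ : ℝ} (hρ0 : 0 < ρ) (hρ1 : ρ < 1) (m : ℕ) : ∀ s : Multiset ℝ, s.card = m →
    (∀ r ∈ s, 0 ≤ r ∧ r ≤ ρ) → ∀ (k : ℕ) (N D : ℝ), N = k + 1 - s.sum →
    D = emS s (fun r => r * (1 - r)) - ρ * N → 0 < D →
    (pb s).coeff k ≤ (1 + N / D) * (pb s).coeff (k + 1) := by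
  induction m with
  | zero =>
    intro s hs _ k N D hN hD hD0
    rw [Multiset.card_eq_zero] at hs
    subst hs
    exfalso
    simp only [emS, Multiset.map_zero, Multiset.sum_zero, sub_zero, zero_sub] at hN hD
    have hk : (0 : ℝ) ≤ (k : ℝ) := Nat.cast_nonneg k
    nlinarith
  | succ m ih =>
    intro s hs h k N D hN hD hD0
    have h1 : ∀ r ∈ s, 0 ≤ r ∧ r ≤ 1 := fun r hr => ⟨(h r hr).1, by linarith [(h r hr).2]⟩
    have hk : (0 : ℝ) ≤ (k : ℝ) := Nat.cast_nonneg k
    have hmu := em_mu s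
    have hQ := em_Q h
    set v := emS s (fun r => r * (1 - r)) with hv
    have hND : 0 < N + D := by nlinarith
    have hx1 : -1 ≤ N / D := by
      rw [le_div_iff₀ hD0]
      linarith
    have hv0 : 0 < v := by
      rcases le_or_gt 0 N with h0 | h0
      · nlinarith
      · nlinarith
    have hy : N / v * (1 + ρ * (N / D)) = N / D := by
      have e : v = D + ρ * N := by linarith
      have e2 : 1 + ρ * (N / D) = v / D := by
        rw [e]
        field_simp
      rw [e2]
      field_simp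
    have hF0 := pb_coeff_nonneg _ s rfl h1
    -- one vertex removed
    have hkey : ∀ r ∈ s, (pb s).coeff k ≤ (1 + r * (N / D)) * (pb (s.erase r)).coeff k := by
      intro r hr
      have hrr := h r hr
      have h' : ∀ r' ∈ s.erase r, 0 ≤ r' ∧ r' ≤ ρ :=
        fun r' hr' => h r' (Multiset.mem_of_mem_erase hr')
      have h1' : ∀ r' ∈ s.erase r, 0 ≤ r' ∧ r' ≤ 1 :=
        fun r' hr' => h1 r' (Multiset.mem_of_mem_erase hr')
      have hg := pb_coeff_nonneg _ (s.erase r) rfl h1'
      rcases k with _ | j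
      · rw [pb_coeff_zero hr]
        apply mul_le_mul_of_nonneg_right _ (hg 0)
        nlinarith
      · rw [pb_coeff_succ hr]
        have hc : (s.erase r).card = m := by
          rw [Multiset.card_erase_of_mem hr, hs]
          rfl
        have hsum : s.sum = r + (s.erase r).sum := (Multiset.sum_erase hr).symm
        have hvv : v = r * (1 - r) + emS (s.erase r) (fun r => r * (1 - r)) := emS_erase hr _
        have hD' : 0 < emS (s.erase r) (fun r => r * (1 - r)) - ρ * (N - (1 - r)) := by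
          have : emS (s.erase r) (fun r => r * (1 - r)) - ρ * (N - (1 - r)) =
              D + (1 - r) * (ρ - r) := by
            rw [hD]
            linear_combination (-1 : ℝ) * hvv
          rw [this]
          have : 0 ≤ (1 - r) * (ρ - r) := mul_nonneg (by linarith) (by linarith)
          linarith
        have hI := ih (s.erase r) hc h' j (N - (1 - r)) _ (by
          rw [hN]
          push_cast
          linear_combination (-1 : ℝ) * hsum) rfl hD'
        have hxr : (N - (1 - r)) / (emS (s.erase r) (fun r => r * (1 - r)) -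
            ρ * (N - (1 - r))) ≤ N / D := by
          rw [div_le_div_iff₀ hD' hD0]
          have e : emS (s.erase r) (fun r => r * (1 - r)) - ρ * (N - (1 - r)) =
              D + (1 - r) * (ρ - r) := by
            rw [hD]
            linear_combination (-1 : ℝ) * hvv
          rw [e]
          have h3 : 0 ≤ v - r * N := by
            rcases le_or_gt 0 N with h0 | h0
            · have : r * N ≤ ρ * N := mul_le_mul_of_nonneg_right hrr.2 h0
              linarith
            · have : r * N ≤ 0 := mul_nonpos_of_nonneg_of_nonpos hrr.1 h0.le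
              linarith
          have h4 : N * (D + (1 - r) * (ρ - r)) - (N - (1 - r)) * D =
              (1 - r) * (v - r * N) := by
            rw [hD]
            ring
          have h5 : 0 ≤ (1 - r) * (v - r * N) := mul_nonneg (by linarith) h3
          linarith
        have hI2 : (pb (s.erase r)).coeff j ≤ (1 + N / D) * (pb (s.erase r)).coeff (j + 1) :=
          le_trans hI (mul_le_mul_of_nonneg_right (by linarith) (hg _))
        have hI3 := mul_le_mul_of_nonneg_left hI2 hrr.1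
        linarith
    have hsumle : emS s (fun r => (r + r * (1 - r) * (N / v)) * (pb s).coeff k) ≤
        emS s (fun r => (1 + N / D) * (r * (pb (s.erase r)).coeff k)) := by
      apply emS_mono
      intro r hr
      have h1' : ∀ r' ∈ s.erase r, 0 ≤ r' ∧ r' ≤ 1 :=
        fun r' hr' => h1 r' (Multiset.mem_of_mem_erase hr')
      exact em_term hρ1 hx1 (h r hr).1 (h r hr).2 (pb_coeff_nonneg _ (s.erase r) rfl h1' k)
        (hkey r hr) (hF0 k) hy
    rw [emS_mul, ← pb_coeff_deriv] at hsumle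
    have hL : emS s (fun r => (r + r * (1 - r) * (N / v)) * (pb s).coeff k) =
        ((k : ℝ) + 1) * (pb s).coeff k := by
      have e1 : emS s (fun r => (r + r * (1 - r) * (N / v)) * (pb s).coeff k) =
          emS s (fun r => (pb s).coeff k * r + ((pb s).coeff k * (N / v)) * (r * (1 - r))) := by
        apply emS_congr
        intro r _
        ring
      rw [e1, emS_add, emS_mul, emS_mul, emS_id, ← hv]
      have e2 : (N / v) * v = N := by field_simp
      calc (pb s).coeff k * s.sum + (pb s).coeff k * (N / v) * v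
          = (pb s).coeff k * (s.sum + (N / v) * v) := by ring
        _ = ((k : ℝ) + 1) * (pb s).coeff k := by
            rw [e2, hN]
            ring
    rw [hL] at hsumle
    have hk1 : (0 : ℝ) < (k : ℝ) + 1 := by linarith
    have : ((k : ℝ) + 1) * (pb s).coeff k ≤
        ((k : ℝ) + 1) * ((1 + N / D) * (pb s).coeff (k + 1)) := by linarith
    exact le_of_mul_le_mul_left this hk1


/-- arithmetic of the step -/
theorem em_arith {ρ δ K C0 B κ v Q w N P : ℝ} (hρ0 : 0 < ρ) (hρ1 : ρ < 1) (hδ : 0 < δ)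
    (hK : 0 ≤ K) (hB : B = K + δ + 4) (hκ : κ * (1 - ρ) = ρ) (hκ0 : 0 ≤ κ)
    (hP0 : 0 ≤ P) (hP1 : P ≤ 1) (hQ0 : 0 ≤ Q) (hQ : Q * (1 - ρ) ≤ ρ * v) (hv : 1 ≤ v)
    (hw : -C0 ≤ w) (hw1 : |w| ≤ v / 2) (hN : |N| ≤ K)
    (hbig : C0 + B * κ + B * (2 * B * κ + 1) ≤ δ * v) :
    v + Q + N ≤ (1 + (N - ρ / 2 + ρ * P + δ) / v) *
      (v + Q - (((N - ρ / 2 + P + δ) * Q - (ρ / 2 * v + w)) / v + B * Q / v ^ 2)) := by
  have hv0 : 0 < v := by linarith
  obtain ⟨q, hq⟩ : ∃ q, q = Q / v := ⟨_, rfl⟩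
  obtain ⟨u, hu⟩ : ∃ u, u = 1 / v := ⟨_, rfl⟩
  obtain ⟨ω, hω⟩ : ∃ ω, ω = w / v := ⟨_, rfl⟩
  have huv : u * v = 1 := by rw [hu]; field_simp
  have hQq : Q = q * v := by rw [hq]; field_simp
  have hwω : w = ω * v := by rw [hω]; field_simp
  have hu0 : 0 < u := by rw [hu]; positivity
  have hu1 : u ≤ 1 := by rw [hu, div_le_one hv0]; exact hv
  have hq0 : 0 ≤ q := by rw [hq]; positivity
  have hq1 : q * (1 - ρ) ≤ ρ := by
    rw [hq, div_mul_eq_mul_div, div_le_iff₀ hv0]
    exact hQ
  have h1ρ : 0 < 1 - ρ := by linarith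
  have hqκ : q ≤ κ := by
    have : q * (1 - ρ) ≤ κ * (1 - ρ) := by rw [hκ]; exact hq1
    exact le_of_mul_le_mul_right this h1ρ
  have hω1 : |ω| ≤ 1 / 2 := by
    rw [hω, abs_div, abs_of_pos hv0, div_le_iff₀ hv0]
    linarith
  have hω2 : -C0 * u ≤ ω := by
    rw [hω, hu, mul_one_div, div_le_div_iff_of_pos_right hv0]
    exact hw
  obtain ⟨hN1, hN2⟩ := abs_le.1 hN
  obtain ⟨hw3, hw4⟩ := abs_le.1 hω1
  set x := (N - ρ / 2 + ρ * P + δ) * u with hx
  set z := N - ρ / 2 + P + δ with hz
  set Y := z * q - ρ / 2 - ω + B * q * u with hY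
  have e1 : (N - ρ / 2 + ρ * P + δ) / v = x := by
    rw [hx, hu]
    ring
  have e2 : ((z * Q - (ρ / 2 * v + w)) / v + B * Q / v ^ 2) = Y := by
    rw [hY, hQq, hwω, hu]
    field_simp
    ring
  rw [e1, e2]
  have hB0 : 0 < B := by rw [hB]; linarith
  have hP : 0 ≤ ρ * P := by positivity
  have hρP : ρ * P ≤ 1 := by nlinarith
  have hxB : |x| ≤ B * u := by
    rw [hx, abs_mul, abs_of_pos hu0]
    apply mul_le_mul_of_nonneg_right _ hu0.le
    rw [abs_le]
    constructor
    · rw [hB]; linarith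
    · rw [hB]; linarith
  have hzB : |z| ≤ B := by
    rw [hz, abs_le]
    constructor
    · rw [hB]; linarith
    · rw [hB]; linarith
  have hYB : |Y| ≤ 2 * B * κ + 1 := by
    have h1 : |z * q| ≤ B * κ := by
      rw [abs_mul, abs_of_nonneg hq0]
      exact mul_le_mul hzB hqκ hq0 hB0.le
    have h2 : |B * q * u| ≤ B * κ := by
      rw [abs_of_nonneg (by positivity)]
      calc B * q * u ≤ B * q * 1 := mul_le_mul_of_nonneg_left hu1 (by positivity)
        _ ≤ B * κ := by
            rw [mul_one]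
            exact mul_le_mul_of_nonneg_left hqκ hB0.le
    obtain ⟨h3, h4⟩ := abs_le.1 h1
    obtain ⟨h5, h6⟩ := abs_le.1 h2
    rw [hY, abs_le]
    constructor <;> linarith
  have hxY : x * Y ≤ (B * u) * (2 * B * κ + 1) := by
    calc x * Y ≤ |x * Y| := le_abs_self _
      _ = |x| * |Y| := abs_mul _ _
      _ ≤ (B * u) * (2 * B * κ + 1) := mul_le_mul hxB hYB (abs_nonneg _) (by positivity)
  have hδu : (C0 + B * κ + B * (2 * B * κ + 1)) * u ≤ δ := by
    calc (C0 + B * κ + B * (2 * B * κ + 1)) * u ≤ (δ * v) * u :=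
          mul_le_mul_of_nonneg_right hbig hu0.le
      _ = δ := by rw [mul_assoc, mul_comm v u, huv, mul_one]
  have hBqu : B * q * u ≤ B * κ * u :=
    mul_le_mul_of_nonneg_right (mul_le_mul_of_nonneg_left hqκ hB0.le) hu0.le
  have hPq : 0 ≤ P * (ρ - q * (1 - ρ)) := mul_nonneg hP0 (by linarith)
  have e3 : x * (v + Q) = (N - ρ / 2 + ρ * P + δ) * (1 + q) := by
    rw [hx, hQq]
    calc (N - ρ / 2 + ρ * P + δ) * u * (v + q * v) =
          (N - ρ / 2 + ρ * P + δ) * (u * v) * (1 + q) := by ring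
      _ = _ := by rw [huv]; ring
  have e4 : (1 + x) * (v + Q - Y) - (v + Q + N) = P * (ρ - q * (1 - ρ)) + δ + ω - B * q * u -
      x * Y := by
    have : (1 + x) * (v + Q - Y) - (v + Q + N) = x * (v + Q) - Y - N - x * Y := by ring
    rw [this, e3, hY, hz]
    ring
  have h9 : 0 ≤ P * (ρ - q * (1 - ρ)) + δ + ω - B * q * u - x * Y := by
    have e5 : (C0 + B * κ + B * (2 * B * κ + 1)) * u =
        C0 * u + B * κ * u + (B * u) * (2 * B * κ + 1) := by ring
    rw [e5] at hδu
    linarith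
  linarith

/-- improved bound, `m` steps -/
theorem em_claim {ρ δ : ℝ} (hρ0 : 0 < ρ) (hρ1 : ρ < 1) (hδ : 0 < δ) (m : ℕ) :
    ∀ K C0 : ℝ, 0 ≤ K → 0 ≤ C0 → ∃ S : ℝ, 0 < S ∧ ∀ s : Multiset ℝ,
    (∀ r ∈ s, 0 ≤ r ∧ r ≤ ρ) → S ≤ emS s (fun r => r * (1 - r)) →
    -C0 ≤ emS s (fun r => r * (1 - r) * (r - ρ / 2)) → ∀ (k : ℕ) (N : ℝ), N = k + 1 - s.sum →
    |N| ≤ K → (pb s).coeff k ≤
      (1 + (N - ρ / 2 + ρ ^ m + δ) / emS s (fun r => r * (1 - r))) * (pb s).coeff (k + 1) := by
  induction m with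
  | zero =>
    intro K C0 hK hC0
    refine ⟨(K ^ 2 + K * δ) / δ + K + 1, by positivity, ?_⟩
    intro s h hv _ k N hN hNK
    set v := emS s (fun r => r * (1 - r)) with hvd
    obtain ⟨hN1, hN2⟩ := abs_le.1 hNK
    have hpos : 0 ≤ (K ^ 2 + K * δ) / δ := by positivity
    have hv0 : 0 < v := by linarith
    have hD : 0 < v - ρ * N := by nlinarith
    have h1 : ∀ r ∈ s, 0 ≤ r ∧ r ≤ 1 := fun r hr => ⟨(h r hr).1, by linarith [(h r hr).2]⟩
    have h2 := em_base hρ0 hρ1 _ s rfl h k N (v - ρ * N) hN rfl hD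
    refine le_trans h2 (mul_le_mul_of_nonneg_right ?_ (pb_coeff_nonneg _ s rfl h1 _))
    have h3 : N / (v - ρ * N) ≤ (N - ρ / 2 + ρ ^ 0 + δ) / v := by
      have h4 : N / (v - ρ * N) ≤ (N + δ) / v := by
        rw [div_le_div_iff₀ hD hv0]
        have h5 : K ^ 2 + K * δ ≤ δ * v := by
          have : (K ^ 2 + K * δ) / δ ≤ v := by linarith
          rw [div_le_iff₀ hδ] at this
          linarith
        have h6 : ρ * N ^ 2 ≤ K ^ 2 := by
          have : N ^ 2 ≤ K ^ 2 := sq_le_sq' hN1 hN2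
          nlinarith [sq_nonneg N]
        have h7 : ρ * N * δ ≤ K * δ := by
          apply mul_le_mul_of_nonneg_right _ hδ.le
          nlinarith
        nlinarith
      refine le_trans h4 ?_
      rw [div_le_div_iff_of_pos_right hv0, pow_zero]
      linarith
    linarith
  | succ m ih =>
    intro K C0 hK hC0
    obtain ⟨S', hS'0, hS'⟩ := ih (K + 1) (C0 + 1) (by linarith) (by linarith)
    obtain ⟨B, hB⟩ : ∃ B, B = K + δ + 4 := ⟨_, rfl⟩
    obtain ⟨κ, hκd⟩ : ∃ κ, κ = ρ / (1 - ρ) := ⟨_, rfl⟩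
    have h1ρ : 0 < 1 - ρ := by linarith
    have hκ : κ * (1 - ρ) = ρ := by
      rw [hκd]
      field_simp
    have hκ0 : 0 ≤ κ := by
      rw [hκd]
      positivity
    have hB0 : 0 < B := by linarith
    have hT0 : 0 ≤ (C0 + B * κ + B * (2 * B * κ + 1)) / δ := by positivity
    refine ⟨S' + K + B + 5 + (C0 + B * κ + B * (2 * B * κ + 1)) / δ, by linarith, ?_⟩
    intro s h hv hw k N hN hNK
    have h1 : ∀ r ∈ s, 0 ≤ r ∧ r ≤ 1 := fun r hr => ⟨(h r hr).1, by linarith [(h r hr).2]⟩
    set v := emS s (fun r => r * (1 - r)) with hvd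
    set w := emS s (fun r => r * (1 - r) * (r - ρ / 2)) with hwd
    set Q := emS s (fun r => r ^ 2) with hQd
    obtain ⟨hN1, hN2⟩ := abs_le.1 hNK
    have hmu : s.sum = v + Q := em_mu s
    have hQ1 : Q ≤ ρ * s.sum := em_Q h
    have hQ0 : 0 ≤ Q := emS_nonneg (fun r _ => sq_nonneg r)
    have hv5 : 5 ≤ v := by linarith
    have hv0 : 0 < v := by linarith
    have hP0 : 0 < ρ ^ m := pow_pos hρ0 m
    have hP1 : ρ ^ m ≤ 1 := pow_le_one₀ hρ0.le hρ1.le
    set P := ρ ^ m with hPd
    have hF0 := pb_coeff_nonneg _ s rfl h1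
    obtain ⟨j, rfl⟩ : ∃ j, k = j + 1 := by
      rcases k with _ | j
      · exfalso
        simp only [Nat.cast_zero, zero_add] at hN
        linarith
      · exact ⟨j, rfl⟩
    -- one vertex removed
    have hkey : ∀ r ∈ s, (r - r ^ 2 * ((N - ρ / 2 + P + δ - (1 - r)) / v + B / v ^ 2)) *
        (pb s).coeff (j + 1) ≤ r * (pb (s.erase r)).coeff (j + 1) := by
      intro r hr
      have hrr := h r hr
      have h' : ∀ r' ∈ s.erase r, 0 ≤ r' ∧ r' ≤ ρ :=
        fun r' hr' => h r' (Multiset.mem_of_mem_erase hr')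
      have h1' : ∀ r' ∈ s.erase r, 0 ≤ r' ∧ r' ≤ 1 :=
        fun r' hr' => h1 r' (Multiset.mem_of_mem_erase hr')
      have hg := pb_coeff_nonneg _ (s.erase r) rfl h1'
      have hsum : s.sum = r + (s.erase r).sum := (Multiset.sum_erase hr).symm
      have hvv : v = r * (1 - r) + emS (s.erase r) (fun r => r * (1 - r)) := emS_erase hr _
      have hww : w = r * (1 - r) * (r - ρ / 2) +
          emS (s.erase r) (fun r => r * (1 - r) * (r - ρ / 2)) := emS_erase hr _
      have hr4 : r * (1 - r) ≤ 1 := by nlinarith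
      have hr5 : 0 ≤ r * (1 - r) := mul_nonneg hrr.1 (by linarith)
      have hr6 : r * (1 - r) * (r - ρ / 2) ≤ 1 := by
        have : r - ρ / 2 ≤ 1 := by linarith
        nlinarith
      have hI := hS' (s.erase r) h' (by linarith) (by linarith) j (N - (1 - r)) (by
        rw [hN]
        push_cast
        linear_combination (-1 : ℝ) * hsum) (by
        rw [abs_le]
        constructor <;> linarith)
      set v' := emS (s.erase r) (fun r => r * (1 - r)) with hv'd
      have hv'0 : 0 < v' := by linarith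
      have hv'2 : v / 2 ≤ v' := by linarith
      set z := N - ρ / 2 + P + δ - (1 - r) with hzd
      have hzB : z ≤ B := by linarith
      have hx : (N - (1 - r) - ρ / 2 + P + δ) / v' ≤ z / v + B / v ^ 2 := by
        have e1 : N - (1 - r) - ρ / 2 + P + δ = z := by rw [hzd]; ring
        rw [e1]
        have e2 : z / v' - z / v = z * (r * (1 - r)) / (v * v') := by
          rw [div_sub_div _ _ hv'0.ne' hv0.ne', div_eq_div_iff (by positivity) (by positivity)]
          have : v - v' = r * (1 - r) := by linarith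
          rw [← this]
          ring
        have e3 : z * (r * (1 - r)) / (v * v') ≤ B / v ^ 2 := by
          rw [div_le_div_iff₀ (by positivity) (by positivity)]
          have h5 : r * (1 - r) ≤ 1 / 2 := by nlinarith [sq_nonneg (r - 1 / 2)]
          have h3 : z * (r * (1 - r)) ≤ B * (1 / 2) := by
            rcases le_or_gt 0 z with h0 | h0
            · exact mul_le_mul hzB h5 hr5 hB0.le
            · have : z * (r * (1 - r)) ≤ 0 := mul_nonpos_of_nonpos_of_nonneg h0.le hr5
              linarith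
          calc z * (r * (1 - r)) * v ^ 2 ≤ B * (1 / 2) * v ^ 2 :=
                mul_le_mul_of_nonneg_right h3 (by positivity)
            _ = B * (v * (v / 2)) := by ring
            _ ≤ B * (v * v') := by
                apply mul_le_mul_of_nonneg_left _ hB0.le
                exact mul_le_mul_of_nonneg_left hv'2 hv0.le
        linarith
      set X := z / v + B / v ^ 2 with hXd
      have hI2 : (pb (s.erase r)).coeff j ≤ (1 + X) * (pb (s.erase r)).coeff (j + 1) :=
        le_trans hI (mul_le_mul_of_nonneg_right (by linarith) (hg _))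
      have hI3 := mul_le_mul_of_nonneg_left hI2 hrr.1
      have hI4 : (pb s).coeff (j + 1) ≤ (1 + r * X) * (pb (s.erase r)).coeff (j + 1) := by
        rw [pb_coeff_succ hr]
        linarith
      have hI5 : (1 - r * X) * (pb s).coeff (j + 1) ≤ (pb (s.erase r)).coeff (j + 1) := by
        rcases le_or_gt 0 (1 - r * X) with h0 | h0
        · have h5 := mul_le_mul_of_nonneg_left hI4 h0
          have h6 : (1 - r * X) * ((1 + r * X) * (pb (s.erase r)).coeff (j + 1)) =
              (pb (s.erase r)).coeff (j + 1) -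
              (r * X) ^ 2 * (pb (s.erase r)).coeff (j + 1) := by ring
          have h7 : 0 ≤ (r * X) ^ 2 * (pb (s.erase r)).coeff (j + 1) :=
            mul_nonneg (sq_nonneg _) (hg _)
          linarith
        · have h5 : (1 - r * X) * (pb s).coeff (j + 1) ≤ 0 :=
            mul_nonpos_of_nonpos_of_nonneg h0.le (hF0 _)
          exact le_trans h5 (hg _)
      calc (r - r ^ 2 * X) * (pb s).coeff (j + 1) =
            r * ((1 - r * X) * (pb s).coeff (j + 1)) := by ring
        _ ≤ r * (pb (s.erase r)).coeff (j + 1) := mul_le_mul_of_nonneg_left hI5 hrr.1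
    have hsumle := emS_mono hkey
    rw [← pb_coeff_deriv] at hsumle
    have hR : emS s (fun r => r ^ 2 * (1 - r)) = ρ / 2 * v + w := by
      rw [hvd, hwd, ← emS_mul, ← emS_add]
      apply emS_congr
      intro r _
      ring
    set Y := ((N - ρ / 2 + P + δ) * Q - (ρ / 2 * v + w)) / v + B * Q / v ^ 2 with hYd
    have hL : emS s (fun r => (r - r ^ 2 * ((N - ρ / 2 + P + δ - (1 - r)) / v + B / v ^ 2)) *
        (pb s).coeff (j + 1)) = (v + Q - Y) * (pb s).coeff (j + 1) := by
      have e1 : emS s (fun r => (r - r ^ 2 * ((N - ρ / 2 + P + δ - (1 - r)) / v + B / v ^ 2)) *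
          (pb s).coeff (j + 1)) = emS s (fun r => (pb s).coeff (j + 1) * r +
          ((-(pb s).coeff (j + 1) * ((N - ρ / 2 + P + δ) / v + B / v ^ 2)) * r ^ 2 +
          ((pb s).coeff (j + 1) / v) * (r ^ 2 * (1 - r)))) := by
        apply emS_congr
        intro r _
        ring
      rw [e1, emS_add, emS_add, emS_mul, emS_mul, emS_mul, emS_id, hmu, hR, ← hQd, hYd]
      ring
    rw [hL] at hsumle
    have hk1 : (0 : ℝ) < ((j + 1 : ℕ) : ℝ) + 1 := by positivity
    have hkN : ((j + 1 : ℕ) : ℝ) + 1 = v + Q + N := by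
      rw [hN, hmu]
      ring
    have hvQ : Q * (1 - ρ) ≤ ρ * v := by
      rw [hmu] at hQ1
      linarith
    have hw1 : |w| ≤ v / 2 := by
      rw [abs_le]
      have ha : emS s (fun r => (-(1 / 2) : ℝ) * (r * (1 - r))) ≤ w := by
        apply emS_mono
        intro r hr
        have hrr := h r hr
        have hr5 : 0 ≤ r * (1 - r) := mul_nonneg hrr.1 (by linarith)
        have : -(1 / 2) ≤ r - ρ / 2 := by linarith
        have := mul_le_mul_of_nonneg_left this hr5
        linarith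
      have hb : w ≤ emS s (fun r => (1 / 2 : ℝ) * (r * (1 - r))) := by
        apply emS_mono
        intro r hr
        have hrr := h r hr
        have hr5 : 0 ≤ r * (1 - r) := mul_nonneg hrr.1 (by linarith)
        have : r - ρ / 2 ≤ 1 / 2 := by linarith
        have := mul_le_mul_of_nonneg_left this hr5
        linarith
      rw [emS_mul, ← hvd] at ha hb
      constructor <;> linarith
    have hbig : C0 + B * κ + B * (2 * B * κ + 1) ≤ δ * v := by
      have : (C0 + B * κ + B * (2 * B * κ + 1)) / δ ≤ v := by linarith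
      rw [div_le_iff₀ hδ] at this
      linarith
    have harith := em_arith hρ0 hρ1 hδ hK hB hκ hκ0 hP0.le hP1 hQ0 hvQ (by linarith) hw hw1
      hNK hbig
    rw [← hYd] at harith
    have hpow : ρ ^ (m + 1) = ρ * P := by
      rw [hPd]
      ring
    rw [hpow]
    set x := (N - ρ / 2 + ρ * P + δ) / v with hxd
    have h1x : 0 ≤ 1 + x := by
      have : -1 ≤ x := by
        rw [hxd, le_div_iff₀ hv0]
        have : 0 ≤ ρ * P := by positivity
        linarith
      linarith
    have hfin : ((((j + 1 : ℕ) : ℝ) + 1)) * (pb s).coeff (j + 1) ≤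
        ((((j + 1 : ℕ) : ℝ) + 1)) * ((1 + x) * (pb s).coeff (j + 1 + 1)) := by
      calc ((((j + 1 : ℕ) : ℝ) + 1)) * (pb s).coeff (j + 1) =
            (v + Q + N) * (pb s).coeff (j + 1) := by rw [hkN]
        _ ≤ ((1 + x) * (v + Q - Y)) * (pb s).coeff (j + 1) :=
            mul_le_mul_of_nonneg_right harith (hF0 _)
        _ = (1 + x) * ((v + Q - Y) * (pb s).coeff (j + 1)) := by ring
        _ ≤ (1 + x) * ((((j + 1 : ℕ) : ℝ) + 1) * (pb s).coeff (j + 1 + 1)) :=
            mul_le_mul_of_nonneg_left hsumle h1x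
        _ = _ := by ring
    exact le_of_mul_le_mul_left hfin hk1

/-- sign lemma -/
theorem sign_lemma (ρ ε C₀ : ℝ) (hρ0 : 0 < ρ) (hρ1 : ρ < 1) (hε : 0 < ε) :
    ∃ S : ℝ, ∀ s : Multiset ℝ, (∀ r ∈ s, 0 ≤ r ∧ r ≤ ρ) →
      S ≤ (s.map (fun r => r * (1 - r))).sum →
      -C₀ ≤ (s.map (fun r => r * (1 - r) * (r - ρ / 2))).sum →
      ∀ k : ℕ, ((k : ℝ) + 1) ≤ s.sum + ρ / 2 - ε → (pb s).coeff k ≤ (pb s).coeff (k + 1) := by
  obtain ⟨m, hm⟩ := exists_pow_lt_of_lt_one (half_pos hε) hρ1
  obtain ⟨S, hS0, hS⟩ := em_claim hρ0 hρ1 (half_pos hε) m 1 (max C₀ 0) zero_le_one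
    (le_max_right _ _)
  refine ⟨S, ?_⟩
  intro s h hv hw k hk
  have h1 : ∀ r ∈ s, 0 ≤ r ∧ r ≤ 1 := fun r hr => ⟨(h r hr).1, by linarith [(h r hr).2]⟩
  have hF0 := pb_coeff_nonneg _ s rfl h1 (k + 1)
  obtain ⟨N, hN⟩ : ∃ N, N = (k : ℝ) + 1 - s.sum := ⟨_, rfl⟩
  have hv1 : S ≤ emS s (fun r => r * (1 - r)) := hv
  have hw1 : -C₀ ≤ emS s (fun r => r * (1 - r) * (r - ρ / 2)) := hw
  rcases le_or_gt N 0 with h0 | h0
  · have hD : 0 < emS s (fun r => r * (1 - r)) - ρ * N := by nlinarith
    have h2 := em_base hρ0 hρ1 _ s rfl h k N _ hN rfl hD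
    have h3 : N / (emS s (fun r => r * (1 - r)) - ρ * N) ≤ 0 :=
      div_nonpos_of_nonpos_of_nonneg h0 hD.le
    nlinarith
  · have hNle : N ≤ ρ / 2 - ε := by linarith
    have hN1 : |N| ≤ 1 := by
      rw [abs_le]
      constructor <;> linarith
    have h2 := hS s h hv1 (le_trans (neg_le_neg (le_max_left _ _)) hw1) k N hN hN1
    have h3 : (N - ρ / 2 + ρ ^ m + ε / 2) / emS s (fun r => r * (1 - r)) ≤ 0 := by
      apply div_nonpos_of_nonpos_of_nonneg
      · linarith
      · linarith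
    nlinarith

end Pool.Agent.Lib.MP_eb8f1d_pr
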