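import Pool.Agent.Lib.MP_eb8f1d_pr.CycPB
import Pool.Agent.Lib.MP_eb8f1d_pr.SignLemma

/-!
# Optimal cycle types
-/

set_option autoImplicit false

namespace Pool.Agent.Lib.MP_eb8f1d_pr

open Finset Polynomial

namespace CycOpt

/-! ### `cum` -/

theorem cum_sub (F G : ℝ[X]) (k : ℕ) : cum (F - G) k = cum F k - cum G k := by
  simp [cum, Finset.sum_sub_distrib]

theorem cum_one_sub_X_mul (H : ℝ[X]) (k : ℕ) : cum ((1 - X) * H) k = H.coeff k := by
  induction k with
  | zero => simp [cum, sub_mul]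
  | succ k ih =>
    unfold cum at ih ⊢
    rw [Finset.sum_range_succ, ih, sub_mul, one_mul, coeff_sub, coeff_X_mul]
    ring

theorem cum_uu_sq_mul (a : ℝ) (G : ℝ[X]) (k : ℕ) :
    cum (uu a ^ 2 * G) k = a ^ 2 * ((1 - X) * G).coeff k := by
  have h : uu a ^ 2 * G = (1 - X) * (C (a ^ 2) * ((1 - X) * G)) := by
    unfold uu
    rw [C_pow]
    ring
  rw [h, cum_one_sub_X_mul, coeff_C_mul]

theorem coeff_zero_one_sub (G : ℝ[X]) : ((1 - X) * G).coeff 0 = G.coeff 0 := by
  simp [sub_mul]

theorem coeff_succ_one_sub (G : ℝ[X]) (k : ℕ) :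
    ((1 - X) * G).coeff (k + 1) = G.coeff (k + 1) - G.coeff k := by
  rw [sub_mul, one_mul, coeff_sub, coeff_X_mul]

/-! ### identities between the cycle polynomials -/

theorem cyc_zero (a : ℝ) : cyc a 0 = 2 := rfl

theorem cyc_one (a : ℝ) : cyc a 1 = 1 := rfl

theorem cyc_rec (a : ℝ) (L : ℕ) : cyc a (L + 2) = cyc a (L + 1) - uu a * cyc a L := rfl

theorem cyc_two (a : ℝ) : cyc a 2 = 1 - 2 * uu a := by
  rw [cyc_rec, cyc_one, cyc_zero]; ring

theorem cyc_three (a : ℝ) : cyc a 3 = 1 - 3 * uu a := by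
  rw [cyc_rec, cyc_two, cyc_one]; ring

theorem cyc_four (a : ℝ) : cyc a 4 = 1 - 4 * uu a + 2 * uu a ^ 2 := by
  rw [cyc_rec, cyc_three, cyc_two]; ring

theorem cyc_five (a : ℝ) : cyc a 5 = 1 - 5 * uu a + 5 * uu a ^ 2 := by
  rw [cyc_rec, cyc_four, cyc_three]; ring

theorem cyc_six (a : ℝ) : cyc a 6 = 1 - 6 * uu a + 9 * uu a ^ 2 - 2 * uu a ^ 3 := by
  rw [cyc_rec, cyc_five, cyc_four]; ring

theorem cyc_seven (a : ℝ) :
    cyc a 7 = 1 - 7 * uu a + 14 * uu a ^ 2 - 7 * uu a ^ 3 := by
  rw [cyc_rec, cyc_six, cyc_five]; ring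

theorem cyc_eight (a : ℝ) :
    cyc a 8 = 1 - 8 * uu a + 20 * uu a ^ 2 - 16 * uu a ^ 3 + 2 * uu a ^ 4 := by
  rw [cyc_rec, cyc_seven, cyc_six]; ring

/-- `c_{m+2} c_2 = c_{m+4} + u² c_m` -/
theorem cyc_mul_two (a : ℝ) (m : ℕ) :
    cyc a (m + 2) * cyc a 2 - cyc a (m + 4) = uu a ^ 2 * cyc a m := by
  have h4 : cyc a (m + 4) = cyc a (m + 3) - uu a * cyc a (m + 2) := rfl
  have h3 : cyc a (m + 3) = cyc a (m + 2) - uu a * cyc a (m + 1) := rfl
  have h2 : cyc a (m + 2) = cyc a (m + 1) - uu a * cyc a m := rfl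
  rw [cyc_two, h4, h3]
  have h1 : cyc a (m + 1) = cyc a (m + 2) + uu a * cyc a m := by rw [h2]; ring
  rw [h1]
  ring

theorem id33 (a : ℝ) : cyc a 4 * cyc a 2 - cyc a 3 * cyc a 3 = uu a ^ 2 * (1 - 4 * uu a) := by
  rw [cyc_four, cyc_three, cyc_two]; ring

theorem id35 (a : ℝ) : cyc a 6 * cyc a 2 - cyc a 3 * cyc a 5 =
    uu a ^ 2 * ((1 - uu a) * (1 - 4 * uu a)) := by
  rw [cyc_six, cyc_five, cyc_three, cyc_two]; ring

theorem id55 (a : ℝ) : cyc a 8 * cyc a 2 - cyc a 5 * cyc a 5 =
    uu a ^ 2 * ((1 - uu a) * ((1 - uu a) * (1 - 4 * uu a))) := by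
  rw [cyc_eight, cyc_five, cyc_two]; ring

/-! ### `pb` and `gf` -/

theorem pb_add (s t : Multiset ℝ) : pb (s + t) = pb s * pb t := by
  simp [pb]

theorem pb_cons (r : ℝ) (s : Multiset ℝ) : pb (r ::ₘ s) = (C (1 - r) + C r * X) * pb s := by
  simp [pb]

theorem pb_coeff_nonneg (s : Multiset ℝ) (h : ∀ r ∈ s, 0 ≤ r ∧ r ≤ 1) (k : ℕ) :
    0 ≤ (pb s).coeff k := by
  induction s using Multiset.induction_on generalizing k with
  | empty =>
    simp only [pb, Multiset.map_zero, Multiset.prod_zero, coeff_one]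
    split_ifs <;> norm_num
  | cons r s ih =>
    have hr := h r (Multiset.mem_cons_self _ _)
    have hs : ∀ k, 0 ≤ (pb s).coeff k := ih (fun x hx => h x (Multiset.mem_cons_of_mem hx))
    rw [pb_cons, add_mul, coeff_add, coeff_C_mul, mul_assoc, coeff_C_mul]
    refine add_nonneg (mul_nonneg (by linarith) (hs k)) (mul_nonneg hr.1 ?_)
    cases k with
    | zero => simp
    | succ k => rw [coeff_X_mul]; exact hs k

/-- the third-moment functional -/
noncomputable def tm (a : ℝ) (t : Multiset ℝ) : ℝ :=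
  (t.map (fun r => r * (1 - r) * (r - 2 * a))).sum

theorem tm_add (a : ℝ) (s t : Multiset ℝ) : tm a (s + t) = tm a s + tm a t := by
  simp [tm]

theorem tm_cons (a r : ℝ) (s : Multiset ℝ) :
    tm a (r ::ₘ s) = r * (1 - r) * (r - 2 * a) + tm a s := by
  simp [tm]

theorem gf_cons (a : ℝ) (L : ℕ) (s : Multiset ℕ) : gf a (L ::ₘ s) = cyc a L * gf a s := by
  simp [gf]

theorem gf_pb (a : ℝ) (ha : 0 < a) (ha4 : 4 * a ≤ 1) (s : Multiset ℕ) (hs : ∀ L ∈ s, 2 ≤ L) :
    ∃ t : Multiset ℝ, (∀ r ∈ t, 0 ≤ r ∧ r ≤ 4 * a) ∧ gf a s = pb t ∧ t.sum = s.sum * a ∧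
      0 ≤ tm a t := by
  induction s using Multiset.induction_on with
  | empty =>
    refine ⟨0, by simp, by simp [gf, pb], by simp, by simp [tm]⟩
  | cons L s ih =>
    obtain ⟨t, ht, hg, hsum, htm⟩ := ih (fun x hx => hs x (Multiset.mem_cons_of_mem hx))
    obtain ⟨t', ht', hg', hsum', htm'⟩ := cyc_pb a ha ha4 L (hs L (Multiset.mem_cons_self _ _))
    refine ⟨t' + t, ?_, ?_, ?_, ?_⟩
    · intro r hr
      rcases Multiset.mem_add.1 hr with h | h
      · exact ht' r h
      · exact ht r h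
    · rw [gf_cons, pb_add, hg, hg']
    · rw [Multiset.sum_add, hsum, hsum', Multiset.sum_cons]
      push_cast
      ring
    · rw [tm_add]
      exact add_nonneg htm' htm

/-- `v ≥ (1 - ρ) mean` -/
theorem var_ge (ρ : ℝ) (t : Multiset ℝ) (ht : ∀ r ∈ t, 0 ≤ r ∧ r ≤ ρ) :
    (1 - ρ) * t.sum ≤ (t.map (fun r => r * (1 - r))).sum := by
  induction t using Multiset.induction_on with
  | empty => simp
  | cons r t ih =>
    have hr := ht r (Multiset.mem_cons_self _ _)
    have h := ih (fun x hx => ht x (Multiset.mem_cons_of_mem hx))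
    rw [Multiset.sum_cons, Multiset.map_cons, Multiset.sum_cons]
    nlinarith [hr.1, hr.2]

/-- the sign of the change -/
theorem sign_step (a : ℝ) (ha : 0 < a) (ha4 : 4 * a < 1) :
    ∃ N : ℕ, ∀ n ≥ N, ∀ k : ℕ, (k : ℝ) ≤ n * a - 1 / 2 + (1 - 4 * a) / 8 →
      ∀ (e : Multiset ℝ) (s : Multiset ℕ), (∀ r ∈ e, 0 ≤ r ∧ r ≤ 4 * a) → (∀ L ∈ s, 2 ≤ L) →
        -2 ≤ tm a e → (n : ℝ) * a - 4 * a ≤ e.sum + s.sum * a →
        0 ≤ cum (uu a ^ 2 * (pb e * gf a s)) k := by
  obtain ⟨S, hS⟩ := sign_lemma (4 * a) ((1 - 4 * a) / 8) 2 (by linarith) ha4 (by linarith)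
  obtain ⟨N, hN⟩ := exists_nat_ge (S / ((1 - 4 * a) * a) + 4)
  refine ⟨N, fun n hn k hk e s he hs hte hsum => ?_⟩
  obtain ⟨t, ht, hg, hts, htm⟩ := gf_pb a ha ha4.le s hs
  rw [hg, ← pb_add, cum_uu_sq_mul]
  have het : ∀ r ∈ e + t, 0 ≤ r ∧ r ≤ 4 * a := by
    intro r hr
    rcases Multiset.mem_add.1 hr with h | h
    · exact he r h
    · exact ht r h
  refine mul_nonneg (sq_nonneg _) ?_
  cases k with
  | zero =>
    rw [coeff_zero_one_sub]
    exact pb_coeff_nonneg _ (fun r hr => ⟨(het r hr).1, (het r hr).2.trans ha4.le⟩) 0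
  | succ k =>
    rw [coeff_succ_one_sub, sub_nonneg]
    have hmean : (n : ℝ) * a - 4 * a ≤ (e + t).sum := by
      rw [Multiset.sum_add, hts]
      exact hsum
    refine hS (e + t) het ?_ ?_ k ?_
    · refine le_trans ?_ (var_ge (4 * a) (e + t) het)
      have h1 : 0 < (1 - 4 * a) * a := mul_pos (by linarith) ha
      have h2 : S / ((1 - 4 * a) * a) + 4 ≤ n := hN.trans (by exact_mod_cast hn)
      have h3 : S / ((1 - 4 * a) * a) ≤ n - 4 := by linarith
      rw [div_le_iff₀ h1] at h3
      have h4 : (1 - 4 * a) * ((n : ℝ) * a - 4 * a) ≤ (1 - 4 * a) * (e + t).sum :=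
        mul_le_mul_of_nonneg_left hmean (by linarith)
      refine le_trans (le_trans h3 (le_of_eq ?_)) h4
      ring
    · have h5 : (e + t).map (fun r => r * (1 - r) * (r - 4 * a / 2)) =
          (e + t).map (fun r => r * (1 - r) * (r - 2 * a)) := by
        refine Multiset.map_congr rfl fun r _ => ?_
        ring
      rw [h5]
      change -2 ≤ tm a (e + t)
      rw [tm_add]
      linarith
    · push_cast at hk
      linarith

/-! ### the reduction -/

/-- weight of a cycle type -/
def wgh (s : Multiset ℕ) : ℕ := (s.map (fun L => (L - 2) + L % 2)).sum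

theorem wgh_cons (L : ℕ) (s : Multiset ℕ) : wgh (L ::ₘ s) = (L - 2) + L % 2 + wgh s := by
  simp [wgh]

theorem one_sub_four_uu (a : ℝ) : 1 - 4 * uu a = pb {4 * a} := by
  simp only [pb, Multiset.map_singleton, Multiset.prod_singleton, uu]
  rw [C_sub, C_1, C_mul, show (C (4 : ℝ) : ℝ[X]) = 4 from rfl]
  ring

theorem one_sub_uu (a : ℝ) : 1 - uu a = pb {a} := by
  simp only [pb, Multiset.map_singleton, Multiset.prod_singleton, uu]
  rw [C_sub, C_1]
  ring

theorem reduce (a : ℝ) (ha : 0 < a) (ha4 : 4 * a < 1) :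
    ∃ N : ℕ, ∀ n ≥ N, ∀ k : ℕ, (k : ℝ) ≤ n * a - 1 / 2 + (1 - 4 * a) / 8 →
      ∀ s : Multiset ℕ, (∀ L ∈ s, 2 ≤ L) → s.sum = n →
        ∃ s' : Multiset ℕ, s'.sum = n ∧ (∃ m : ℕ, s' = Multiset.replicate m 2 ∨
          s' = 3 ::ₘ Multiset.replicate m 2 ∨ s' = 5 ::ₘ Multiset.replicate m 2) ∧
          cum (gf a s) k ≤ cum (gf a s') k := by
  obtain ⟨N, hN⟩ := sign_step a ha ha4
  refine ⟨N, fun n hn k hk => ?_⟩
  -- strong induction on the weight
  suffices H : ∀ (w : ℕ) (s : Multiset ℕ), wgh s = w → (∀ L ∈ s, 2 ≤ L) → s.sum = n →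
        ∃ s' : Multiset ℕ, s'.sum = n ∧ (∃ m : ℕ, s' = Multiset.replicate m 2 ∨
          s' = 3 ::ₘ Multiset.replicate m 2 ∨ s' = 5 ::ₘ Multiset.replicate m 2) ∧
          cum (gf a s) k ≤ cum (gf a s') k from
    fun s hs hsum => H _ s rfl hs hsum
  intro w
  induction w using Nat.strong_induction_on with
  | _ w ih =>
  intro s hw hs hsum
  -- generic step
  have step : ∀ (s₁ : Multiset ℕ), wgh s₁ < w → (∀ L ∈ s₁, 2 ≤ L) → s₁.sum = n →
      0 ≤ cum (gf a s₁ - gf a s) k →
      ∃ s' : Multiset ℕ, s'.sum = n ∧ (∃ m : ℕ, s' = Multiset.replicate m 2 ∨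
          s' = 3 ::ₘ Multiset.replicate m 2 ∨ s' = 5 ::ₘ Multiset.replicate m 2) ∧
          cum (gf a s) k ≤ cum (gf a s') k := by
    intro s₁ h1 h2 h3 h4
    obtain ⟨s', hs', hm, hle⟩ := ih (wgh s₁) h1 s₁ rfl h2 h3
    refine ⟨s', hs', hm, ?_⟩
    rw [cum_sub] at h4
    linarith
  by_cases hA : ∃ L ∈ s, L = 4 ∨ 6 ≤ L
  · obtain ⟨L, hL, hL'⟩ := hA
    obtain ⟨t, rfl⟩ := Multiset.exists_cons_of_mem hL
    have ht : ∀ x ∈ t, 2 ≤ x := fun x hx => hs x (Multiset.mem_cons_of_mem hx)
    obtain ⟨m, rfl⟩ : ∃ m, L = m + 4 := ⟨L - 4, by omega⟩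
    rw [Multiset.sum_cons] at hsum
    have hsum' : ((m : ℝ) + 4 + ((t.sum : ℕ) : ℝ)) = n := by
      rw [← hsum, Nat.cast_add, Nat.cast_add]
      norm_num
    have hq : ((t.sum : ℕ) : ℝ) = n - m - 4 := by linarith
    refine step ((m + 2) ::ₘ 2 ::ₘ t) ?_ ?_ ?_ ?_
    · rw [← hw]
      simp only [wgh_cons]
      omega
    · intro x hx
      simp only [Multiset.mem_cons] at hx
      rcases hx with rfl | rfl | hx
      · omega
      · omega
      · exact ht x hx
    · simp only [Multiset.sum_cons]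
      omega
    · have hid : gf a ((m + 2) ::ₘ 2 ::ₘ t) - gf a ((m + 4) ::ₘ t) =
          uu a ^ 2 * (cyc a m * gf a t) := by
        rw [gf_cons, gf_cons, gf_cons]
        have := cyc_mul_two a m
        calc cyc a (m + 2) * (cyc a 2 * gf a t) - cyc a (m + 4) * gf a t
            = (cyc a (m + 2) * cyc a 2 - cyc a (m + 4)) * gf a t := by ring
          _ = uu a ^ 2 * (cyc a m * gf a t) := by rw [this]; ring
      rw [hid]
      rcases hL' with h4 | h6
      · have hm0 : m = 0 := by omega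
        subst hm0
        rw [cyc_zero]
        have hpos := hN n hn k hk 0 t (by simp) ht (by simp [tm]) (by
          rw [Multiset.sum_zero, hq]
          simp only [Nat.cast_zero]
          nlinarith)
        have h2 : uu a ^ 2 * (2 * gf a t) =
            uu a ^ 2 * (pb 0 * gf a t) + uu a ^ 2 * (pb 0 * gf a t) := by
          simp only [pb, Multiset.map_zero, Multiset.prod_zero]
          ring
        have h3 : cum (uu a ^ 2 * (2 * gf a t)) k =
            cum (uu a ^ 2 * (pb 0 * gf a t)) k + cum (uu a ^ 2 * (pb 0 * gf a t)) k := by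
          rw [h2]
          simp [cum, Finset.sum_add_distrib]
        rw [h3]
        linarith
      · have hpos := hN n hn k hk 0 (m ::ₘ t) (by simp) (by
          intro x hx
          rcases Multiset.mem_cons.1 hx with rfl | hx
          · omega
          · exact ht x hx) (by simp [tm]) (by
          rw [Multiset.sum_zero, Multiset.sum_cons, Nat.cast_add, hq]
          nlinarith)
        have h2 : pb 0 * gf a (m ::ₘ t) = cyc a m * gf a t := by
          rw [gf_cons]
          simp [pb]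
        rw [h2] at hpos
        exact hpos
  · push Not at hA
    have hmem : ∀ L ∈ s, L = 2 ∨ L = 3 ∨ L = 5 := by
      intro L hL
      have h1 := hs L hL
      have h2 := hA L hL
      omega
    -- split off the twos
    have hsplit : s = Multiset.replicate (s.count 2) 2 + s.filter (fun x => x ≠ 2) := by
      conv_lhs => rw [← Multiset.filter_add_not (fun x => x = 2) s]
      congr 1
      exact Multiset.filter_eq' s 2
    have hfm : ∀ x ∈ s.filter (fun x => x ≠ 2), x = 3 ∨ x = 5 := by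
      intro x hx
      rw [Multiset.mem_filter] at hx
      rcases hmem x hx.1 with h | h | h
      · exact absurd h hx.2
      · exact Or.inl h
      · exact Or.inr h
    generalize s.filter (fun x => x ≠ 2) = f at hsplit hfm
    generalize s.count 2 = m at hsplit
    -- `s = replicate m 2 + f`, all elements of `f` are 3 or 5
    induction f using Multiset.induction_on with
    | empty => exact ⟨s, hsum, ⟨m, Or.inl (by simpa using hsplit)⟩, le_rfl⟩
    | cons x f _ =>
      have hx := hfm x (Multiset.mem_cons_self _ _)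
      induction f using Multiset.induction_on with
      | empty =>
        refine ⟨s, hsum, ⟨m, Or.inr ?_⟩, le_rfl⟩
        rw [Multiset.add_cons, add_zero] at hsplit
        rcases hx with rfl | rfl
        · exact Or.inl hsplit
        · exact Or.inr hsplit
      | cons y f _ =>
        have hy := hfm y (Multiset.mem_cons_of_mem (Multiset.mem_cons_self _ _))
        rw [Multiset.add_cons, Multiset.add_cons] at hsplit
        generalize hg : Multiset.replicate m 2 + f = t at hsplit
        subst hsplit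
        have ht : ∀ z ∈ t, 2 ≤ z := fun z hz =>
          hs z (Multiset.mem_cons_of_mem (Multiset.mem_cons_of_mem hz))
        -- a generic pair step
        have pair : ∀ (z : ℕ) (e : Multiset ℝ), 2 ≤ z → x + y = z + 2 →
            (z - 2) + z % 2 < (x - 2) + x % 2 + ((y - 2) + y % 2) →
            (∀ r ∈ e, 0 ≤ r ∧ r ≤ 4 * a) → -2 ≤ tm a e → (x + y - 4 : ℝ) * a ≤ e.sum →
            cyc a z * cyc a 2 - cyc a x * cyc a y = uu a ^ 2 * pb e →
            ∃ s' : Multiset ℕ, s'.sum = n ∧ (∃ m : ℕ, s' = Multiset.replicate m 2 ∨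
              s' = 3 ::ₘ Multiset.replicate m 2 ∨ s' = 5 ::ₘ Multiset.replicate m 2) ∧
              cum (gf a (x ::ₘ y ::ₘ t)) k ≤ cum (gf a s') k := by
          intro z e hz hxy hwt he hte hes hid
          rw [Multiset.sum_cons, Multiset.sum_cons] at hsum
          have hsum' : ((x : ℝ) + (y : ℝ) + ((t.sum : ℕ) : ℝ)) = n := by
            rw [← hsum, Nat.cast_add, Nat.cast_add]
            ring
          have hq : ((t.sum : ℕ) : ℝ) = n - x - y := by linarith
          refine step (z ::ₘ 2 ::ₘ t) ?_ ?_ ?_ ?_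
          · rw [← hw]
            simp only [wgh_cons]
            omega
          · intro v hv
            simp only [Multiset.mem_cons] at hv
            rcases hv with rfl | rfl | hv
            · exact hz
            · exact le_rfl
            · exact ht v hv
          · simp only [Multiset.sum_cons]
            omega
          · have hid' : gf a (z ::ₘ 2 ::ₘ t) - gf a (x ::ₘ y ::ₘ t) =
                uu a ^ 2 * (pb e * gf a t) := by
              rw [gf_cons, gf_cons, gf_cons, gf_cons]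
              calc cyc a z * (cyc a 2 * gf a t) - cyc a x * (cyc a y * gf a t)
                  = (cyc a z * cyc a 2 - cyc a x * cyc a y) * gf a t := by ring
                _ = uu a ^ 2 * (pb e * gf a t) := by rw [hid]; ring
            rw [hid']
            refine hN n hn k hk e t he ht hte ?_
            rw [hq]
            nlinarith
        have ha1 : a < 1 / 4 := by linarith
        rcases hx with rfl | rfl <;> rcases hy with rfl | rfl
        · refine pair 4 {4 * a} (by norm_num) (by norm_num) (by norm_num) ?_ ?_ ?_ ?_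
          · intro r hr
            rw [Multiset.mem_singleton] at hr
            subst hr
            exact ⟨by linarith, le_rfl⟩
          · simp only [tm, Multiset.map_singleton, Multiset.sum_singleton]
            nlinarith [mul_pos ha ha, mul_pos ha (sub_pos.2 ha4)]
          · rw [Multiset.sum_singleton]
            norm_num
            linarith
          · rw [id33, one_sub_four_uu]
        · refine pair 6 (a ::ₘ {4 * a}) (by norm_num) (by norm_num) (by norm_num) ?_ ?_ ?_ ?_
          · intro r hr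
            simp only [Multiset.mem_cons, Multiset.mem_singleton] at hr
            rcases hr with rfl | rfl
            · exact ⟨ha.le, by linarith⟩
            · exact ⟨by linarith, le_rfl⟩
          · rw [tm_cons]
            simp only [tm, Multiset.map_singleton, Multiset.sum_singleton]
            nlinarith [mul_pos ha ha, mul_pos ha (sub_pos.2 ha4),
              mul_pos (mul_pos ha ha) (sub_pos.2 ha4), mul_pos ha (sub_pos.2 ha1)]
          · rw [Multiset.sum_cons, Multiset.sum_singleton]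
            norm_num
            linarith
          · rw [id35, one_sub_four_uu, one_sub_uu, ← pb_add, Multiset.singleton_add]
        · refine pair 6 (a ::ₘ {4 * a}) (by norm_num) (by norm_num) (by norm_num) ?_ ?_ ?_ ?_
          · intro r hr
            simp only [Multiset.mem_cons, Multiset.mem_singleton] at hr
            rcases hr with rfl | rfl
            · exact ⟨ha.le, by linarith⟩
            · exact ⟨by linarith, le_rfl⟩
          · rw [tm_cons]
            simp only [tm, Multiset.map_singleton, Multiset.sum_singleton]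
            nlinarith [mul_pos ha ha, mul_pos ha (sub_pos.2 ha4),
              mul_pos (mul_pos ha ha) (sub_pos.2 ha4), mul_pos ha (sub_pos.2 ha1)]
          · rw [Multiset.sum_cons, Multiset.sum_singleton]
            norm_num
            linarith
          · rw [mul_comm (cyc a 5) (cyc a 3), id35, one_sub_four_uu, one_sub_uu, ← pb_add,
              Multiset.singleton_add]
        · refine pair 8 (a ::ₘ a ::ₘ {4 * a}) (by norm_num) (by norm_num) (by norm_num)
            ?_ ?_ ?_ ?_
          · intro r hr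
            simp only [Multiset.mem_cons, Multiset.mem_singleton] at hr
            rcases hr with rfl | rfl | rfl
            · exact ⟨ha.le, by linarith⟩
            · exact ⟨ha.le, by linarith⟩
            · exact ⟨by linarith, le_rfl⟩
          · rw [tm_cons, tm_cons]
            simp only [tm, Multiset.map_singleton, Multiset.sum_singleton]
            nlinarith [mul_pos ha ha, mul_pos ha (sub_pos.2 ha4),
              mul_pos (mul_pos ha ha) (sub_pos.2 ha4), mul_pos ha (sub_pos.2 ha1)]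
          · rw [Multiset.sum_cons, Multiset.sum_cons, Multiset.sum_singleton]
            norm_num
            linarith
          · rw [id55, one_sub_four_uu, one_sub_uu, ← pb_add, ← pb_add, Multiset.singleton_add,
              Multiset.singleton_add]

theorem main_even (a : ℝ) (ha : 0 < a) (ha4 : 4 * a < 1) :
    ∃ N : ℕ, ∀ n ≥ N, Even n → ∀ k : ℕ, (k : ℝ) ≤ n * a - 1 / 2 →
      ∀ s : Multiset ℕ, (∀ L ∈ s, 2 ≤ L) → s.sum = n →
        cum (gf a s) k ≤ cum (gf a (Multiset.replicate (n / 2) 2)) k := by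
  obtain ⟨N, hN⟩ := reduce a ha ha4
  refine ⟨N, fun n hn hev k hk s hs hsum => ?_⟩
  obtain ⟨s', hs', ⟨m, h | h | h⟩, hle⟩ := hN n hn k (by linarith) s hs hsum
  · subst h
    rw [Multiset.sum_replicate, smul_eq_mul] at hs'
    have : n / 2 = m := by omega
    rw [this]
    exact hle
  · subst h
    rw [Multiset.sum_cons, Multiset.sum_replicate, smul_eq_mul] at hs'
    obtain ⟨r, hr⟩ := hev
    omega
  · subst h
    rw [Multiset.sum_cons, Multiset.sum_replicate, smul_eq_mul] at hs'
    obtain ⟨r, hr⟩ := hev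
    omega

theorem main_odd (a : ℝ) (ha : 0 < a) (ha4 : 4 * a < 1) :
    ∃ η : ℝ, 0 < η ∧ η < 1 / 2 ∧ ∃ N : ℕ, ∀ n ≥ N, Odd n →
      ∀ k : ℕ, (k : ℝ) ≤ n * a - 1 / 2 + η →
      ∀ s : Multiset ℕ, (∀ L ∈ s, 2 ≤ L) → s.sum = n →
        cum (gf a s) k ≤ max (cum (gf a (3 ::ₘ Multiset.replicate ((n - 3) / 2) 2)) k)
          (cum (gf a (5 ::ₘ Multiset.replicate ((n - 5) / 2) 2)) k) := by
  obtain ⟨N, hN⟩ := reduce a ha ha4
  refine ⟨(1 - 4 * a) / 8, by linarith, by linarith, N, fun n hn hodd k hk s hs hsum => ?_⟩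
  obtain ⟨s', hs', ⟨m, h | h | h⟩, hle⟩ := hN n hn k hk s hs hsum
  · subst h
    rw [Multiset.sum_replicate, smul_eq_mul] at hs'
    obtain ⟨r, hr⟩ := hodd
    omega
  · subst h
    rw [Multiset.sum_cons, Multiset.sum_replicate, smul_eq_mul] at hs'
    have : (n - 3) / 2 = m := by omega
    rw [this]
    exact hle.trans (le_max_left _ _)
  · subst h
    rw [Multiset.sum_cons, Multiset.sum_replicate, smul_eq_mul] at hs'
    have : (n - 5) / 2 = m := by omega
    rw [this]
    exact hle.trans (le_max_right _ _)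

end CycOpt

theorem cyc_opt_even (a : ℝ) (ha : 0 < a) (ha4 : 4 * a < 1) :
    ∃ N : ℕ, ∀ n ≥ N, Even n → ∀ k : ℕ, (k : ℝ) ≤ n * a - 1 / 2 →
      ∀ s : Multiset ℕ, (∀ L ∈ s, 2 ≤ L) → s.sum = n →
        cum (gf a s) k ≤ cum (gf a (Multiset.replicate (n / 2) 2)) k :=
  CycOpt.main_even a ha ha4

theorem cyc_opt_odd (a : ℝ) (ha : 0 < a) (ha4 : 4 * a < 1) :
    ∃ η : ℝ, 0 < η ∧ η < 1 / 2 ∧ ∃ N : ℕ, ∀ n ≥ N, Odd n →
      ∀ k : ℕ, (k : ℝ) ≤ n * a - 1 / 2 + η →
      ∀ s : Multiset ℕ, (∀ L ∈ s, 2 ≤ L) → s.sum = n →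
        cum (gf a s) k ≤ max (cum (gf a (3 ::ₘ Multiset.replicate ((n - 3) / 2) 2)) k)
          (cum (gf a (5 ::ₘ Multiset.replicate ((n - 5) / 2) 2)) k) :=
  CycOpt.main_odd a ha ha4

end Pool.Agent.Lib.MP_eb8f1d_pr
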