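import Pool.Agent.Lib.MP_eb8f1d_pr.Basic

/-!
# Bernoulli factorisation of the cycle polynomials
-/

set_option autoImplicit false

namespace Pool.Agent.Lib.MP_eb8f1d_pr

open Finset Polynomial

namespace CycPB

/-- the cycle polynomials in the variable `u` -/
noncomputable def PP : ℕ → ℝ[X]
  | 0 => 2
  | 1 => 1
  | (L + 2) => PP (L + 1) - X * PP L

theorem PP_zero : PP 0 = 2 := rfl

theorem PP_one : PP 1 = 1 := rfl

theorem PP_rec (L : ℕ) : PP (L + 2) = PP (L + 1) - X * PP L := rfl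

theorem cyc_eq_comp (a : ℝ) : ∀ L : ℕ, cyc a L = (PP L).comp (uu a)
  | 0 => by simp [cyc, PP]
  | 1 => by simp [cyc, PP]
  | (L + 2) => by
    rw [PP_rec, sub_comp, mul_comp, X_comp, ← cyc_eq_comp a (L + 1), ← cyc_eq_comp a L]
    rfl

theorem natDegree_PP : ∀ L : ℕ, (PP L).natDegree ≤ L / 2
  | 0 => by simp [PP]
  | 1 => by simp [PP]
  | (L + 2) => by
    rw [PP_rec]
    refine (natDegree_sub_le _ _).trans (max_le ?_ ?_)
    · exact (natDegree_PP (L + 1)).trans (by omega)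
    · refine natDegree_mul_le.trans ?_
      have h1 := natDegree_PP L
      have h2 : (X : ℝ[X]).natDegree ≤ 1 := natDegree_X_le
      omega

theorem PP_coeff_rec (L m : ℕ) :
    (PP (L + 2)).coeff (m + 1) = (PP (L + 1)).coeff (m + 1) - (PP L).coeff m := by
  rw [PP_rec, coeff_sub, coeff_X_mul]

theorem PP_coeff_zero : ∀ L : ℕ, (PP (L + 1)).coeff 0 = 1
  | 0 => by simp [PP]
  | (L + 1) => by
    rw [PP_rec, coeff_sub, PP_coeff_zero L]
    simp

theorem PP_coeff_one : ∀ L : ℕ, (PP (L + 2)).coeff 1 = -((L : ℝ) + 2)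
  | 0 => by
    rw [PP_coeff_rec 0 0, PP_one, PP_zero]
    simp [coeff_one]
  | (L + 1) => by
    rw [PP_coeff_rec (L + 1) 0, PP_coeff_one L, PP_coeff_zero L]
    push_cast
    ring

theorem PP_coeff_two : ∀ L : ℕ, (PP (L + 3)).coeff 2 = ((L : ℝ) + 3) * L / 2
  | 0 => by
    rw [PP_coeff_rec 1 1, PP_coeff_rec 0 1, PP_one, PP_zero]
    simp [coeff_one]
  | (L + 1) => by
    rw [PP_coeff_rec (L + 2) 1, PP_coeff_two L, PP_coeff_one L]
    push_cast
    ring

theorem PP_coeff_three : ∀ L : ℕ,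
    (PP (L + 4)).coeff 3 = -(((L : ℝ) + 4) * L * (L - 1) / 6)
  | 0 => by
    have h4 : (PP (0 + 4)).natDegree ≤ 2 := (natDegree_PP (0 + 4)).trans (by norm_num)
    rw [coeff_eq_zero_of_natDegree_lt (by omega)]
    norm_num
  | (L + 1) => by
    rw [PP_coeff_rec (L + 3) 2, PP_coeff_three L, PP_coeff_two L]
    push_cast
    ring

/-- `c_L (1 / (4 cos² θ)) (2 cos θ)^L = 2 cos (L θ)` -/
theorem eval_PP (θ : ℝ) (hθ : Real.cos θ ≠ 0) : ∀ L : ℕ,
    (PP L).eval (1 / (4 * Real.cos θ ^ 2)) * (2 * Real.cos θ) ^ L = 2 * Real.cos (L * θ)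
  | 0 => by simp [PP]
  | 1 => by simp [PP]
  | (L + 2) => by
    have h1 := eval_PP θ hθ (L + 1)
    have h0 := eval_PP θ hθ L
    rw [PP_rec, eval_sub, eval_mul, eval_X]
    have hc : Real.cos (((L + 2 : ℕ) : ℝ) * θ) =
        2 * Real.cos θ * Real.cos (((L + 1 : ℕ) : ℝ) * θ) - Real.cos ((L : ℝ) * θ) := by
      have e1 : ((L + 2 : ℕ) : ℝ) * θ = ((L + 1 : ℕ) : ℝ) * θ + θ := by push_cast; ring
      have e2 : (L : ℝ) * θ = ((L + 1 : ℕ) : ℝ) * θ - θ := by push_cast; ring
      rw [e1, e2, Real.cos_add, Real.cos_sub]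
      ring
    rw [hc]
    have hs : (2 * Real.cos θ) ^ (L + 2) = (2 * Real.cos θ) ^ L * (4 * Real.cos θ ^ 2) := by
      rw [pow_add]; ring
    calc (eval (1 / (4 * Real.cos θ ^ 2)) (PP (L + 1)) -
          1 / (4 * Real.cos θ ^ 2) * eval (1 / (4 * Real.cos θ ^ 2)) (PP L)) *
          (2 * Real.cos θ) ^ (L + 2)
        = (2 * Real.cos θ) * (eval (1 / (4 * Real.cos θ ^ 2)) (PP (L + 1)) *
            (2 * Real.cos θ) ^ (L + 1)) -
          (1 / (4 * Real.cos θ ^ 2) * (4 * Real.cos θ ^ 2)) *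
            (eval (1 / (4 * Real.cos θ ^ 2)) (PP L) * (2 * Real.cos θ) ^ L) := by
          rw [hs, pow_succ]; ring
      _ = _ := by
          rw [h1, h0, one_div_mul_cancel (by positivity)]
          ring

/-- the inverse roots -/
noncomputable def yy (L j : ℕ) : ℝ := 4 * Real.cos ((2 * j + 1) * Real.pi / (2 * L)) ^ 2

theorem angle_mem (L j : ℕ) (hj : j < L / 2) :
    0 < (2 * (j : ℝ) + 1) * Real.pi / (2 * L) ∧
      (2 * (j : ℝ) + 1) * Real.pi / (2 * L) < Real.pi / 2 := by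
  have hL : 0 < (L : ℝ) := by
    have : 0 < L := by omega
    exact_mod_cast this
  have hpi := Real.pi_pos
  have h : (2 * (j : ℝ) + 1) < L := by
    have : 2 * j + 1 < L := by omega
    exact_mod_cast this
  constructor
  · positivity
  · rw [div_lt_div_iff₀ (by positivity) (by norm_num)]
    nlinarith

theorem cos_pos (L j : ℕ) (hj : j < L / 2) :
    0 < Real.cos ((2 * j + 1) * Real.pi / (2 * L)) := by
  obtain ⟨h1, h2⟩ := angle_mem L j hj
  exact Real.cos_pos_of_mem_Ioo ⟨by linarith, h2⟩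

theorem yy_pos (L j : ℕ) (hj : j < L / 2) : 0 < yy L j := by
  have := cos_pos L j hj
  unfold yy
  positivity

theorem yy_le (L j : ℕ) : yy L j ≤ 4 := by
  unfold yy
  have := Real.cos_sq_le_one ((2 * j + 1) * Real.pi / (2 * L))
  linarith

theorem yy_inj (L i j : ℕ) (hi : i < L / 2) (hj : j < L / 2) (h : yy L i = yy L j) : i = j := by
  unfold yy at h
  have hci := cos_pos L i hi
  have hcj := cos_pos L j hj
  have h1 : Real.cos ((2 * i + 1) * Real.pi / (2 * L)) =
      Real.cos ((2 * j + 1) * Real.pi / (2 * L)) := by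
    have h2 : Real.cos ((2 * i + 1) * Real.pi / (2 * L)) ^ 2 =
        Real.cos ((2 * j + 1) * Real.pi / (2 * L)) ^ 2 := by linarith
    exact (pow_left_inj₀ hci.le hcj.le (by norm_num)).1 h2
  obtain ⟨a1, a2⟩ := angle_mem L i hi
  obtain ⟨b1, b2⟩ := angle_mem L j hj
  have hpi := Real.pi_pos
  have h3 := Real.injOn_cos ⟨a1.le, by linarith⟩ ⟨b1.le, by linarith⟩ h1
  have hL : 0 < (L : ℝ) := by
    have : 0 < L := by omega
    exact_mod_cast this
  rw [div_left_inj' (by positivity)] at h3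
  have h4 := mul_right_cancel₀ hpi.ne' h3
  have h5 : (i : ℝ) = j := by linarith
  exact_mod_cast h5

theorem eval_PP_yy (L j : ℕ) (hj : j < L / 2) : (PP L).eval (1 / yy L j) = 0 := by
  have hc := cos_pos L j hj
  have h := eval_PP _ hc.ne' L
  have hL : (L : ℝ) ≠ 0 := by
    have : L ≠ 0 := by omega
    exact_mod_cast this
  have h2 : Real.cos ((L : ℝ) * ((2 * j + 1) * Real.pi / (2 * L))) = 0 := by
    rw [Real.cos_eq_zero_iff]
    refine ⟨j, ?_⟩
    push_cast
    field_simp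
  rw [h2, mul_zero] at h
  rcases mul_eq_zero.1 h with h | h
  · exact h
  · exact absurd h (pow_ne_zero _ (by positivity))

/-- the factorisation -/
theorem PP_eq_prod (L : ℕ) (hL : 1 ≤ L) :
    PP L = ∏ j ∈ range (L / 2), (1 - C (yy L j) * X) := by
  have hdeg : (∏ j ∈ range (L / 2), (1 - C (yy L j) * X)).natDegree ≤ L / 2 := by
    refine (natDegree_prod_le _ _).trans ?_
    refine (Finset.sum_le_card_nsmul _ _ 1 fun j _ => ?_).trans (by simp)
    refine (natDegree_sub_le _ _).trans (max_le (by simp) ?_)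
    exact (natDegree_C_mul_le _ _).trans natDegree_X_le
  refine eq_of_natDegree_lt_card_of_eval_eq (ι := Fin (L / 2 + 1)) _ _
    (f := Fin.cons 0 (fun j : Fin (L / 2) => 1 / yy L j)) ?_ ?_ ?_
  · rw [Fin.cons_injective_iff]
    constructor
    · rintro ⟨j, hj⟩
      have := yy_pos L j j.2
      exact absurd hj (by positivity)
    · intro i j hij
      have hij' : 1 / yy L i = 1 / yy L j := hij
      rw [one_div, one_div, inv_inj] at hij'
      exact Fin.ext (yy_inj L i j i.2 j.2 hij')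
  · intro i
    refine Fin.cases ?_ (fun j => ?_) i
    · rw [Fin.cons_zero, ← coeff_zero_eq_eval_zero, ← coeff_zero_eq_eval_zero]
      obtain ⟨M, rfl⟩ : ∃ M, L = M + 1 := ⟨L - 1, by omega⟩
      rw [PP_coeff_zero]
      rw [coeff_zero_eq_eval_zero, eval_prod]
      simp
    · rw [Fin.cons_succ, eval_PP_yy L j j.2, eval_prod]
      symm
      refine Finset.prod_eq_zero (mem_range.2 j.2) ?_
      have := (yy_pos L j j.2).ne'
      simp [this]
  · rw [Fintype.card_fin]
    exact Nat.lt_succ_of_le (max_le (natDegree_PP L) hdeg)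

/-- Newton identities for `∏ (1 - y X)` -/
theorem newton (s : Multiset ℝ) :
    ((s.map (fun y => 1 - C y * X)).prod.coeff 0 = 1) ∧
    ((s.map (fun y => 1 - C y * X)).prod.coeff 1 = - s.sum) ∧
    ((s.map (fun y => 1 - C y * X)).prod.coeff 2 =
      (s.sum ^ 2 - (s.map (fun y => y ^ 2)).sum) / 2) ∧
    ((s.map (fun y => 1 - C y * X)).prod.coeff 3 =
      -((s.sum ^ 3 - 3 * s.sum * (s.map (fun y => y ^ 2)).sum +
        2 * (s.map (fun y => y ^ 3)).sum) / 6)) := by
  induction s using Multiset.induction_on with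
  | empty => simp [coeff_one]
  | cons y s ih =>
    obtain ⟨h0, h1, h2, h3⟩ := ih
    simp only [Multiset.map_cons, Multiset.prod_cons, Multiset.sum_cons]
    generalize (s.map (fun y => 1 - C y * X)).prod = P at *
    have e0 : ((1 - C y * X) * P).coeff 0 = P.coeff 0 := by
      rw [sub_mul, one_mul, coeff_sub, mul_assoc, coeff_C_mul]; simp
    have e : ∀ m, ((1 - C y * X) * P).coeff (m + 1) = P.coeff (m + 1) - y * P.coeff m := by
      intro m
      rw [sub_mul, one_mul, coeff_sub, mul_assoc, coeff_C_mul, coeff_X_mul]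
    refine ⟨by rw [e0, h0], ?_, ?_, ?_⟩
    · rw [e 0, h1, h0]; ring
    · rw [e 1, h2, h1]; ring
    · rw [e 2, h3, h2]; ring

theorem comp_prod_eq_pb (a : ℝ) (s : Multiset ℝ) :
    ((s.map (fun y => 1 - C y * X)).prod).comp (uu a) = pb (s.map (fun y => a * y)) := by
  induction s using Multiset.induction_on with
  | empty => simp [pb]
  | cons y s ih =>
    simp only [Multiset.map_cons, Multiset.prod_cons, mul_comp, ih, pb]
    congr 1
    simp only [sub_comp, one_comp, mul_comp, C_comp, X_comp, uu, C_sub, C_1, C_mul]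
    ring

theorem sum_r (a : ℝ) (s : Multiset ℝ) :
    (s.map (fun y => a * y)).sum = a * s.sum ∧
    ((s.map (fun y => a * y)).map (fun r => r * (1 - r) * (r - 2 * a))).sum =
      a ^ 2 * ((s.map (fun y => y ^ 2)).sum - 2 * s.sum) +
        a ^ 3 * (2 * (s.map (fun y => y ^ 2)).sum - (s.map (fun y => y ^ 3)).sum) := by
  induction s using Multiset.induction_on with
  | empty => simp
  | cons y s ih =>
    simp only [Multiset.map_cons, Multiset.sum_cons]
    rw [ih.1, ih.2]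
    constructor <;> ring

end CycPB

open CycPB

theorem cyc_pb (a : ℝ) (ha : 0 < a) (ha4 : 4 * a ≤ 1) (L : ℕ) (hL : 2 ≤ L) :
    ∃ s : Multiset ℝ, (∀ r ∈ s, 0 ≤ r ∧ r ≤ 4 * a) ∧ cyc a L = pb s ∧ s.sum = L * a ∧
      0 ≤ (s.map (fun r => r * (1 - r) * (r - 2 * a))).sum := by
  have hfac := PP_eq_prod L (by omega)
  set s : Multiset ℝ := (Multiset.range (L / 2)).map (yy L) with hs
  have hfac' : PP L = (s.map (fun y => 1 - C y * X)).prod := by
    rw [hfac, hs, Multiset.map_map]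
    rfl
  have hmem : ∀ y ∈ s, 0 ≤ y ∧ y ≤ 4 := by
    intro y hy
    rw [hs, Multiset.mem_map] at hy
    obtain ⟨j, hj, rfl⟩ := hy
    exact ⟨(yy_pos L j (Multiset.mem_range.1 hj)).le, yy_le L j⟩
  obtain ⟨-, n1, n2, n3⟩ := newton s
  rw [← hfac'] at n1 n2 n3
  obtain ⟨r1, r2⟩ := sum_r a s
  have hp1 : s.sum = L := by
    obtain ⟨M, rfl⟩ : ∃ M, L = M + 2 := ⟨L - 2, by omega⟩
    rw [PP_coeff_one] at n1
    push_cast
    linarith
  refine ⟨s.map (fun y => a * y), ?_, ?_, ?_, ?_⟩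
  · intro r hr
    rw [Multiset.mem_map] at hr
    obtain ⟨y, hy, rfl⟩ := hr
    obtain ⟨h1, h2⟩ := hmem y hy
    exact ⟨by positivity, by nlinarith⟩
  · rw [cyc_eq_comp, hfac', comp_prod_eq_pb]
  · rw [r1, hp1]; ring
  · rw [r2]
    rcases Nat.lt_or_ge L 4 with h4 | h4
    · -- one factor: `y = L`
      have hcard : ∃ y, s = {y} := by
        have : s.card = 1 := by
          rw [hs, Multiset.card_map, Multiset.card_range]
          omega
        exact Multiset.card_eq_one.1 this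
      obtain ⟨y, hy⟩ := hcard
      rw [hy] at hp1 ⊢
      simp only [Multiset.sum_singleton, Multiset.map_singleton] at hp1 ⊢
      have hL' : (2 : ℝ) ≤ L ∧ (L : ℝ) ≤ 3 := by
        constructor
        · exact_mod_cast hL
        · exact_mod_cast (by omega : L ≤ 3)
      rw [hp1]
      have h5 : a ^ 2 * ((L : ℝ) ^ 2 - 2 * L) + a ^ 3 * (2 * (L : ℝ) ^ 2 - L ^ 3) =
          a ^ 2 * L * (L - 2) * (1 - a * L) := by ring
      rw [h5]
      have h6 : 0 ≤ 1 - a * L := by nlinarith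
      have h7 : 0 ≤ (L : ℝ) - 2 := by linarith
      positivity
    · obtain ⟨M, rfl⟩ : ∃ M, L = M + 4 := ⟨L - 4, by omega⟩
      have c2 := PP_coeff_two (M + 1)
      have c3 := PP_coeff_three M
      rw [show M + 1 + 3 = M + 4 from rfl, n2] at c2
      rw [n3] at c3
      rw [hp1] at c2 c3
      push_cast at c2 c3 hp1 ⊢
      have hp2 : (s.map (fun y => y ^ 2)).sum = 3 * ((M : ℝ) + 4) := by nlinarith
      rw [hp2] at c3
      have hp3 : (s.map (fun y => y ^ 3)).sum = 10 * ((M : ℝ) + 4) := by nlinarith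
      rw [hp2, hp3, hp1]
      have h5 : a ^ 2 * (3 * ((M : ℝ) + 4) - 2 * (M + 4)) +
          a ^ 3 * (2 * (3 * ((M : ℝ) + 4)) - 10 * (M + 4)) =
          a ^ 2 * (M + 4) * (1 - 4 * a) := by ring
      rw [h5]
      have h6 : 0 ≤ 1 - 4 * a := by linarith
      positivity

end Pool.Agent.Lib.MP_eb8f1d_pr
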