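import Mathlib

/-!
# Coins with coloured sides: definitions

`n` coins, coin `i` has colour `c.h i` on its heads side and `c.t i ≠ c.h i` on its tails side.
A toss outcome is `ω : Fin n → Bool` (`true` = heads), of weight `wt p ω`.
-/

set_option autoImplicit false

namespace Pool.Agent.Lib.MP_eb8f1d_pr

open Finset

/-- weight of one coin: heads (`true`) has probability `p`, tails `1 - p` -/
noncomputable def bw (p : ℝ) (b : Bool) : ℝ := if b then p else 1 - p

/-- product weight of an outcome -/
noncomputable def wt {ι : Type*} [Fintype ι] (p : ℝ) (ω : ι → Bool) : ℝ := ∏ i, bw p (ω i)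

/-- expectation under independent tosses with heads probability `p` -/
noncomputable def Ex {ι : Type*} [Fintype ι] [DecidableEq ι] (p : ℝ) (f : (ι → Bool) → ℝ) : ℝ :=
  ∑ ω, wt p ω * f ω

open Classical in
/-- probability -/
noncomputable def Pr {ι : Type*} [Fintype ι] [DecidableEq ι] (p : ℝ)
    (A : (ι → Bool) → Prop) : ℝ :=
  Ex p (fun ω => if A ω then 1 else 0)

/-- a colouring of `n` coins with colours in `Fin n` -/
structure Coloring (n : ℕ) where
  /-- colour of the heads side -/
  h : Fin n → Fin n
  /-- colour of the tails side -/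
  t : Fin n → Fin n
  ne : ∀ i, h i ≠ t i

variable {n : ℕ}

/-- the visible colour of coin `i` -/
def vis (c : Coloring n) (ω : Fin n → Bool) (i : Fin n) : Fin n := if ω i then c.h i else c.t i

/-- number of distinct visible colours -/
def seen (c : Coloring n) (ω : Fin n → Bool) : ℕ := (univ.image (vis c ω)).card

/-- the colour `v` is not visible -/
def Unseen (c : Coloring n) (ω : Fin n → Bool) (v : Fin n) : Prop := ∀ i, vis c ω i ≠ v

instance (c : Coloring n) (ω : Fin n → Bool) : DecidablePred (Unseen c ω) :=
  fun v => by unfold Unseen; infer_instance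

/-- number of colours which are not visible -/
def U (c : Coloring n) (ω : Fin n → Bool) : ℕ := (univ.filter (Unseen c ω)).card

/-- number of heads sides of colour `v` -/
def da (c : Coloring n) (v : Fin n) : ℕ := (univ.filter (fun i => c.h i = v)).card

/-- number of tails sides of colour `v` -/
def db (c : Coloring n) (v : Fin n) : ℕ := (univ.filter (fun i => c.t i = v)).card

/-- probability that a colour with `a` heads sides and `b` tails sides is not visible -/
noncomputable def wgt (p : ℝ) (a b : ℕ) : ℝ := (1 - p) ^ a * p ^ b

/-- expected number of colours which are not visible -/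
noncomputable def EU (p : ℝ) (c : Coloring n) : ℝ := ∑ v, wgt p (da c v) (db c v)

/-- every colour is on exactly one heads side and on exactly one tails side -/
def IsPerm (c : Coloring n) : Prop := ∀ v, da c v = 1 ∧ db c v = 1

/-- override `ω` by `σ` on the set `B` of coins -/
def mix {ι : Type*} [DecidableEq ι] (B : Finset ι) (σ ω : ι → Bool) : ι → Bool :=
  fun i => if i ∈ B then σ i else ω i

/-- flip coin `e` -/
def flp {ι : Type*} [DecidableEq ι] (e : ι) (ω : ι → Bool) : ι → Bool :=
  Function.update ω e (!ω e)

/-- the set of coins at which two colourings differ -/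
def diffSet (c c' : Coloring n) : Finset (Fin n) :=
  univ.filter (fun i => c.h i ≠ c'.h i ∨ c.t i ≠ c'.t i)

/-- the colouring `h = id`, `t = σ` -/
def ofPerm (σ : Equiv.Perm (Fin n)) (hσ : ∀ i, σ i ≠ i) : Coloring n where
  h := id
  t := σ
  ne := fun i => (hσ i).symm

open Polynomial in
/-- `u = a (1 - X)` -/
noncomputable def uu (a : ℝ) : ℝ[X] := C a * (1 - X)

open Polynomial in
/-- generating polynomial of the number of unseen colours on a cycle of `L` coins
(`a = p (1 - p)`): `c₀ = 2`, `c₁ = 1`, `c_{L+2} = c_{L+1} - u c_L` -/
noncomputable def cyc (a : ℝ) : ℕ → ℝ[X]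
  | 0 => 2
  | 1 => 1
  | (L + 2) => cyc a (L + 1) - uu a * cyc a L

open Polynomial in
/-- product over a multiset of cycle lengths -/
noncomputable def gf (a : ℝ) (s : Multiset ℕ) : ℝ[X] := (s.map (cyc a)).prod

open Polynomial in
/-- sum of the coefficients of index at most `k` -/
noncomputable def cum (F : ℝ[X]) (k : ℕ) : ℝ := ∑ j ∈ range (k + 1), F.coeff j

open Polynomial in
/-- generating polynomial of a sum of independent Bernoulli variables -/
noncomputable def pb (s : Multiset ℝ) : ℝ[X] :=
  (s.map (fun r => C (1 - r) + C r * X)).prod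

/-- binomial probability -/
noncomputable def bin (N : ℕ) (r : ℝ) (j : ℕ) : ℝ := (N.choose j : ℝ) * r ^ j * (1 - r) ^ (N - j)

end Pool.Agent.Lib.MP_eb8f1d_pr
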