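import Pool.Agent.Lib.MP_eb8f1d_pr.Basic

/-!
# The expected number of unseen colours exceeds `n p q` by a multiple of the number of bad colours
-/

set_option autoImplicit false

namespace Pool.Agent.Lib.MP_eb8f1d_pr

open Finset

theorem sum_da {n : ℕ} (c : Coloring n) : ∑ v, da c v = n := by
  have h := Finset.card_eq_sum_card_fiberwise (s := (univ : Finset (Fin n))) (t := univ)
    (f := c.h) (fun _ _ => Finset.mem_coe.2 (Finset.mem_univ _))
  rw [Finset.card_univ, Fintype.card_fin] at h
  exact h.symm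

theorem sum_db {n : ℕ} (c : Coloring n) : ∑ v, db c v = n := by
  have h := Finset.card_eq_sum_card_fiberwise (s := (univ : Finset (Fin n))) (t := univ)
    (f := c.t) (fun _ _ => Finset.mem_coe.2 (Finset.mem_univ _))
  rw [Finset.card_univ, Fintype.card_fin] at h
  exact h.symm

/-- `e^y - 1 - y` -/
noncomputable def psi (y : ℝ) : ℝ := Real.exp y - 1 - y

theorem psi_nonneg (y : ℝ) : 0 ≤ psi y := by
  have := Real.add_one_le_exp y
  unfold psi; linarith

theorem psi_pos {y : ℝ} (hy : y ≠ 0) : 0 < psi y := by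
  have := Real.add_one_lt_exp hy
  unfold psi; linarith

theorem psi_anti {x y : ℝ} (h : x ≤ y) (hy : y ≤ 0) : psi y ≤ psi x := by
  have h1 : Real.exp y ≤ 1 := Real.exp_le_one_iff.2 hy
  have h2 := Real.add_one_le_exp (x - y)
  have h3 : Real.exp x = Real.exp y * Real.exp (x - y) := by rw [← Real.exp_add]; ring_nf
  have h4 := Real.exp_pos y
  unfold psi
  rw [h3]
  nlinarith [mul_le_mul_of_nonneg_left h2 h4.le]

theorem psi_mul (x : ℝ) (m : ℕ) : m * psi x ≤ psi (m * x) := by
  have h := one_add_mul_sub_le_pow (a := Real.exp x) (by linarith [Real.exp_pos x]) m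
  rw [← Real.exp_nat_mul] at h
  unfold psi
  nlinarith

/-- The pointwise inequality. -/
theorem excess_point {p : ℝ} (h0 : 0 < p) (hp : p < 1 / 2) :
    ∃ κ ε : ℝ, 0 < κ ∧ ∀ a b : ℕ, p * (1 - p) * (1 + ((a : ℝ) - 1) * Real.log (1 - p) +
      ((b : ℝ) - 1) * (Real.log p + ε)) + (if ¬ (a = 1 ∧ b = 1) then κ else 0) ≤ wgt p a b := by
  have hq0 : 0 < 1 - p := by linarith
  have hq1 : 1 - p < 1 := by linarith
  have hpq : 0 < p * (1 - p) := mul_pos h0 hq0
  set lq := Real.log (1 - p) with hlq
  set lp := Real.log p with hlp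
  have lq0 : lq < 0 := Real.log_neg hq0 hq1
  have d0 : 0 < lq - lp := by
    have := Real.log_lt_log h0 (show p < 1 - p by linarith)
    linarith
  set ε := psi (-(lq - lp)) / 2 with hε
  have hε0 : 0 < ε := by
    have := psi_pos (y := -(lq - lp)) (by linarith)
    rw [hε]; linarith
  set κ₀ := min ε (min (psi (-lq)) (psi lq)) with hκ₀
  have hκ₀0 : 0 < κ₀ := lt_min hε0 (lt_min (psi_pos (by linarith)) (psi_pos (by linarith)))
  refine ⟨p * (1 - p) * κ₀, ε, mul_pos hpq hκ₀0, fun a b => ?_⟩
  have hw : wgt p a b = p * (1 - p) * Real.exp (((a : ℝ) - 1) * lq + ((b : ℝ) - 1) * lp) := by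
    have e1 : (1 - p) ^ a = Real.exp (a * lq) := by
      rw [Real.exp_nat_mul, Real.exp_log hq0]
    have e2 : p ^ b = Real.exp (b * lp) := by
      rw [Real.exp_nat_mul, Real.exp_log h0]
    have e3 : p * (1 - p) = Real.exp (lp + lq) := by
      rw [Real.exp_add, Real.exp_log h0, Real.exp_log hq0]
    rw [wgt, e1, e2, e3, ← Real.exp_add, ← Real.exp_add]
    ring_nf
  set y := ((a : ℝ) - 1) * lq + ((b : ℝ) - 1) * lp with hy
  have hw' : wgt p a b = p * (1 - p) * (1 + y + psi y) := by rw [hw, psi]; ring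
  by_cases h : a = 1 ∧ b = 1
  · rw [if_neg (not_not.2 h)]
    obtain ⟨rfl, rfl⟩ := h
    rw [wgt]
    push_cast
    nlinarith
  rw [if_pos h]
  have key : ε * ((b : ℝ) - 1) + κ₀ ≤ psi y := by
    rcases Nat.lt_or_ge b 1 with hb | hb
    · have hb0 : b = 0 := by omega
      have h1 := psi_nonneg y
      have h2 : κ₀ ≤ ε := min_le_left _ _
      rw [hb0]
      push_cast
      linarith
    rcases Nat.lt_or_ge b 2 with hb2 | hb2
    · have hb1 : b = 1 := by omega
      have ha : a ≠ 1 := fun ha => h ⟨ha, hb1⟩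
      rcases Nat.lt_or_ge a 1 with ha1 | ha1
      · have ha0 : a = 0 := by omega
        have h2 : κ₀ ≤ psi (-lq) := (min_le_right _ _).trans (min_le_left _ _)
        have h3 : y = -lq := by rw [hy, ha0, hb1]; push_cast; ring
        rw [h3, hb1]
        push_cast
        linarith
      · have ha2 : 2 ≤ a := by omega
        have h2 : κ₀ ≤ psi lq := (min_le_right _ _).trans (min_le_right _ _)
        have ha' : (2 : ℝ) ≤ a := by exact_mod_cast ha2
        have h3 : y ≤ lq := by
          rw [hy, hb1]; push_cast; nlinarith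
        have h4 := psi_anti h3 lq0.le
        rw [hb1]
        push_cast
        linarith
    · obtain ⟨m, rfl⟩ : ∃ m, b = m + 1 := ⟨b - 1, by omega⟩
      have hm : (1 : ℝ) ≤ m := by exact_mod_cast (by omega : 1 ≤ m)
      have ha' : (0 : ℝ) ≤ a := Nat.cast_nonneg a
      have e1 : y = ((a : ℝ) - 1) * lq + m * lp := by rw [hy]; push_cast; ring
      have h3 : y ≤ m * (-(lq - lp)) := by
        rw [e1]; nlinarith
      have h5 : m * (-(lq - lp)) ≤ 0 := by nlinarith
      have h4 := psi_anti h3 h5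
      have h6 := psi_mul (-(lq - lp)) m
      have h7 : psi (-(lq - lp)) = 2 * ε := by rw [hε]; ring
      rw [h7] at h6
      have h2 : κ₀ ≤ ε := min_le_left _ _
      push_cast
      nlinarith
  rw [hw']
  have e : 1 + ((a : ℝ) - 1) * lq + ((b : ℝ) - 1) * (lp + ε) = 1 + y + ε * ((b : ℝ) - 1) := by
    rw [hy]; ring
  rw [e, ← mul_add]
  apply mul_le_mul_of_nonneg_left _ hpq.le
  linarith

/-- The expected number of unseen colours exceeds `n p q` by a multiple of the number of colours
that are not on exactly one heads side and one tails side. -/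
theorem excess (p : ℝ) (h0 : 0 < p) (hp : p < 1 / 2) :
    ∃ κ : ℝ, 0 < κ ∧ ∀ (n : ℕ) (c : Coloring n),
      n * (p * (1 - p)) + κ * (univ.filter (fun v => ¬ (da c v = 1 ∧ db c v = 1))).card
        ≤ EU p c := by
  obtain ⟨κ, ε, hκ, h⟩ := excess_point h0 hp
  refine ⟨κ, hκ, fun n c => ?_⟩
  have h1 := Finset.sum_le_sum (s := (univ : Finset (Fin n))) fun v _ => h (da c v) (db c v)
  rw [Finset.sum_add_distrib, ← Finset.mul_sum, Finset.sum_add_distrib, Finset.sum_add_distrib,
    ← Finset.sum_mul, ← Finset.sum_mul, Finset.sum_sub_distrib, Finset.sum_sub_distrib,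
    ← Nat.cast_sum, ← Nat.cast_sum, sum_da, sum_db, ← Finset.sum_filter, Finset.sum_const,
    Finset.sum_const, Finset.card_univ, Fintype.card_fin] at h1
  rw [EU]
  refine le_trans (le_of_eq ?_) h1
  simp only [nsmul_eq_mul]
  ring

end Pool.Agent.Lib.MP_eb8f1d_pr
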