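import Pool.Agent.Lib.MP_eb8f1d_pr.Defs

set_option autoImplicit false

namespace Pool.Agent.Lib.MP_eb8f1d_pr

open Finset Polynomial

theorem im_neg_inv_pos {q : ℂ} (h : 0 < q.im) : 0 < (-(1 / q)).im := by
  rw [one_div, Complex.neg_im, Complex.inv_im]
  have hq : q ≠ 0 := by
    rintro rfl
    simp at h
  have : 0 < Complex.normSq q := Complex.normSq_pos.mpr hq
  rw [neg_div, neg_neg]
  positivity

/-- abstract form of the Heilmann-Lieb argument -/
theorem herglotz_aux {ι κ : Type*} [DecidableEq ι] (E : Finset ι → ℂ)
    (V : ι → Finset ι → Finset κ) (T : κ → Finset ι) (w : κ → ℝ) (hw : ∀ v, 0 < w v)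
    (hT : ∀ i S v, v ∈ V i S → i ∈ T v ∧ T v ⊆ S ∧ (T v).card ≤ 2) (h0 : E ∅ = 1)
    (t : ℂ) (ht : 0 < t.im)
    (hrec : ∀ S i, i ∈ S →
      E S = E (S.erase i) + (-(1 / t ^ 2)) * ∑ v ∈ V i S, (w v : ℂ) * E (S \ T v))
    (S : Finset ι) : E S ≠ 0 ∧ ∀ i ∈ S, 0 < (t * E S / E (S.erase i)).im := by
  classical
  have ht0 : t ≠ 0 := by
    rintro rfl
    simp at ht
  induction S using Finset.strongInduction with
  | H S ih =>
    have key : ∀ i ∈ S, 0 < (t * E S / E (S.erase i)).im := by
      intro i hi
      have hlt : S.erase i ⊂ S := Finset.erase_ssubset hi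
      obtain ⟨hne, hpos⟩ := ih _ hlt
      have e1 : t * E S / E (S.erase i) =
          t + ∑ v ∈ V i S, (w v : ℂ) * (-(E (S \ T v) / (t * E (S.erase i)))) := by
        rw [hrec S i hi, Finset.mul_sum, mul_add, add_div, mul_div_assoc, div_self hne, mul_one,
          Finset.mul_sum, Finset.sum_div]
        congr 1
        refine Finset.sum_congr rfl fun v _ => ?_
        field_simp
      rw [e1, Complex.add_im, Complex.im_sum]
      have e2 : 0 ≤ ∑ v ∈ V i S, ((w v : ℂ) * (-(E (S \ T v) / (t * E (S.erase i))))).im := by
        apply Finset.sum_nonneg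
        intro v hv
        obtain ⟨hiT, hTS, hcard⟩ := hT i S v hv
        rw [Complex.im_ofReal_mul]
        apply mul_nonneg (hw v).le
        by_cases hj : ∃ j ∈ T v, j ≠ i
        · obtain ⟨j, hj, hji⟩ := hj
          have hTv : T v = {i, j} := by
            symm
            apply Finset.eq_of_subset_of_card_le
            · intro x hx
              simp only [Finset.mem_insert, Finset.mem_singleton] at hx
              rcases hx with rfl | rfl
              · exact hiT
              · exact hj
            · rw [Finset.card_pair hji.symm]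
              exact hcard
          have hS' : S \ T v = (S.erase i).erase j := by
            rw [hTv]
            ext x
            simp only [Finset.mem_sdiff, Finset.mem_insert, Finset.mem_singleton,
              Finset.mem_erase]
            tauto
          have hjS : j ∈ S.erase i := Finset.mem_erase.mpr ⟨hji, hTS hj⟩
          have hq := hpos j hjS
          have h2 : E (S \ T v) / (t * E (S.erase i)) =
              1 / (t * E (S.erase i) / E ((S.erase i).erase j)) := by
            rw [hS', one_div_div]
          rw [h2]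
          exact (im_neg_inv_pos hq).le
        · push Not at hj
          have hTv : T v = {i} := by
            ext x
            simp only [Finset.mem_singleton]
            constructor
            · exact fun hx => hj x hx
            · rintro rfl
              exact hiT
          have hS' : S \ T v = S.erase i := by
            rw [hTv, Finset.sdiff_singleton_eq_erase]
          have h2 : E (S \ T v) / (t * E (S.erase i)) = 1 / t := by
            rw [hS']
            field_simp
          rw [h2]
          exact (im_neg_inv_pos ht).le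
      linarith
    refine ⟨?_, key⟩
    rcases S.eq_empty_or_nonempty with rfl | ⟨i, hi⟩
    · rw [h0]; exact one_ne_zero
    · intro h
      have := key i hi
      rw [h] at this
      simp at this

theorem herglotz {ι κ : Type*} [DecidableEq ι] (P : Finset ι → ℝ[X])
    (V : ι → Finset ι → Finset κ) (T : κ → Finset ι) (w : κ → ℝ) (hw : ∀ v, 0 < w v)
    (hT : ∀ i S v, v ∈ V i S → i ∈ T v ∧ T v ⊆ S ∧ (T v).card ≤ 2) (h0 : P ∅ = 1)
    (hrec : ∀ S i, i ∈ S →
      P S = P (S.erase i) + (X - 1) * ∑ v ∈ V i S, C (w v) * P (S \ T v))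
    (S : Finset ι) (z : ℂ) (hz : z.im ≠ 0 ∨ 1 < z.re) :
    ((P S).map (algebraMap ℝ ℂ)).eval z ≠ 0 := by
  have hz1 : 1 - z ≠ 0 := by
    intro h
    have : z = 1 := by linear_combination -h
    rw [this] at hz
    simp at hz
  obtain ⟨s, hs⟩ := IsAlgClosed.exists_pow_nat_eq (1 / (1 - z)) (n := 2) (by norm_num)
  have hs0 : s ≠ 0 := by
    rintro rfl
    have : (1 : ℂ) / (1 - z) ≠ 0 := one_div_ne_zero hz1
    apply this
    rw [← hs]; norm_num
  have hzs : z = 1 - 1 / s ^ 2 := by
    rw [hs]
    field_simp
    ring
  have him : s.im ≠ 0 := by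
    intro h
    have hsre : s = (s.re : ℂ) := by
      apply Complex.ext <;> simp [h]
    have hr0 : s.re ≠ 0 := by
      intro hr
      apply hs0
      rw [hsre, hr]; simp
    rw [hsre] at hzs
    have hz' : z = ((1 - 1 / s.re ^ 2 : ℝ) : ℂ) := by
      rw [hzs]; push_cast; ring
    rw [hz'] at hz
    rcases hz with h' | h'
    · exact h' (Complex.ofReal_im _)
    · rw [Complex.ofReal_re] at h'
      have : 0 < 1 / s.re ^ 2 := by positivity
      linarith
  obtain ⟨t, ht, htz⟩ : ∃ t : ℂ, 0 < t.im ∧ z = 1 - 1 / t ^ 2 := by
    rcases lt_or_gt_of_ne him with h | h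
    · exact ⟨-s, by simpa using h, by rw [hzs]; ring⟩
    · exact ⟨s, h, hzs⟩
  have := herglotz_aux (fun S => ((P S).map (algebraMap ℝ ℂ)).eval z) V T w hw hT (by
    simp [h0]) t ht (by
    intro S i hi
    rw [hrec S i hi]
    simp only [Polynomial.map_add, Polynomial.map_mul, Polynomial.map_sub, Polynomial.map_X,
      Polynomial.map_one, Polynomial.map_sum, Polynomial.map_C, eval_add, eval_mul, eval_sub,
      eval_X, eval_one, Polynomial.eval_finset_sum, eval_C]
    have : z - 1 = -(1 / t ^ 2) := by rw [htz]; ring
    rw [this]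
    rfl) S
  exact this.1

end Pool.Agent.Lib.MP_eb8f1d_pr
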