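import Pool.Agent.Lib.MP_eb8f1d_pr.Defs

set_option autoImplicit false

namespace Pool.Agent.Lib.MP_eb8f1d_pr

open Finset Polynomial

theorem pb_of_roots_aux (m : ℕ) : ∀ F : ℝ[X], F.natDegree = m → F.eval 1 = 1 →
    (∀ z : ℂ, (F.map (algebraMap ℝ ℂ)).eval z = 0 → z.im = 0 ∧ z.re ≤ 0) →
    ∃ s : Multiset ℝ, (∀ r ∈ s, 0 ≤ r ∧ r ≤ 1) ∧ F = pb s := by
  induction m with
  | zero =>
    intro F hdeg h1 _
    refine ⟨0, by simp, ?_⟩
    rw [Polynomial.eq_C_of_natDegree_eq_zero hdeg] at h1 ⊢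
    simp only [eval_C] at h1
    rw [h1]
    simp [pb]
  | succ m ih =>
    intro F hdeg h1 hroot
    have hF0 : F ≠ 0 := by
      rintro rfl
      simp at h1
    have hdegC : (F.map (algebraMap ℝ ℂ)).degree ≠ 0 := by
      rw [Polynomial.degree_map, Polynomial.degree_eq_natDegree hF0, hdeg]
      exact_mod_cast Nat.succ_ne_zero m
    obtain ⟨z, hz⟩ := IsAlgClosed.exists_root (F.map (algebraMap ℝ ℂ)) hdegC
    rw [IsRoot.def] at hz
    obtain ⟨hz1, hz2⟩ := hroot z hz
    set x : ℝ := z.re with hx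
    have hzx : z = (algebraMap ℝ ℂ) x := by
      apply Complex.ext <;> simp [hx, hz1]
    have hFx : F.eval x = 0 := by
      rw [hzx, Polynomial.eval_map, Polynomial.eval₂_at_apply] at hz
      exact (map_eq_zero (algebraMap ℝ ℂ)).mp hz
    obtain ⟨G, hG⟩ := Polynomial.dvd_iff_isRoot.mpr hFx
    have hx1 : (0 : ℝ) < 1 - x := by linarith
    have hG1 : (1 - x) * G.eval 1 = 1 := by
      have := h1
      rw [hG, eval_mul, eval_sub, eval_X, eval_C] at this
      exact this
    have hGdeg : (C (1 - x) * G).natDegree = m := by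
      have hG0 : G ≠ 0 := by
        rintro rfl
        simp at hG1
      rw [natDegree_C_mul hx1.ne']
      have := hdeg
      rw [hG, natDegree_mul (X_sub_C_ne_zero x) hG0, natDegree_X_sub_C] at this
      omega
    obtain ⟨s, hs, hGs⟩ := ih (C (1 - x) * G) hGdeg (by rw [eval_mul, eval_C, hG1]) (by
      intro w hw
      apply hroot w
      rw [Polynomial.map_mul, eval_mul, map_C, eval_C] at hw
      rw [hG, Polynomial.map_mul, eval_mul]
      rcases mul_eq_zero.mp hw with h | h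
      · exfalso
        exact hx1.ne' ((map_eq_zero (algebraMap ℝ ℂ)).mp h)
      · rw [h, mul_zero])
    set r : ℝ := 1 / (1 - x) with hr
    have hr0 : 0 ≤ r := by positivity
    have hr1 : r ≤ 1 := by
      rw [hr, div_le_one hx1]
      linarith
    refine ⟨r ::ₘ s, ?_, ?_⟩
    · intro r' hr'
      rcases Multiset.mem_cons.mp hr' with rfl | h
      · exact ⟨hr0, hr1⟩
      · exact hs r' h
    · have e1 : pb (r ::ₘ s) = (C (1 - r) + C r * X) * pb s := by
        unfold pb
        rw [Multiset.map_cons, Multiset.prod_cons]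
      rw [e1, ← hGs, hG]
      have e2 : (1 - r) * (1 - x) = -x := by
        rw [hr]; field_simp; ring
      have e3 : r * (1 - x) = 1 := by
        rw [hr]; field_simp
      have e4 : (C (1 - r) + C r * X) * (C (1 - x) * G) =
          (C ((1 - r) * (1 - x)) + C (r * (1 - x)) * X) * G := by
        rw [C_mul, C_mul]; ring
      rw [e4, e2, e3, C_neg, C_1]
      ring

theorem pb_of_roots (F : ℝ[X]) (h1 : F.eval 1 = 1)
    (hroot : ∀ z : ℂ, (F.map (algebraMap ℝ ℂ)).eval z = 0 → z.im = 0 ∧ z.re ≤ 0) :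
    ∃ s : Multiset ℝ, (∀ r ∈ s, 0 ≤ r ∧ r ≤ 1) ∧ F = pb s :=
  pb_of_roots_aux _ F rfl h1 hroot

end Pool.Agent.Lib.MP_eb8f1d_pr
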