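import Pool.Agent.Lib.MP_eb8f1d_pr.Moments

set_option autoImplicit false

namespace Pool.Agent.Lib.MP_eb8f1d_pr

open Finset Polynomial

variable {n : ℕ}

/-- coins touching the colour `v` -/
def TT (c : Coloring n) (v : Fin n) : Finset (Fin n) :=
  univ.filter (fun i => c.h i = v ∨ c.t i = v)

/-- colours on one or two sides, touching coin `i` and no coin outside `S` -/
def VV (c : Coloring n) (i : Fin n) (S : Finset (Fin n)) : Finset (Fin n) :=
  univ.filter (fun v => (TT c v).card ≤ 2 ∧ i ∈ TT c v ∧ TT c v ⊆ S)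

/-- number of unseen colours on one or two sides, touching only coins of `S` -/
def AA (c : Coloring n) (S : Finset (Fin n)) (ω : Fin n → Bool) : ℕ :=
  (univ.filter (fun v => 1 ≤ (TT c v).card ∧ (TT c v).card ≤ 2 ∧ TT c v ⊆ S ∧
    Unseen c ω v)).card

/-- its generating polynomial -/
noncomputable def PF (p : ℝ) (c : Coloring n) (S : Finset (Fin n)) : ℝ[X] :=
  ∑ ω : Fin n → Bool, C (wt p ω) * X ^ (AA c S ω)

theorem mem_TT (c : Coloring n) (v i : Fin n) : i ∈ TT c v ↔ c.h i = v ∨ c.t i = v := by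
  simp [TT]

theorem card_TT (c : Coloring n) (v : Fin n) : (TT c v).card = da c v + db c v := by
  unfold TT da db
  rw [Finset.filter_or, Finset.card_union_of_disjoint]
  rw [Finset.disjoint_filter]
  intro i _ h1 h2
  exact c.ne i (by rw [h1, h2])

theorem PF_empty (p : ℝ) (c : Coloring n) : PF p c ∅ = 1 := by
  unfold PF
  have h : ∀ ω : Fin n → Bool, AA c ∅ ω = 0 := by
    intro ω
    unfold AA
    rw [Finset.card_eq_zero, Finset.filter_eq_empty_iff]
    rintro v - ⟨h1, -, h3, -⟩
    rw [Finset.subset_empty] at h3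
    rw [h3] at h1
    simp at h1
  simp only [h, pow_zero, mul_one]
  rw [← map_sum, sum_wt, C_1]

theorem unseen_iff_TT (c : Coloring n) (ω : Fin n → Bool) (v : Fin n) :
    Unseen c ω v ↔ ∀ i ∈ TT c v, vis c ω i ≠ v := by
  constructor
  · intro h i _
    exact h i
  · intro h i
    by_cases hi : i ∈ TT c v
    · exact h i hi
    · rw [mem_TT] at hi
      push Not at hi
      unfold vis
      split_ifs
      · exact hi.1
      · exact hi.2

theorem unseen_congr (c : Coloring n) (v : Fin n) (ω ω' : Fin n → Bool)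
    (h : ∀ i ∈ TT c v, ω i = ω' i) : Unseen c ω v ↔ Unseen c ω' v := by
  rw [unseen_iff_TT, unseen_iff_TT]
  constructor
  · intro h' i hi
    have := h' i hi
    unfold vis at this ⊢
    rwa [← h i hi]
  · intro h' i hi
    have := h' i hi
    unfold vis at this ⊢
    rwa [h i hi]

theorem not_both_unseen (c : Coloring n) (ω : Fin n → Bool) (i v v' : Fin n) (hi : i ∈ TT c v)
    (hi' : i ∈ TT c v') (hne : v ≠ v') (h : Unseen c ω v) (h' : Unseen c ω v') : False := by
  rw [mem_TT] at hi hi'
  have h1 := h i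
  have h2 := h' i
  unfold vis at h1 h2
  rcases hi with hi | hi <;> rcases hi' with hi' | hi'
  · exact hne (by rw [← hi, ← hi'])
  · by_cases hω : ω i = true
    · rw [if_pos hω] at h1; exact h1 hi
    · rw [if_neg hω] at h2; exact h2 hi'
  · by_cases hω : ω i = true
    · rw [if_pos hω] at h2; exact h2 hi'
    · rw [if_neg hω] at h1; exact h1 hi
  · exact hne (by rw [← hi, ← hi'])

theorem AA_dep (c : Coloring n) (S : Finset (Fin n)) (ω ω' : Fin n → Bool)
    (h : ∀ i ∈ S, ω i = ω' i) : AA c S ω = AA c S ω' := by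
  unfold AA
  congr 1
  ext v
  simp only [Finset.mem_filter, Finset.mem_univ, true_and]
  constructor
  · rintro ⟨h1, h2, h3, h4⟩
    exact ⟨h1, h2, h3, (unseen_congr c v ω ω' fun i hi => h i (h3 hi)).mp h4⟩
  · rintro ⟨h1, h2, h3, h4⟩
    exact ⟨h1, h2, h3, (unseen_congr c v ω ω' fun i hi => h i (h3 hi)).mpr h4⟩

theorem AA_split (c : Coloring n) (S : Finset (Fin n)) (i : Fin n)
    (ω : Fin n → Bool) :
    AA c S ω = AA c (S.erase i) ω + ((VV c i S).filter (Unseen c ω)).card := by
  unfold AA VV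
  rw [← Finset.card_union_of_disjoint]
  · congr 1
    ext v
    simp only [Finset.mem_union, Finset.mem_filter, Finset.mem_univ, true_and]
    constructor
    · rintro ⟨h1, h2, h3, h4⟩
      by_cases hi : i ∈ TT c v
      · exact Or.inr ⟨⟨h2, hi, h3⟩, h4⟩
      · exact Or.inl ⟨h1, h2, fun j hj => Finset.mem_erase.mpr
          ⟨fun hji => hi (hji ▸ hj), h3 hj⟩, h4⟩
    · rintro (⟨h1, h2, h3, h4⟩ | ⟨⟨h2, hi, h3⟩, h4⟩)
      · exact ⟨h1, h2, h3.trans (Finset.erase_subset _ _), h4⟩
      · exact ⟨Finset.card_pos.mpr ⟨i, hi⟩, h2, h3, h4⟩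
  · rw [Finset.disjoint_left]
    intro v hv hv'
    simp only [Finset.mem_filter, Finset.mem_univ, true_and] at hv hv'
    have := hv.2.2.1 hv'.1.2.1
    simp at this

theorem AA_erase (c : Coloring n) (S : Finset (Fin n)) (i v : Fin n) (ω : Fin n → Bool)
    (hv : v ∈ VV c i S) (hU : Unseen c ω v) : AA c (S.erase i) ω = AA c (S \ TT c v) ω := by
  unfold VV at hv
  simp only [Finset.mem_filter, Finset.mem_univ, true_and] at hv
  obtain ⟨hv1, hv2, hv3⟩ := hv
  unfold AA
  congr 1
  ext u
  simp only [Finset.mem_filter, Finset.mem_univ, true_and]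
  constructor
  · rintro ⟨h1, h2, h3, h4⟩
    refine ⟨h1, h2, ?_, h4⟩
    intro j hj
    rw [Finset.mem_sdiff]
    refine ⟨Finset.mem_of_mem_erase (h3 hj), fun hjv => ?_⟩
    have huv : u ≠ v := by
      rintro rfl
      have := h3 hv2
      simp at this
    exact not_both_unseen c ω j u v hj hjv huv h4 hU
  · rintro ⟨h1, h2, h3, h4⟩
    refine ⟨h1, h2, fun j hj => ?_, h4⟩
    have := Finset.mem_sdiff.mp (h3 hj)
    exact Finset.mem_erase.mpr ⟨fun hji => this.2 (hji ▸ hv2), this.1⟩

theorem eval_PF (p : ℝ) (c : Coloring n) (S : Finset (Fin n)) (x : ℝ) :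
    (PF p c S).eval x = Ex p (fun ω => x ^ (AA c S ω)) := by
  unfold PF Ex
  rw [Polynomial.eval_finsetSum]
  refine Finset.sum_congr rfl fun ω _ => ?_
  simp

theorem pow_AA (c : Coloring n) (S : Finset (Fin n)) (i : Fin n) (x : ℝ)
    (ω : Fin n → Bool) :
    x ^ (AA c S ω) = x ^ (AA c (S.erase i) ω) +
      (x - 1) * ∑ v ∈ VV c i S, (if Unseen c ω v then (1 : ℝ) else 0) * x ^ (AA c (S \ TT c v) ω) := by
  rw [AA_split c S i ω, pow_add]
  by_cases hex : ∃ v ∈ VV c i S, Unseen c ω v
  · obtain ⟨v, hv, hU⟩ := hex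
    have huniq : ∀ u ∈ VV c i S, u ≠ v → ¬ Unseen c ω u := by
      intro u hu hne hUu
      have h1 : i ∈ TT c u := by
        unfold VV at hu
        simp only [Finset.mem_filter, Finset.mem_univ, true_and] at hu
        exact hu.2.1
      have h2 : i ∈ TT c v := by
        unfold VV at hv
        simp only [Finset.mem_filter, Finset.mem_univ, true_and] at hv
        exact hv.2.1
      exact not_both_unseen c ω i u v h1 h2 hne hUu hU
    have hcard : ((VV c i S).filter (Unseen c ω)).card = 1 := by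
      rw [Finset.card_eq_one]
      refine ⟨v, ?_⟩
      ext u
      simp only [Finset.mem_filter, Finset.mem_singleton]
      constructor
      · rintro ⟨h1, h2⟩
        by_contra hne
        exact huniq u h1 hne h2
      · rintro rfl
        exact ⟨hv, hU⟩
    rw [hcard, Finset.sum_eq_single v]
    · rw [if_pos hU, AA_erase c S i v ω hv hU]
      ring
    · intro u hu hne
      rw [if_neg (huniq u hu hne), zero_mul]
    · intro h
      exact absurd hv h
  · push Not at hex
    have hcard : ((VV c i S).filter (Unseen c ω)).card = 0 := by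
      rw [Finset.card_eq_zero, Finset.filter_eq_empty_iff]
      exact hex
    rw [hcard, Finset.sum_eq_zero]
    · simp
    · intro u hu
      rw [if_neg (hex u hu), zero_mul]

theorem PF_rec (p : ℝ) (c : Coloring n) (S : Finset (Fin n)) (i : Fin n) (_hi : i ∈ S) :
    PF p c S = PF p c (S.erase i) +
      (X - 1) * ∑ v ∈ VV c i S, C (wgt p (da c v) (db c v)) * PF p c (S \ TT c v) := by
  apply Polynomial.funext
  intro x
  simp only [eval_add, eval_mul, eval_sub, eval_X, eval_one, Polynomial.eval_finsetSum, eval_C,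
    eval_PF]
  rw [Ex_congr (fun ω => pow_AA c S i x ω), Ex_add, Ex_const_mul, Ex_sum]
  congr 2
  refine Finset.sum_congr rfl fun v _ => ?_
  rw [Ex_mul_of_dependsOn p (TT c v) (fun ω => if Unseen c ω v then (1 : ℝ) else 0)
    (fun ω => x ^ (AA c (S \ TT c v) ω)), Ex_unseen]
  · intro ω ω' h
    simp only [unseen_congr c v ω ω' h]
  · intro ω ω' h
    simp only
    rw [AA_dep c (S \ TT c v) ω ω' fun j hj => h j (by
      rw [Finset.mem_compl]
      exact (Finset.mem_sdiff.mp hj).2)]

end Pool.Agent.Lib.MP_eb8f1d_pr
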