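import Pool.Agent.Lib.MP_eb8f1d_pr.UmDef
import Pool.Agent.Lib.MP_eb8f1d_pr.SmallRec
import Pool.Agent.Lib.MP_eb8f1d_pr.Herglotz
import Pool.Agent.Lib.MP_eb8f1d_pr.RealRooted

set_option autoImplicit false

namespace Pool.Agent.Lib.MP_eb8f1d_pr

open Finset Polynomial

variable {n : ℕ}

theorem pb_eval_one (s : Multiset ℝ) : (pb s).eval 1 = 1 := by
  induction s using Multiset.induction_on with
  | empty => simp [pb]
  | cons r s ih =>
    unfold pb at ih ⊢
    rw [Multiset.map_cons, Multiset.prod_cons, eval_mul, ih]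
    simp

theorem pb_deriv_one (s : Multiset ℝ) : (derivative (pb s)).eval 1 = s.sum := by
  induction s using Multiset.induction_on with
  | empty => simp [pb]
  | cons r s ih =>
    have h1 : pb (r ::ₘ s) = (C (1 - r) + C r * X) * pb s := by
      unfold pb
      rw [Multiset.map_cons, Multiset.prod_cons]
    rw [h1, derivative_mul, eval_add, eval_mul, eval_mul, ih, pb_eval_one, Multiset.sum_cons]
    simp

/-- generating polynomial of a natural number valued function -/
theorem gen_coeff (p : ℝ) (V : (Fin n → Bool) → ℕ) (j : ℕ) :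
    (∑ ω : Fin n → Bool, C (wt p ω) * X ^ (V ω) : ℝ[X]).coeff j = Pr p (fun ω => V ω = j) := by
  classical
  rw [Pr_eq]
  unfold Ex
  rw [Polynomial.finsetSum_coeff]
  refine Finset.sum_congr rfl fun ω _ => ?_
  rw [coeff_C_mul_X_pow]
  by_cases h : V ω = j
  · simp [h]
  · have h' : ¬ j = V ω := fun h' => h h'.symm
    simp [h, h']

theorem gen_cum (p : ℝ) (V : (Fin n → Bool) → ℕ) (k : ℕ) :
    cum (∑ ω : Fin n → Bool, C (wt p ω) * X ^ (V ω) : ℝ[X]) k = Pr p (fun ω => V ω ≤ k) := by
  classical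
  unfold cum
  simp only [gen_coeff]
  rw [Pr_eq]
  have h : ∀ ω : Fin n → Bool, (if V ω ≤ k then (1 : ℝ) else 0) =
      ∑ j ∈ range (k + 1), (if V ω = j then (1 : ℝ) else 0) := by
    intro ω
    rw [Finset.sum_ite_eq]
    simp [Nat.lt_succ_iff]
  rw [Ex_congr h, Ex_sum]
  exact Finset.sum_congr rfl fun j _ => Pr_eq _

theorem gen_eval (p : ℝ) (V : (Fin n → Bool) → ℕ) (x : ℝ) :
    (∑ ω : Fin n → Bool, C (wt p ω) * X ^ (V ω) : ℝ[X]).eval x = Ex p (fun ω => x ^ (V ω)) := by
  unfold Ex
  rw [Polynomial.eval_finsetSum]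
  exact Finset.sum_congr rfl fun ω _ => by simp

theorem gen_deriv (p : ℝ) (V : (Fin n → Bool) → ℕ) :
    (derivative (∑ ω : Fin n → Bool, C (wt p ω) * X ^ (V ω) : ℝ[X])).eval 1 =
      Ex p (fun ω => (V ω : ℝ)) := by
  unfold Ex
  rw [derivative_sum, Polynomial.eval_finsetSum]
  refine Finset.sum_congr rfl fun ω _ => ?_
  rw [derivative_C_mul_X_pow]
  simp

theorem Um_eq (c : Coloring n) (ω : Fin n → Bool) :
    Um c ω = (univ.filter (fun v => (TT c v).card = 0)).card + AA c univ ω := by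
  unfold Um AA
  rw [← Finset.card_union_of_disjoint]
  · congr 1
    ext v
    simp only [Finset.mem_union, Finset.mem_filter, Finset.mem_univ, true_and,
      Finset.subset_univ]
    rw [← card_TT]
    constructor
    · rintro ⟨h1, h2⟩
      rcases Nat.eq_zero_or_pos (TT c v).card with h | h
      · exact Or.inl h
      · exact Or.inr ⟨h, h2, h1⟩
    · rintro (h | ⟨h1, h2, h3⟩)
      · refine ⟨?_, by omega⟩
        rw [unseen_iff_TT]
        intro i hi
        rw [Finset.card_eq_zero] at h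
        rw [h] at hi
        simp at hi
      · exact ⟨h3, h2⟩
  · rw [Finset.disjoint_left]
    intro v hv hv'
    simp only [Finset.mem_filter, Finset.mem_univ, true_and] at hv hv'
    omega

theorem Ex_pos {p : ℝ} (h0 : 0 < p) (h1 : p < 1) (f : (Fin n → Bool) → ℝ)
    (hf : ∀ ω, 0 < f ω) : 0 < Ex p f := by
  unfold Ex
  exact Finset.sum_pos (fun ω _ => mul_pos (wt_pos h0 h1 ω) (hf ω)) Finset.univ_nonempty

theorem wgt_pos_aux {p : ℝ} (h0 : 0 < p) (h1 : p < 1) (a b : ℕ) : 0 < wgt p a b := by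
  unfold wgt
  have : 0 < 1 - p := by linarith
  positivity

theorem Um_pb {p : ℝ} (h0 : 0 < p) (h1 : p < 1) (c : Coloring n) :
    ∃ s : Multiset ℝ, (∀ r ∈ s, 0 ≤ r ∧ r ≤ 1) ∧ s.sum = Ex p (fun ω => (Um c ω : ℝ)) ∧
      ∀ k, Pr p (fun ω => Um c ω ≤ k) = cum (pb s) k := by
  set F : ℝ[X] := ∑ ω : Fin n → Bool, C (wt p ω) * X ^ (Um c ω) with hF
  set n0 : ℕ := (univ.filter (fun v => (TT c v).card = 0)).card with hn0
  have hFP : F = X ^ n0 * PF p c univ := by
    rw [hF]
    unfold PF
    rw [Finset.mul_sum]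
    refine Finset.sum_congr rfl fun ω _ => ?_
    rw [Um_eq, pow_add]
    ring
  have hF1 : F.eval 1 = 1 := by
    rw [hF, gen_eval]
    simp
  have hroot : ∀ z : ℂ, (F.map (algebraMap ℝ ℂ)).eval z = 0 → z.im = 0 ∧ z.re ≤ 0 := by
    intro z hz
    rw [hFP, Polynomial.map_mul, Polynomial.map_pow, Polynomial.map_X, eval_mul, eval_pow,
      eval_X] at hz
    rcases mul_eq_zero.mp hz with h | h
    · have hz0 : z = 0 := by
        by_contra hne
        exact (pow_ne_zero n0 hne) h
      rw [hz0]; simp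
    · by_contra hcon
      by_cases hz' : z.im ≠ 0 ∨ 1 < z.re
      · exact herglotz (PF p c) (VV c) (TT c) (fun v => wgt p (da c v) (db c v))
          (fun v => wgt_pos_aux h0 h1 _ _) (by
            intro i S v hv
            unfold VV at hv
            simp only [Finset.mem_filter, Finset.mem_univ, true_and] at hv
            exact ⟨hv.2.1, hv.2.2, hv.1⟩) (PF_empty p c)
          (fun S i hi => PF_rec p c S i hi) univ z hz' h
      · push Not at hz'
        obtain ⟨him, hre⟩ := hz'
        have hre0 : 0 < z.re := by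
          by_contra hle
          exact hcon ⟨him, not_lt.mp hle⟩
        have hzx : z = (algebraMap ℝ ℂ) z.re := by
          apply Complex.ext <;> simp [him]
        rw [hzx, Polynomial.eval_map, Polynomial.eval₂_at_apply] at h
        have h' : (PF p c univ).eval z.re = 0 := (map_eq_zero (algebraMap ℝ ℂ)).mp h
        rw [eval_PF] at h'
        have := Ex_pos h0 h1 (fun ω => z.re ^ (AA c univ ω)) (fun ω => pow_pos hre0 _)
        linarith
  obtain ⟨s, hs, hFs⟩ := pb_of_roots F hF1 hroot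
  refine ⟨s, hs, ?_, fun k => ?_⟩
  · rw [← pb_deriv_one, ← hFs, hF, gen_deriv]
  · rw [← hFs, hF, gen_cum]

end Pool.Agent.Lib.MP_eb8f1d_pr
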