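import Pool.Agent.Lib.MP_eb8f1d_pr.Final
import Pool.Agent.Lib.MP_eb8f1d_pr.BinHalf
import Pool.Agent.Lib.MP_eb8f1d_pr.UmPB

set_option autoImplicit false

namespace Pool.Agent.Lib.MP_eb8f1d_pr

open Finset Polynomial

variable {n : ℕ}

/-! ### fair coins -/

theorem fair_k (c : Coloring n) (k : ℕ) (h : 1 / 2 ≤ Pr (1 / 2) (fun ω => U c ω ≤ k)) :
    n ≤ 4 * k + 2 := by
  by_contra hcon
  push Not at hcon
  obtain ⟨s, hs, hsum, hcum⟩ := Um_pb (p := 1 / 2) (by norm_num) (by norm_num) c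
  have hmean := mean_Um c
  have hn : (4 * (k : ℝ) + 3) ≤ n := by
    have : 4 * k + 3 ≤ n := by omega
    exact_mod_cast this
  have h1 : cum (pb s) k < 1 / 2 := by
    apply pb_lt_half bin_lt_half s hs k
    rw [hsum]
    linarith
  rw [← hcum] at h1
  have h2 : Pr (1 / 2) (fun ω => U c ω ≤ k) ≤ Pr (1 / 2) (fun ω => Um c ω ≤ k) :=
    Pr_mono (by norm_num) (by norm_num) fun ω hω => (Um_le_U c ω).trans hω
  linarith

theorem fair_even_ge (he : Even n) (k : ℕ) (hk : n ≤ 4 * k + 2) :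
    1 / 2 ≤ cum (gf (1 / 4) (Multiset.replicate (n / 2) 2)) k := by
  apply median_even _ (by norm_num) (by norm_num) n he k
  have : (n : ℝ) ≤ 4 * k + 2 := by exact_mod_cast hk
  linarith

theorem fair_odd_ge (hn : 3 ≤ n) (ho : Odd n) (k : ℕ) (hk : n ≤ 4 * k + 2) :
    1 / 2 ≤ cum (gf (1 / 4) (3 ::ₘ Multiset.replicate ((n - 3) / 2) 2)) k := by
  rw [cum_three]
  obtain ⟨k', rfl⟩ : ∃ k', k = k' + 1 := ⟨k - 1, by omega⟩
  set N := (n - 3) / 2 with hN
  have hNk : N ≤ 2 * k' + 1 := by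
    obtain ⟨m, rfl⟩ := ho
    omega
  have hNk' : (N : ℝ) ≤ 2 * k' + 1 := by exact_mod_cast hNk
  have h1 : 1 / 2 ≤ bcdf N (2 * (1 / 4)) (k' + 1) := by
    unfold bcdf
    apply Med.half_le N (2 * (1 / 4)) (by norm_num) (by norm_num) k'
    linarith
  have h2 : bcdf N (2 * (1 / 4)) (k' + 1) ≤ bcdf N (2 * (1 / 4)) (k' + 1 + 1) := by
    unfold bcdf
    rw [Finset.sum_range_succ (fun j => bin N (2 * (1 / 4)) j) (k' + 1)]
    have := Med.bin_nonneg (N := N) (r := 2 * (1 / 4)) (by norm_num) (by norm_num) (k' + 1)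
    linarith
  linarith

/-! ### optimality for all `p` -/

theorem even_opt_all (p : ℝ) (h0 : 0 < p) (h1 : p < 1) :
    ∃ N : ℕ, ∀ n ≥ N, Even n → ∀ (c : Coloring n) (k : ℕ),
      1 / 2 ≤ Pr p (fun ω => U c ω ≤ k) →
      1 / 2 ≤ cum (gf (p * (1 - p)) (Multiset.replicate (n / 2) 2)) k := by
  by_cases hp : p = 1 / 2
  · subst hp
    refine ⟨0, fun n _ he c k hk => ?_⟩
    have := fair_even_ge he k (fair_k c k hk)
    rwa [show (1 / 2 : ℝ) * (1 - 1 / 2) = 1 / 4 by norm_num]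
  · exact even_opt p h0 h1 hp

theorem odd_opt_all (p : ℝ) (h0 : 0 < p) (h1 : p < 1) :
    ∃ N : ℕ, ∀ n ≥ N, Odd n → ∀ (c : Coloring n) (k : ℕ),
      1 / 2 ≤ Pr p (fun ω => U c ω ≤ k) →
      1 / 2 ≤ cum (gf (p * (1 - p)) (3 ::ₘ Multiset.replicate ((n - 3) / 2) 2)) k ∨
      1 / 2 ≤ cum (gf (p * (1 - p)) (5 ::ₘ Multiset.replicate ((n - 5) / 2) 2)) k := by
  by_cases hp : p = 1 / 2
  · subst hp
    refine ⟨3, fun n hn ho c k hk => Or.inl ?_⟩
    have := fair_odd_ge hn ho k (fair_k c k hk)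
    rwa [show (1 / 2 : ℝ) * (1 - 1 / 2) = 1 / 4 by norm_num]
  · exact odd_opt p h0 h1 hp

/-! ### fair coins, all `n` -/

/-- any pattern of cycles whose distribution function is at least `1 / 2` from `(n + 1) / 4` on
is optimal for fair coins -/
theorem fair_med (c : Coloring n)
    (h : ∀ k, n ≤ 4 * k + 2 → 1 / 2 ≤ Pr (1 / 2) (fun ω => U c ω ≤ k)) :
    med (1 / 2) c = (3 * n + 2) / 4 := by
  rw [med_eq (by norm_num) (by norm_num)]
  have hset : {k : ℕ | 1 / 2 ≤ Pr (1 / 2) (fun ω => U c ω ≤ k)} = Set.Ici ((n + 1) / 4) := by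
    ext k
    simp only [Set.mem_ofPred_eq, Set.mem_Ici]
    constructor
    · intro hk
      have := fair_k c k hk
      omega
    · intro hk
      exact h k (by omega)
  rw [hset, csInf_Ici]
  omega

theorem fair_le (c : Coloring n) : med (1 / 2) c ≤ (3 * n + 2) / 4 := by
  rw [med_eq (by norm_num) (by norm_num)]
  set K : Set ℕ := {k : ℕ | 1 / 2 ≤ Pr (1 / 2) (fun ω => U c ω ≤ k)} with hK
  have hn : n ∈ K := by
    have : Pr (ι := Fin n) (1 / 2) (fun ω => U c ω ≤ n) = 1 := by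
      refine (Pr_congr fun ω => ?_).trans (Pr_true (n := n) (1 / 2))
      have := seen_add_U c ω
      simp; omega
    simp only [hK, Set.mem_ofPred_eq, this]
    norm_num
  have hk0 : n ≤ 4 * sInf K + 2 := fair_k c _ (Nat.sInf_mem ⟨n, hn⟩)
  omega

/-- fair coins: the maximal median for every `n ≥ 2`, and colourings attaining it -/
theorem fair_main (hn : 2 ≤ n) :
    M n (1 / 2) = (3 * n + 2) / 4 ∧
    (Even n → ∀ (σ : Equiv.Perm (Fin n)) (hσ : ∀ i, σ i ≠ i),
      σ.cycleType = Multiset.replicate (n / 2) 2 → med (1 / 2) (ofPerm σ hσ) = M n (1 / 2)) ∧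
    (Odd n → ∀ (σ : Equiv.Perm (Fin n)) (hσ : ∀ i, σ i ≠ i),
      σ.cycleType = 3 ::ₘ Multiset.replicate ((n - 3) / 2) 2 →
        med (1 / 2) (ofPerm σ hσ) = M n (1 / 2)) := by
  have h14 : (1 / 2 : ℝ) * (1 - 1 / 2) = 1 / 4 := by norm_num
  have keyE : Even n → ∀ (σ : Equiv.Perm (Fin n)) (hσ : ∀ i, σ i ≠ i),
      σ.cycleType = Multiset.replicate (n / 2) 2 →
      med (1 / 2) (ofPerm σ hσ) = (3 * n + 2) / 4 := by
    intro he σ hσ hc
    apply fair_med
    intro k hk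
    rw [Pr_ofPerm, hc, h14]
    exact fair_even_ge he k hk
  have keyO : Odd n → ∀ (σ : Equiv.Perm (Fin n)) (hσ : ∀ i, σ i ≠ i),
      σ.cycleType = 3 ::ₘ Multiset.replicate ((n - 3) / 2) 2 →
      med (1 / 2) (ofPerm σ hσ) = (3 * n + 2) / 4 := by
    intro ho σ hσ hc
    apply fair_med
    intro k hk
    rw [Pr_ofPerm, hc, h14]
    refine fair_odd_ge ?_ ho k hk
    obtain ⟨m, rfl⟩ := ho
    omega
  have hM : M n (1 / 2) = (3 * n + 2) / 4 := by
    rcases Nat.even_or_odd n with he | ho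
    · have hsum : (Multiset.replicate (n / 2) 2).sum = n := by
        rw [Multiset.sum_replicate, smul_eq_mul]
        exact Nat.div_mul_cancel he.two_dvd
      obtain ⟨σ, hσ⟩ := exists_cycleType (n := n) (Multiset.replicate (n / 2) 2) hsum
        (fun L hL => by rw [Multiset.eq_of_mem_replicate hL])
      have hfix : ∀ i, σ i ≠ i := no_fix_of_cycleType (by rw [hσ, hsum])
      rw [← keyE he σ hfix hσ]
      refine M_eq_of_max _ fun c => ?_
      rw [keyE he σ hfix hσ]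
      exact fair_le c
    · have hsum : (3 ::ₘ Multiset.replicate ((n - 3) / 2) 2).sum = n := by
        rw [Multiset.sum_cons, Multiset.sum_replicate, smul_eq_mul]
        obtain ⟨m, rfl⟩ := ho
        omega
      obtain ⟨σ, hσ⟩ := exists_cycleType (n := n) _ hsum
        (fun L hL => by
          rcases Multiset.mem_cons.mp hL with rfl | h
          · norm_num
          · rw [Multiset.eq_of_mem_replicate h])
      have hfix : ∀ i, σ i ≠ i := no_fix_of_cycleType (by rw [hσ, hsum])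
      rw [← keyO ho σ hfix hσ]
      refine M_eq_of_max _ fun c => ?_
      rw [keyO ho σ hfix hσ]
      exact fair_le c
  exact ⟨hM, fun he σ hσ hc => by rw [hM]; exact keyE he σ hσ hc,
    fun ho σ hσ hc => by rw [hM]; exact keyO ho σ hσ hc⟩

end Pool.Agent.Lib.MP_eb8f1d_pr
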