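import Pool.Agent.Lib.MP_eb8f1d_pr.Moves
import Pool.Agent.Lib.MP_eb8f1d_pr.Excess

set_option autoImplicit false

namespace Pool.Agent.Lib.MP_eb8f1d_pr

open Finset

variable {n : ℕ}

theorem EU_change (p : ℝ) (c c' : Coloring n) (T : Finset (Fin n))
    (h : ∀ x ∉ T, da c' x = da c x ∧ db c' x = db c x) :
    EU p c' = EU p c +
      ∑ x ∈ T, (wgt p (da c' x) (db c' x) - wgt p (da c x) (db c x)) := by
  unfold EU
  have : ∑ x ∈ T, (wgt p (da c' x) (db c' x) - wgt p (da c x) (db c x)) =
      ∑ x, (wgt p (da c' x) (db c' x) - wgt p (da c x) (db c x)) := by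
    apply Finset.sum_subset (Finset.subset_univ _)
    intro x _ hx
    rw [(h x hx).1, (h x hx).2]
    ring
  rw [this, Finset.sum_sub_distrib]
  ring

theorem diffSet_trans (c c' c'' : Coloring n) :
    (diffSet c c'').card ≤ (diffSet c c').card + (diffSet c' c'').card := by
  refine (Finset.card_le_card ?_).trans (Finset.card_union_le _ _)
  intro i hi
  simp only [diffSet, Finset.mem_union, Finset.mem_filter, Finset.mem_univ, true_and] at hi ⊢
  by_contra hcon
  push Not at hcon
  obtain ⟨⟨a1, a2⟩, a3, a4⟩ := hcon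
  rcases hi with h | h
  · exact h (a1.trans a3)
  · exact h (a2.trans a4)

/-! ### gaps -/

theorem exists_pos_le {α : Type*} (S : Finset α) (g : α → ℝ) (hg : ∀ x ∈ S, 0 < g x) :
    ∃ d : ℝ, 0 < d ∧ ∀ x ∈ S, d ≤ g x := by
  classical
  induction S using Finset.induction_on with
  | empty => exact ⟨1, one_pos, by simp⟩
  | insert a S _ ih =>
    obtain ⟨d, hd, h⟩ := ih fun x hx => hg x (Finset.mem_insert_of_mem hx)
    refine ⟨min d (g a), lt_min hd (hg a (Finset.mem_insert_self _ _)), fun x hx => ?_⟩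
    rcases Finset.mem_insert.mp hx with rfl | hx
    · exact min_le_right _ _
    · exact (min_le_left _ _).trans (h x hx)

theorem wgt_pos' {p : ℝ} (h0 : 0 < p) (h1 : p < 1) (a b : ℕ) : 0 < wgt p a b := by
  unfold wgt
  have : 0 < 1 - p := by linarith
  positivity

theorem wgt_le_left {p : ℝ} (h0 : 0 < p) (hp : p < 1 / 2) {a b K : ℕ} (h : K ≤ a) :
    wgt p a b ≤ (1 - p) ^ K := by
  unfold wgt
  have hq0 : 0 < 1 - p := by linarith
  calc (1 - p) ^ a * p ^ b ≤ (1 - p) ^ a * 1 := by
        apply mul_le_mul_of_nonneg_left (pow_le_one₀ h0.le (by linarith)) (by positivity)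
    _ = (1 - p) ^ a := mul_one _
    _ ≤ (1 - p) ^ K := pow_le_pow_of_le_one hq0.le (by linarith) h

theorem wgt_le_right {p : ℝ} (h0 : 0 < p) (hp : p < 1 / 2) {a b K : ℕ} (h : K ≤ b) :
    wgt p a b ≤ (1 - p) ^ K := by
  unfold wgt
  have hq0 : 0 < 1 - p := by linarith
  calc (1 - p) ^ a * p ^ b ≤ 1 * p ^ b := by
        apply mul_le_mul_of_nonneg_right (pow_le_one₀ hq0.le (by linarith)) (by positivity)
    _ = p ^ b := one_mul _
    _ ≤ (1 - p) ^ b := pow_le_pow_left₀ h0.le (by linarith) _
    _ ≤ (1 - p) ^ K := pow_le_pow_of_le_one hq0.le (by linarith) h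

theorem gap {p : ℝ} (h0 : 0 < p) (hp : p < 1 / 2) (τ : ℝ) (hτ : 0 < τ) :
    ∃ d : ℝ, 0 < d ∧ ∀ a b : ℕ, wgt p a b < τ → wgt p a b ≤ τ - d := by
  classical
  obtain ⟨K, hK⟩ : ∃ K : ℕ, (1 - p) ^ K < τ / 2 :=
    exists_pow_lt_of_lt_one (by positivity) (by linarith)
  obtain ⟨d, hd, hS⟩ := exists_pos_le
    (((range K) ×ˢ (range K)).filter (fun x => wgt p x.1 x.2 < τ))
    (fun x => τ - wgt p x.1 x.2) (by
      intro x hx
      have := (Finset.mem_filter.mp hx).2
      linarith)
  refine ⟨min d (τ / 2), lt_min hd (by positivity), fun a b hab => ?_⟩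
  by_cases ha : K ≤ a
  · have := wgt_le_left h0 hp (b := b) ha
    have h' := min_le_right d (τ / 2)
    linarith
  · by_cases hb : K ≤ b
    · have := wgt_le_right h0 hp (a := a) hb
      have h' := min_le_right d (τ / 2)
      linarith
    · have hmem : (a, b) ∈ ((range K) ×ˢ (range K)).filter (fun x => wgt p x.1 x.2 < τ) := by
        rw [Finset.mem_filter, Finset.mem_product, Finset.mem_range, Finset.mem_range]
        exact ⟨⟨by simpa using ha, by simpa using hb⟩, hab⟩
      have := hS _ hmem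
      have h' := min_le_left d (τ / 2)
      simp only at this
      linarith

theorem gap2 {p : ℝ} (h0 : 0 < p) (hp : p < 1 / 2) :
    ∃ d : ℝ, 0 < d ∧ ∀ A B : ℕ, p * (1 - p) ≤ wgt p A B → ∀ a b : ℕ,
      (wgt p a b < (1 - p) * wgt p A B → wgt p a b ≤ (1 - p) * wgt p A B - d) ∧
      (wgt p a b < p * wgt p A B → wgt p a b ≤ p * wgt p A B - d) := by
  classical
  have hq0 : 0 < 1 - p := by linarith
  have h1 : p < 1 := by linarith
  obtain ⟨K, hK⟩ : ∃ K : ℕ, (1 - p) ^ K < p * (1 - p) :=
    exists_pow_lt_of_lt_one (by positivity) (by linarith)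
  have hq : ∀ x : ℕ × ℕ, ∃ d : ℝ, 0 < d ∧ ∀ a b : ℕ,
      wgt p a b < (1 - p) * wgt p x.1 x.2 → wgt p a b ≤ (1 - p) * wgt p x.1 x.2 - d := fun x =>
    gap h0 hp _ (mul_pos hq0 (wgt_pos' h0 h1 _ _))
  have hpp : ∀ x : ℕ × ℕ, ∃ d : ℝ, 0 < d ∧ ∀ a b : ℕ,
      wgt p a b < p * wgt p x.1 x.2 → wgt p a b ≤ p * wgt p x.1 x.2 - d := fun x =>
    gap h0 hp _ (mul_pos h0 (wgt_pos' h0 h1 _ _))
  choose d1 hd1 H1 using hq
  choose d2 hd2 H2 using hpp
  obtain ⟨d, hd, hS⟩ := exists_pos_le ((range K) ×ˢ (range K)) (fun x => min (d1 x) (d2 x))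
    (fun x _ => lt_min (hd1 x) (hd2 x))
  refine ⟨d, hd, fun A B hAB a b => ?_⟩
  have hA : A < K := by
    by_contra hcon
    have := wgt_le_left h0 hp (b := B) (not_lt.mp hcon)
    linarith
  have hB : B < K := by
    by_contra hcon
    have := wgt_le_right h0 hp (a := A) (not_lt.mp hcon)
    linarith
  have hle := hS (A, B) (by simp [hA, hB])
  have e1 := hle.trans (min_le_left _ _)
  have e2 := hle.trans (min_le_right _ _)
  constructor
  · intro h
    have := H1 (A, B) a b h
    simp only at this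
    linarith
  · intro h
    have := H2 (A, B) a b h
    simp only at this
    linarith

theorem gap3 {p : ℝ} (h0 : 0 < p) (hp : p < 1 / 2) :
    ∃ d : ℝ, 0 < d ∧ ∀ a : ℕ, p < (1 - p) ^ a → p + d ≤ (1 - p) ^ a := by
  classical
  obtain ⟨K, hK⟩ : ∃ K : ℕ, (1 - p) ^ K < p :=
    exists_pow_lt_of_lt_one h0 (by linarith)
  obtain ⟨d, hd, hS⟩ := exists_pos_le ((range K).filter (fun a => p < (1 - p) ^ a))
    (fun a => (1 - p) ^ a - p) (by
      intro x hx
      have := (Finset.mem_filter.mp hx).2
      linarith)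
  refine ⟨d, hd, fun a ha => ?_⟩
  have haK : a < K := by
    by_contra hcon
    have : (1 - p) ^ a ≤ (1 - p) ^ K :=
      pow_le_pow_of_le_one (by linarith) (by linarith) (not_lt.mp hcon)
    linarith
  have := hS a (by simp [haK, ha])
  linarith

theorem improve (p : ℝ) (h0 : 0 < p) (hp : p < 1 / 2) :
    ∃ (δ : ℝ) (s N : ℕ), 0 < δ ∧ ∀ n ≥ N, ∀ c : Coloring n, ¬ IsPerm c →
      ∃ c' : Coloring n, (diffSet c c').card ≤ s ∧ EU p c' ≤ EU p c - δ := by
  classical
  have h1 : p < 1 := by linarith
  have hq0 : 0 < 1 - p := by linarith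
  have hpq : p < 1 - p := by linarith
  have ha0 : 0 < p * (1 - p) := mul_pos h0 hq0
  obtain ⟨κ, hκ, hex⟩ := excess p h0 hp
  obtain ⟨d2, hd2, G2⟩ := gap2 h0 hp
  obtain ⟨d3, hd3, G3⟩ := gap3 h0 hp
  obtain ⟨K, hK⟩ : ∃ K : ℕ, (1 - p) ^ K < p * (1 - p) :=
    exists_pow_lt_of_lt_one (by positivity) (by linarith)
  set δ4 : ℝ := p ^ 2 * (1 - 2 * p) / (1 - p) with hδ4
  have hδ4pos : 0 < δ4 := by
    have : 0 < 1 - 2 * p := by linarith
    positivity
  set δ : ℝ := min (min (p * d2) ((1 - 2 * p) * d3)) δ4 with hδ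
  have hδpos : 0 < δ := by
    have : 0 < 1 - 2 * p := by linarith
    exact lt_min (lt_min (by positivity) (by positivity)) hδ4pos
  have hδ1 : δ ≤ p * d2 := (min_le_left _ _).trans (min_le_left _ _)
  have hδ2 : δ ≤ (1 - 2 * p) * d3 := (min_le_left _ _).trans (min_le_right _ _)
  have hδ3 : δ ≤ δ4 := min_le_right _ _
  refine ⟨δ, 6, 2 * K + 3, hδpos, fun n hn c hc => ?_⟩
  have hn3 : 3 ≤ n := by omega
  have hnpos : (0 : ℝ) < n := by exact_mod_cast (by omega : 0 < n)
  set w : Fin n → ℝ := fun v => wgt p (da c v) (db c v) with hw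
  have : Nonempty (Fin n) := ⟨⟨0, by omega⟩⟩
  obtain ⟨vs, hvs⟩ := Finite.exists_max w
  set W : ℝ := w vs with hW
  -- `W > p (1 - p)`
  have hbad : (1 : ℝ) ≤ ((univ.filter (fun v => ¬ (da c v = 1 ∧ db c v = 1))).card : ℝ) := by
    unfold IsPerm at hc
    push Not at hc
    obtain ⟨v, hv⟩ := hc
    have : 0 < (univ.filter (fun v => ¬ (da c v = 1 ∧ db c v = 1))).card := by
      apply Finset.card_pos.mpr
      exact ⟨v, by simpa using hv⟩
    exact_mod_cast this
  have hWa : p * (1 - p) < W := by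
    have e1 := hex n c
    have e2 : EU p c ≤ n * W := by
      unfold EU
      calc ∑ v, wgt p (da c v) (db c v) ≤ ∑ _v : Fin n, W := Finset.sum_le_sum fun v _ => hvs v
        _ = n * W := by simp
    have e3 : (n : ℝ) * (p * (1 - p)) < n * W := by nlinarith
    exact lt_of_mul_lt_mul_left e3 hnpos.le
  have hdeg : ∀ v, p * (1 - p) ≤ w v → da c v + db c v < n := by
    intro v hv
    have hA : da c v < K := by
      by_contra hcon
      have := wgt_le_left h0 hp (b := db c v) (not_lt.mp hcon)
      simp only [hw] at hv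
      linarith
    have hB : db c v < K := by
      by_contra hcon
      have := wgt_le_right h0 hp (a := da c v) (not_lt.mp hcon)
      simp only [hw] at hv
      linarith
    omega
  -- Case 1
  by_cases c1 : ∃ u, 1 ≤ da c u ∧ w u < (1 - p) * W
  · obtain ⟨u, hu1, hu2⟩ := c1
    have hne : u ≠ vs := by
      rintro rfl
      have : (1 - p) * W < W := by nlinarith
      linarith [hW]
    obtain ⟨c', hd, hda, hdb⟩ := move_h c u vs hne hu1 (hdeg vs hWa.le)
    refine ⟨c', hd.trans (by norm_num), ?_⟩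
    have hgap := (G2 (da c vs) (db c vs) hWa.le (da c u) (db c u)).1 hu2
    rw [EU_change p c c' {u, vs} (by
      intro x hx
      simp only [Finset.mem_insert, Finset.mem_singleton, not_or] at hx
      rw [hda, if_neg hx.1, if_neg hx.2, hdb]
      exact ⟨rfl, rfl⟩), Finset.sum_pair hne, hda, hda, hdb, hdb, if_pos rfl, if_neg hne.symm,
      if_pos rfl]
    obtain ⟨m, hm⟩ := Nat.exists_eq_add_of_le' hu1
    have hwu : w u = (1 - p) ^ (m + 1) * p ^ (db c u) := by simp only [hw, wgt, hm]
    have hgap' : w u ≤ (1 - p) * W - d2 := hgap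
    have e1 : wgt p (da c u - 1) (db c u) - wgt p (da c u) (db c u) = p * ((1 - p) ^ m * p ^ (db c u)) := by
      rw [hm]
      simp only [wgt, Nat.add_sub_cancel]
      ring
    have e2 : wgt p (da c vs + 1) (db c vs) - wgt p (da c vs) (db c vs) = - (p * W) := by
      simp only [hW, hw, wgt]
      ring
    rw [e1, e2]
    have e3 : (1 - p) * ((1 - p) ^ m * p ^ (db c u)) = w u := by rw [hwu]; ring
    have e4 : (1 - p) ^ m * p ^ (db c u) ≤ W - d2 := by
      have h5 : (1 - p) * ((1 - p) ^ m * p ^ (db c u)) ≤ (1 - p) * (W - d2) := by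
        rw [e3]
        nlinarith
      exact le_of_mul_le_mul_left h5 hq0
    nlinarith
  -- Case 2
  by_cases c2 : ∃ u, 1 ≤ db c u ∧ w u < p * W
  · obtain ⟨u, hu1, hu2⟩ := c2
    have hWpos : 0 < W := lt_trans ha0 hWa
    have hne : u ≠ vs := by
      rintro rfl
      have : p * W < W := by nlinarith
      linarith [hW]
    obtain ⟨c', hd, hdb, hda⟩ := move_t c u vs hne hu1 (hdeg vs hWa.le)
    refine ⟨c', hd.trans (by norm_num), ?_⟩
    have hgap := (G2 (da c vs) (db c vs) hWa.le (da c u) (db c u)).2 hu2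
    rw [EU_change p c c' {u, vs} (by
      intro x hx
      simp only [Finset.mem_insert, Finset.mem_singleton, not_or] at hx
      rw [hdb, if_neg hx.1, if_neg hx.2, hda]
      exact ⟨rfl, rfl⟩), Finset.sum_pair hne, hda, hda, hdb, hdb, if_pos rfl, if_neg hne.symm,
      if_pos rfl]
    obtain ⟨m, hm⟩ := Nat.exists_eq_add_of_le' hu1
    have hwu : w u = (1 - p) ^ (da c u) * p ^ (m + 1) := by simp only [hw, wgt, hm]
    have hgap' : w u ≤ p * W - d2 := hgap
    have e1 : wgt p (da c u) (db c u - 1) - wgt p (da c u) (db c u) =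
        (1 - p) * ((1 - p) ^ (da c u) * p ^ m) := by
      rw [hm]
      simp only [wgt, Nat.add_sub_cancel]
      ring
    have e2 : wgt p (da c vs) (db c vs + 1) - wgt p (da c vs) (db c vs) = - ((1 - p) * W) := by
      simp only [hW, hw, wgt]
      ring
    rw [e1, e2]
    have e3 : p * ((1 - p) ^ (da c u) * p ^ m) = w u := by rw [hwu]; ring
    have e4 : (1 - p) ^ (da c u) * p ^ m ≤ W - d2 := by
      have h5 : p * ((1 - p) ^ (da c u) * p ^ m) ≤ p * (W - d2) := by
        rw [e3]
        nlinarith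
      exact le_of_mul_le_mul_left h5 h0
    nlinarith
  push Not at c1 c2
  -- types
  have hWpos : 0 < W := lt_trans ha0 hWa
  have hpw : ∀ b : ℕ, p ^ (b + 1) ≤ p := fun b => by
    have : p ^ b ≤ 1 := pow_le_one₀ h0.le h1.le
    rw [pow_succ]; nlinarith
  have hqw : ∀ b : ℕ, (1 - p) ^ (b + 1) ≤ 1 - p := fun b => by
    have : (1 - p) ^ b ≤ 1 := pow_le_one₀ hq0.le (by linarith)
    rw [pow_succ]; nlinarith
  have hqle : ∀ a : ℕ, (1 - p) ^ a ≤ 1 := fun a => pow_le_one₀ hq0.le (by linarith)
  have hple : ∀ a : ℕ, p ^ a ≤ 1 := fun a => pow_le_one₀ h0.le (by linarith)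
  -- Claim A
  have clA : ∀ u, ¬ (da c u = 0 ∧ db c u = 0) := by
    rintro u0 ⟨hu1, hu2⟩
    have hW1 : 1 ≤ W := by
      have := hvs u0
      simp only [hw, hu1, hu2, wgt, pow_zero, mul_one] at this
      exact this
    have hall : ∀ u, da c u + db c u ≤ 1 := by
      intro u
      by_contra hcon
      push Not at hcon
      rcases Nat.eq_zero_or_pos (da c u) with hz | hpos
      · have hb : 2 ≤ db c u := by omega
        have e := c2 u (by omega)
        obtain ⟨m, hm⟩ := Nat.exists_eq_add_of_le' hb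
        simp only [hw, wgt, hz, hm, pow_zero, one_mul] at e
        have : p ^ (m + 2) ≤ p * p := by
          rw [pow_succ]
          have := hpw m
          nlinarith
        nlinarith
      · have e := c1 u hpos
        rcases Nat.eq_zero_or_pos (db c u) with hz | hbpos
        · have hb : 2 ≤ da c u := by omega
          obtain ⟨m, hm⟩ := Nat.exists_eq_add_of_le' hb
          simp only [hw, wgt, hz, hm, pow_zero, mul_one] at e
          have : (1 - p) ^ (m + 2) ≤ (1 - p) * (1 - p) := by
            rw [pow_succ]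
            have := hqw m
            nlinarith
          nlinarith
        · obtain ⟨m, hm⟩ := Nat.exists_eq_add_of_le' hpos
          obtain ⟨l, hl⟩ := Nat.exists_eq_add_of_le' hbpos
          simp only [hw, wgt, hm, hl] at e
          have e1 : (1 - p) ^ (m + 1) * p ^ (l + 1) ≤ (1 - p) * p :=
            mul_le_mul (hqw m) (hpw l) (by positivity) hq0.le
          nlinarith
    have hsum : ∑ u, (da c u + db c u) ≤ ∑ _u : Fin n, 1 := Finset.sum_le_sum fun u _ => hall u
    rw [Finset.sum_add_distrib, sum_da, sum_db] at hsum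
    simp at hsum
    omega
  -- Claim B
  have clB : ∀ u, 1 ≤ da c u → 1 ≤ db c u → da c u = 1 ∧ db c u = 1 := by
    intro u hu1 hu2
    have e := c1 u hu1
    obtain ⟨m, hm⟩ := Nat.exists_eq_add_of_le' hu1
    obtain ⟨l, hl⟩ := Nat.exists_eq_add_of_le' hu2
    have e' : (1 - p) * W ≤ (1 - p) ^ (m + 1) * p ^ (l + 1) := by
      simpa only [hw, wgt, hm, hl] using e
    have e2 : (1 - p) * (p * (1 - p)) < (1 - p) ^ (m + 1) * p ^ (l + 1) := by nlinarith
    have hl0 : l = 0 := by
      by_contra hcon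
      obtain ⟨l', rfl⟩ := Nat.exists_eq_succ_of_ne_zero hcon
      have e3 : p ^ (l' + 1 + 1) ≤ p * p := by
        rw [pow_succ]
        have := hpw l'
        nlinarith
      have e4 : (1 - p) ^ (m + 1) * p ^ (l' + 1 + 1) ≤ (1 - p) * (p * p) :=
        mul_le_mul (hqw m) e3 (by positivity) hq0.le
      simp only [Nat.succ_eq_add_one] at e2
      nlinarith
    have hm0 : m = 0 := by
      by_contra hcon
      obtain ⟨m', rfl⟩ := Nat.exists_eq_succ_of_ne_zero hcon
      have e3 : (1 - p) ^ (m' + 1 + 1) ≤ (1 - p) * (1 - p) := by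
        rw [pow_succ]
        have := hqw m'
        nlinarith
      have e4 : (1 - p) ^ (m' + 1 + 1) * p ^ (l + 1) ≤ ((1 - p) * (1 - p)) * p :=
        mul_le_mul e3 (hpw l) (by positivity) (by positivity)
      simp only [Nat.succ_eq_add_one] at e2
      nlinarith
    omega
  -- Claim C
  have clC : ∀ u, da c u = 0 → db c u = 1 ∨ db c u = 2 := by
    intro u hu
    have hb : 1 ≤ db c u := by
      rcases Nat.eq_zero_or_pos (db c u) with hz | h
      · exact absurd ⟨hu, hz⟩ (clA u)
      · exact h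
    by_contra hcon
    have hb3 : 3 ≤ db c u := by omega
    obtain ⟨m, hm⟩ := Nat.exists_eq_add_of_le' hb3
    have e := c2 u hb
    simp only [hw, wgt, hu, hm, pow_zero, one_mul] at e
    have e3 : p ^ (m + 3) ≤ p * (p * p) := by
      rw [show m + 3 = (m + 1) + 2 by ring, pow_add]
      have := hpw m
      have h2 : p ^ 2 = p * p := by ring
      rw [h2]
      have : 0 < p * p := by positivity
      nlinarith
    have e4 : p * (p * (1 - p)) < p * W := mul_lt_mul_of_pos_left hWa h0
    have e5 : 0 < p * p := by positivity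
    nlinarith
  -- Claim D
  have hx : ∃ x, db c x = 0 := by
    by_contra hcon
    push Not at hcon
    apply hc
    have hb1 : ∀ u, db c u = 1 := by
      by_contra hne
      push Not at hne
      obtain ⟨u, hu⟩ := hne
      have : ∑ _u : Fin n, 1 < ∑ v, db c v := by
        apply Finset.sum_lt_sum
        · intro i _
          have := hcon i
          omega
        · refine ⟨u, Finset.mem_univ _, ?_⟩
          have := hcon u
          omega
      rw [sum_db] at this
      simp at this
    have ha1 : ∀ u, da c u = 1 := by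
      have hle : ∀ u, da c u ≤ 1 := by
        intro u
        rcases Nat.eq_zero_or_pos (da c u) with hz | h
        · omega
        · exact (clB u h (by rw [hb1])).1.le
      by_contra hne
      push Not at hne
      obtain ⟨u, hu⟩ := hne
      have : ∑ v, da c v < ∑ _u : Fin n, 1 := by
        apply Finset.sum_lt_sum
        · intro i _
          exact hle i
        · refine ⟨u, Finset.mem_univ _, ?_⟩
          have := hle u
          omega
      rw [sum_da] at this
      simp at this
    exact fun v => ⟨ha1 v, hb1 v⟩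
  obtain ⟨x1, hx1⟩ := hx
  have hy : ∃ y, da c y = 0 ∧ db c y = 2 := by
    have : ∃ y, 2 ≤ db c y := by
      by_contra hcon
      push Not at hcon
      have : ∑ v, db c v < ∑ _u : Fin n, 1 := by
        apply Finset.sum_lt_sum
        · intro i _
          have := hcon i
          omega
        · exact ⟨x1, Finset.mem_univ _, by omega⟩
      rw [sum_db] at this
      simp at this
    obtain ⟨y, hy⟩ := this
    have hday : da c y = 0 := by
      by_contra hcon
      have := (clB y (by omega) (by omega)).2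
      omega
    refine ⟨y, hday, ?_⟩
    rcases clC y hday with h | h <;> omega
  obtain ⟨y, hy1, hy2⟩ := hy
  have hWp : W ≤ p := by
    have e := c2 y (by omega)
    simp only [hw, wgt, hy1, hy2, pow_zero, one_mul] at e
    have e' : p * W ≤ p * p := by rw [← sq]; exact e
    exact le_of_mul_le_mul_left e' h0
  -- double move, common part
  have hdouble : ∀ x, db c x = 0 → p ≤ (1 - p) ^ (da c x - 1) → ∃ c2' : Coloring n,
      (diffSet c c2').card ≤ 4 ∧
      (∀ z, da c2' z = if z = x then da c x - 1 else if z = y then 1 else da c z) ∧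
      (∀ z, db c2' z = if z = y then 1 else if z = x then 1 else db c z) := by
    intro x hx0 hxp
    have hax : 1 ≤ da c x := by
      rcases Nat.eq_zero_or_pos (da c x) with hz | h
      · exact absurd ⟨hz, hx0⟩ (clA x)
      · exact h
    have hxy : x ≠ y := by
      rintro rfl
      omega
    obtain ⟨ca, hda, hdaa, hdab⟩ := move_h c x y hxy hax (by omega)
    have hK' : da c x - 1 < K := by
      by_contra hcon
      have : (1 - p) ^ (da c x - 1) ≤ (1 - p) ^ K :=
        pow_le_pow_of_le_one hq0.le (by linarith) (not_lt.mp hcon)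
      nlinarith
    obtain ⟨cb, hdb, hdbb, hdba⟩ := move_t ca y x hxy.symm (by rw [hdab, hy2]; norm_num)
      (by rw [hdaa, if_pos rfl, hdab, hx0]; omega)
    refine ⟨cb, (diffSet_trans c ca cb).trans (by omega), ?_, ?_⟩
    · intro z
      rw [hdba, hdaa, hy1]
    · intro z
      rw [hdbb, hdab, hdab, hdab, hx0, hy2]
  by_cases c3 : ∃ x, db c x = 0 ∧ p < (1 - p) ^ (da c x - 1)
  · obtain ⟨x, hx0, hxp⟩ := c3
    have hax : 1 ≤ da c x := by
      rcases Nat.eq_zero_or_pos (da c x) with hz | h
      · exact absurd ⟨hz, hx0⟩ (clA x)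
      · exact h
    have hxy : x ≠ y := by
      rintro rfl
      omega
    obtain ⟨cb, hd, hda', hdb'⟩ := hdouble x hx0 hxp.le
    refine ⟨cb, hd.trans (by norm_num), ?_⟩
    have hg := G3 _ hxp
    obtain ⟨m, hm⟩ := Nat.exists_eq_add_of_le' hax
    have hm' : da c x - 1 = m := by omega
    rw [hm'] at hg
    rw [EU_change p c cb {x, y} (by
      intro z hz
      simp only [Finset.mem_insert, Finset.mem_singleton, not_or] at hz
      rw [hda', hdb', if_neg hz.1, if_neg hz.2, if_neg hz.2, if_neg hz.1]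
      exact ⟨rfl, rfl⟩), Finset.sum_pair hxy, hda', hda', hdb', hdb', if_pos rfl, if_pos rfl,
      if_pos rfl, if_neg hxy.symm, if_neg hxy, if_pos rfl, hm', hm, hx0, hy1, hy2]
    have e : wgt p m 1 - wgt p (m + 1) 0 + (wgt p 1 1 - wgt p 0 2) =
        -((1 - 2 * p) * ((1 - p) ^ m - p)) := by
      simp only [wgt]
      ring
    rw [e]
    have : (1 - 2 * p) * d3 ≤ (1 - 2 * p) * ((1 - p) ^ m - p) :=
      mul_le_mul_of_nonneg_left (by linarith) (by linarith)
    linarith
  · push Not at c3
    have hvs0 : da c vs = 0 ∧ db c vs = 1 := by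
      rcases Nat.eq_zero_or_pos (db c vs) with hz | hbpos
      · exfalso
        have hax : 1 ≤ da c vs := by
          rcases Nat.eq_zero_or_pos (da c vs) with hz' | h
          · exact absurd ⟨hz', hz⟩ (clA vs)
          · exact h
        have e := c3 vs hz
        obtain ⟨m, hm⟩ := Nat.exists_eq_add_of_le' hax
        have hm' : da c vs - 1 = m := by omega
        rw [hm'] at e
        have hWv : W = (1 - p) ^ m * (1 - p) := by
          simp only [hW, hw, wgt, hm, hz, pow_zero, mul_one, pow_succ]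
        nlinarith
      · rcases Nat.eq_zero_or_pos (da c vs) with hz | hapos
        · rcases clC vs hz with h | h
          · exact ⟨hz, h⟩
          · exfalso
            have hWv : W = p ^ 2 := by simp only [hW, hw, wgt, hz, h, pow_zero, one_mul]
            nlinarith
        · exfalso
          obtain ⟨e1, e2⟩ := clB vs hapos hbpos
          have hWv : W = (1 - p) * p := by simp only [hW, hw, wgt, e1, e2, pow_one]
          nlinarith
    have hWeq : W = p := by simp only [hW, hw, wgt, hvs0.1, hvs0.2, pow_zero, one_mul, pow_one]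
    have hax : 1 ≤ da c x1 := by
      rcases Nat.eq_zero_or_pos (da c x1) with hz | h
      · exact absurd ⟨hz, hx1⟩ (clA x1)
      · exact h
    obtain ⟨m, hm⟩ := Nat.exists_eq_add_of_le' hax
    have hm' : da c x1 - 1 = m := by omega
    have hmp : (1 - p) ^ m = p := by
      apply le_antisymm
      · have := c3 x1 hx1
        rwa [hm'] at this
      · have e := c1 x1 hax
        simp only [hw, wgt, hx1, hm, pow_zero, mul_one, hWeq, pow_succ] at e
        have : (1 - p) * p ≤ (1 - p) * (1 - p) ^ m := by rw [mul_comm _ ((1 - p) ^ m)]; exact e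
        exact le_of_mul_le_mul_left this hq0
    have hm2 : 2 ≤ m := by
      by_contra hcon
      push Not at hcon
      interval_cases m
      · simp at hmp; linarith
      · simp at hmp; linarith
    have hxy : x1 ≠ y := by
      rintro rfl
      omega
    have hxz : x1 ≠ vs := by
      rintro rfl
      omega
    have hyz : y ≠ vs := by
      rintro rfl
      omega
    obtain ⟨cb, hd, hda', hdb'⟩ := hdouble x1 hx1 (by rw [hm', hmp])
    have eda : da cb x1 = m := by rw [hda', if_pos rfl, hm']
    obtain ⟨cc, hdc, hdca, hdcb⟩ := move_h cb x1 vs hxz (by rw [eda]; omega) (by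
      rw [hda', hdb', if_neg hxz.symm, if_neg hyz.symm, if_neg hyz.symm, if_neg hxz.symm,
        hvs0.1, hvs0.2]
      omega)
    refine ⟨cc, (diffSet_trans c cb cc).trans (by omega), ?_⟩
    obtain ⟨l, hl⟩ := Nat.exists_eq_add_of_le' hm2
    have ccx : da cc x1 = l + 1 ∧ db cc x1 = 1 := by
      rw [hdca, hdcb, if_pos rfl, eda, hdb', if_neg hxy, if_pos rfl]
      omega
    have ccy : da cc y = 1 ∧ db cc y = 1 := by
      rw [hdca, hdcb, if_neg hxy.symm, if_neg hyz, hda', if_neg hxy.symm, if_pos rfl, hdb',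
        if_pos rfl]
      exact ⟨rfl, rfl⟩
    have ccz : da cc vs = 1 ∧ db cc vs = 1 := by
      rw [hdca, hdcb, if_neg hxz.symm, if_pos rfl, hda', if_neg hxz.symm, if_neg hyz.symm, hdb',
        if_neg hyz.symm, if_neg hxz.symm, hvs0.1, hvs0.2]
      exact ⟨rfl, rfl⟩
    rw [EU_change p c cc {x1, y, vs} (by
      intro z hz
      simp only [Finset.mem_insert, Finset.mem_singleton, not_or] at hz
      rw [hdca, hdcb, if_neg hz.1, if_neg hz.2.2, hda', hdb', if_neg hz.1, if_neg hz.2.1,
        if_neg hz.2.1, if_neg hz.1]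
      exact ⟨rfl, rfl⟩), Finset.sum_insert (by simp [hxy, hxz]), Finset.sum_pair hyz, ccx.1, ccx.2,
      ccy.1, ccy.2, ccz.1, ccz.2, hm, hx1, hy1, hy2, hvs0.1, hvs0.2]
    have e1 : (1 - p) ^ (l + 1) = p / (1 - p) := by
      rw [eq_div_iff hq0.ne', ← pow_succ]
      rw [hl] at hmp
      exact hmp
    have e2 : (1 - p) ^ (m + 1) = p * (1 - p) := by rw [pow_succ, hmp]
    have e : wgt p (l + 1) 1 - wgt p (m + 1) 0 + (wgt p 1 1 - wgt p 0 2 + (wgt p 1 1 - wgt p 0 1)) =
        -δ4 := by
      simp only [wgt, e1, e2, hδ4]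
      field_simp
      ring
    rw [e]
    linarith

end Pool.Agent.Lib.MP_eb8f1d_pr
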