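import Pool.Agent.Lib.MP_eb8f1d_pr.Modify
import Pool.Agent.Lib.MP_eb8f1d_pr.Improve

set_option autoImplicit false

namespace Pool.Agent.Lib.MP_eb8f1d_pr

open Finset

/-- for large `n`, a colouring maximising `P(U ≤ k)`, `k < n p (1 - p)`, with value at least `1/2`,
has every colour on exactly one heads side and one tails side -/
theorem partI (p : ℝ) (h0 : 0 < p) (hp : p < 1 / 2) :
    ∃ N : ℕ, ∀ n ≥ N, ∀ (c : Coloring n) (k : ℕ), (k : ℝ) < n * (p * (1 - p)) →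
      (∀ c' : Coloring n, Pr p (fun ω => U c' ω ≤ k) ≤ Pr p (fun ω => U c ω ≤ k)) →
      1 / 2 ≤ Pr p (fun ω => U c ω ≤ k) → IsPerm c := by
  obtain ⟨δ, s, N1, hδ, h1⟩ := improve p h0 hp
  obtain ⟨N2, h2⟩ := mod_lemma p h0 hp s δ hδ
  refine ⟨max N1 N2, fun n hn c k hk hmax hhalf => ?_⟩
  by_contra hc
  obtain ⟨c', hd, hE⟩ := h1 n (le_trans (le_max_left _ _) hn) c hc
  exact absurd (h2 n (le_trans (le_max_right _ _) hn) c c' k hk hhalf hd hE)
    (not_lt.mpr (hmax c'))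

end Pool.Agent.Lib.MP_eb8f1d_pr
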