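import Pool.Agent.Lib.MP_eb8f1d_pr.Median
import Pool.Agent.Lib.MP_eb8f1d_pr.PartI
import Pool.Agent.Lib.MP_eb8f1d_pr.PermGF
import Pool.Agent.Lib.MP_eb8f1d_pr.CycOpt
import Pool.Agent.Lib.MP_eb8f1d_pr.Medians

set_option autoImplicit false

namespace Pool.Agent.Lib.MP_eb8f1d_pr

open Finset Polynomial

variable {n : ℕ}

/-! ### exchanging the sides -/

/-- exchange the two sides of every coin -/
def sideSwap (c : Coloring n) : Coloring n where
  h := c.t
  t := c.h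
  ne := fun i => (c.ne i).symm

theorem vis_swap (c : Coloring n) (ω : Fin n → Bool) (i : Fin n) :
    vis (sideSwap c) (fun i => !ω i) i = vis c ω i := by
  unfold vis sideSwap
  cases h : ω i <;> simp [h]

theorem U_swap (c : Coloring n) (ω : Fin n → Bool) :
    U (sideSwap c) (fun i => !ω i) = U c ω := by
  unfold U
  congr 1
  ext v
  simp only [Finset.mem_filter, Finset.mem_univ, true_and, Unseen, vis_swap]

theorem wt_not (p : ℝ) (ω : Fin n → Bool) : wt (1 - p) (fun i => !ω i) = wt p ω := by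
  unfold wt
  refine Finset.prod_congr rfl fun i _ => ?_
  cases h : ω i <;> simp [h]

theorem Pr_swap (p : ℝ) (c : Coloring n) (k : ℕ) :
    Pr (1 - p) (fun ω => U (sideSwap c) ω ≤ k) = Pr p (fun ω => U c ω ≤ k) := by
  classical
  rw [Pr_eq, Pr_eq]
  unfold Ex
  have hinv : Function.Involutive (fun ω : Fin n → Bool => fun i => !ω i) := fun ω => by
    funext i; simp
  refine (Fintype.sum_equiv hinv.toPerm _ _ fun ω => ?_).symm
  simp only [Function.Involutive.coe_toPerm, wt_not, U_swap]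

/-! ### a best colouring exists -/

theorem coloring_ext {c c' : Coloring n} (h1 : c.h = c'.h) (h2 : c.t = c'.t) : c = c' := by
  cases c; cases c'; cases h1; cases h2; rfl

instance : Finite (Coloring n) :=
  Finite.of_injective (fun c : Coloring n => (c.h, c.t)) fun c c' h =>
    coloring_ext (Prod.ext_iff.mp h).1 (Prod.ext_iff.mp h).2

theorem exists_best (p : ℝ) (c : Coloring n) (k : ℕ) :
    ∃ c₀ : Coloring n, ∀ c' : Coloring n,
      Pr p (fun ω => U c' ω ≤ k) ≤ Pr p (fun ω => U c₀ ω ≤ k) := by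
  have : Nonempty (Coloring n) := ⟨c⟩
  exact Finite.exists_max (fun c' : Coloring n => Pr p (fun ω => U c' ω ≤ k))

/-! ### optimality for large `n`, in terms of `U` -/

theorem even_lt (p : ℝ) (h0 : 0 < p) (hp : p < 1 / 2) :
    ∃ N : ℕ, ∀ n ≥ N, Even n → ∀ (c : Coloring n) (k : ℕ),
      1 / 2 ≤ Pr p (fun ω => U c ω ≤ k) →
      1 / 2 ≤ cum (gf (p * (1 - p)) (Multiset.replicate (n / 2) 2)) k := by
  have ha : 0 < p * (1 - p) := mul_pos h0 (by linarith)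
  have ha4 : 4 * (p * (1 - p)) < 1 := by nlinarith [sq_nonneg (1 - 2 * p), sq_pos_of_pos (show (0 : ℝ) < 1 - 2 * p by linarith)]
  obtain ⟨N1, H1⟩ := partI p h0 hp
  obtain ⟨N2, H2⟩ := cyc_opt_even (p * (1 - p)) ha ha4
  refine ⟨max N1 N2, fun n hn he c k hk => ?_⟩
  by_cases hc : (n : ℝ) * (p * (1 - p)) - 1 / 2 ≤ k
  · exact median_even _ ha ha4.le n he k hc
  · push Not at hc
    obtain ⟨c₀, hc₀⟩ := exists_best p c k
    have hhalf : 1 / 2 ≤ Pr p (fun ω => U c₀ ω ≤ k) := hk.trans (hc₀ c)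
    have hperm := H1 n ((le_max_left _ _).trans hn) c₀ k (by linarith) hc₀ hhalf
    obtain ⟨s, hs2, hsn, hs⟩ := Pr_isPerm p c₀ hperm
    rw [hs k] at hhalf
    exact hhalf.trans (H2 n ((le_max_right _ _).trans hn) he k hc.le s hs2 hsn)

theorem odd_lt (p : ℝ) (h0 : 0 < p) (hp : p < 1 / 2) :
    ∃ N : ℕ, ∀ n ≥ N, Odd n → ∀ (c : Coloring n) (k : ℕ),
      1 / 2 ≤ Pr p (fun ω => U c ω ≤ k) →
      1 / 2 ≤ cum (gf (p * (1 - p)) (3 ::ₘ Multiset.replicate ((n - 3) / 2) 2)) k ∨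
      1 / 2 ≤ cum (gf (p * (1 - p)) (5 ::ₘ Multiset.replicate ((n - 5) / 2) 2)) k := by
  have ha : 0 < p * (1 - p) := mul_pos h0 (by linarith)
  have ha4 : 4 * (p * (1 - p)) < 1 := by nlinarith [sq_nonneg (1 - 2 * p), sq_pos_of_pos (show (0 : ℝ) < 1 - 2 * p by linarith)]
  obtain ⟨N1, H1⟩ := partI p h0 hp
  obtain ⟨η, hη0, hη1, N2, H2⟩ := cyc_opt_odd (p * (1 - p)) ha ha4
  obtain ⟨N3, H3⟩ := median_odd (p * (1 - p)) ha ha4 η hη0
  refine ⟨max N1 (max N2 N3), fun n hn ho c k hk => ?_⟩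
  have hn1 : N1 ≤ n := (le_max_left _ _).trans hn
  have hn2 : N2 ≤ n := ((le_max_left _ _).trans (le_max_right _ _)).trans hn
  have hn3 : N3 ≤ n := ((le_max_right _ _).trans (le_max_right _ _)).trans hn
  by_cases hc : (n : ℝ) * (p * (1 - p)) - 1 / 2 + η ≤ k
  · exact Or.inl (H3 n hn3 ho k hc)
  · push Not at hc
    obtain ⟨c₀, hc₀⟩ := exists_best p c k
    have hhalf : 1 / 2 ≤ Pr p (fun ω => U c₀ ω ≤ k) := hk.trans (hc₀ c)
    have hperm := H1 n hn1 c₀ k (by linarith) hc₀ hhalf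
    obtain ⟨s, hs2, hsn, hs⟩ := Pr_isPerm p c₀ hperm
    rw [hs k] at hhalf
    exact le_max_iff.mp (hhalf.trans (H2 n hn2 ho k hc.le s hs2 hsn))

theorem even_opt (p : ℝ) (h0 : 0 < p) (h1 : p < 1) (hp : p ≠ 1 / 2) :
    ∃ N : ℕ, ∀ n ≥ N, Even n → ∀ (c : Coloring n) (k : ℕ),
      1 / 2 ≤ Pr p (fun ω => U c ω ≤ k) →
      1 / 2 ≤ cum (gf (p * (1 - p)) (Multiset.replicate (n / 2) 2)) k := by
  rcases lt_or_gt_of_ne hp with h | h
  · exact even_lt p h0 h
  · obtain ⟨N, hN⟩ := even_lt (1 - p) (by linarith) (by linarith)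
    refine ⟨N, fun n hn he c k hk => ?_⟩
    have := hN n hn he (sideSwap c) k (by rw [Pr_swap]; exact hk)
    rwa [show (1 - p) * (1 - (1 - p)) = p * (1 - p) by ring] at this

theorem odd_opt (p : ℝ) (h0 : 0 < p) (h1 : p < 1) (hp : p ≠ 1 / 2) :
    ∃ N : ℕ, ∀ n ≥ N, Odd n → ∀ (c : Coloring n) (k : ℕ),
      1 / 2 ≤ Pr p (fun ω => U c ω ≤ k) →
      1 / 2 ≤ cum (gf (p * (1 - p)) (3 ::ₘ Multiset.replicate ((n - 3) / 2) 2)) k ∨
      1 / 2 ≤ cum (gf (p * (1 - p)) (5 ::ₘ Multiset.replicate ((n - 5) / 2) 2)) k := by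
  rcases lt_or_gt_of_ne hp with h | h
  · exact odd_lt p h0 h
  · obtain ⟨N, hN⟩ := odd_lt (1 - p) (by linarith) (by linarith)
    refine ⟨N, fun n hn he c k hk => ?_⟩
    have := hN n hn he (sideSwap c) k (by rw [Pr_swap]; exact hk)
    rwa [show (1 - p) * (1 - (1 - p)) = p * (1 - p) by ring] at this

/-! ### medians -/

theorem Pr_false (p : ℝ) : Pr (ι := Fin n) p (fun _ => False) = 0 := by
  classical
  rw [Pr_eq]
  simp

theorem Pr_true (p : ℝ) : Pr (ι := Fin n) p (fun _ => True) = 1 := by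
  classical
  rw [Pr_eq]
  simp

theorem seen_le (c : Coloring n) (ω : Fin n → Bool) : seen c ω ≤ n := by
  have := seen_add_U c ω
  omega

theorem med_eq {p : ℝ} (h0 : 0 ≤ p) (h1 : p ≤ 1) (c : Coloring n) :
    med p c = n - sInf {k : ℕ | 1 / 2 ≤ Pr p (fun ω => U c ω ≤ k)} := by
  set K : Set ℕ := {k : ℕ | 1 / 2 ≤ Pr p (fun ω => U c ω ≤ k)} with hK
  have hn : n ∈ K := by
    have : Pr p (fun ω => U c ω ≤ n) = 1 := by
      rw [← Pr_true (n := n) p]
      refine Pr_congr fun ω => ?_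
      have := seen_add_U c ω
      simp; omega
    simp only [hK, Set.mem_ofPred_eq, this]
    norm_num
  have hk0 : sInf K ∈ K := Nat.sInf_mem ⟨n, hn⟩
  have hk0n : sInf K ≤ n := Nat.sInf_le hn
  have hmem : ∀ m : ℕ, 1 / 2 ≤ Pr p (fun ω => m ≤ seen c ω) ↔ m ≤ n - sInf K := by
    intro m
    by_cases hm : m ≤ n
    · have he : Pr p (fun ω => m ≤ seen c ω) = Pr p (fun ω => U c ω ≤ n - m) :=
        Pr_congr fun ω => by
          have := seen_add_U c ω
          omega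
      rw [he]
      constructor
      · intro h
        have : sInf K ≤ n - m := Nat.sInf_le h
        omega
      · intro h
        refine le_trans hk0 (Pr_mono h0 h1 fun ω hω => ?_)
        omega
    · constructor
      · intro h
        exfalso
        have : Pr p (fun ω => m ≤ seen c ω) = 0 := by
          rw [← Pr_false (n := n) p]
          refine Pr_congr fun ω => ?_
          have := seen_le c ω
          constructor
          · intro h'; omega
          · intro h'; exact h'.elim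
        rw [this] at h
        norm_num at h
      · intro h; omega
  unfold med
  have : {m : ℕ | 1 / 2 ≤ Pr p (fun ω => m ≤ seen c ω)} = Set.Iic (n - sInf K) := by
    ext m
    exact hmem m
  rw [this]
  exact csSup_Iic

theorem med_eq_of {p : ℝ} (h0 : 0 ≤ p) (h1 : p ≤ 1) (c : Coloring n) (F : ℕ → ℝ)
    (hF : ∀ k, Pr p (fun ω => U c ω ≤ k) = F k) : med p c = n - sInf {k : ℕ | 1 / 2 ≤ F k} := by
  rw [med_eq h0 h1]
  simp only [hF]

theorem med_le_of {p : ℝ} (h0 : 0 ≤ p) (h1 : p ≤ 1) (P : ℕ → Prop)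
    (hP : ∀ (c : Coloring n) (k : ℕ), 1 / 2 ≤ Pr p (fun ω => U c ω ≤ k) → P k) (c : Coloring n) :
    med p c ≤ n - sInf {k : ℕ | P k} := by
  rw [med_eq h0 h1]
  have hn : n ∈ {k : ℕ | 1 / 2 ≤ Pr p (fun ω => U c ω ≤ k)} := by
    have : Pr p (fun ω => U c ω ≤ n) = 1 := by
      rw [← Pr_true (n := n) p]
      refine Pr_congr fun ω => ?_
      have := seen_add_U c ω
      simp; omega
    simp only [Set.mem_ofPred_eq, this]
    norm_num
  have hk0 := Nat.sInf_mem ⟨n, hn⟩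
  have : sInf {k : ℕ | P k} ≤ sInf {k : ℕ | 1 / 2 ≤ Pr p (fun ω => U c ω ≤ k)} :=
    Nat.sInf_le (hP c _ hk0)
  omega

theorem M_eq_of_max {p : ℝ} (c₀ : Coloring n) (h : ∀ c : Coloring n, med p c ≤ med p c₀) :
    M n p = med p c₀ := by
  unfold M
  apply le_antisymm
  · exact csSup_le ⟨_, c₀, rfl⟩ (by rintro _ ⟨c, rfl⟩; exact h c)
  · exact le_csSup ⟨med p c₀, by rintro _ ⟨c, rfl⟩; exact h c⟩ ⟨c₀, rfl⟩

/-! ### explicit formulas -/

theorem cum_eq (F : ℝ[X]) (k : ℕ) : cum F k = ∑ j ∈ range (k + 1), F.coeff j := rfl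

theorem coeff_cyc2_pow (a : ℝ) (N j : ℕ) :
    ((C (1 - 2 * a) + C (2 * a) * X : ℝ[X]) ^ N).coeff j = bin N (2 * a) j := by
  rw [add_pow, Polynomial.finsetSum_coeff]
  have h : ∀ m ∈ range (N + 1), ((C (1 - 2 * a) ^ m * (C (2 * a) * X) ^ (N - m) *
      ((N.choose m : ℕ) : ℝ[X]) : ℝ[X])).coeff j =
      if j = N - m then (1 - 2 * a) ^ m * (2 * a) ^ (N - m) * (N.choose m : ℝ) else 0 := by
    intro m _
    have : (C (1 - 2 * a) ^ m * (C (2 * a) * X) ^ (N - m) * ((N.choose m : ℕ) : ℝ[X]) : ℝ[X]) =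
        C ((1 - 2 * a) ^ m * (2 * a) ^ (N - m) * (N.choose m : ℝ)) * X ^ (N - m) := by
      rw [mul_pow, ← C_pow, ← C_pow, C_mul, C_mul]
      have : ((N.choose m : ℕ) : ℝ[X]) = C (N.choose m : ℝ) := by simp
      rw [this]; ring
    rw [this, coeff_C_mul_X_pow]
  rw [Finset.sum_congr rfl h]
  unfold bin
  by_cases hj : j ≤ N
  · rw [Finset.sum_eq_single (N - j)]
    · rw [if_pos (by omega), show N - (N - j) = j by omega, Nat.choose_symm hj]
      ring
    · intro m hm hne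
      rw [if_neg]
      have := Finset.mem_range.mp hm
      omega
    · intro hm
      exact absurd (Finset.mem_range.mpr (by omega)) hm
  · rw [Finset.sum_eq_zero, Nat.choose_eq_zero_of_lt (by omega)]
    · simp
    · intro m hm
      rw [if_neg]
      omega

theorem cyc_two (a : ℝ) : cyc a 2 = C (1 - 2 * a) + C (2 * a) * X := by
  simp only [cyc, uu, C_sub, C_mul, C_1]
  have : (C 2 : ℝ[X]) = 2 := map_ofNat C 2
  rw [this]; ring

theorem cyc_three (a : ℝ) : cyc a 3 = C (1 - 3 * a) + C (3 * a) * X := by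
  simp only [cyc, uu, C_sub, C_mul, C_1]
  have : (C 3 : ℝ[X]) = 3 := map_ofNat C 3
  rw [this]; ring

theorem cyc_five (a : ℝ) : cyc a 5 = C (1 - 5 * a + 5 * a ^ 2) + C (5 * a - 10 * a ^ 2) * X +
    C (5 * a ^ 2) * X ^ 2 := by
  simp only [cyc, uu, C_sub, C_mul, C_1, C_add, C_pow]
  have h5 : (C 5 : ℝ[X]) = 5 := map_ofNat C 5
  have h10 : (C 10 : ℝ[X]) = 10 := map_ofNat C 10
  rw [h5, h10]; ring

theorem gf_pairs (a : ℝ) (N : ℕ) :
    gf a (Multiset.replicate N 2) = (C (1 - 2 * a) + C (2 * a) * X : ℝ[X]) ^ N := by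
  unfold gf
  rw [Multiset.map_replicate, Multiset.prod_replicate, cyc_two]

theorem gf_cons (a : ℝ) (L : ℕ) (s : Multiset ℕ) : gf a (L ::ₘ s) = cyc a L * gf a s := by
  unfold gf
  rw [Multiset.map_cons, Multiset.prod_cons]

theorem cum_pairs (a : ℝ) (N k : ℕ) :
    cum (gf a (Multiset.replicate N 2)) k = bcdf N (2 * a) (k + 1) := by
  unfold cum bcdf
  rw [gf_pairs]
  exact Finset.sum_congr rfl fun j _ => coeff_cyc2_pow a N j

theorem sum_coeff_X_mul (F : ℝ[X]) (k : ℕ) :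
    ∑ j ∈ range (k + 1), (X * F).coeff j = ∑ j ∈ range k, F.coeff j := by
  rw [Finset.sum_range_succ']
  simp [coeff_X_mul]

theorem cum_three (a : ℝ) (N k : ℕ) :
    cum (gf a (3 ::ₘ Multiset.replicate N 2)) k =
      (1 - 3 * a) * bcdf N (2 * a) (k + 1) + 3 * a * bcdf N (2 * a) k := by
  rw [gf_cons, gf_pairs, cyc_three]
  unfold cum bcdf
  set F : ℝ[X] := (C (1 - 2 * a) + C (2 * a) * X : ℝ[X]) ^ N with hF
  have h1 : (C (1 - 3 * a) + C (3 * a) * X) * F = C (1 - 3 * a) * F + C (3 * a) * (X * F) := by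
    ring
  rw [h1]
  simp only [coeff_add, coeff_C_mul, Finset.sum_add_distrib, ← Finset.mul_sum]
  rw [sum_coeff_X_mul]
  simp only [hF, coeff_cyc2_pow]

theorem cum_five (a : ℝ) (N k : ℕ) :
    cum (gf a (5 ::ₘ Multiset.replicate N 2)) k =
      (1 - 5 * a + 5 * a ^ 2) * bcdf N (2 * a) (k + 1) + (5 * a - 10 * a ^ 2) * bcdf N (2 * a) k
        + 5 * a ^ 2 * bcdf N (2 * a) (k - 1) := by
  rw [gf_cons, gf_pairs, cyc_five]
  unfold cum bcdf
  set F : ℝ[X] := (C (1 - 2 * a) + C (2 * a) * X : ℝ[X]) ^ N with hF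
  have h1 : (C (1 - 5 * a + 5 * a ^ 2) + C (5 * a - 10 * a ^ 2) * X + C (5 * a ^ 2) * X ^ 2) * F =
      C (1 - 5 * a + 5 * a ^ 2) * F + C (5 * a - 10 * a ^ 2) * (X * F) +
        C (5 * a ^ 2) * (X * (X * F)) := by
    ring
  rw [h1]
  simp only [coeff_add, coeff_C_mul, Finset.sum_add_distrib, ← Finset.mul_sum]
  rw [sum_coeff_X_mul, sum_coeff_X_mul]
  have h2 : ∑ j ∈ range k, (X * F).coeff j = ∑ j ∈ range (k - 1), F.coeff j := by
    rcases Nat.eq_zero_or_pos k with rfl | hk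
    · simp
    · obtain ⟨m, rfl⟩ := Nat.exists_eq_add_of_le' hk
      rw [sum_coeff_X_mul]; simp
  rw [h2]
  simp only [hF, coeff_cyc2_pow]

theorem no_fix_of_cycleType {σ : Equiv.Perm (Fin n)} (h : σ.cycleType.sum = n) (i : Fin n) :
    σ i ≠ i := by
  have h1 : σ.support.card = n := by rw [← Equiv.Perm.sum_cycleType]; exact h
  have h2 : σ.support = univ := by
    rw [← Finset.card_eq_iff_eq_univ, h1, Fintype.card_fin]
  have : i ∈ σ.support := by rw [h2]; exact Finset.mem_univ i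
  exact Equiv.Perm.mem_support.mp this

theorem exists_cycleType (s : Multiset ℕ) (hs : s.sum = n) (h2 : ∀ L ∈ s, 2 ≤ L) :
    ∃ σ : Equiv.Perm (Fin n), σ.cycleType = s :=
  (Equiv.Perm.exists_with_cycleType_iff (Fin n)).mpr ⟨by simp [hs], h2⟩

/-- main theorem, even case -/
theorem main_even (p : ℝ) (h0 : 0 < p) (h1 : p < 1) (hp : p ≠ 1 / 2) :
    ∃ N : ℕ, ∀ n ≥ N, Even n →
      M n p = n - sInf {k : ℕ | 1 / 2 ≤ F2 n (p * (1 - p)) k} ∧
      ∀ (σ : Equiv.Perm (Fin n)) (hσ : ∀ i, σ i ≠ i),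
        σ.cycleType = Multiset.replicate (n / 2) 2 → med p (ofPerm σ hσ) = M n p := by
  obtain ⟨N, hN⟩ := even_opt p h0 h1 hp
  refine ⟨N, fun n hn he => ?_⟩
  have key : ∀ (σ : Equiv.Perm (Fin n)) (hσ : ∀ i, σ i ≠ i),
      σ.cycleType = Multiset.replicate (n / 2) 2 →
      med p (ofPerm σ hσ) = n - sInf {k : ℕ | 1 / 2 ≤ F2 n (p * (1 - p)) k} := by
    intro σ hσ hc
    refine med_eq_of h0.le h1.le _ _ fun k => ?_
    rw [Pr_ofPerm, hc, cum_pairs]
    rfl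
  have hle : ∀ c : Coloring n, med p c ≤ n - sInf {k : ℕ | 1 / 2 ≤ F2 n (p * (1 - p)) k} := by
    refine med_le_of h0.le h1.le _ fun c k hk => ?_
    have := hN n hn he c k hk
    rw [cum_pairs] at this
    exact this
  have hsum : (Multiset.replicate (n / 2) 2).sum = n := by
    rw [Multiset.sum_replicate, smul_eq_mul]
    exact Nat.div_mul_cancel he.two_dvd
  obtain ⟨σ₀, hσ₀⟩ := exists_cycleType (n := n) (Multiset.replicate (n / 2) 2) hsum
    (fun L hL => by rw [Multiset.eq_of_mem_replicate hL])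
  have hfix : ∀ i, σ₀ i ≠ i := no_fix_of_cycleType (by rw [hσ₀, hsum])
  have hM : M n p = n - sInf {k : ℕ | 1 / 2 ≤ F2 n (p * (1 - p)) k} := by
    rw [← key σ₀ hfix hσ₀]
    refine M_eq_of_max _ fun c => ?_
    rw [key σ₀ hfix hσ₀]
    exact hle c
  exact ⟨hM, fun σ hσ hc => by rw [key σ hσ hc, hM]⟩

/-- main theorem, odd case -/
theorem main_odd (p : ℝ) (h0 : 0 < p) (h1 : p < 1) (hp : p ≠ 1 / 2) :
    ∃ N : ℕ, ∀ n ≥ N, Odd n →
      M n p = n - sInf {k : ℕ | 1 / 2 ≤ F3 n (p * (1 - p)) k ∨ 1 / 2 ≤ F5 n (p * (1 - p)) k} ∧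
      ∀ (σ τ : Equiv.Perm (Fin n)) (hσ : ∀ i, σ i ≠ i) (hτ : ∀ i, τ i ≠ i),
        σ.cycleType = 3 ::ₘ Multiset.replicate ((n - 3) / 2) 2 →
        τ.cycleType = 5 ::ₘ Multiset.replicate ((n - 5) / 2) 2 →
        M n p = max (med p (ofPerm σ hσ)) (med p (ofPerm τ hτ)) := by
  obtain ⟨N, hN⟩ := odd_opt p h0 h1 hp
  refine ⟨max N 5, fun n hn ho => ?_⟩
  have hnN : N ≤ n := (le_max_left _ _).trans hn
  have hn5 : 5 ≤ n := (le_max_right _ _).trans hn
  have key3 : ∀ (σ : Equiv.Perm (Fin n)) (hσ : ∀ i, σ i ≠ i),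
      σ.cycleType = 3 ::ₘ Multiset.replicate ((n - 3) / 2) 2 →
      ∀ k, Pr p (fun ω => U (ofPerm σ hσ) ω ≤ k) = F3 n (p * (1 - p)) k := by
    intro σ hσ hc k
    rw [Pr_ofPerm, hc, cum_three]
    rfl
  have key5 : ∀ (σ : Equiv.Perm (Fin n)) (hσ : ∀ i, σ i ≠ i),
      σ.cycleType = 5 ::ₘ Multiset.replicate ((n - 5) / 2) 2 →
      ∀ k, Pr p (fun ω => U (ofPerm σ hσ) ω ≤ k) = F5 n (p * (1 - p)) k := by
    intro σ hσ hc k
    rw [Pr_ofPerm, hc, cum_five]
    rfl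
  have hle : ∀ c : Coloring n, med p c ≤
      n - sInf {k : ℕ | 1 / 2 ≤ F3 n (p * (1 - p)) k ∨ 1 / 2 ≤ F5 n (p * (1 - p)) k} := by
    refine med_le_of h0.le h1.le _ fun c k hk => ?_
    have := hN n hnN ho c k hk
    rw [cum_three, cum_five] at this
    exact this
  obtain ⟨m, hm⟩ := ho
  have hs3 : (3 ::ₘ Multiset.replicate ((n - 3) / 2) 2).sum = n := by
    rw [Multiset.sum_cons, Multiset.sum_replicate, smul_eq_mul]
    omega
  have hs5 : (5 ::ₘ Multiset.replicate ((n - 5) / 2) 2).sum = n := by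
    rw [Multiset.sum_cons, Multiset.sum_replicate, smul_eq_mul]
    omega
  have hall : ∀ (σ τ : Equiv.Perm (Fin n)) (hσ : ∀ i, σ i ≠ i) (hτ : ∀ i, τ i ≠ i),
        σ.cycleType = 3 ::ₘ Multiset.replicate ((n - 3) / 2) 2 →
        τ.cycleType = 5 ::ₘ Multiset.replicate ((n - 5) / 2) 2 →
        max (med p (ofPerm σ hσ)) (med p (ofPerm τ hτ)) =
        n - sInf {k : ℕ | 1 / 2 ≤ F3 n (p * (1 - p)) k ∨ 1 / 2 ≤ F5 n (p * (1 - p)) k} := by
    intro σ τ hσ hτ hc3 hc5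
    apply le_antisymm (max_le (hle _) (hle _))
    rw [med_eq_of h0.le h1.le _ _ (key3 σ hσ hc3), med_eq_of h0.le h1.le _ _ (key5 τ hτ hc5)]
    have hne : {k : ℕ | 1 / 2 ≤ F3 n (p * (1 - p)) k ∨ 1 / 2 ≤ F5 n (p * (1 - p)) k}.Nonempty := by
      refine ⟨n, Or.inl ?_⟩
      rw [← key3 σ hσ hc3]
      have : Pr p (fun ω => U (ofPerm σ hσ) ω ≤ n) = 1 := by
        rw [← Pr_true (n := n) p]
        refine Pr_congr fun ω => ?_
        have := seen_add_U (ofPerm σ hσ) ω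
        simp; omega
      rw [this]; norm_num
    have hmem := Nat.sInf_mem hne
    rcases hmem with h | h
    · refine le_trans ?_ (le_max_left _ _)
      have := Nat.sInf_le (s := {k : ℕ | 1 / 2 ≤ F3 n (p * (1 - p)) k}) h
      omega
    · refine le_trans ?_ (le_max_right _ _)
      have := Nat.sInf_le (s := {k : ℕ | 1 / 2 ≤ F5 n (p * (1 - p)) k}) h
      omega
  have h2of : ∀ (x N' : ℕ), 2 ≤ x → ∀ L ∈ (x ::ₘ Multiset.replicate N' 2), 2 ≤ L := by
    intro x N' hx L hL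
    rcases Multiset.mem_cons.mp hL with rfl | h
    · exact hx
    · rw [Multiset.eq_of_mem_replicate h]
  obtain ⟨σ₀, hσ₀⟩ := exists_cycleType (n := n) _ hs3 (h2of 3 _ (by norm_num))
  obtain ⟨τ₀, hτ₀⟩ := exists_cycleType (n := n) _ hs5 (h2of 5 _ (by norm_num))
  have hf3 : ∀ i, σ₀ i ≠ i := no_fix_of_cycleType (by rw [hσ₀, hs3])
  have hf5 : ∀ i, τ₀ i ≠ i := no_fix_of_cycleType (by rw [hτ₀, hs5])
  have hmax := hall σ₀ τ₀ hf3 hf5 hσ₀ hτ₀
  have hM : M n p =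
      n - sInf {k : ℕ | 1 / 2 ≤ F3 n (p * (1 - p)) k ∨ 1 / 2 ≤ F5 n (p * (1 - p)) k} := by
    rcases max_cases (med p (ofPerm σ₀ hf3)) (med p (ofPerm τ₀ hf5)) with h | h
    · rw [← hmax, h.1]
      refine M_eq_of_max _ fun c => ?_
      rw [← h.1, hmax]
      exact hle c
    · rw [← hmax, h.1]
      refine M_eq_of_max _ fun c => ?_
      rw [← h.1, hmax]
      exact hle c
  exact ⟨hM, fun σ τ hσ hτ hc3 hc5 => by rw [hall σ τ hσ hτ hc3 hc5, hM]⟩

end Pool.Agent.Lib.MP_eb8f1d_pr
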