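import Pool.Agent.Lib.MP_eb8f1d_pr.Basic

/-! Module EB-C: bounded differences inequality for independent biased coins. -/

set_option autoImplicit false

namespace Pool.Agent.Lib.MP_eb8f1d_pr

open Finset

variable {n : ℕ}

theorem ebc_exp_le (x : ℝ) : Real.exp x ≤ x + Real.exp (x ^ 2) := by
  by_cases h : |x| ≤ 1
  · have h1 := Real.abs_exp_sub_one_sub_id_le h
    have h2 := Real.add_one_le_exp (x ^ 2)
    have h3 := le_abs_self (Real.exp x - 1 - x)
    linarith
  · push Not at h
    rcases lt_or_ge x 0 with hx | hx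
    · rw [abs_of_neg hx] at h
      have h1 : Real.exp x ≤ 1 := Real.exp_le_one_iff.2 hx.le
      have h2 := Real.add_one_le_exp (x ^ 2)
      nlinarith
    · rw [abs_of_nonneg hx] at h
      have h1 : Real.exp x ≤ Real.exp (x ^ 2) := by
        apply Real.exp_le_exp.2
        nlinarith
      linarith

theorem ebc_two_point {p x y s : ℝ} (h0 : 0 ≤ p) (h1 : p ≤ 1) (hxy : p * x + (1 - p) * y = 0)
    (hx : x ^ 2 ≤ s ^ 2) (hy : y ^ 2 ≤ s ^ 2) :
    p * Real.exp x + (1 - p) * Real.exp y ≤ Real.exp (s ^ 2) := by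
  have hx1 := ebc_exp_le x
  have hy1 := ebc_exp_le y
  have hx2 : Real.exp (x ^ 2) ≤ Real.exp (s ^ 2) := Real.exp_le_exp.2 hx
  have hy2 : Real.exp (y ^ 2) ≤ Real.exp (s ^ 2) := Real.exp_le_exp.2 hy
  have hq : 0 ≤ 1 - p := by linarith
  calc p * Real.exp x + (1 - p) * Real.exp y
      ≤ p * (x + Real.exp (s ^ 2)) + (1 - p) * (y + Real.exp (s ^ 2)) :=
        add_le_add (mul_le_mul_of_nonneg_left (by linarith) h0)
          (mul_le_mul_of_nonneg_left (by linarith) hq)
    _ = Real.exp (s ^ 2) := by linear_combination hxy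

theorem ebc_Ex_succ (p : ℝ) (f : (Fin (n + 1) → Bool) → ℝ) :
    Ex p f = p * Ex p (fun w : Fin n → Bool => f (Fin.cons true w)) +
      (1 - p) * Ex p (fun w : Fin n → Bool => f (Fin.cons false w)) := by
  unfold Ex
  rw [← (Fin.consEquiv (fun _ : Fin (n + 1) => Bool)).sum_comp, Fintype.sum_prod_type]
  simp only [Fintype.sum_bool]
  rw [Finset.mul_sum, Finset.mul_sum]
  congr 1
  · refine Finset.sum_congr rfl (fun w _ => ?_)
    have e : wt p ((Fin.consEquiv (fun _ : Fin (n + 1) => Bool)) (true, w)) = p * wt p w := by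
      unfold wt
      rw [Fin.prod_univ_succ]
      simp [Fin.consEquiv]
    rw [e]
    simp only [Fin.consEquiv, Equiv.coe_fn_mk]
    ring
  · refine Finset.sum_congr rfl (fun w _ => ?_)
    have e : wt p ((Fin.consEquiv (fun _ : Fin (n + 1) => Bool)) (false, w)) = (1 - p) * wt p w := by
      unfold wt
      rw [Fin.prod_univ_succ]
      simp [Fin.consEquiv]
    rw [e]
    simp only [Fin.consEquiv, Equiv.coe_fn_mk]
    ring

theorem ebc_cons_flp (b : Bool) (w : Fin n → Bool) (i : Fin n) :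
    (Fin.cons b (flp i w) : Fin (n + 1) → Bool) = flp i.succ (Fin.cons b w) := by
  unfold flp
  funext j
  refine Fin.cases ?_ (fun j => ?_) j
  · rw [Function.update_of_ne (Fin.succ_ne_zero i).symm]
    simp
  · by_cases h : j = i
    · subst h
      simp
    · rw [Function.update_of_ne (by simpa using h)]
      simp [Function.update_of_ne h]

theorem ebc_cons_flp_zero (w : Fin n → Bool) :
    (Fin.cons true w : Fin (n + 1) → Bool) = flp 0 (Fin.cons false w) := by
  unfold flp
  funext j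
  refine Fin.cases ?_ (fun j => ?_) j
  · simp
  · simp

theorem ebc_mgf {p : ℝ} (h0 : 0 ≤ p) (h1 : p ≤ 1) (D : ℝ) (hD : 0 ≤ D) (l : ℝ) (n : ℕ) :
    ∀ f : (Fin n → Bool) → ℝ, (∀ i ω, |f (flp i ω) - f ω| ≤ D) →
    Ex p (fun ω => Real.exp (l * (f ω - Ex p f))) ≤ Real.exp (l ^ 2 * D ^ 2 * n) := by
  induction n with
  | zero =>
    intro f _
    have h2 : ∀ ω : Fin 0 → Bool, f ω = f (fun _ => true) := fun ω => by
      congr 1
      exact Subsingleton.elim _ _
    have h3 : Ex p f = f (fun _ => true) := by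
      rw [Ex_congr h2, Ex_const]
    have h4 : Ex p (fun ω => Real.exp (l * (f ω - Ex p f))) = 1 := by
      rw [Ex_congr (g := fun _ => (1 : ℝ)) (fun ω => by rw [h3, h2 ω]; simp), Ex_const]
    rw [h4]
    simp
  | succ n ih =>
    intro f hf
    set fT : (Fin n → Bool) → ℝ := fun w => f (Fin.cons true w) with hfT
    set fF : (Fin n → Bool) → ℝ := fun w => f (Fin.cons false w) with hfF
    have hTD : ∀ i ω, |fT (flp i ω) - fT ω| ≤ D := by
      intro i ω
      simp only [hfT]
      rw [ebc_cons_flp]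
      exact hf i.succ _
    have hFD : ∀ i ω, |fF (flp i ω) - fF ω| ≤ D := by
      intro i ω
      simp only [hfF]
      rw [ebc_cons_flp]
      exact hf i.succ _
    set A := Ex p fT with hA
    set B := Ex p fF with hB
    have hm : Ex p f = p * A + (1 - p) * B := ebc_Ex_succ p f
    have hAB : |A - B| ≤ D := by
      have e1 : A - B = Ex p (fun w => fT w - fF w) := by rw [Ex_sub]
      have e2 : ∀ w, |fT w - fF w| ≤ D := by
        intro w
        have := hf 0 (Fin.cons false w)
        rw [← ebc_cons_flp_zero] at this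
        exact this
      rw [e1, abs_le]
      constructor
      · rw [← Ex_const (ι := Fin n) p (-D)]
        exact Ex_mono h0 h1 (fun w => (abs_le.1 (e2 w)).1)
      · rw [← Ex_const (ι := Fin n) p D]
        exact Ex_mono h0 h1 (fun w => (abs_le.1 (e2 w)).2)
    have hq : 0 ≤ 1 - p := by linarith
    have hsplit : Ex p (fun ω => Real.exp (l * (f ω - Ex p f))) =
        p * (Real.exp (l * (A - (p * A + (1 - p) * B))) *
          Ex p (fun w => Real.exp (l * (fT w - A)))) +
        (1 - p) * (Real.exp (l * (B - (p * A + (1 - p) * B))) *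
          Ex p (fun w => Real.exp (l * (fF w - B)))) := by
      rw [ebc_Ex_succ, hm]
      have e1 : Ex p (fun w : Fin n → Bool =>
          Real.exp (l * (f (Fin.cons true w) - (p * A + (1 - p) * B)))) =
          Real.exp (l * (A - (p * A + (1 - p) * B))) *
            Ex p (fun w => Real.exp (l * (fT w - A))) := by
        refine Eq.trans (Ex_congr (g := fun w => Real.exp (l * (A - (p * A + (1 - p) * B))) *
          Real.exp (l * (fT w - A))) (fun w => ?_)) (Ex_const_mul _ _ _)
        rw [← Real.exp_add]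
        congr 1
        simp only [hfT]
        ring
      have e2 : Ex p (fun w : Fin n → Bool =>
          Real.exp (l * (f (Fin.cons false w) - (p * A + (1 - p) * B)))) =
          Real.exp (l * (B - (p * A + (1 - p) * B))) *
            Ex p (fun w => Real.exp (l * (fF w - B))) := by
        refine Eq.trans (Ex_congr (g := fun w => Real.exp (l * (B - (p * A + (1 - p) * B))) *
          Real.exp (l * (fF w - B))) (fun w => ?_)) (Ex_const_mul _ _ _)
        rw [← Real.exp_add]
        congr 1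
        simp only [hfF]
        ring
      rw [e1, e2]
    have hsq : (A - B) ^ 2 ≤ D ^ 2 := by
      rw [← sq_abs (A - B)]
      exact pow_le_pow_left₀ (abs_nonneg _) hAB 2
    have htp : p * Real.exp (l * (A - (p * A + (1 - p) * B))) +
        (1 - p) * Real.exp (l * (B - (p * A + (1 - p) * B))) ≤ Real.exp ((l * D) ^ 2) := by
      apply ebc_two_point h0 h1
      · ring
      · have e : (l * (A - (p * A + (1 - p) * B))) ^ 2 =
            (1 - p) ^ 2 * (l ^ 2 * (A - B) ^ 2) := by ring
        rw [e, mul_pow]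
        have h5 : (1 - p) ^ 2 ≤ 1 := by nlinarith
        have h6 : l ^ 2 * (A - B) ^ 2 ≤ l ^ 2 * D ^ 2 :=
          mul_le_mul_of_nonneg_left hsq (sq_nonneg l)
        have h7 : 0 ≤ l ^ 2 * (A - B) ^ 2 := by positivity
        nlinarith
      · have e : (l * (B - (p * A + (1 - p) * B))) ^ 2 =
            p ^ 2 * (l ^ 2 * (A - B) ^ 2) := by ring
        rw [e, mul_pow]
        have h5 : p ^ 2 ≤ 1 := by nlinarith
        have h6 : l ^ 2 * (A - B) ^ 2 ≤ l ^ 2 * D ^ 2 :=
          mul_le_mul_of_nonneg_left hsq (sq_nonneg l)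
        have h7 : 0 ≤ l ^ 2 * (A - B) ^ 2 := by positivity
        nlinarith
    rw [hsplit]
    have hE : 0 < Real.exp (l ^ 2 * D ^ 2 * n) := Real.exp_pos _
    calc p * (Real.exp (l * (A - (p * A + (1 - p) * B))) *
          Ex p (fun w => Real.exp (l * (fT w - A)))) +
        (1 - p) * (Real.exp (l * (B - (p * A + (1 - p) * B))) *
          Ex p (fun w => Real.exp (l * (fF w - B))))
        ≤ p * (Real.exp (l * (A - (p * A + (1 - p) * B))) * Real.exp (l ^ 2 * D ^ 2 * n)) +
        (1 - p) * (Real.exp (l * (B - (p * A + (1 - p) * B))) *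
          Real.exp (l ^ 2 * D ^ 2 * n)) :=
          add_le_add
            (mul_le_mul_of_nonneg_left
              (mul_le_mul_of_nonneg_left (ih fT hTD) (Real.exp_pos _).le) h0)
            (mul_le_mul_of_nonneg_left
              (mul_le_mul_of_nonneg_left (ih fF hFD) (Real.exp_pos _).le) hq)
      _ = Real.exp (l ^ 2 * D ^ 2 * n) * (p * Real.exp (l * (A - (p * A + (1 - p) * B))) +
        (1 - p) * Real.exp (l * (B - (p * A + (1 - p) * B)))) := by ring
      _ ≤ Real.exp (l ^ 2 * D ^ 2 * n) * Real.exp ((l * D) ^ 2) :=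
          mul_le_mul_of_nonneg_left htp hE.le
      _ = Real.exp (l ^ 2 * D ^ 2 * ((n + 1 : ℕ) : ℝ)) := by
          rw [← Real.exp_add]
          congr 1
          push_cast
          ring

/-- one-sided bound -/
theorem ebc_one_sided {p : ℝ} (h0 : 0 ≤ p) (h1 : p ≤ 1) (f : (Fin n → Bool) → ℝ) (D : ℝ)
    (hD : 0 < D) (hf : ∀ i ω, |f (flp i ω) - f ω| ≤ D) (τ : ℝ) (hτ : 0 ≤ τ) :
    Pr p (fun ω => τ * n ≤ f ω - Ex p f) ≤ Real.exp (-(τ ^ 2 * n / (4 * D ^ 2))) := by
  classical
  have hl0 : 0 ≤ τ / (2 * D ^ 2) := by positivity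
  have hmgf := ebc_mgf h0 h1 D hD.le (τ / (2 * D ^ 2)) n f hf
  have h2 : Pr p (fun ω => τ * n ≤ f ω - Ex p f) ≤
      Real.exp (-(τ / (2 * D ^ 2) * (τ * n))) *
        Ex p (fun ω => Real.exp (τ / (2 * D ^ 2) * (f ω - Ex p f))) := by
    rw [← Ex_const_mul, Pr]
    refine Ex_mono h0 h1 (fun ω => ?_)
    split_ifs with h
    · rw [← Real.exp_add, Real.one_le_exp_iff]
      have := mul_le_mul_of_nonneg_left h hl0
      linarith
    · positivity
  refine le_trans h2 ?_
  calc Real.exp (-(τ / (2 * D ^ 2) * (τ * n))) *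
        Ex p (fun ω => Real.exp (τ / (2 * D ^ 2) * (f ω - Ex p f)))
      ≤ Real.exp (-(τ / (2 * D ^ 2) * (τ * n))) *
        Real.exp ((τ / (2 * D ^ 2)) ^ 2 * D ^ 2 * n) :=
        mul_le_mul_of_nonneg_left hmgf (Real.exp_pos _).le
    _ = Real.exp (-(τ ^ 2 * n / (4 * D ^ 2))) := by
        rw [← Real.exp_add]
        congr 1
        field_simp
        ring

theorem mcdiarmid {p : ℝ} (h0 : 0 ≤ p) (h1 : p ≤ 1) (f : (Fin n → Bool) → ℝ) (D : ℝ)
    (hD : 0 < D) (hf : ∀ i ω, |f (flp i ω) - f ω| ≤ D) (τ : ℝ) (hτ : 0 ≤ τ) :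
    Pr p (fun ω => τ * n ≤ |f ω - Ex p f|) ≤ 2 * Real.exp (-(τ ^ 2 * n / (4 * D ^ 2))) := by
  have hA := ebc_one_sided h0 h1 f D hD hf τ hτ
  have hf' : ∀ i ω, |(fun ω => -f ω) (flp i ω) - (fun ω => -f ω) ω| ≤ D := by
    intro i ω
    have := hf i ω
    simp only
    rw [show -f (flp i ω) - -f ω = -(f (flp i ω) - f ω) by ring, abs_neg]
    exact this
  have hB := ebc_one_sided h0 h1 (fun ω => -f ω) D hD hf' τ hτ
  have hE : Ex p (fun ω => -f ω) = -Ex p f := by
    have := Ex_const_mul p (-1) f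
    simpa using this
  rw [hE] at hB
  have hC : Pr p (fun ω => τ * n ≤ |f ω - Ex p f|) ≤
      Pr p (fun ω => τ * n ≤ f ω - Ex p f ∨ τ * n ≤ -f ω - -Ex p f) := by
    refine Pr_mono h0 h1 (fun ω h => ?_)
    rcases le_abs.1 h with h | h
    · exact Or.inl h
    · right
      linarith
  have hD' := Pr_or_le h0 h1 (fun ω => τ * n ≤ f ω - Ex p f)
    (fun ω => τ * n ≤ -f ω - -Ex p f)
  linarith

end Pool.Agent.Lib.MP_eb8f1d_pr
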