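import Pool.Agent.Lib.MP_eb8f1d_pr.Switching
import Pool.Agent.Lib.MP_eb8f1d_pr.McDiarmid

set_option autoImplicit false

namespace Pool.Agent.Lib.MP_eb8f1d_pr

open Finset

variable {n : ℕ}

/-- both colours of coin `e` are on exactly one heads side and one tails side -/
def Good (c : Coloring n) (e : Fin n) : Prop :=
  (da c (c.h e) = 1 ∧ db c (c.h e) = 1) ∧ (da c (c.t e) = 1 ∧ db c (c.t e) = 1)

/-- every coin `i` with tails colour `h e`, or with heads colour `t e`, shows heads -/
def act (c : Coloring n) (e : Fin n) (ω : Fin n → Bool) : Prop :=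
  (∀ i, c.t i = c.h e → ω i = true) ∧ (∀ i, c.h i = c.t e → ω i = true)

theorem card_map_bad (f : Fin n → Fin n) (P : Fin n → Prop) [DecidablePred P]
    (hP : ∀ v, P v → (univ.filter (fun i => f i = v)).card = 1) :
    (univ.filter (fun e => ¬ P (f e))).card = (univ.filter (fun v => ¬ P v)).card := by
  classical
  have h1 : (univ.filter (fun e => P (f e))).card = (univ.filter (fun v => P v)).card := by
    rw [Finset.card_eq_sum_card_fiberwise (f := f) (t := univ.filter (fun v => P v))
      (fun e he => by simpa using he)]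
    rw [Finset.card_eq_sum_ones (univ.filter (fun v => P v))]
    refine Finset.sum_congr rfl fun v hv => ?_
    have hv' : P v := (Finset.mem_filter.mp hv).2
    rw [← hP v hv']
    congr 1
    ext e
    simp only [Finset.mem_filter, Finset.mem_univ, true_and]
    constructor
    · rintro ⟨-, h⟩; exact h
    · intro h; exact ⟨h ▸ hv', h⟩
  have h2 := Finset.card_filter_add_card_filter_not (s := (univ : Finset (Fin n)))
    (fun e => P (f e))
  have h3 := Finset.card_filter_add_card_filter_not (s := (univ : Finset (Fin n)))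
    (fun v => P v)
  omega

theorem card_not_good (c : Coloring n) [DecidablePred (Good c)] :
    (univ.filter (fun e => ¬ Good c e)).card ≤
      2 * (univ.filter (fun v => ¬ (da c v = 1 ∧ db c v = 1))).card := by
  classical
  have h1 := card_map_bad c.h (fun v => da c v = 1 ∧ db c v = 1) (fun v hv => hv.1)
  have h2 := card_map_bad c.t (fun v => da c v = 1 ∧ db c v = 1) (fun v hv => hv.2)
  have h3 : univ.filter (fun e => ¬ Good c e) ⊆
      univ.filter (fun e => ¬ (da c (c.h e) = 1 ∧ db c (c.h e) = 1)) ∪
        univ.filter (fun e => ¬ (da c (c.t e) = 1 ∧ db c (c.t e) = 1)) := by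
    intro e he
    simp only [Finset.mem_filter, Finset.mem_univ, true_and, Finset.mem_union] at he ⊢
    unfold Good at he
    exact not_and_or.mp he
  have h4 := (Finset.card_le_card h3).trans (Finset.card_union_le _ _)
  omega

theorem act_flp (c : Coloring n) (e : Fin n) (ω : Fin n → Bool) :
    act c e (flp e ω) ↔ act c e ω := by
  unfold act
  constructor
  · rintro ⟨h1, h2⟩
    refine ⟨fun i hi => ?_, fun i hi => ?_⟩
    · have hne : i ≠ e := by
        rintro rfl
        exact c.ne i hi.symm
      rw [← flp_ne hne ω]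
      exact h1 i hi
    · have hne : i ≠ e := by
        rintro rfl
        exact c.ne i hi
      rw [← flp_ne hne ω]
      exact h2 i hi
  · rintro ⟨h1, h2⟩
    refine ⟨fun i hi => ?_, fun i hi => ?_⟩
    · have hne : i ≠ e := by
        rintro rfl
        exact c.ne i hi.symm
      rw [flp_ne hne ω]
      exact h1 i hi
    · have hne : i ≠ e := by
        rintro rfl
        exact c.ne i hi
      rw [flp_ne hne ω]
      exact h2 i hi

theorem unseen_flp_of_ne (c : Coloring n) (ω : Fin n → Bool) (e v : Fin n)
    (h1 : v ≠ c.h e) (h2 : v ≠ c.t e) : Unseen c (flp e ω) v ↔ Unseen c ω v := by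
  unfold Unseen vis
  refine forall_congr' fun i => ?_
  by_cases h : i = e
  · subst h
    cases h3 : ω i <;> simp [h3, h1.symm, h2.symm]
  · rw [flp_ne h]

theorem eq_of_da (c : Coloring n) (x y : Fin n) (h : da c (c.h x) = 1) (hxy : c.h y = c.h x) :
    y = x := by
  unfold da at h
  obtain ⟨z, hz⟩ := Finset.card_eq_one.mp h
  have hx' : x ∈ univ.filter (fun i => c.h i = c.h x) := by simp
  have hy' : y ∈ univ.filter (fun i => c.h i = c.h x) := by simp [hxy]
  rw [hz, Finset.mem_singleton] at hx' hy'
  rw [hx', hy']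

theorem eq_of_db (c : Coloring n) (x y : Fin n) (h : db c (c.t x) = 1) (hxy : c.t y = c.t x) :
    y = x := by
  unfold db at h
  obtain ⟨z, hz⟩ := Finset.card_eq_one.mp h
  have hx' : x ∈ univ.filter (fun i => c.t i = c.t x) := by simp
  have hy' : y ∈ univ.filter (fun i => c.t i = c.t x) := by simp [hxy]
  rw [hz, Finset.mem_singleton] at hx' hy'
  rw [hx', hy']

theorem U_flp_of_act (c : Coloring n) (e : Fin n) (he : Good c e) (ω : Fin n → Bool)
    (ha : act c e ω) (hω : ω e = true) : U c (flp e ω) = U c ω + 1 := by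
  classical
  have hflp : flp e ω e = false := by simp [hω]
  -- `h e` becomes unseen
  have h1 : Unseen c (flp e ω) (c.h e) := by
    intro i
    unfold vis
    by_cases hi : i = e
    · subst hi
      rw [hflp]
      simpa using (c.ne i).symm
    · rw [flp_ne hi]
      by_cases hωi : ω i = true
      · rw [if_pos hωi]
        intro h
        exact hi (eq_of_da c e i he.1.1 h)
      · rw [if_neg hωi]
        intro h
        exact hωi (ha.1 i h)
  have h2 : ¬ Unseen c ω (c.h e) := by
    intro h
    exact h e (by unfold vis; rw [if_pos hω])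
  have h3 : ¬ Unseen c (flp e ω) (c.t e) := by
    intro h
    exact h e (by unfold vis; rw [hflp]; simp)
  have h4 : ¬ Unseen c ω (c.t e) := by
    have h5 : da c (c.t e) = 1 := he.2.1
    unfold da at h5
    obtain ⟨z, hz⟩ := Finset.card_eq_one.mp h5
    have hz' : z ∈ univ.filter (fun i => c.h i = c.t e) := by rw [hz]; simp
    have hz2 : c.h z = c.t e := (Finset.mem_filter.mp hz').2
    intro h
    exact h z (by unfold vis; rw [if_pos (ha.2 z hz2)]; exact hz2)
  have hins : univ.filter (Unseen c (flp e ω)) = insert (c.h e) (univ.filter (Unseen c ω)) := by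
    ext v
    simp only [Finset.mem_filter, Finset.mem_univ, true_and, Finset.mem_insert]
    by_cases hv1 : v = c.h e
    · subst hv1
      simp [h1]
    · by_cases hv2 : v = c.t e
      · subst hv2
        constructor
        · intro h; exact absurd h h3
        · rintro (h | h)
          · exact absurd h hv1
          · exact absurd h h4
      · rw [unseen_flp_of_ne c ω e v hv1 hv2]
        simp [hv1]
  unfold U
  rw [hins, Finset.card_insert_of_notMem (by simp [h2])]

/-- probability that all coins of a set show heads -/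
theorem Pr_forall (p : ℝ) (S : Finset (Fin n)) :
    Pr p (fun ω => ∀ i ∈ S, ω i = true) = p ^ S.card := by
  classical
  have h1 : Pr p (fun ω : Fin n → Bool => ∀ i ∈ S, ω i = true) =
      Ex p (fun ω => ∏ i, (if i ∈ S then (if ω i = true then (1 : ℝ) else 0) else 1)) := by
    rw [Pr_eq]
    refine Ex_congr fun ω => ?_
    by_cases h : ∀ i ∈ S, ω i = true
    · rw [if_pos h]
      symm
      refine Finset.prod_eq_one fun i _ => ?_
      by_cases hi : i ∈ S
      · simp [hi, h i hi]
      · simp [hi]
    · rw [if_neg h]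
      push Not at h
      obtain ⟨i, hi, hω⟩ := h
      symm
      refine Finset.prod_eq_zero (Finset.mem_univ i) ?_
      rw [if_pos hi, if_neg hω]
  rw [h1, Ex_prod p (fun i b => if i ∈ S then (if b = true then (1 : ℝ) else 0) else 1)]
  have h2 : ∀ i : Fin n, (p * (if i ∈ S then (if true = true then (1 : ℝ) else 0) else 1) +
      (1 - p) * (if i ∈ S then (if false = true then (1 : ℝ) else 0) else 1)) =
      if i ∈ S then p else 1 := by
    intro i
    by_cases hi : i ∈ S <;> simp [hi]
  rw [Finset.prod_congr rfl (fun i _ => h2 i)]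
  rw [Finset.prod_ite_mem, Finset.univ_inter, Finset.prod_const]

theorem Pr_act {p : ℝ} (h0 : 0 < p) (h1 : p < 1) (c : Coloring n) (e : Fin n)
    (he : Good c e) : p ^ 2 ≤ Pr p (act c e) := by
  classical
  set S1 := univ.filter (fun i => c.t i = c.h e) with hS1
  set S2 := univ.filter (fun i => c.h i = c.t e) with hS2
  have hc1 : S1.card = 1 := he.1.2
  have hc2 : S2.card = 1 := he.2.1
  have hc : (S1 ∪ S2).card ≤ 2 := by
    have := Finset.card_union_le S1 S2
    omega
  have h3 : Pr p (act c e) = Pr p (fun ω => ∀ i ∈ S1 ∪ S2, ω i = true) := by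
    refine Pr_congr fun ω => ?_
    unfold act
    simp only [hS1, hS2, Finset.mem_union, Finset.mem_filter, Finset.mem_univ, true_and]
    constructor
    · rintro ⟨h1, h2⟩ i (hi | hi)
      · exact h1 i hi
      · exact h2 i hi
    · intro h
      exact ⟨fun i hi => h i (Or.inl hi), fun i hi => h i (Or.inr hi)⟩
  rw [h3, Pr_forall]
  exact pow_le_pow_of_le_one h0.le h1.le hc

theorem Ex_act_true (p : ℝ) (c : Coloring n) (e : Fin n) [DecidablePred (act c e)] :
    Ex p (fun ω => if act c e ω ∧ ω e = true then (1 : ℝ) else 0) = p * Pr p (act c e) ∧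
    Ex p (fun ω => if act c e ω ∧ ω e = false then (1 : ℝ) else 0) =
      (1 - p) * Pr p (act c e) := by
  have h := Ex_flp p e (fun ω => if act c e ω then (1 : ℝ) else 0)
  have h1 : Ex p (fun ω => if ω e = true then
      (if act c e (flp e ω) then (1 : ℝ) else 0) else 0) =
      Ex p (fun ω => if act c e ω ∧ ω e = true then (1 : ℝ) else 0) := by
    refine Ex_congr fun ω => ?_
    by_cases hω : ω e = true
    · simp [hω, act_flp]
    · simp [hω]
  have h2 : Ex p (fun ω => if ω e = true then 0 else
      (if act c e ω then (1 : ℝ) else 0)) =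
      Ex p (fun ω => if act c e ω ∧ ω e = false then (1 : ℝ) else 0) := by
    refine Ex_congr fun ω => ?_
    by_cases hω : ω e = true
    · simp [hω]
    · have : ω e = false := by simpa using hω
      simp [this]
  have h3 : Pr p (act c e) =
      Ex p (fun ω => if act c e ω ∧ ω e = true then (1 : ℝ) else 0) +
      Ex p (fun ω => if act c e ω ∧ ω e = false then (1 : ℝ) else 0) := by
    rw [Pr_eq, ← Ex_add]
    refine Ex_congr fun ω => ?_
    cases hω : ω e <;> simp
  rw [h1, h2] at h
  constructor
  · rw [h3]; linarith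
  · rw [h3]; linarith

theorem JJ_lip (c : Coloring n) (G : Finset (Fin n)) (hG : ∀ e ∈ G, Good c e) (b : Bool)
    (x : Fin n) (ω : Fin n → Bool) :
    |JJ G (act c) b (flp x ω) - JJ G (act c) b ω| ≤ 3 := by
  classical
  unfold JJ
  -- the coins of `G` for which coin `x` matters
  set T : Finset (Fin n) := {x} ∪ (G.filter (fun e => c.h e = c.t x) ∪
    G.filter (fun e => c.t e = c.h x)) with hT
  have hT1 : (G.filter (fun e => c.h e = c.t x)).card ≤ 1 := by
    rw [Finset.card_le_one]
    intro y hy z hz
    simp only [Finset.mem_filter] at hy hz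
    exact eq_of_da c z y (hG z hz.1).1.1 (by rw [hy.2, hz.2])
  have hT2 : (G.filter (fun e => c.t e = c.h x)).card ≤ 1 := by
    rw [Finset.card_le_one]
    intro y hy z hz
    simp only [Finset.mem_filter] at hy hz
    exact eq_of_db c z y (hG z hz.1).2.2 (by rw [hy.2, hz.2])
  have hTc : T.card ≤ 3 := by
    have a1 := Finset.card_union_le ({x} : Finset (Fin n))
      (G.filter (fun e => c.h e = c.t x) ∪ G.filter (fun e => c.t e = c.h x))
    have a2 := Finset.card_union_le (G.filter (fun e => c.h e = c.t x))
      (G.filter (fun e => c.t e = c.h x))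
    rw [Finset.card_singleton, ← hT] at a1
    omega
  have key : ∀ e ∈ G, e ∉ T → ((act c e (flp x ω) ∧ flp x ω e = b) ↔
      (act c e ω ∧ ω e = b)) := by
    intro e he heT
    simp only [hT, Finset.mem_union, Finset.mem_singleton, Finset.mem_filter, not_or,
      not_and] at heT
    obtain ⟨q1, q2, q3⟩ := heT
    have q2' := q2 he
    have q3' := q3 he
    rw [flp_ne q1]
    have : act c e (flp x ω) ↔ act c e ω := by
      unfold act
      constructor
      · rintro ⟨h1, h2⟩
        refine ⟨fun i hi => ?_, fun i hi => ?_⟩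
        · have hne : i ≠ x := by rintro rfl; exact q2' hi.symm
          rw [← flp_ne hne ω]; exact h1 i hi
        · have hne : i ≠ x := by rintro rfl; exact q3' hi.symm
          rw [← flp_ne hne ω]; exact h2 i hi
      · rintro ⟨h1, h2⟩
        refine ⟨fun i hi => ?_, fun i hi => ?_⟩
        · have hne : i ≠ x := by rintro rfl; exact q2' hi.symm
          rw [flp_ne hne ω]; exact h1 i hi
        · have hne : i ≠ x := by rintro rfl; exact q3' hi.symm
          rw [flp_ne hne ω]; exact h2 i hi
    rw [this]
  have s1 : G.filter (fun e => act c e (flp x ω) ∧ flp x ω e = b) ⊆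
      G.filter (fun e => act c e ω ∧ ω e = b) ∪ T := by
    intro e he
    rw [Finset.mem_filter] at he
    by_cases heT : e ∈ T
    · exact Finset.mem_union_right _ heT
    · exact Finset.mem_union_left _ (Finset.mem_filter.mpr ⟨he.1, (key e he.1 heT).mp he.2⟩)
  have s2 : G.filter (fun e => act c e ω ∧ ω e = b) ⊆
      G.filter (fun e => act c e (flp x ω) ∧ flp x ω e = b) ∪ T := by
    intro e he
    rw [Finset.mem_filter] at he
    by_cases heT : e ∈ T
    · exact Finset.mem_union_right _ heT
    · exact Finset.mem_union_left _ (Finset.mem_filter.mpr ⟨he.1, (key e he.1 heT).mpr he.2⟩)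
  have t1 := (Finset.card_le_card s1).trans (Finset.card_union_le _ _)
  have t2 := (Finset.card_le_card s2).trans (Finset.card_union_le _ _)
  have t1' : ((G.filter (fun e => act c e (flp x ω) ∧ flp x ω e = b)).card : ℝ) ≤
      (G.filter (fun e => act c e ω ∧ ω e = b)).card + 3 := by
    exact_mod_cast t1.trans (Nat.add_le_add_left hTc _)
  have t2' : ((G.filter (fun e => act c e ω ∧ ω e = b)).card : ℝ) ≤
      (G.filter (fun e => act c e (flp x ω) ∧ flp x ω e = b)).card + 3 := by
    exact_mod_cast t2.trans (Nat.add_le_add_left hTc _)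
  rw [abs_le]
  constructor <;> linarith

/-- for a set `G` of good coins, with `κ` the expected number of active ones -/
theorem JJ_conc {p : ℝ} (h0 : 0 < p) (h1 : p < 1) (c : Coloring n) (G : Finset (Fin n))
    (hG : ∀ e ∈ G, Good c e) (κ : ℝ) (hκ : κ = ∑ e ∈ G, Pr p (act c e)) (τ : ℝ) (hτ : 0 ≤ τ) :
    p ^ 2 * (G.card : ℝ) ≤ κ ∧
    Pr p (fun ω => τ * n ≤ |JJ G (act c) true ω - p * κ|)
      ≤ 2 * Real.exp (-(τ ^ 2 * n / 36)) ∧
    Pr p (fun ω => τ * n ≤ |JJ G (act c) false ω - (1 - p) * κ|)
      ≤ 2 * Real.exp (-(τ ^ 2 * n / 36)) := by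
  classical
  have hmean : ∀ b : Bool, Ex p (JJ G (act c) b) = ∑ e ∈ G,
      Ex p (fun ω => if act c e ω ∧ ω e = b then (1 : ℝ) else 0) := by
    intro b
    rw [← Ex_sum]
    refine Ex_congr fun ω => ?_
    rw [JJ_eq_sum]
  have hconst : -(τ ^ 2 * n / (4 * (3 : ℝ) ^ 2)) = -(τ ^ 2 * n / 36) := by
    norm_num
  refine ⟨?_, ?_, ?_⟩
  · rw [hκ, mul_comm, ← nsmul_eq_mul, ← Finset.sum_const]
    exact Finset.sum_le_sum fun e he => Pr_act h0 h1 c e (hG e he)
  · have hm : Ex p (JJ G (act c) true) = p * κ := by
      rw [hmean, hκ, Finset.mul_sum]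
      exact Finset.sum_congr rfl fun e _ => (Ex_act_true p c e).1
    have := mcdiarmid h0.le h1.le (JJ G (act c) true) 3 (by norm_num)
      (fun i ω => JJ_lip c G hG true i ω) τ hτ
    rw [hm, hconst] at this
    exact this
  · have hm : Ex p (JJ G (act c) false) = (1 - p) * κ := by
      rw [hmean, hκ, Finset.mul_sum]
      exact Finset.sum_congr rfl fun e _ => (Ex_act_true p c e).2
    have := mcdiarmid h0.le h1.le (JJ G (act c) false) 3 (by norm_num)
      (fun i ω => JJ_lip c G hG false i ω) τ hτ
    rw [hm, hconst] at this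
    exact this

end Pool.Agent.Lib.MP_eb8f1d_pr
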