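import Pool.Agent.Lib.MP_eb8f1d_pr.SignLemma
import Pool.Agent.Lib.MP_eb8f1d_pr.Medians

set_option autoImplicit false

namespace Pool.Agent.Lib.MP_eb8f1d_pr

open Finset Polynomial

/-- linear factor -/
noncomputable def LL (r : ℝ) : ℝ[X] := C (1 - r) + C r * X

theorem coeff_LL_mul (r : ℝ) (G : ℝ[X]) (k : ℕ) :
    (LL r * G).coeff k = (1 - r) * G.coeff k + r * (X * G).coeff k := by
  unfold LL
  rw [add_mul, coeff_add, coeff_C_mul, mul_assoc, coeff_C_mul]

theorem cum_X_mul_eq (G : ℝ[X]) (k : ℕ) : cum (X * G) k = cum G k - G.coeff k := by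
  unfold cum
  rw [Finset.sum_range_succ', Finset.sum_range_succ]
  simp [coeff_X_mul]

theorem cum_LL_mul (r : ℝ) (G : ℝ[X]) (k : ℕ) :
    cum (LL r * G) k = cum G k - r * G.coeff k := by
  have h : cum (LL r * G) k = (1 - r) * cum G k + r * cum (X * G) k := by
    unfold cum
    simp only [coeff_LL_mul, Finset.sum_add_distrib, Finset.mul_sum]
  rw [h, cum_X_mul_eq]
  ring

theorem cum_LL_LL_mul (a b : ℝ) (G : ℝ[X]) (k : ℕ) :
    cum (LL a * (LL b * G)) k =
      cum G k - (a + b) * G.coeff k + a * b * (G.coeff k - (X * G).coeff k) := by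
  rw [cum_LL_mul, cum_LL_mul, coeff_LL_mul]
  ring

theorem pb_eq (s : Multiset ℝ) : pb s = (s.map LL).prod := rfl

theorem pb_cons (r : ℝ) (s : Multiset ℝ) : pb (r ::ₘ s) = LL r * pb s := by
  rw [pb_eq, Multiset.map_cons, Multiset.prod_cons, ← pb_eq]

theorem pb_add (s t : Multiset ℝ) : pb (s + t) = pb s * pb t := by
  rw [pb_eq, Multiset.map_add, Multiset.prod_add, ← pb_eq, ← pb_eq]

theorem pb_nonneg (s : Multiset ℝ) (hs : ∀ r ∈ s, 0 ≤ r ∧ r ≤ 1) (k : ℕ) :
    0 ≤ (pb s).coeff k := pb_coeff_nonneg _ s rfl hs k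

theorem cum_scale_aux (lam : ℝ) (h0 : 0 ≤ lam) (h1 : lam ≤ 1) (k : ℕ) (s : Multiset ℝ) :
    ∀ t : Multiset ℝ, (∀ r ∈ s, 0 ≤ r ∧ r ≤ 1) → (∀ r ∈ t, 0 ≤ r ∧ r ≤ 1) →
      cum (pb s * pb t) k ≤ cum (pb (s.map (fun r => lam * r)) * pb t) k := by
  induction s using Multiset.induction_on with
  | empty => intro t _ _; simp
  | cons r s ih =>
    intro t hs ht
    have hr := hs r (Multiset.mem_cons_self r s)
    have hs' : ∀ x ∈ s, 0 ≤ x ∧ x ≤ 1 := fun x hx => hs x (Multiset.mem_cons_of_mem hx)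
    have e1 : pb (r ::ₘ s) * pb t = pb s * pb (r ::ₘ t) := by
      rw [pb_cons, pb_cons]; ring
    have h2 := ih (r ::ₘ t) hs' (by
      intro x hx
      rcases Multiset.mem_cons.mp hx with rfl | h
      · exact hr
      · exact ht x h)
    rw [e1]
    refine h2.trans ?_
    have e2 : pb (s.map (fun r => lam * r)) * pb (r ::ₘ t) =
        LL r * pb (s.map (fun r => lam * r) + t) := by
      rw [pb_cons, pb_add]; ring
    have e3 : pb ((r ::ₘ s).map (fun r => lam * r)) * pb t =
        LL (lam * r) * pb (s.map (fun r => lam * r) + t) := by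
      rw [Multiset.map_cons, pb_cons, pb_add]; ring
    rw [e2, e3, cum_LL_mul, cum_LL_mul]
    have hnn : 0 ≤ (pb (s.map (fun r => lam * r) + t)).coeff k := by
      apply pb_nonneg
      intro x hx
      rcases Multiset.mem_add.mp hx with h | h
      · obtain ⟨y, hy, rfl⟩ := Multiset.mem_map.mp h
        have := hs' y hy
        constructor
        · exact mul_nonneg h0 this.1
        · nlinarith
      · exact ht x h
    have : lam * r ≤ r := by nlinarith
    nlinarith

theorem cum_scale (lam : ℝ) (h0 : 0 ≤ lam) (h1 : lam ≤ 1) (k : ℕ) (s : Multiset ℝ)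
    (hs : ∀ r ∈ s, 0 ≤ r ∧ r ≤ 1) :
    cum (pb s) k ≤ cum (pb (s.map (fun r => lam * r))) k := by
  have := cum_scale_aux lam h0 h1 k s 0 hs (by simp)
  simpa [pb] using this

/-! ### vector form -/

/-- vector form of `pb` -/
noncomputable def pbv {N : ℕ} (r : Fin N → ℝ) : ℝ[X] := ∏ i, LL (r i)

theorem continuous_coeff_prod {N : ℕ} (s : Finset (Fin N)) : ∀ j : ℕ,
    Continuous (fun r : Fin N → ℝ => (∏ i ∈ s, LL (r i)).coeff j) := by
  classical
  induction s using Finset.induction_on with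
  | empty => intro j; simp only [Finset.prod_empty]; exact continuous_const
  | insert a s ha ih =>
    intro j
    simp only [Finset.prod_insert ha, coeff_LL_mul]
    have hX : Continuous (fun r : Fin N → ℝ => (X * ∏ i ∈ s, LL (r i)).coeff j) := by
      cases j with
      | zero => simp only [coeff_X_mul_zero]; exact continuous_const
      | succ j => simp only [coeff_X_mul]; exact ih j
    have ha' : Continuous (fun r : Fin N → ℝ => r a) := continuous_apply a
    exact ((continuous_const.sub ha').mul (ih j)).add (ha'.mul hX)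

theorem continuous_cum {N : ℕ} (k : ℕ) : Continuous (fun r : Fin N → ℝ => cum (pbv r) k) := by
  unfold cum pbv
  exact continuous_finsetSum _ fun j _ => continuous_coeff_prod univ j

theorem exists_vector (s : Multiset ℝ) : ∃ (N : ℕ) (r : Fin N → ℝ), pb s = pbv r ∧
    s.sum = ∑ i, r i ∧ ∀ i, r i ∈ s := by
  obtain ⟨l, rfl⟩ := Quot.exists_rep s
  refine ⟨l.length, l.get, ?_, ?_, ?_⟩
  · have h1 : pb (Quot.mk _ l) = (l.map LL).prod := by
      rw [pb_eq]
      exact Multiset.prod_coe _
    rw [h1]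
    unfold pbv
    rw [← List.prod_ofFn]
    congr 1
    conv_lhs => rw [← List.ofFn_get l]
    rw [List.map_ofFn]
    rfl
  · have h1 : Multiset.sum (Quot.mk _ l : Multiset ℝ) = l.sum := Multiset.sum_coe l
    rw [h1, ← List.sum_ofFn, List.ofFn_get]
  · intro i
    exact List.get_mem l i

/-! ### the two-variable argument -/

theorem pbv_split {N : ℕ} (r : Fin N → ℝ) (i j : Fin N) (hij : i ≠ j) :
    pbv r = LL (r i) * (LL (r j) * ∏ l ∈ (univ.erase i).erase j, LL (r l)) := by
  unfold pbv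
  rw [← Finset.mul_prod_erase univ _ (Finset.mem_univ i),
    ← Finset.mul_prod_erase (univ.erase i) _ (Finset.mem_erase.mpr ⟨hij.symm, Finset.mem_univ j⟩)]

/-- replace the entries at `i` and `j` -/
def upd {N : ℕ} (r : Fin N → ℝ) (i j : Fin N) (x y : ℝ) : Fin N → ℝ :=
  Function.update (Function.update r i x) j y

theorem upd_i {N : ℕ} (r : Fin N → ℝ) (i j : Fin N) (hij : i ≠ j) (x y : ℝ) :
    upd r i j x y i = x := by
  unfold upd
  rw [Function.update_of_ne hij, Function.update_self]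

theorem upd_j {N : ℕ} (r : Fin N → ℝ) (i j : Fin N) (x y : ℝ) :
    upd r i j x y j = y := by
  unfold upd
  rw [Function.update_self]

theorem upd_l {N : ℕ} (r : Fin N → ℝ) (i j l : Fin N) (x y : ℝ) (h1 : l ≠ i) (h2 : l ≠ j) :
    upd r i j x y l = r l := by
  unfold upd
  rw [Function.update_of_ne h2, Function.update_of_ne h1]

theorem sum_upd {N : ℕ} (g : ℝ → ℝ) (r : Fin N → ℝ) (i j : Fin N) (hij : i ≠ j) (x y : ℝ) :
    ∑ l, g (upd r i j x y l) = ∑ l, g (r l) + (g x + g y - g (r i) - g (r j)) := by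
  have hsplit : ∀ f : Fin N → ℝ, ∑ l, f l = f i + (f j + ∑ l ∈ (univ.erase i).erase j, f l) := by
    intro f
    rw [← Finset.add_sum_erase univ _ (Finset.mem_univ i),
      ← Finset.add_sum_erase (univ.erase i) _
        (Finset.mem_erase.mpr ⟨hij.symm, Finset.mem_univ j⟩)]
  rw [hsplit (fun l => g (upd r i j x y l)), hsplit (fun l => g (r l)), upd_i r i j hij, upd_j]
  have : ∑ l ∈ (univ.erase i).erase j, g (upd r i j x y l) =
      ∑ l ∈ (univ.erase i).erase j, g (r l) := by
    refine Finset.sum_congr rfl fun l hl => ?_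
    rw [Finset.mem_erase, Finset.mem_erase] at hl
    rw [upd_l r i j l x y hl.2.1 hl.1]
  rw [this]
  ring

theorem cum_upd {N : ℕ} (r : Fin N → ℝ) (i j : Fin N) (hij : i ≠ j) (k : ℕ) :
    ∃ d : ℝ, (∀ x y : ℝ, x + y = r i + r j →
      cum (pbv (upd r i j x y)) k = cum (pbv r) k + (x * y - r i * r j) * d) := by
  set G : ℝ[X] := ∏ l ∈ (univ.erase i).erase j, LL (r l) with hG
  refine ⟨G.coeff k - (X * G).coeff k, fun x y hxy => ?_⟩
  rw [pbv_split r i j hij, pbv_split (upd r i j x y) i j hij, upd_i r i j hij, upd_j]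
  have : ∏ l ∈ (univ.erase i).erase j, LL (upd r i j x y l) = G := by
    rw [hG]
    refine Finset.prod_congr rfl fun l hl => ?_
    rw [Finset.mem_erase, Finset.mem_erase] at hl
    rw [upd_l r i j l x y hl.2.1 hl.1]
  rw [this, cum_LL_LL_mul, cum_LL_LL_mul, hxy]
  ring

theorem pb_lt_half (hbin : ∀ (N k : ℕ) (r : ℝ), 0 < r → r < 1 → N * r = k + 3 / 4 →
      ∑ j ∈ range (k + 1), bin N r j < 1 / 2)
    (s : Multiset ℝ) (hs : ∀ r ∈ s, 0 ≤ r ∧ r ≤ 1) (k : ℕ) (hk : (k : ℝ) + 3 / 4 ≤ s.sum) :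
    cum (pb s) k < 1 / 2 := by
  classical
  have hμ : (0 : ℝ) < (k : ℝ) + 3 / 4 := by positivity
  have hS : 0 < s.sum := lt_of_lt_of_le hμ hk
  set lam : ℝ := ((k : ℝ) + 3 / 4) / s.sum with hlam
  have hlam0 : 0 ≤ lam := by positivity
  have hlam1 : lam ≤ 1 := by
    rw [hlam, div_le_one hS]
    exact hk
  refine lt_of_le_of_lt (cum_scale lam hlam0 hlam1 k s hs) ?_
  set s' : Multiset ℝ := s.map (fun r => lam * r) with hs'
  have hs'1 : ∀ r ∈ s', 0 ≤ r ∧ r ≤ 1 := by
    intro r hr
    obtain ⟨y, hy, rfl⟩ := Multiset.mem_map.mp hr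
    have := hs y hy
    exact ⟨mul_nonneg hlam0 this.1, by nlinarith⟩
  have hs'2 : s'.sum = (k : ℝ) + 3 / 4 := by
    rw [hs', Multiset.sum_map_mul_left, Multiset.map_id', hlam]
    field_simp
  obtain ⟨N, r1, h1, h2, h3⟩ := exists_vector s'
  rw [h1]
  -- the compact set
  set K : Set (Fin N → ℝ) := {r | (∀ i, r i ∈ Set.Icc (0 : ℝ) 1) ∧ ∑ i, r i = (k : ℝ) + 3 / 4}
    with hK
  have hKc : IsCompact K := by
    have hc1 : IsCompact (Set.univ.pi (fun _ : Fin N => Set.Icc (0 : ℝ) 1)) :=
      isCompact_univ_pi fun _ => isCompact_Icc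
    have hc2 : IsClosed {r : Fin N → ℝ | ∑ i, r i = (k : ℝ) + 3 / 4} :=
      isClosed_eq (continuous_finsetSum _ fun i _ => continuous_apply i) continuous_const
    have : K = (Set.univ.pi (fun _ : Fin N => Set.Icc (0 : ℝ) 1)) ∩
        {r : Fin N → ℝ | ∑ i, r i = (k : ℝ) + 3 / 4} := by
      ext r
      simp only [hK, Set.mem_inter_iff, Set.mem_pi, Set.mem_univ, true_implies]
      exact Iff.rfl
    rw [this]
    exact hc1.inter_right hc2
  have hr1K : r1 ∈ K := ⟨fun i => hs'1 _ (h3 i), by rw [← h2, hs'2]⟩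
  obtain ⟨r2, hr2K, hr2max⟩ := hKc.exists_isMaxOn ⟨r1, hr1K⟩ (continuous_cum k).continuousOn
  have hr2max' : cum (pbv r1) k ≤ cum (pbv r2) k := hr2max hr1K
  refine lt_of_le_of_lt hr2max' ?_
  set mx : ℝ := cum (pbv r2) k with hmx
  -- among the maximisers, minimise the sum of squares
  set K' : Set (Fin N → ℝ) := K ∩ {r | cum (pbv r) k = mx} with hK'
  have hK'c : IsCompact K' := hKc.inter_right (isClosed_eq (continuous_cum k) continuous_const)
  obtain ⟨r, hrK', hrmin⟩ := hK'c.exists_isMinOn ⟨r2, hr2K, rfl⟩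
    (f := fun r : Fin N → ℝ => ∑ i, (r i) ^ 2)
    (continuous_finsetSum _ fun i _ => (continuous_apply i).pow 2).continuousOn
  obtain ⟨⟨hr01, hrsum⟩, hrmx⟩ := hrK'
  have hrmx' : cum (pbv r) k = mx := hrmx
  have hmaxall : ∀ r' ∈ K, cum (pbv r') k ≤ mx := fun r' h => hr2max h
  -- interior entries are equal
  have hupdK : ∀ i j, i ≠ j → ∀ x y, 0 ≤ x → x ≤ 1 → 0 ≤ y → y ≤ 1 → x + y = r i + r j →
      upd r i j x y ∈ K := by
    intro i j hij x y hx0 hx1 hy0 hy1 hxy
    refine ⟨fun l => ?_, ?_⟩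
    · by_cases h1 : l = i
      · subst h1; rw [upd_i r l j hij]; exact ⟨hx0, hx1⟩
      · by_cases h2 : l = j
        · subst h2; rw [upd_j]; exact ⟨hy0, hy1⟩
        · rw [upd_l r i j l x y h1 h2]; exact hr01 l
    · have := sum_upd (fun z => z) r i j hij x y
      rw [this, hrsum]
      linarith
  have hlt : ∀ i j, i ≠ j → 0 < r i → r j < 1 → r i < r j → False := by
    intro i j hij hi0 hj1 hlt
    have hi := hr01 i
    have hj := hr01 j
    obtain ⟨d, hd⟩ := cum_upd r i j hij k
    have havg : ∀ (_ : True), upd r i j ((r i + r j) / 2) ((r i + r j) / 2) ∈ K := fun _ =>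
      hupdK i j hij _ _ (by linarith [hi.1, hj.1]) (by linarith [hi.2, hj.2])
        (by linarith [hi.1, hj.1]) (by linarith [hi.2, hj.2]) (by ring)
    rcases lt_trichotomy d 0 with h | h | h
    · -- spread
      set e : ℝ := min (r i) (1 - r j) with he
      have he0 : 0 < e := lt_min hi0 (by linarith)
      have he1 : e ≤ r i := min_le_left _ _
      have he2 : e ≤ 1 - r j := min_le_right _ _
      have hmem := hupdK i j hij (r i - e) (r j + e) (by linarith) (by linarith [hi.2])
        (by linarith [hj.1]) (by linarith) (by ring)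
      have h4 := hmaxall _ hmem
      rw [hd _ _ (by ring), hrmx'] at h4
      nlinarith [mul_pos he0 (sub_pos.mpr hlt), mul_pos he0 he0]
    · -- equality
      have hmem := havg trivial
      have h4 : cum (pbv (upd r i j ((r i + r j) / 2) ((r i + r j) / 2))) k = mx := by
        rw [hd _ _ (by ring), hrmx', h]
        ring
      have h5 := hrmin (show upd r i j ((r i + r j) / 2) ((r i + r j) / 2) ∈ K' from ⟨hmem, h4⟩)
      have h6 : ∑ l, (upd r i j ((r i + r j) / 2) ((r i + r j) / 2) l) ^ 2 = _ :=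
        sum_upd (fun z => z ^ 2) r i j hij ((r i + r j) / 2) ((r i + r j) / 2)
      have h5' : ∑ l, (r l) ^ 2 ≤
          ∑ l, (upd r i j ((r i + r j) / 2) ((r i + r j) / 2) l) ^ 2 := h5
      rw [h6] at h5'
      nlinarith [mul_pos (sub_pos.mpr hlt) (sub_pos.mpr hlt)]
    · have h4 := hmaxall _ (havg trivial)
      rw [hd _ _ (by ring), hrmx'] at h4
      have : 0 < ((r i + r j) / 2 * ((r i + r j) / 2) - r i * r j) := by
        nlinarith [mul_pos (sub_pos.mpr hlt) (sub_pos.mpr hlt)]
      nlinarith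
  -- structure of the extremal vector
  set A : Finset (Fin N) := univ.filter (fun i => r i = 1) with hA
  set Bs : Finset (Fin N) := univ.filter (fun i => 0 < r i ∧ r i < 1) with hBs
  have hcases : ∀ i, r i = 0 ∨ r i = 1 ∨ (0 < r i ∧ r i < 1) := by
    intro i
    obtain ⟨h0, h1⟩ := hr01 i
    rcases h0.lt_or_eq with h | h
    · rcases h1.lt_or_eq with h' | h'
      · exact Or.inr (Or.inr ⟨h, h'⟩)
      · exact Or.inr (Or.inl h')
    · exact Or.inl h.symm
  have hBne : Bs.Nonempty := by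
    by_contra hcon
    rw [Finset.not_nonempty_iff_eq_empty] at hcon
    have hsumA : ∑ i, r i = A.card := by
      have : ∀ i, r i = if r i = 1 then (1 : ℝ) else 0 := by
        intro i
        rcases hcases i with h | h | h
        · simp [h]
        · simp [h]
        · exfalso
          have : i ∈ Bs := by simp [hBs, h]
          rw [hcon] at this
          simp at this
      rw [Finset.sum_congr rfl fun i _ => this i, hA, Finset.card_filter]
      push_cast
      rfl
    rw [hrsum] at hsumA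
    have h4 : (4 * k + 3 : ℕ) = 4 * A.card := by
      have : (4 : ℝ) * ((k : ℝ) + 3 / 4) = 4 * (A.card : ℝ) := by rw [hsumA]
      have h' : ((4 * k + 3 : ℕ) : ℝ) = ((4 * A.card : ℕ) : ℝ) := by push_cast; linarith
      exact_mod_cast h'
    omega
  obtain ⟨i0, hi0⟩ := hBne
  set ρ : ℝ := r i0 with hρ
  have hi0' : 0 < r i0 ∧ r i0 < 1 := by
    simpa [hBs] using hi0
  have hall : ∀ i ∈ Bs, r i = ρ := by
    intro i hi
    have hi' : 0 < r i ∧ r i < 1 := by simpa [hBs] using hi
    by_contra hne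
    have hne' : i ≠ i0 := by
      rintro rfl
      exact hne rfl
    rcases lt_or_gt_of_ne hne with h | h
    · exact hlt i i0 hne' hi'.1 hi0'.2 h
    · exact hlt i0 i hne'.symm hi0'.1 hi'.2 h
  have hprod : pbv r = X ^ A.card * (LL ρ) ^ Bs.card := by
    unfold pbv
    have hfac : ∀ i, LL (r i) = (if r i = 1 then (X : ℝ[X]) else 1) *
        (if 0 < r i ∧ r i < 1 then LL ρ else 1) := by
      intro i
      rcases hcases i with h | h | h
      · rw [h]; unfold LL; simp
      · rw [h]; unfold LL; simp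
      · have hne1 : r i ≠ 1 := h.2.ne
        rw [if_neg hne1, if_pos h, hall i (by simp [hBs, h]), one_mul]
    rw [Finset.prod_congr rfl fun i _ => hfac i, Finset.prod_mul_distrib, ← Finset.prod_filter,
      ← Finset.prod_filter, Finset.prod_const, Finset.prod_const]
  have hsum : (A.card : ℝ) + Bs.card * ρ = (k : ℝ) + 3 / 4 := by
    rw [← hrsum]
    have hfac : ∀ i, r i = (if r i = 1 then (1 : ℝ) else 0) +
        (if 0 < r i ∧ r i < 1 then ρ else 0) := by
      intro i
      rcases hcases i with h | h | h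
      · simp [h]
      · simp [h]
      · have hne1 : r i ≠ 1 := h.2.ne
        rw [if_neg hne1, if_pos h, hall i (by simp [hBs, h]), zero_add]
    conv_rhs => rw [Finset.sum_congr rfl fun i _ => hfac i]
    rw [Finset.sum_add_distrib, ← Finset.sum_filter, ← Finset.sum_filter, Finset.sum_const,
      Finset.sum_const, nsmul_eq_mul, nsmul_eq_mul, mul_one]
  have hBpos : (0 : ℝ) < Bs.card := by
    exact_mod_cast Finset.card_pos.mpr ⟨i0, hi0⟩
  have hAk : A.card ≤ k := by
    have h4 : (A.card : ℝ) < (k : ℝ) + 3 / 4 := by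
      have := mul_pos hBpos hi0'.1
      linarith
    have h5 : (A.card : ℝ) < (k : ℝ) + 1 := by linarith
    have : A.card < k + 1 := by exact_mod_cast h5
    omega
  have hcumX : ∀ (a : ℕ) (H : ℝ[X]) (m : ℕ), cum (X ^ a * H) (a + m) = cum H m := by
    intro a
    induction a with
    | zero => intro H m; simp
    | succ a ih =>
      intro H m
      have : X ^ (a + 1) * H = X * (X ^ a * H) := by ring
      rw [this, cum_X_mul_eq]
      have h5 : cum (X ^ a * H) (a + 1 + m) - (X ^ a * H).coeff (a + 1 + m) =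
          cum (X ^ a * H) (a + m) := by
        unfold cum
        rw [show a + 1 + m + 1 = (a + m + 1) + 1 by ring, Finset.sum_range_succ,
          show a + 1 + m = a + m + 1 by ring]
        ring
      rw [h5, ih]
  obtain ⟨m, hm⟩ := Nat.exists_eq_add_of_le hAk
  rw [← hrmx', hprod, hm, hcumX]
  have hfin := hbin Bs.card m ρ hi0'.1 hi0'.2 (by
    rw [hm] at hsum
    push_cast at hsum
    linarith)
  unfold cum LL
  simp only [Med.coeff_pow]
  exact hfin

end Pool.Agent.Lib.MP_eb8f1d_pr
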