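import Pool.Agent.Lib.MP_eb8f1d_pr.Moments
import Pool.Agent.Lib.MP_eb8f1d_pr.Excess
import Pool.Agent.Lib.MP_eb8f1d_pr.Crossing
import Pool.Agent.Lib.MP_eb8f1d_pr.Gadgets

set_option autoImplicit false

namespace Pool.Agent.Lib.MP_eb8f1d_pr

open Finset

variable {n : ℕ}

theorem mix_flp (B : Finset (Fin n)) (σ ω : Fin n → Bool) (e : Fin n) (he : e ∉ B) :
    mix B σ (flp e ω) = flp e (mix B σ ω) := by
  funext i
  by_cases h : i = e
  · subst h
    simp [mix, he]
  · by_cases hB : i ∈ B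
    · simp [mix, hB, flp_ne h]
    · simp [mix, hB, flp_ne h]

theorem U_mix_sub_le (c : Coloring n) (B : Finset (Fin n)) (σ ω : Fin n → Bool) :
    |(U c (mix B σ ω) : ℤ) - (U c ω : ℤ)| ≤ B.card := by
  induction B using Finset.induction_on with
  | empty =>
    have : mix ∅ σ ω = ω := by funext i; simp [mix]
    simp [this]
  | insert i B hi ih =>
    rw [Finset.card_insert_of_notMem hi]
    have h : mix (insert i B) σ ω = mix B σ ω ∨ mix (insert i B) σ ω = flp i (mix B σ ω) := by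
      by_cases hh : σ i = ω i
      · left
        funext x
        by_cases hx : x = i
        · subst hx; simp [mix, hi, hh]
        · simp [mix, hx]
      · right
        funext x
        by_cases hx : x = i
        · subst hx
          simp only [mix, mem_insert_self, if_true, flp_same, hi, if_false]
          cases h1 : σ x <;> cases h2 : ω x <;> simp_all
        · simp [mix, hx, flp_ne hx]
    rcases h with h | h
    · rw [h]; push_cast; linarith
    · rw [h]
      have h1 := U_flp c (mix B σ ω) i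
      have h2 : (U c (flp i (mix B σ ω)) : ℤ) - (U c ω : ℤ) =
        ((U c (flp i (mix B σ ω)) : ℤ) - (U c (mix B σ ω) : ℤ)) +
          ((U c (mix B σ ω) : ℤ) - (U c ω : ℤ)) := by ring
      rw [h2]
      refine (abs_add_le _ _).trans ?_
      push_cast
      linarith

open Classical in
/-- good coins not in `B` whose colours are not touched by the coins of `B` -/
noncomputable def GG (c : Coloring n) (B : Finset (Fin n)) : Finset (Fin n) :=
  univ.filter (fun e => Good c e ∧ e ∉ B ∧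
    ∀ i ∈ B, c.h e ≠ c.h i ∧ c.h e ≠ c.t i ∧ c.t e ≠ c.h i ∧ c.t e ≠ c.t i)

theorem GG_good (c : Coloring n) (B : Finset (Fin n)) (e : Fin n) (he : e ∈ GG c B) :
    Good c e := by
  classical
  exact (Finset.mem_filter.mp he).2.1

theorem card_le_GG (c : Coloring n) (B : Finset (Fin n)) :
    n ≤ (GG c B).card + 2 * (univ.filter (fun v => ¬ (da c v = 1 ∧ db c v = 1))).card
      + 5 * B.card := by
  classical
  have h1 := card_not_good c
  let X1 : Finset (Fin n) := B.biUnion (fun i => univ.filter (fun e => Good c e ∧ c.h e = c.h i))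
  let X2 : Finset (Fin n) := B.biUnion (fun i => univ.filter (fun e => Good c e ∧ c.h e = c.t i))
  let X3 : Finset (Fin n) := B.biUnion (fun i => univ.filter (fun e => Good c e ∧ c.t e = c.h i))
  let X4 : Finset (Fin n) := B.biUnion (fun i => univ.filter (fun e => Good c e ∧ c.t e = c.t i))
  have hh : ∀ v : Fin n, (univ.filter (fun e => Good c e ∧ c.h e = v)).card ≤ 1 := by
    intro v
    rw [Finset.card_le_one]
    intro x hx y hy
    simp only [Finset.mem_filter, Finset.mem_univ, true_and] at hx hy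
    have h2 : da c (c.h x) = 1 := hx.1.1.1
    unfold da at h2
    obtain ⟨z, hz⟩ := Finset.card_eq_one.mp h2
    have hx' : x ∈ univ.filter (fun i => c.h i = c.h x) := by simp
    have hy' : y ∈ univ.filter (fun i => c.h i = c.h x) := by simp [hx.2, hy.2]
    rw [hz, Finset.mem_singleton] at hx' hy'
    rw [hx', hy']
  have ht : ∀ v : Fin n, (univ.filter (fun e => Good c e ∧ c.t e = v)).card ≤ 1 := by
    intro v
    rw [Finset.card_le_one]
    intro x hx y hy
    simp only [Finset.mem_filter, Finset.mem_univ, true_and] at hx hy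
    have h2 : db c (c.t x) = 1 := hx.1.2.2
    unfold db at h2
    obtain ⟨z, hz⟩ := Finset.card_eq_one.mp h2
    have hx' : x ∈ univ.filter (fun i => c.t i = c.t x) := by simp
    have hy' : y ∈ univ.filter (fun i => c.t i = c.t x) := by simp [hx.2, hy.2]
    rw [hz, Finset.mem_singleton] at hx' hy'
    rw [hx', hy']
  have b1 : X1.card ≤ B.card * 1 := Finset.card_biUnion_le_card_mul _ _ _ (fun i _ => hh _)
  have b2 : X2.card ≤ B.card * 1 := Finset.card_biUnion_le_card_mul _ _ _ (fun i _ => hh _)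
  have b3 : X3.card ≤ B.card * 1 := Finset.card_biUnion_le_card_mul _ _ _ (fun i _ => ht _)
  have b4 : X4.card ≤ B.card * 1 := Finset.card_biUnion_le_card_mul _ _ _ (fun i _ => ht _)
  have hcov : (univ : Finset (Fin n)) ⊆
      GG c B ∪ (univ.filter (fun e => ¬ Good c e) ∪ (B ∪ (X1 ∪ (X2 ∪ (X3 ∪ X4))))) := by
    intro e _
    by_cases hg : Good c e
    · by_cases hB : e ∈ B
      · simp [hB]
      · by_cases hall : ∀ i ∈ B, c.h e ≠ c.h i ∧ c.h e ≠ c.t i ∧ c.t e ≠ c.h i ∧ c.t e ≠ c.t i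
        · refine Finset.mem_union_left _ ?_
          exact Finset.mem_filter.mpr ⟨Finset.mem_univ _, hg, hB, hall⟩
        · push Not at hall
          obtain ⟨i, hi, hall⟩ := hall
          by_cases q1 : c.h e = c.h i
          · have : e ∈ X1 := Finset.mem_biUnion.mpr ⟨i, hi, by simp [hg, q1]⟩
            simp [this]
          · by_cases q2 : c.h e = c.t i
            · have : e ∈ X2 := Finset.mem_biUnion.mpr ⟨i, hi, by simp [hg, q2]⟩
              simp [this]
            · by_cases q3 : c.t e = c.h i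
              · have : e ∈ X3 := Finset.mem_biUnion.mpr ⟨i, hi, by simp [hg, q3]⟩
                simp [this]
              · have q4 := hall q1 q2 q3
                have : e ∈ X4 := Finset.mem_biUnion.mpr ⟨i, hi, by simp [hg, q4]⟩
                simp [this]
    · simp [hg]
  have hc := Finset.card_le_card hcov
  rw [Finset.card_univ, Fintype.card_fin] at hc
  have c1 := Finset.card_union_le (GG c B)
    (univ.filter (fun e => ¬ Good c e) ∪ (B ∪ (X1 ∪ (X2 ∪ (X3 ∪ X4)))))
  have c2 := Finset.card_union_le (univ.filter (fun e => ¬ Good c e))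
    (B ∪ (X1 ∪ (X2 ∪ (X3 ∪ X4))))
  have c3 := Finset.card_union_le B (X1 ∪ (X2 ∪ (X3 ∪ X4)))
  have c4 := Finset.card_union_le X1 (X2 ∪ (X3 ∪ X4))
  have c5 := Finset.card_union_le X2 (X3 ∪ X4)
  have c6 := Finset.card_union_le X3 X4
  omega

theorem unseen_mix_of_touch (c : Coloring n) (B : Finset (Fin n)) (σ ω : Fin n → Bool)
    (v : Fin n) (h : ∀ i ∈ B, v ≠ c.h i ∧ v ≠ c.t i) :
    Unseen c (mix B σ ω) v ↔ Unseen c ω v := by
  unfold Unseen vis
  refine forall_congr' fun i => ?_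
  by_cases hi : i ∈ B
  · obtain ⟨h1, h2⟩ := h i hi
    have e1 : (if mix B σ ω i = true then c.h i else c.t i) ≠ v := by
      split_ifs
      · exact h1.symm
      · exact h2.symm
    have e2 : (if ω i = true then c.h i else c.t i) ≠ v := by
      split_ifs
      · exact h1.symm
      · exact h2.symm
    exact ⟨fun _ => e2, fun _ => e1⟩
  · simp [mix, hi]

theorem U_split (c : Coloring n) (ω : Fin n → Bool) (S : Finset (Fin n)) :
    U c ω = (S.filter (Unseen c ω)).card + (Sᶜ.filter (Unseen c ω)).card := by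
  unfold U
  rw [← Finset.card_union_of_disjoint]
  · congr 1
    ext v
    by_cases hv : v ∈ S <;> simp [hv]
  · rw [Finset.disjoint_left]
    intro v h1 h2
    simp only [Finset.mem_filter, Finset.mem_compl] at h1 h2
    exact h2.1 h1.1

theorem D_flp (c : Coloring n) (B : Finset (Fin n)) (σ ω : Fin n → Bool) (e : Fin n)
    (he : e ∈ GG c B) :
    (U c (mix B σ (flp e ω)) : ℤ) - (U c (flp e ω) : ℤ) =
      (U c (mix B σ ω) : ℤ) - (U c ω : ℤ) := by
  classical
  obtain ⟨-, hg, hB, hall⟩ := Finset.mem_filter.mp he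
  have hm := mix_flp B σ ω e hB
  set S : Finset (Fin n) := {c.h e, c.t e} with hS
  have h1 : ∀ ω' : Fin n → Bool, (Sᶜ.filter (Unseen c (flp e ω'))) =
      Sᶜ.filter (Unseen c ω') := by
    intro ω'
    refine Finset.filter_congr fun v hv => ?_
    simp only [hS, Finset.mem_compl, Finset.mem_insert, Finset.mem_singleton, not_or] at hv
    exact unseen_flp_of_ne c ω' e v hv.1 hv.2
  have h2 : ∀ ω' : Fin n → Bool, (S.filter (Unseen c (mix B σ ω'))) =
      S.filter (Unseen c ω') := by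
    intro ω'
    refine Finset.filter_congr fun v hv => ?_
    simp only [hS, Finset.mem_insert, Finset.mem_singleton] at hv
    refine unseen_mix_of_touch c B σ ω' v fun i hi => ?_
    rcases hv with rfl | rfl
    · exact ⟨(hall i hi).1, (hall i hi).2.1⟩
    · exact ⟨(hall i hi).2.2.1, (hall i hi).2.2.2⟩
  rw [U_split c (mix B σ (flp e ω)) S, U_split c (flp e ω) S, U_split c (mix B σ ω) S,
    U_split c ω S, h2 (flp e ω), h2 ω, hm, h1 (mix B σ ω), h1 ω]
  push_cast
  ring

theorem chain (f : ℤ → ℝ) (hf : ∀ j, 0 ≤ f j) (R K : ℝ) (hR : 1 ≤ R) (hK : 0 ≤ K)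
    (h1 : ∀ j, f j ≤ R * f (j + 1) + K) (h2 : ∀ j, f (j + 1) ≤ R * f j + K)
    (m : ℕ) (i j : ℤ) (hij : |i - j| ≤ m) : f i ≤ R ^ m * (f j + m * K) := by
  induction m generalizing i with
  | zero =>
    have : i = j := by
      have : |i - j| ≤ 0 := by simpa using hij
      have := abs_nonpos_iff.mp this
      omega
    subst this
    simp
  | succ m ih =>
    have hRm : 1 ≤ R ^ m := one_le_pow₀ hR
    have hRm' : 1 ≤ R ^ (m + 1) := one_le_pow₀ hR
    have key : ∀ i' : ℤ, |i' - j| ≤ m → f i ≤ R * f i' + K →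
        f i ≤ R ^ (m + 1) * (f j + ((m + 1 : ℕ) : ℝ) * K) := by
      intro i' hi' hle
      have := ih i' hi'
      have h3 : R * f i' ≤ R * (R ^ m * (f j + m * K)) :=
        mul_le_mul_of_nonneg_left this (by linarith)
      have h4 : K ≤ R ^ (m + 1) * K := by nlinarith
      push_cast
      rw [pow_succ] at h4 ⊢
      nlinarith
    by_cases hcase : |i - j| ≤ m
    · have := ih i hcase
      have h5 : R ^ m * (f j + m * K) ≤ R ^ (m + 1) * (f j + ((m + 1 : ℕ) : ℝ) * K) := by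
        have h6 : R ^ m ≤ R ^ (m + 1) := pow_le_pow_right₀ hR (Nat.le_succ m)
        have h7 : f j + m * K ≤ f j + ((m + 1 : ℕ) : ℝ) * K := by
          push_cast; nlinarith
        have h8 : 0 ≤ f j + m * K := add_nonneg (hf j) (by positivity)
        exact mul_le_mul h6 h7 h8 (by linarith)
      linarith
    · rcases le_total i j with hle | hle
      · have h6 : |i + 1 - j| ≤ m := by
          rw [abs_le]
          rw [abs_le] at hij
          rw [abs_le] at hcase
          push_cast at hij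
          constructor
          · omega
          · by_contra hcon
            apply hcase
            omega
        exact key (i + 1) h6 (h1 i)
      · have h6 : |i - 1 - j| ≤ m := by
          rw [abs_le]
          rw [abs_le] at hij
          rw [abs_le] at hcase
          push_cast at hij
          constructor
          · by_contra hcon
            apply hcase
            omega
          · omega
        have := h2 (i - 1)
        rw [sub_add_cancel] at this
        exact key (i - 1) h6 this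

theorem Pr_fiber (p : ℝ) (D : (Fin n → Bool) → ℤ) (S : Finset ℤ) (hD : ∀ ω, D ω ∈ S)
    (A : (Fin n → Bool) → Prop) :
    Pr p A = ∑ d ∈ S, Pr p (fun ω => D ω = d ∧ A ω) := by
  classical
  unfold Pr
  rw [← Ex_sum]
  refine Ex_congr fun ω => ?_
  rw [Finset.sum_eq_single (D ω)]
  · simp
  · intro d _ hd
    rw [if_neg]
    rintro ⟨h, -⟩
    exact hd h.symm
  · intro h
    exact absurd (hD ω) h

theorem exists_x (b : ℕ) (ε : ℝ) (hε : 0 < ε) :
    ∃ x : ℝ, 0 < x ∧ x < 1 ∧ ((1 + x) / (1 - x)) ^ (2 * b) ≤ 1 + ε / 2 := by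
  have hc : ContinuousAt (fun x : ℝ => ((1 + x) / (1 - x)) ^ (2 * b)) 0 := by
    refine ContinuousAt.pow ?_ _
    refine ContinuousAt.div ?_ ?_ (by norm_num)
    · exact (continuous_const.add continuous_id).continuousAt
    · exact (continuous_const.sub continuous_id).continuousAt
  have h1 : (fun x : ℝ => ((1 + x) / (1 - x)) ^ (2 * b)) 0 < 1 + ε / 2 := by
    simp; linarith
  have h2 := hc.eventually (gt_mem_nhds h1)
  have h3 : ∀ᶠ x : ℝ in nhds 0, x < 1 := gt_mem_nhds (by norm_num)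
  have h4 := (h2.and h3).filter_mono (nhdsWithin_le_nhds (s := Set.Ioi (0 : ℝ)))
  have h5 : ∀ᶠ x : ℝ in nhdsWithin 0 (Set.Ioi (0 : ℝ)), x ∈ Set.Ioi (0 : ℝ) :=
    eventually_mem_nhdsWithin
  obtain ⟨x, ⟨hx1, hx2⟩, hx3⟩ := (h4.and h5).exists
  exact ⟨x, hx3, hx2, le_of_lt hx1⟩

theorem exists_N1 (κ b : ℝ) (hκ : 0 < κ) :
    ∃ N : ℕ, ∀ n : ℕ, N ≤ n → 2 * (2 * (Real.sqrt (2 * n) / κ) + b) ≤ n := by
  -- take `n ≥ 2 * ...` : with `y = sqrt (2 n)`, `n = y² / 2`, need `y²/2 - 4 y / κ - 2 b ≥ 0`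
  obtain ⟨N, hN⟩ := exists_nat_gt ((8 / κ + 2 * |b| + 1) ^ 2)
  refine ⟨N, fun n hn => ?_⟩
  have hn' : (8 / κ + 2 * |b| + 1) ^ 2 ≤ n := by
    have : (N : ℝ) ≤ n := by exact_mod_cast hn
    linarith
  set y := Real.sqrt (2 * n) with hy
  have hn0 : (0 : ℝ) ≤ n := Nat.cast_nonneg n
  have hy2 : y ^ 2 = 2 * n := Real.sq_sqrt (by positivity)
  have hy0 : 0 ≤ y := Real.sqrt_nonneg _
  have hk : 0 < 8 / κ := by positivity
  have hb := abs_nonneg b
  have hyb : 8 / κ + 2 * |b| + 1 ≤ y := by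
    have : (8 / κ + 2 * |b| + 1) ^ 2 ≤ y ^ 2 := by rw [hy2]; linarith
    exact (sq_le_sq₀ (by positivity) hy0).mp this
  have h1 : y / κ = (8 / κ) * y / 8 := by ring
  have h2 : b ≤ |b| := le_abs_self b
  rw [h1]
  have h3 : (8 / κ + 2 * |b| + 1) * y ≤ y * y := mul_le_mul_of_nonneg_right hyb hy0
  have h4 : |b| * 1 ≤ |b| * y := by
    apply mul_le_mul_of_nonneg_left _ hb
    linarith
  nlinarith

theorem exists_N2 (c C ε : ℝ) (hc : 0 < c) (hε : 0 < ε) :
    ∃ N : ℕ, ∀ n : ℕ, N ≤ n → C * (2 * Real.exp (-(c * n))) ≤ ε * (1 / (8 * (n : ℝ) ^ 2)) := by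
  have h1 : Filter.Tendsto (fun x : ℝ => x ^ 2 * Real.exp (-x)) Filter.atTop (nhds 0) :=
    Real.tendsto_pow_mul_exp_neg_atTop_nhds_zero 2
  have h2 : Filter.Tendsto (fun n : ℕ => c * (n : ℝ)) Filter.atTop Filter.atTop :=
    Filter.Tendsto.const_mul_atTop hc tendsto_natCast_atTop_atTop
  have h3 := h1.comp h2
  have h4 : (0 : ℝ) < ε * c ^ 2 / (16 * (|C| + 1)) := by positivity
  have h5 := (h3.eventually (gt_mem_nhds h4)).and (Filter.eventually_ge_atTop 1)
  obtain ⟨N, hN⟩ := Filter.eventually_atTop.mp h5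
  refine ⟨N, fun n hn => ?_⟩
  obtain ⟨h6, h7⟩ := hN n hn
  simp only [Function.comp] at h6
  have hn0 : (0 : ℝ) < n := by exact_mod_cast h7
  have hC : C ≤ |C| + 1 := by linarith [le_abs_self C]
  have hC0 : 0 < |C| + 1 := by positivity
  have hexp := Real.exp_pos (-(c * n))
  rw [lt_div_iff₀ (by positivity)] at h6
  have h8 : 16 * (|C| + 1) * n ^ 2 * Real.exp (-(c * n)) ≤ ε := by
    have h9 : (c ^ 2) * (16 * (|C| + 1) * n ^ 2 * Real.exp (-(c * n))) ≤ c ^ 2 * ε := by
      nlinarith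
    exact le_of_mul_le_mul_left h9 (by positivity)
  have h10 : ε * (1 / (8 * (n : ℝ) ^ 2)) = ε / (8 * (n : ℝ) ^ 2) := by ring
  rw [h10, le_div_iff₀ (by positivity)]
  have h11 : C * (2 * Real.exp (-(c * n))) * (8 * n ^ 2) ≤
      (|C| + 1) * (2 * Real.exp (-(c * n))) * (8 * n ^ 2) := by
    have : 0 ≤ (2 * Real.exp (-(c * n))) * (8 * n ^ 2) := by positivity
    nlinarith
  nlinarith

theorem final_num (Pj Pk ε : ℝ) (hε : 0 < ε) (hPk0 : 0 ≤ Pk)
    (hup : Pj ≤ (1 + ε / 2) * Pk + ε / 2 * Pk) (hdown : Pk ≤ (1 + ε / 2) * Pj + ε / 2 * Pk) :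
    |Pj - Pk| ≤ ε * Pk := by
  rw [abs_le]
  constructor
  · by_contra hcon
    push Not at hcon
    have h5 : (1 + ε / 2) * Pj < (1 + ε / 2) * ((1 - ε) * Pk) :=
      mul_lt_mul_of_pos_left (by linarith) (by positivity)
    have h7 : 0 ≤ ε ^ 2 * Pk := by positivity
    nlinarith
  · linarith

theorem local_indep (p : ℝ) (h0 : 0 < p) (hp : p < 1 / 2) (b : ℕ) (ε : ℝ) (hε : 0 < ε) :
    ∃ N : ℕ, ∀ n ≥ N, ∀ (c : Coloring n) (k : ℕ), (k : ℝ) < n * (p * (1 - p)) →
      1 / 2 ≤ Pr p (fun ω => U c ω ≤ k) →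
      ∀ (B : Finset (Fin n)), B.card ≤ b → ∀ (σ : Fin n → Bool) (j : ℤ), |j - k| ≤ b →
        |Pr p (fun ω => (U c (mix B σ ω) : ℤ) = j) - Pr p (fun ω => U c ω = k)| ≤
          ε * Pr p (fun ω => U c ω = k) := by
  have hp1 : p < 1 := by linarith
  obtain ⟨κ₁, hκ₁, hex⟩ := excess p h0 hp
  obtain ⟨x, hx0, hx1, hxR⟩ := exists_x b ε hε
  set R : ℝ := (1 + x) / (1 - x) with hR
  have h1x : 0 < 1 - x := by linarith
  have hR1 : 1 ≤ R := by
    rw [hR, le_div_iff₀ h1x]; linarith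
  set τ : ℝ := x * p * (p ^ 2 / 2) with hτ
  have hτ0 : 0 < τ := by positivity
  obtain ⟨N1, hN1⟩ := exists_N1 κ₁ (5 * b) hκ₁
  obtain ⟨N2, hN2⟩ := exists_N2 (τ ^ 2 / 36)
    ((2 * b + 1) * (R ^ (2 * b) * ((2 * b) * ((1 + 2 / p ^ 3) / (1 - x))))) (ε / 2)
    (by positivity) (by positivity)
  refine ⟨max (max N1 N2) 1, fun n hn c k hk hhalf B hB σ j hj => ?_⟩
  have hn1 : N1 ≤ n := le_trans (le_trans (le_max_left _ _) (le_max_left _ _)) hn
  have hn2 : N2 ≤ n := le_trans (le_trans (le_max_right _ _) (le_max_left _ _)) hn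
  have hn3 : 1 ≤ n := le_trans (le_max_right _ _) hn
  have hn0 : (0 : ℝ) < n := by exact_mod_cast hn3
  -- the number of bad colours
  set bad : ℕ := (univ.filter (fun v => ¬ (da c v = 1 ∧ db c v = 1))).card with hbad
  have hEU1 := hex n c
  rw [← hbad] at hEU1
  have hEU2 := EU_le h0.le hp1.le c k hhalf
  have hbad1 : κ₁ * bad ≤ Real.sqrt (2 * n) := by linarith
  have hbad2 : (bad : ℝ) ≤ Real.sqrt (2 * n) / κ₁ := by
    rw [le_div_iff₀ hκ₁]; linarith
  have hkEU : (k : ℝ) < EU p c := by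
    have : 0 ≤ κ₁ * bad := by positivity
    linarith
  have hGG : (n : ℝ) ≤ (GG c B).card + 2 * bad + 5 * B.card := by
    exact_mod_cast card_le_GG c B
  have hBb : (B.card : ℝ) ≤ b := by exact_mod_cast hB
  have hG2 : (n : ℝ) / 2 ≤ (GG c B).card := by
    have := hN1 n hn1
    linarith
  -- concentration
  set κ : ℝ := ∑ e ∈ GG c B, Pr p (act c e) with hκ
  obtain ⟨hκ1, hT, hF⟩ := JJ_conc h0 hp1 c (GG c B) (GG_good c B) κ hκ τ hτ0.le
  have hκ2 : p ^ 2 * (n / 2) ≤ κ :=
    le_trans (mul_le_mul_of_nonneg_left hG2 (by positivity)) hκ1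
  have hκ0 : 0 < κ := lt_of_lt_of_le (by positivity) hκ2
  set η : ℝ := 2 * Real.exp (-(τ ^ 2 * n / 36)) with hη
  have hη0 : 0 < η := by positivity
  have hτn : τ * n ≤ x * (p * κ) := by
    have : τ * n = x * p * (p ^ 2 * (n / 2)) := by rw [hτ]; ring
    rw [this]
    have := mul_le_mul_of_nonneg_left hκ2 (by positivity : 0 ≤ x * p)
    linarith
  have hτn' : τ * n ≤ x * ((1 - p) * κ) := by
    refine le_trans hτn ?_
    apply mul_le_mul_of_nonneg_left _ hx0.le
    apply mul_le_mul_of_nonneg_right _ hκ0.le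
    linarith
  have hT' : Pr p (fun ω => x * (p * κ) < |JJ (GG c B) (act c) true ω - p * κ|) ≤ η :=
    le_trans (Pr_mono h0.le hp1.le fun ω h => le_trans hτn (le_of_lt h)) hT
  have hF' : Pr p (fun ω => x * ((1 - p) * κ) <
      |JJ (GG c B) (act c) false ω - (1 - p) * κ|) ≤ η :=
    le_trans (Pr_mono h0.le hp1.le fun ω h => le_trans hτn' (le_of_lt h)) hF
  set Kc : ℝ := (1 + 2 / p ^ 3) / (1 - x) * η with hKc
  have hKc0 : 0 ≤ Kc := by positivity
  have hK1 : (n : ℝ) / (p * κ) ≤ 2 / p ^ 3 := by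
    rw [div_le_div_iff₀ (by positivity) (by positivity)]
    have := mul_le_mul_of_nonneg_left hκ2 (by positivity : 0 ≤ 2 * p)
    nlinarith
  have hK2 : (n : ℝ) / ((1 - p) * κ) ≤ 2 / p ^ 3 := by
    refine le_trans ?_ hK1
    apply div_le_div_of_nonneg_left hn0.le (by positivity)
    apply mul_le_mul_of_nonneg_right _ hκ0.le
    linarith
  -- the difference
  set D : (Fin n → Bool) → ℤ := fun ω => (U c (mix B σ ω) : ℤ) - (U c ω : ℤ) with hD
  have hDS : ∀ ω, D ω ∈ Finset.Icc (-(b : ℤ)) b := by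
    intro ω
    have h1 := U_mix_sub_le c B σ ω
    have h2 : (B.card : ℤ) ≤ b := by exact_mod_cast hB
    rw [Finset.mem_Icc]
    exact abs_le.mp (le_trans h1 h2)
  have hchain : ∀ d : ℤ, ∀ i i' : ℤ, |i - i'| ≤ (2 * b : ℕ) →
      Pr p (fun ω => D ω = d ∧ (U c ω : ℤ) = i) ≤
        R ^ (2 * b) * (Pr p (fun ω => D ω = d ∧ (U c ω : ℤ) = i') + (2 * b : ℕ) * Kc) := by
    intro d i i' hii
    refine chain (fun i => Pr p (fun ω => D ω = d ∧ (U c ω : ℤ) = i))
      (fun j => Pr_nonneg h0.le hp1.le _) R Kc hR1 hKc0 ?_ ?_ (2 * b) i i' hii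
    · intro j
      have hr := (ratio h0 hp1 (fun ω => (U c ω : ℤ)) (fun ω => D ω = d) (GG c B) (act c)
        (fun e _ ω => act_flp c e ω)
        (fun e he ω ha hω => by
          have := U_flp_of_act c e (GG_good c B e he) ω ha hω
          exact_mod_cast this)
        (fun e he ω => by
          simp only [hD]
          rw [D_flp c B σ ω e he]) κ x η hκ0 hx0.le hx1 hη0.le hT' hF' j).1
      have h3 : (1 + (n : ℝ) / ((1 - p) * κ)) * η ≤ (1 + 2 / p ^ 3) * η :=
        mul_le_mul_of_nonneg_right (by linarith) hη0.le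
      have h4 : R * Pr p (fun ω => D ω = d ∧ (U c ω : ℤ) = j + 1) + Kc =
        ((1 + x) * Pr p (fun ω => D ω = d ∧ (U c ω : ℤ) = j + 1) + (1 + 2 / p ^ 3) * η) /
          (1 - x) := by
        rw [hR, hKc]; field_simp
      rw [h4, le_div_iff₀ h1x]
      linarith
    · intro j
      have hr := (ratio h0 hp1 (fun ω => (U c ω : ℤ)) (fun ω => D ω = d) (GG c B) (act c)
        (fun e _ ω => act_flp c e ω)
        (fun e he ω ha hω => by
          have := U_flp_of_act c e (GG_good c B e he) ω ha hω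
          exact_mod_cast this)
        (fun e he ω => by
          simp only [hD]
          rw [D_flp c B σ ω e he]) κ x η hκ0 hx0.le hx1 hη0.le hT' hF' j).2
      have h3 : (1 + (n : ℝ) / (p * κ)) * η ≤ (1 + 2 / p ^ 3) * η :=
        mul_le_mul_of_nonneg_right (by linarith) hη0.le
      have h4 : R * Pr p (fun ω => D ω = d ∧ (U c ω : ℤ) = j) + Kc =
        ((1 + x) * Pr p (fun ω => D ω = d ∧ (U c ω : ℤ) = j) + (1 + 2 / p ^ 3) * η) /
          (1 - x) := by
        rw [hR, hKc]; field_simp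
      rw [h4, le_div_iff₀ h1x]
      linarith
  have hPk : Pr p (fun ω => U c ω = k) =
      ∑ d ∈ Finset.Icc (-(b : ℤ)) b, Pr p (fun ω => D ω = d ∧ (U c ω : ℤ) = k) := by
    rw [← Pr_fiber p D _ hDS (fun ω => (U c ω : ℤ) = k)]
    exact Pr_congr fun ω => by norm_cast
  have hPj : Pr p (fun ω => (U c (mix B σ ω) : ℤ) = j) =
      ∑ d ∈ Finset.Icc (-(b : ℤ)) b, Pr p (fun ω => D ω = d ∧ (U c ω : ℤ) = j - d) := by
    rw [Pr_fiber p D _ hDS (fun ω => (U c (mix B σ ω) : ℤ) = j)]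
    refine Finset.sum_congr rfl fun d _ => Pr_congr fun ω => ?_
    simp only [hD]
    constructor
    · rintro ⟨h1, h2⟩; exact ⟨h1, by omega⟩
    · rintro ⟨h1, h2⟩; exact ⟨h1, by omega⟩
  have hcard : ((Finset.Icc (-(b : ℤ)) b).card : ℝ) = 2 * b + 1 := by
    rw [Int.card_Icc]
    have : ((b : ℤ) + 1 - -(b : ℤ)).toNat = 2 * b + 1 := by omega
    rw [this]; push_cast; ring
  have hdist : ∀ d ∈ Finset.Icc (-(b : ℤ)) b, |j - d - k| ≤ (2 * b : ℕ) := by
    intro d hd
    rw [Finset.mem_Icc] at hd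
    rw [abs_le] at hj ⊢
    push_cast
    constructor <;> linarith [hd.1, hd.2, hj.1, hj.2]
  have hlow := pmf_lower h0.le hp1.le c k hhalf hkEU
  have hsmall := hN2 n hn2
  have hsmall' : (2 * b + 1) * (R ^ (2 * b) * (((2 * b : ℕ) : ℝ) * Kc)) ≤
      ε / 2 * Pr p (fun ω => U c ω = k) := by
    have e1 : (2 * (b : ℝ) + 1) * (R ^ (2 * b) * (((2 * b : ℕ) : ℝ) * Kc)) =
        ((2 * b + 1) * (R ^ (2 * b) * ((2 * b) * ((1 + 2 / p ^ 3) / (1 - x))))) *
          (2 * Real.exp (-(τ ^ 2 / 36 * n))) := by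
      have : -(τ ^ 2 * n / 36) = -(τ ^ 2 / 36 * n) := by ring
      rw [hKc, hη, this]; push_cast; ring
    rw [e1]
    refine le_trans hsmall ?_
    exact mul_le_mul_of_nonneg_left hlow (by positivity)
  have hup : Pr p (fun ω => (U c (mix B σ ω) : ℤ) = j) ≤
      (1 + ε / 2) * Pr p (fun ω => U c ω = k) + ε / 2 * Pr p (fun ω => U c ω = k) := by
    have h1 : Pr p (fun ω => (U c (mix B σ ω) : ℤ) = j) ≤
        ∑ d ∈ Finset.Icc (-(b : ℤ)) b, (R ^ (2 * b) *
          (Pr p (fun ω => D ω = d ∧ (U c ω : ℤ) = k) + (2 * b : ℕ) * Kc)) := by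
      rw [hPj]
      exact Finset.sum_le_sum fun d hd => hchain d _ _ (hdist d hd)
    rw [← Finset.mul_sum, Finset.sum_add_distrib, ← hPk, Finset.sum_const, nsmul_eq_mul,
      hcard] at h1
    have h2 : R ^ (2 * b) * Pr p (fun ω => U c ω = k) ≤
        (1 + ε / 2) * Pr p (fun ω => U c ω = k) :=
      mul_le_mul_of_nonneg_right hxR (Pr_nonneg h0.le hp1.le _)
    have h3 : R ^ (2 * b) * ((2 * (b : ℝ) + 1) * (((2 * b : ℕ) : ℝ) * Kc)) =
        (2 * b + 1) * (R ^ (2 * b) * (((2 * b : ℕ) : ℝ) * Kc)) := by ring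
    rw [mul_add, h3] at h1
    linarith
  have hdown : Pr p (fun ω => U c ω = k) ≤
      (1 + ε / 2) * Pr p (fun ω => (U c (mix B σ ω) : ℤ) = j) +
        ε / 2 * Pr p (fun ω => U c ω = k) := by
    have h1 : Pr p (fun ω => U c ω = k) ≤
        ∑ d ∈ Finset.Icc (-(b : ℤ)) b, (R ^ (2 * b) *
          (Pr p (fun ω => D ω = d ∧ (U c ω : ℤ) = j - d) + (2 * b : ℕ) * Kc)) := by
      conv_lhs => rw [hPk]
      refine Finset.sum_le_sum fun d hd => hchain d _ _ ?_
      have := hdist d hd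
      rwa [abs_sub_comm] at this
    rw [← Finset.mul_sum, Finset.sum_add_distrib, ← hPj, Finset.sum_const, nsmul_eq_mul,
      hcard] at h1
    have h2 : R ^ (2 * b) * Pr p (fun ω => (U c (mix B σ ω) : ℤ) = j) ≤
        (1 + ε / 2) * Pr p (fun ω => (U c (mix B σ ω) : ℤ) = j) :=
      mul_le_mul_of_nonneg_right hxR (Pr_nonneg h0.le hp1.le _)
    have h3 : R ^ (2 * b) * ((2 * (b : ℝ) + 1) * (((2 * b : ℕ) : ℝ) * Kc)) =
        (2 * b + 1) * (R ^ (2 * b) * (((2 * b : ℕ) : ℝ) * Kc)) := by ring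
    rw [mul_add, h3] at h1
    linarith
  have hPk0 := Pr_nonneg h0.le hp1.le (fun ω => U c ω = k)
  exact final_num _ _ ε hε hPk0 hup hdown

end Pool.Agent.Lib.MP_eb8f1d_pr
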