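import Pool.Agent.Lib.MP_eb8f1d_pr.Defs

/-!
# Coins with coloured sides: medians and explicit distribution functions
-/

set_option autoImplicit false

namespace Pool.Agent.Lib.MP_eb8f1d_pr

open Finset

variable {n : ℕ}

/-- the largest median of the number of visible colours -/
noncomputable def med (p : ℝ) (c : Coloring n) : ℕ :=
  sSup {m : ℕ | 1 / 2 ≤ Pr p (fun ω => m ≤ seen c ω)}

/-- the maximum of the median over all colourings of `n` coins -/
noncomputable def M (n : ℕ) (p : ℝ) : ℕ := sSup (Set.range (fun c : Coloring n => med p c))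

/-- `P(Bin(N, r) < k)` -/
noncomputable def bcdf (N : ℕ) (r : ℝ) (k : ℕ) : ℝ := ∑ j ∈ range k, bin N r j

/-- `P(U ≤ k)` for `n / 2` pairs -/
noncomputable def F2 (n : ℕ) (a : ℝ) (k : ℕ) : ℝ := bcdf (n / 2) (2 * a) (k + 1)

/-- `P(U ≤ k)` for a triangle and `(n - 3) / 2` pairs -/
noncomputable def F3 (n : ℕ) (a : ℝ) (k : ℕ) : ℝ :=
  (1 - 3 * a) * bcdf ((n - 3) / 2) (2 * a) (k + 1) + 3 * a * bcdf ((n - 3) / 2) (2 * a) k

/-- `P(U ≤ k)` for a cycle of five coins and `(n - 5) / 2` pairs -/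
noncomputable def F5 (n : ℕ) (a : ℝ) (k : ℕ) : ℝ :=
  (1 - 5 * a + 5 * a ^ 2) * bcdf ((n - 5) / 2) (2 * a) (k + 1) +
    (5 * a - 10 * a ^ 2) * bcdf ((n - 5) / 2) (2 * a) k +
    5 * a ^ 2 * bcdf ((n - 5) / 2) (2 * a) (k - 1)

end Pool.Agent.Lib.MP_eb8f1d_pr
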