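import Pool.Agent.Lib.MP_eb8f1d_pr.LocalIndep

set_option autoImplicit false

namespace Pool.Agent.Lib.MP_eb8f1d_pr

open Finset

variable {n : ℕ}

/-- no coin of the set `S` shows the colour `v` -/
def NoShow (c : Coloring n) (S : Finset (Fin n)) (v : Fin n) (ω : Fin n → Bool) : Prop :=
  ∀ i ∈ S, vis c ω i ≠ v

theorem Pr_noShow_le {p : ℝ} (h0 : 0 < p) (hp : p < 1 / 2) (c : Coloring n) (S : Finset (Fin n))
    (v : Fin n) (hS : ∀ i ∈ S, c.h i = v ∨ c.t i = v) :
    Pr p (NoShow c S v) ≤ (1 - p) ^ S.card := by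
  classical
  rw [Pr_eq]
  have h : ∀ ω : Fin n → Bool, (if NoShow c S v ω then (1 : ℝ) else 0) =
      ∏ i, (fun i b => if i ∈ S ∧ (if b then c.h i else c.t i) = v then (0 : ℝ) else 1) i (ω i) := by
    intro ω
    by_cases hN : NoShow c S v ω
    · rw [if_pos hN]
      symm
      apply Finset.prod_eq_one
      intro i _
      simp only
      rw [if_neg]
      rintro ⟨hi, he⟩
      exact hN i hi he
    · rw [if_neg hN]
      symm
      unfold NoShow at hN
      push Not at hN
      obtain ⟨i, hi, he⟩ := hN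
      apply Finset.prod_eq_zero (Finset.mem_univ i)
      simp only
      rw [if_pos ⟨hi, he⟩]
  rw [Ex_congr h,
    Ex_prod p (fun i b => if i ∈ S ∧ (if b then c.h i else c.t i) = v then (0 : ℝ) else 1)]
  have h2 : ∏ i : Fin n, (p * (if i ∈ S ∧ (if true = true then c.h i else c.t i) = v then (0 : ℝ) else 1) +
      (1 - p) * (if i ∈ S ∧ (if false = true then c.h i else c.t i) = v then (0 : ℝ) else 1)) ≤
      ∏ i : Fin n, (if i ∈ S then (1 - p) else 1) := by
    apply Finset.prod_le_prod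
    · intro i _
      apply add_nonneg
      · apply mul_nonneg h0.le
        split_ifs <;> norm_num
      · apply mul_nonneg (by linarith)
        split_ifs <;> norm_num
    · intro i _
      by_cases hi : i ∈ S
      · rcases hS i hi with hv | hv
        · have hne : c.t i ≠ v := fun h => c.ne i (by rw [hv, h])
          simp [hi, hv, hne]
        · have hne : c.h i ≠ v := fun h => c.ne i (by rw [hv, h])
          simp [hi, hv, hne]
          linarith
      · simp [hi]
  refine h2.trans (le_of_eq ?_)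
  rw [Finset.prod_ite_mem]
  simp

/-- the value of `U` as a sum -/
theorem U_eq_sumZ (c : Coloring n) (ω : Fin n → Bool) :
    (U c ω : ℤ) = ∑ v, (if Unseen c ω v then (1 : ℤ) else 0) := by
  unfold U
  rw [Finset.card_filter]
  push_cast
  rfl

/-- one-step increments of a distribution function -/
theorem cdf_step (p : ℝ) (V : (Fin n → Bool) → ℤ) (x : ℤ) :
    Pr p (fun ω => V ω ≤ x + 1) = Pr p (fun ω => V ω ≤ x) + Pr p (fun ω => V ω = x + 1) := by
  classical
  rw [Pr_eq, Pr_eq, Pr_eq, ← Ex_add]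
  refine Ex_congr fun ω => ?_
  by_cases h1 : V ω ≤ x
  · have h2 : V ω ≤ x + 1 := by omega
    have h3 : ¬ V ω = x + 1 := by omega
    simp [h1, h2, h3]
  · by_cases h2 : V ω = x + 1
    · have h3 : V ω ≤ x + 1 := by omega
      simp [h2]
    · have h3 : ¬ V ω ≤ x + 1 := by omega
      simp [h1, h2, h3]

theorem cdf_up (p : ℝ) (V : (Fin n → Bool) → ℤ) (k : ℤ) (P ε : ℝ) (m : ℕ)
    (h : ∀ j : ℤ, |j - k| ≤ m → |Pr p (fun ω => V ω = j) - P| ≤ ε * P) (d : ℕ) (hd : d ≤ m) :
    Pr p (fun ω => V ω ≤ k) + d * ((1 - ε) * P) ≤ Pr p (fun ω => V ω ≤ k + d) := by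
  induction d with
  | zero => simp
  | succ d ih =>
    have ih' := ih (by omega)
    have hs := cdf_step p V (k + d)
    have hb := h (k + d + 1) (by
      rw [show k + (d : ℤ) + 1 - k = ((d + 1 : ℕ) : ℤ) by push_cast; ring, abs_of_nonneg (by positivity)]
      exact_mod_cast hd)
    have hb' := (abs_le.mp hb).1
    have e1 : (k + ((d + 1 : ℕ) : ℤ)) = k + d + 1 := by push_cast; ring
    rw [e1, hs]
    push_cast
    linarith

theorem cdf_down (p : ℝ) (V : (Fin n → Bool) → ℤ) (k : ℤ) (P ε : ℝ) (m : ℕ)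
    (h : ∀ j : ℤ, |j - k| ≤ m → |Pr p (fun ω => V ω = j) - P| ≤ ε * P) (d : ℕ) (hd : d ≤ m) :
    Pr p (fun ω => V ω ≤ k) - d * ((1 + ε) * P) ≤ Pr p (fun ω => V ω ≤ k - d) := by
  induction d with
  | zero => simp
  | succ d ih =>
    have ih' := ih (by omega)
    have hs := cdf_step p V (k - d - 1)
    have hb := h (k - d) (by
      rw [show k - (d : ℤ) - k = -(d : ℤ) by ring, abs_neg, abs_of_nonneg (by positivity)]
      have : (d : ℤ) ≤ (m : ℤ) := by exact_mod_cast (by omega : d ≤ m)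
      exact this)
    have hb' := (abs_le.mp hb).2
    have e1 : (k - ((d + 1 : ℕ) : ℤ)) = k - d - 1 := by push_cast; ring
    rw [e1]
    rw [show k - (d : ℤ) - 1 + 1 = k - d by ring] at hs
    push_cast
    linarith

theorem cdf_shift (p : ℝ) (V : (Fin n → Bool) → ℤ) (k : ℤ) (P ε : ℝ) (m : ℕ) (hP : 0 ≤ P)
    (hε : 0 ≤ ε)
    (h : ∀ j : ℤ, |j - k| ≤ m → |Pr p (fun ω => V ω = j) - P| ≤ ε * P) (φ : ℤ) (hφ : |φ| ≤ m) :
    Pr p (fun ω => V ω ≤ k) - φ * P - m * (ε * P) ≤ Pr p (fun ω => V ω ≤ k - φ) := by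
  have hεP : 0 ≤ ε * P := mul_nonneg hε hP
  rcases le_total 0 φ with h0 | h0
  · obtain ⟨d, rfl⟩ := Int.eq_ofNat_of_zero_le h0
    have hd : d ≤ m := by
      rw [abs_of_nonneg h0] at hφ
      exact_mod_cast hφ
    have := cdf_down p V k P ε m h d hd
    have hd' : (d : ℝ) ≤ m := by exact_mod_cast hd
    have : (d : ℝ) * (ε * P) ≤ m * (ε * P) := mul_le_mul_of_nonneg_right hd' hεP
    push_cast
    nlinarith
  · obtain ⟨d, hd0⟩ := Int.eq_ofNat_of_zero_le (neg_nonneg.mpr h0)
    have hφd : φ = -(d : ℤ) := by linarith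
    subst hφd
    have hd : d ≤ m := by
      rw [abs_neg, abs_of_nonneg (by positivity)] at hφ
      exact_mod_cast hφ
    have h1 := cdf_up p V k P ε m h d hd
    have hd' : (d : ℝ) ≤ m := by exact_mod_cast hd
    have : (d : ℝ) * (ε * P) ≤ m * (ε * P) := mul_le_mul_of_nonneg_right hd' hεP
    rw [show k - -(d : ℤ) = k + d by ring]
    push_cast
    nlinarith

/-- abstract comparison: `U' ≤ U + Φ` with `Φ` local -/
theorem compare {p : ℝ} (h0 : 0 < p) (h1 : p < 1) (V V' Φ : (Fin n → Bool) → ℤ) (B : Finset (Fin n))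
    (k : ℤ) (P ε : ℝ) (m : ℕ) (hP : 0 ≤ P) (hε : 0 ≤ ε)
    (h : ∀ σ : Fin n → Bool, ∀ j : ℤ, |j - k| ≤ m →
      |Pr p (fun ω => V (mix B σ ω) = j) - P| ≤ ε * P)
    (hΦB : ∀ σ ω, Φ (mix B σ ω) = Φ σ) (hΦm : ∀ ω, |Φ ω| ≤ m)
    (hV : ∀ ω, V' ω ≤ V ω + Φ ω) :
    Pr p (fun ω => V ω ≤ k) - Ex p (fun ω => (Φ ω : ℝ)) * P - m * (ε * P) ≤
      Pr p (fun ω => V' ω ≤ k) := by
  classical
  have s1 : Pr p (fun ω => V ω + Φ ω ≤ k) ≤ Pr p (fun ω => V' ω ≤ k) :=
    Pr_mono h0.le h1.le fun ω hω => (hV ω).trans hω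
  have s2 : Pr p (fun ω => V ω + Φ ω ≤ k) =
      Ex p (fun σ => Pr p (fun ω => V (mix B σ ω) ≤ k - Φ σ)) := by
    rw [Pr_eq, ← Ex_mix p B]
    refine Ex_congr fun σ => ?_
    rw [Pr_eq]
    refine Ex_congr fun ω => ?_
    rw [hΦB]
    congr 1
    apply propext
    constructor <;> intro h <;> linarith
  have s3 : Pr p (fun ω => V ω ≤ k) = Ex p (fun σ => Pr p (fun ω => V (mix B σ ω) ≤ k)) := by
    rw [Pr_eq, ← Ex_mix p B]
    refine Ex_congr fun σ => ?_
    rw [Pr_eq]
  have s4 : Ex p (fun σ => Pr p (fun ω => V (mix B σ ω) ≤ k) - (Φ σ : ℝ) * P - m * (ε * P)) ≤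
      Ex p (fun σ => Pr p (fun ω => V (mix B σ ω) ≤ k - Φ σ)) :=
    Ex_mono h0.le h1.le fun σ =>
      cdf_shift p (fun ω => V (mix B σ ω)) k P ε m hP hε (h σ) (Φ σ) (hΦm σ)
  rw [Ex_sub, Ex_sub, Ex_const, ← s3, ← s2] at s4
  have s5 : Ex p (fun σ : Fin n → Bool => (Φ σ : ℝ) * P) = Ex p (fun ω => (Φ ω : ℝ)) * P := by
    rw [mul_comm _ P, ← Ex_const_mul]
    exact Ex_congr fun σ => mul_comm _ _
  rw [s5] at s4
  exact s4.trans s1

/-- colours touched by the coins of `S` in one of the colourings -/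
def touched (c c' : Coloring n) (S : Finset (Fin n)) : Finset (Fin n) :=
  (S.image c.h ∪ S.image c.t) ∪ (S.image c'.h ∪ S.image c'.t)

theorem card_touched (c c' : Coloring n) (S : Finset (Fin n)) :
    (touched c c' S).card ≤ 4 * S.card := by
  unfold touched
  have h1 := Finset.card_union_le (S.image c.h ∪ S.image c.t) (S.image c'.h ∪ S.image c'.t)
  have h2 := Finset.card_union_le (S.image c.h) (S.image c.t)
  have h3 := Finset.card_union_le (S.image c'.h) (S.image c'.t)
  have h4 : (S.image c.h).card ≤ S.card := Finset.card_image_le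
  have h5 : (S.image c.t).card ≤ S.card := Finset.card_image_le
  have h6 : (S.image c'.h).card ≤ S.card := Finset.card_image_le
  have h7 : (S.image c'.t).card ≤ S.card := Finset.card_image_le
  omega

theorem vis_ne_of_not_touch (c : Coloring n) (ω : Fin n → Bool) (i v : Fin n) (h1 : c.h i ≠ v)
    (h2 : c.t i ≠ v) : vis c ω i ≠ v := by
  unfold vis
  split_ifs <;> assumption

theorem mod_lemma (p : ℝ) (h0 : 0 < p) (hp : p < 1 / 2) (s : ℕ) (δ : ℝ) (hδ : 0 < δ) :
    ∃ N : ℕ, ∀ n ≥ N, ∀ (c c' : Coloring n) (k : ℕ), (k : ℝ) < n * (p * (1 - p)) →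
      1 / 2 ≤ Pr p (fun ω => U c ω ≤ k) → (diffSet c c').card ≤ s → EU p c' ≤ EU p c - δ →
      Pr p (fun ω => U c ω ≤ k) < Pr p (fun ω => U c' ω ≤ k) := by
  classical
  have h1 : p < 1 := by linarith
  have hq0 : 0 < 1 - p := by linarith
  set m : ℕ := 4 * s with hm
  -- choice of `A₀`
  obtain ⟨A₀, hA₀⟩ : ∃ A₀ : ℕ, (1 - p) ^ A₀ < δ / (8 * (m + 1)) :=
    exists_pow_lt_of_lt_one (by positivity) (by linarith)
  set ε : ℝ := δ / (4 * (m + 1)) with hε
  have hε0 : 0 < ε := by positivity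
  obtain ⟨N1, hN1⟩ := local_indep p h0 hp (s + m * A₀ + m) ε hε0
  obtain ⟨κ, hκ, hex⟩ := excess p h0 hp
  refine ⟨max N1 1, fun n hn c c' k hk hhalf hd hE => ?_⟩
  have hnN : N1 ≤ n := (le_max_left _ _).trans hn
  have hn1 : 1 ≤ n := (le_max_right _ _).trans hn
  -- positivity of the atom
  have hEUn : (n : ℝ) * (p * (1 - p)) ≤ EU p c := by
    have := hex n c
    have h' : 0 ≤ κ * (univ.filter (fun v => ¬ (da c v = 1 ∧ db c v = 1))).card := by positivity
    linarith
  have hPk : 0 < Pr p (fun ω => U c ω = k) := by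
    refine lt_of_lt_of_le ?_ (pmf_lower h0.le h1.le c k hhalf (by linarith))
    have : (0 : ℝ) < n := by exact_mod_cast hn1
    positivity
  set P : ℝ := Pr p (fun ω => U c ω = k) with hPdef
  set S : Finset (Fin n) := diffSet c c' with hS
  have hSout : ∀ i, i ∉ S → c.h i = c'.h i ∧ c.t i = c'.t i := by
    intro i hi
    simp only [hS, diffSet, Finset.mem_filter, Finset.mem_univ, true_and, not_or, not_not] at hi
    exact hi
  set Vm : Finset (Fin n) := touched c c' S with hVm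
  have hVmcard : Vm.card ≤ m := (card_touched c c' S).trans (by omega)
  have hnt : ∀ v, v ∉ Vm → ∀ i ∈ S, c.h i ≠ v ∧ c.t i ≠ v ∧ c'.h i ≠ v ∧ c'.t i ≠ v := by
    intro v hv i hi
    refine ⟨?_, ?_, ?_, ?_⟩ <;> rintro rfl <;> apply hv <;>
      simp only [hVm, touched, Finset.mem_union, Finset.mem_image]
    · exact Or.inl (Or.inl ⟨i, hi, rfl⟩)
    · exact Or.inl (Or.inr ⟨i, hi, rfl⟩)
    · exact Or.inr (Or.inl ⟨i, hi, rfl⟩)
    · exact Or.inr (Or.inr ⟨i, hi, rfl⟩)
  -- the coins outside `S` touching `v`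
  let I : Fin n → Finset (Fin n) := fun v => univ.filter (fun i => i ∉ S ∧ (c.h i = v ∨ c.t i = v))
  have hI : ∀ v i, i ∈ I v ↔ i ∉ S ∧ (c.h i = v ∨ c.t i = v) := by
    intro v i; simp [I]
  have hJex : ∀ v, ∃ J : Finset (Fin n), J ⊆ I v ∧ J.card ≤ A₀ ∧
      ((I v).card ≤ A₀ → J = I v) ∧ (¬ (I v).card ≤ A₀ → J.card = A₀) := by
    intro v
    by_cases hc : (I v).card ≤ A₀
    · exact ⟨I v, subset_rfl, hc, fun _ => rfl, fun h => absurd hc h⟩
    · obtain ⟨J, hJ1, hJ2⟩ := Finset.exists_subset_card_eq (s := I v) (n := A₀) (by omega)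
      exact ⟨J, hJ1, hJ2.le, fun h => absurd h hc, fun _ => hJ2⟩
  choose J hJsub hJcard hJlow hJhigh using hJex
  let B : Finset (Fin n) := S ∪ Vm.biUnion J
  have hBcard : B.card ≤ s + m * A₀ := by
    have e1 : B.card ≤ S.card + (Vm.biUnion J).card := Finset.card_union_le _ _
    have e2 : (Vm.biUnion J).card ≤ Vm.card * A₀ := Finset.card_biUnion_le_card_mul _ _ _
      fun v _ => hJcard v
    have e3 : Vm.card * A₀ ≤ m * A₀ := Nat.mul_le_mul_right _ hVmcard
    omega
  let ψ : Fin n → (Fin n → Bool) → ℤ := fun v ω =>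
    if (I v).card ≤ A₀ then (if Unseen c' ω v then (1 : ℤ) else 0) - (if Unseen c ω v then 1 else 0)
    else (if NoShow c (J v) v ω then 1 else 0)
  let Φ : (Fin n → Bool) → ℤ := fun ω => ∑ v ∈ Vm, ψ v ω
  -- `Unseen` implies `NoShow`
  have hUN : ∀ v ω, Unseen c ω v → NoShow c (J v) v ω := fun v ω h i _ => h i
  have hUN' : ∀ v ω, Unseen c' ω v → NoShow c (J v) v ω := by
    intro v ω h i hi
    have hiS : i ∉ S := ((hI v i).mp (hJsub v hi)).1
    have := h i
    unfold vis at this ⊢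
    rwa [(hSout i hiS).1, (hSout i hiS).2]
  have hψabs : ∀ v ω, |ψ v ω| ≤ 1 := by
    intro v ω
    simp only [ψ]
    split_ifs <;> norm_num
  have hψge : ∀ v ω, (if Unseen c' ω v then (1 : ℤ) else 0) - (if Unseen c ω v then 1 else 0) ≤
      ψ v ω := by
    intro v ω
    simp only [ψ]
    by_cases hc : (I v).card ≤ A₀
    · rw [if_pos hc]
    · rw [if_neg hc]
      by_cases hU' : Unseen c' ω v
      · rw [if_pos hU', if_pos (hUN' v ω hU')]
        split_ifs <;> norm_num
      · rw [if_neg hU']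
        split_ifs <;> norm_num
  have hΦm : ∀ ω, |Φ ω| ≤ (m : ℤ) := by
    intro ω
    calc |Φ ω| ≤ ∑ v ∈ Vm, |ψ v ω| := Finset.abs_sum_le_sum_abs _ _
      _ ≤ ∑ v ∈ Vm, 1 := Finset.sum_le_sum fun v _ => hψabs v ω
      _ = Vm.card := by simp
      _ ≤ m := by exact_mod_cast hVmcard
  have hVV : ∀ ω, (U c' ω : ℤ) ≤ (U c ω : ℤ) + Φ ω := by
    intro ω
    have e1 : (U c' ω : ℤ) - (U c ω : ℤ) =
        ∑ v, ((if Unseen c' ω v then (1 : ℤ) else 0) - (if Unseen c ω v then 1 else 0)) := by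
      rw [U_eq_sumZ, U_eq_sumZ, Finset.sum_sub_distrib]
    have e2 : ∑ v, ((if Unseen c' ω v then (1 : ℤ) else 0) - (if Unseen c ω v then 1 else 0)) =
        ∑ v ∈ Vm, ((if Unseen c' ω v then (1 : ℤ) else 0) - (if Unseen c ω v then 1 else 0)) := by
      symm
      apply Finset.sum_subset (Finset.subset_univ _)
      intro v _ hv
      have : Unseen c' ω v ↔ Unseen c ω v := by
        unfold Unseen
        apply forall_congr'
        intro i
        by_cases hi : i ∈ S
        · obtain ⟨a1, a2, a3, a4⟩ := hnt v hv i hi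
          have b1 := vis_ne_of_not_touch c ω i v a1 a2
          have b2 := vis_ne_of_not_touch c' ω i v a3 a4
          simp [b1, b2]
        · unfold vis
          rw [(hSout i hi).1, (hSout i hi).2]
      simp [this]
    have e3 : ∑ v ∈ Vm, ((if Unseen c' ω v then (1 : ℤ) else 0) - (if Unseen c ω v then 1 else 0)) ≤
        Φ ω := Finset.sum_le_sum fun v _ => hψge v ω
    linarith
  have hΦB : ∀ σ ω, Φ (mix B σ ω) = Φ σ := by
    intro σ ω
    refine Finset.sum_congr rfl fun v hv => ?_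
    have hvis : ∀ (d : Coloring n), ∀ i ∈ B, vis d (mix B σ ω) i = vis d σ i := by
      intro d i hi
      unfold vis mix
      simp [hi]
    have hJB : J v ⊆ B := fun i hi =>
      Finset.mem_union_right _ (Finset.mem_biUnion.mpr ⟨v, hv, hi⟩)
    simp only [ψ]
    by_cases hc : (I v).card ≤ A₀
    · rw [if_pos hc, if_pos hc]
      have hJI := hJlow v hc
      have k1 : Unseen c' (mix B σ ω) v ↔ Unseen c' σ v := by
        unfold Unseen
        apply forall_congr'
        intro i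
        by_cases hi : i ∈ B
        · rw [hvis c' i hi]
        · have hiS : i ∉ S := fun h => hi (Finset.mem_union_left _ h)
          have hiI : i ∉ I v := fun h => hi (hJB (hJI ▸ h))
          rw [hI] at hiI
          push Not at hiI
          obtain ⟨a1, a2⟩ := hiI hiS
          rw [(hSout i hiS).1] at a1
          rw [(hSout i hiS).2] at a2
          have b1 := vis_ne_of_not_touch c' (mix B σ ω) i v a1 a2
          have b2 := vis_ne_of_not_touch c' σ i v a1 a2
          simp [b1, b2]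
      have k2 : Unseen c (mix B σ ω) v ↔ Unseen c σ v := by
        unfold Unseen
        apply forall_congr'
        intro i
        by_cases hi : i ∈ B
        · rw [hvis c i hi]
        · have hiS : i ∉ S := fun h => hi (Finset.mem_union_left _ h)
          have hiI : i ∉ I v := fun h => hi (hJB (hJI ▸ h))
          rw [hI] at hiI
          push Not at hiI
          obtain ⟨a1, a2⟩ := hiI hiS
          have b1 := vis_ne_of_not_touch c (mix B σ ω) i v a1 a2
          have b2 := vis_ne_of_not_touch c σ i v a1 a2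
          simp [b1, b2]
      simp [k1, k2]
    · rw [if_neg hc, if_neg hc]
      have k1 : NoShow c (J v) v (mix B σ ω) ↔ NoShow c (J v) v σ := by
        unfold NoShow
        apply forall_congr'
        intro i
        constructor
        · intro h hi
          rw [← hvis c i (hJB hi)]
          exact h hi
        · intro h hi
          rw [hvis c i (hJB hi)]
          exact h hi
      simp [k1]
  -- expectation of `Φ`
  have hEψ : ∀ v ∈ Vm, Ex p (fun ω => (ψ v ω : ℝ)) ≤
      (Pr p (fun ω => Unseen c' ω v) - Pr p (fun ω => Unseen c ω v)) + 2 * (1 - p) ^ A₀ := by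
    intro v _
    have hpow : 0 ≤ (1 - p) ^ A₀ := by positivity
    by_cases hc : (I v).card ≤ A₀
    · have : Ex p (fun ω => (ψ v ω : ℝ)) =
          Pr p (fun ω => Unseen c' ω v) - Pr p (fun ω => Unseen c ω v) := by
        rw [Pr_eq, Pr_eq, ← Ex_sub]
        refine Ex_congr fun ω => ?_
        simp only [ψ]
        rw [if_pos hc]
        push_cast
        rfl
      rw [this]
      linarith
    · have e1 : Ex p (fun ω => (ψ v ω : ℝ)) = Pr p (NoShow c (J v) v) := by
        rw [Pr_eq]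
        refine Ex_congr fun ω => ?_
        simp only [ψ]
        rw [if_neg hc]
        push_cast
        rfl
      have e2 : Pr p (NoShow c (J v) v) ≤ (1 - p) ^ A₀ := by
        have := Pr_noShow_le h0 hp c (J v) v (fun i hi => ((hI v i).mp (hJsub v hi)).2)
        rwa [hJhigh v hc] at this
      have e3 : Pr p (fun ω => Unseen c ω v) ≤ (1 - p) ^ A₀ :=
        (Pr_mono h0.le h1.le fun ω => hUN v ω).trans e2
      have e4 : 0 ≤ Pr p (fun ω => Unseen c' ω v) := Pr_nonneg h0.le h1.le _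
      rw [e1]
      linarith
  have hEsum : ∑ v ∈ Vm, (Pr p (fun ω => Unseen c' ω v) - Pr p (fun ω => Unseen c ω v)) =
      EU p c' - EU p c := by
    rw [← Ex_U, ← Ex_U]
    have e1 : ∀ d : Coloring n, Ex p (fun ω => (U d ω : ℝ)) = ∑ v, Pr p (fun ω => Unseen d ω v) := by
      intro d
      have : ∀ ω : Fin n → Bool, (U d ω : ℝ) = ∑ v, (if Unseen d ω v then (1 : ℝ) else 0) := by
        intro ω
        have := U_eq_sumZ d ω
        have h' : ((U d ω : ℤ) : ℝ) = ((∑ v, (if Unseen d ω v then (1 : ℤ) else 0) : ℤ) : ℝ) := by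
          rw [this]
        push_cast at h'
        exact h'
      rw [Ex_congr this, Ex_sum]
      refine Finset.sum_congr rfl fun v _ => ?_
      rw [Pr_eq]
    rw [e1, e1, ← Finset.sum_sub_distrib]
    apply Finset.sum_subset (Finset.subset_univ _)
    intro v _ hv
    rw [sub_eq_zero]
    refine Pr_congr fun ω => ?_
    unfold Unseen
    apply forall_congr'
    intro i
    by_cases hi : i ∈ S
    · obtain ⟨a1, a2, a3, a4⟩ := hnt v hv i hi
      have b1 := vis_ne_of_not_touch c ω i v a1 a2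
      have b2 := vis_ne_of_not_touch c' ω i v a3 a4
      simp [b1, b2]
    · unfold vis
      rw [(hSout i hi).1, (hSout i hi).2]
  have hEΦ : Ex p (fun ω => (Φ ω : ℝ)) ≤ -(3 / 4 * δ) := by
    have e1 : Ex p (fun ω => (Φ ω : ℝ)) = ∑ v ∈ Vm, Ex p (fun ω => (ψ v ω : ℝ)) := by
      rw [← Ex_sum]
      refine Ex_congr fun ω => ?_
      simp only [Φ]
      push_cast
      rfl
    have e2 : Ex p (fun ω => (Φ ω : ℝ)) ≤ (EU p c' - EU p c) + Vm.card * (2 * (1 - p) ^ A₀) := by
      rw [e1, ← hEsum]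
      refine (Finset.sum_le_sum hEψ).trans (le_of_eq ?_)
      rw [Finset.sum_add_distrib]
      simp
    have e3 : (Vm.card : ℝ) * (2 * (1 - p) ^ A₀) ≤ (m : ℝ) * (2 * (δ / (8 * (m + 1)))) := by
      have : (Vm.card : ℝ) ≤ m := by exact_mod_cast hVmcard
      have h' : 0 ≤ (1 - p) ^ A₀ := by positivity
      apply mul_le_mul this _ (by positivity) (by positivity)
      linarith
    have e4 : (m : ℝ) * (2 * (δ / (8 * (m + 1)))) ≤ δ / 4 := by
      have hm0 : (0 : ℝ) < (m : ℝ) + 1 := by positivity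
      rw [show (m : ℝ) * (2 * (δ / (8 * (m + 1)))) = (m / (m + 1)) * (δ / 4) by field_simp; ring]
      have : (m : ℝ) / (m + 1) ≤ 1 := by
        rw [div_le_one hm0]; linarith
      nlinarith
    linarith
  have hloc : ∀ σ : Fin n → Bool, ∀ j : ℤ, |j - (k : ℤ)| ≤ (m : ℤ) →
      |Pr p (fun ω => (U c (mix B σ ω) : ℤ) = j) - P| ≤ ε * P := by
    intro σ j hj
    refine hN1 n hnN c k hk hhalf B ?_ σ j ?_
    · omega
    · have : (m : ℤ) ≤ ((s + m * A₀ + m : ℕ) : ℤ) := by
        exact_mod_cast (by omega : m ≤ s + m * A₀ + m)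
      exact hj.trans this
  have hmain := compare h0 h1 (fun ω => (U c ω : ℤ)) (fun ω => (U c' ω : ℤ)) Φ B k P ε m hPk.le
    hε0.le hloc hΦB hΦm hVV
  have c1 : Pr p (fun ω => (U c ω : ℤ) ≤ (k : ℤ)) = Pr p (fun ω => U c ω ≤ k) :=
    Pr_congr fun ω => by exact_mod_cast Iff.rfl
  have c2 : Pr p (fun ω => (U c' ω : ℤ) ≤ (k : ℤ)) = Pr p (fun ω => U c' ω ≤ k) :=
    Pr_congr fun ω => by exact_mod_cast Iff.rfl
  rw [c1, c2] at hmain
  have f1 : (m : ℝ) * (ε * P) ≤ δ / 4 * P := by
    have : (m : ℝ) * ε ≤ δ / 4 := by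
      have hm0 : (0 : ℝ) < (m : ℝ) + 1 := by positivity
      rw [hε, show (m : ℝ) * (δ / (4 * (m + 1))) = (m / (m + 1)) * (δ / 4) by field_simp]
      have : (m : ℝ) / (m + 1) ≤ 1 := by
        rw [div_le_one hm0]; linarith
      nlinarith
    nlinarith
  have f2 : Ex p (fun ω => (Φ ω : ℝ)) * P ≤ -(3 / 4 * δ) * P :=
    mul_le_mul_of_nonneg_right hEΦ hPk.le
  have f3 : 0 < δ * P := mul_pos hδ hPk
  nlinarith

end Pool.Agent.Lib.MP_eb8f1d_pr
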