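import Pool.Agent.Lib.MP_eb8f1d_pr.Basic

/-! # Elementary moves of colourings: move one heads side, or one tails side, from `u` to `v` -/

set_option autoImplicit false

namespace Pool.Agent.Lib.MP_eb8f1d_pr

open Finset

variable {n : ℕ}

/-- fibre sizes after changing one value of a function -/
theorem card_fibre_update (f : Fin n → Fin n) (e v : Fin n) (hv : f e ≠ v) (x : Fin n) :
    (univ.filter (fun i => Function.update f e v i = x)).card =
      if x = f e then (univ.filter (fun i => f i = f e)).card - 1
      else if x = v then (univ.filter (fun i => f i = v)).card + 1
      else (univ.filter (fun i => f i = x)).card := by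
  split_ifs with h1 h2
  · subst h1
    have : univ.filter (fun i => Function.update f e v i = f e) =
        (univ.filter (fun i => f i = f e)).erase e := by
      ext i
      by_cases hi : i = e
      · subst hi; simp [Ne.symm hv]
      · simp [hi]
    rw [this, Finset.card_erase_of_mem (by simp)]
  · subst h2
    have : univ.filter (fun i => Function.update f e x i = x) =
        insert e (univ.filter (fun i => f i = x)) := by
      ext i
      by_cases hi : i = e
      · subst hi; simp
      · simp [hi]
    rw [this, Finset.card_insert_of_notMem (by simp [hv])]
  · congr 1
    ext i
    by_cases hi : i = e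
    · subst hi; simp [Ne.symm h2, Ne.symm h1]
    · simp [Function.update_of_ne hi]

/-- fibre sizes are unchanged by a swap of two values -/
theorem card_fibre_comp (f : Fin n → Fin n) (s : Equiv.Perm (Fin n)) (x : Fin n) :
    (univ.filter (fun i => f (s i) = x)).card = (univ.filter (fun i => f i = x)).card := by
  refine Finset.card_bij' (fun i _ => s i) (fun i _ => s.symm i) ?_ ?_ ?_ ?_ <;> simp

theorem move_h (c : Coloring n) (u v : Fin n) (huv : u ≠ v) (hu : 1 ≤ da c u)
    (hv : da c v + db c v < n) : ∃ c' : Coloring n, (diffSet c c').card ≤ 2 ∧
      (∀ x, da c' x = if x = u then da c u - 1 else if x = v then da c v + 1 else da c x) ∧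
      (∀ x, db c' x = db c x) := by
  classical
  obtain ⟨e, he⟩ : ∃ e, c.h e = u := by
    have : 0 < (univ.filter (fun i => c.h i = u)).card := hu
    obtain ⟨e, he⟩ := Finset.card_pos.mp this
    exact ⟨e, (Finset.mem_filter.mp he).2⟩
  subst he
  by_cases ht : c.t e = v
  · -- choose another coin
    obtain ⟨e', h1, h2⟩ : ∃ e', c.h e' ≠ v ∧ c.t e' ≠ v := by
      by_contra hcon
      push Not at hcon
      have hcov : (univ : Finset (Fin n)) ⊆
          univ.filter (fun i => c.h i = v) ∪ univ.filter (fun i => c.t i = v) := by
        intro i _
        rw [Finset.mem_union]
        by_cases hi : c.h i = v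
        · left; simpa using hi
        · right; simpa using hcon i hi
      have := Finset.card_le_card hcov
      have h3 := Finset.card_union_le (univ.filter (fun i => c.h i = v))
        (univ.filter (fun i => c.t i = v))
      rw [Finset.card_univ, Fintype.card_fin] at this
      unfold da db at hv
      omega
    have hne : e ≠ e' := by
      intro h; subst h; exact h2 ht
    let c' : Coloring n :=
      { h := Function.update c.h e v
        t := fun i => c.t (Equiv.swap e e' i)
        ne := by
          intro i
          by_cases hi : i = e
          · subst hi; simpa using (Ne.symm h2)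
          · rw [Function.update_of_ne hi]
            by_cases hi' : i = e'
            · subst hi'; simpa [ht] using h1
            · rw [Equiv.swap_apply_of_ne_of_ne hi hi']; exact c.ne i }
    refine ⟨c', ?_, ?_, ?_⟩
    · have : diffSet c c' ⊆ {e, e'} := by
        intro i hi
        by_contra hcon
        simp only [Finset.mem_insert, Finset.mem_singleton, not_or] at hcon
        rw [diffSet, Finset.mem_filter] at hi
        rcases hi.2 with h | h
        · exact h (by simp [c', Function.update_of_ne hcon.1])
        · exact h (by simp [c', Equiv.swap_apply_of_ne_of_ne hcon.1 hcon.2])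
      refine (Finset.card_le_card this).trans ?_
      exact (Finset.card_insert_le _ _).trans (by simp)
    · intro x
      exact card_fibre_update c.h e v huv x
    · intro x
      exact card_fibre_comp c.t (Equiv.swap e e') x
  · let c' : Coloring n :=
      { h := Function.update c.h e v
        t := c.t
        ne := by
          intro i
          by_cases hi : i = e
          · subst hi; simpa using (Ne.symm ht)
          · rw [Function.update_of_ne hi]; exact c.ne i }
    refine ⟨c', ?_, ?_, fun x => rfl⟩
    · have : diffSet c c' ⊆ {e} := by
        intro i hi
        by_contra hcon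
        simp only [Finset.mem_singleton] at hcon
        rw [diffSet, Finset.mem_filter] at hi
        rcases hi.2 with h | h
        · exact h (by simp [c', Function.update_of_ne hcon])
        · exact h rfl
      refine (Finset.card_le_card this).trans (by simp)
    · intro x
      exact card_fibre_update c.h e v huv x

/-- exchange the heads and tails sides -/
def swapC (c : Coloring n) : Coloring n where
  h := c.t
  t := c.h
  ne := fun i => (c.ne i).symm

theorem move_t (c : Coloring n) (u v : Fin n) (huv : u ≠ v) (hu : 1 ≤ db c u)
    (hv : da c v + db c v < n) : ∃ c' : Coloring n, (diffSet c c').card ≤ 2 ∧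
      (∀ x, db c' x = if x = u then db c u - 1 else if x = v then db c v + 1 else db c x) ∧
      (∀ x, da c' x = da c x) := by
  obtain ⟨c', h1, h2, h3⟩ := move_h (swapC c) u v huv hu (by
    have : da (swapC c) v + db (swapC c) v = da c v + db c v := add_comm _ _
    omega)
  refine ⟨swapC c', ?_, h2, h3⟩
  have : diffSet c (swapC c') = diffSet (swapC c) c' := by
    ext i
    simp only [diffSet, Finset.mem_filter, Finset.mem_univ, true_and]
    exact or_comm
  rw [this]
  exact h1

end Pool.Agent.Lib.MP_eb8f1d_pr
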