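import Mathlib

set_option autoImplicit false

namespace Pool.Agent.Lib.MP_eb8f1d_pr

namespace ER

/-- the algebraic part -/
theorem alg_part (r κ v e B A f m1 m2 m3 kk : ℝ) (h0 : 0 < r) (h1 : r < 1) (hB : 1 ≤ B)
    (hκ : |κ| ≤ B - 1) (hBv : B ≤ v) (he : e * v = 1) (hA0 : 0 ≤ A) (hA1 : A ≤ 1)
    (hf0 : 0 ≤ f) (hf1 : f ≤ 1) (hm20 : 0 ≤ m2) (hm2 : m2 ≤ 2 * v)
    (hm1 : m1 = κ * A + (v - r * κ) * f) (hkk : (1 - r) * kk = v + (1 - r) * κ)
    (hm3 : m3 = κ * m2 + (1 - r) * (2 * kk * m1 + kk * A - 2 * m2 - m1)) :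
    |(-(2 * (κ + 1 - r) * e * m1) + (1 - 2 * r) / 3 * e ^ 2 * m3) -
      (-(2 * (κ + 1 - r)) + 2 * ((1 - 2 * r) / 3)) * f| ≤ 20 * B ^ 2 * e := by
  have hv : 0 < v := by linarith
  have hepos : 0 < e := by
    by_contra hcon
    push Not at hcon
    nlinarith
  have h1r : 0 < 1 - r := by linarith
  have hκ1 := (abs_le.mp hκ).1
  have hκ2 := (abs_le.mp hκ).2
  -- `g = κ A - r κ f`
  set g : ℝ := κ * A - r * κ * f with hg
  have hgB : |g| ≤ 2 * B := by
    have a1 : |κ * A| ≤ B := by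
      rw [abs_mul, abs_of_nonneg hA0]
      nlinarith [abs_nonneg κ]
    have a2 : |r * κ * f| ≤ B := by
      rw [abs_mul, abs_mul, abs_of_nonneg hf0, abs_of_pos h0]
      have : r * |κ| ≤ 1 * B := mul_le_mul h1.le (by linarith) (abs_nonneg _) (by norm_num)
      have := mul_le_mul this hf1 hf0 (by linarith)
      linarith
    have := abs_sub (κ * A) (r * κ * f)
    linarith
  have hem1 : e * m1 = e * g + f := by
    rw [hm1, hg]
    linear_combination f * he
  have heB : e * B ≤ 1 := by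
    have := mul_le_mul_of_nonneg_left hBv hepos.le
    linarith
  have hem1B : |e * m1| ≤ 3 := by
    rw [hem1]
    have a1 := abs_add_le (e * g) f
    have a2 : |e * g| ≤ 2 := by
      rw [abs_mul, abs_of_pos hepos]
      nlinarith
    rw [abs_of_nonneg hf0] at a1
    linarith
  have hem2 : e * m2 ≤ 2 := by
    have := mul_le_mul_of_nonneg_left hm2 hepos.le
    linarith
  have hem20 : 0 ≤ e * m2 := by positivity
  have key : (-(2 * (κ + 1 - r) * e * m1) + (1 - 2 * r) / 3 * e ^ 2 * m3) -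
      (-(2 * (κ + 1 - r)) + 2 * ((1 - 2 * r) / 3)) * f =
      -(2 * (κ + 1 - r)) * (e * g) + (1 - 2 * r) / 3 * (e * (κ * (e * m2) +
        (1 + (1 - r) * κ * e) * A - 2 * (1 - r) * (e * m2) - (1 - r) * (e * m1) +
        2 * g + 2 * (1 - r) * κ * (e * m1))) := by
    have e1 : e ^ 2 * m3 = e * (κ * (e * m2) +
        (1 + (1 - r) * κ * e) * A - 2 * (1 - r) * (e * m2) - (1 - r) * (e * m1) +
        2 * g + 2 * (1 - r) * κ * (e * m1)) + 2 * f := by
      rw [hm3]
      have e2 : e ^ 2 * (κ * m2 + (1 - r) * (2 * kk * m1 + kk * A - 2 * m2 - m1)) =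
          e ^ 2 * κ * m2 + 2 * e ^ 2 * ((1 - r) * kk) * m1 + e ^ 2 * ((1 - r) * kk) * A -
            2 * (1 - r) * e ^ 2 * m2 - (1 - r) * e ^ 2 * m1 := by ring
      rw [e2, hkk]
      have e3 : e ^ 2 * (v + (1 - r) * κ) * A = e * (1 + (1 - r) * κ * e) * A := by
        linear_combination (e * A) * he
      have e4 : 2 * e ^ 2 * (v + (1 - r) * κ) * m1 = 2 * (e * m1) +
          2 * (1 - r) * κ * e * (e * m1) := by
        linear_combination (2 * e * m1) * he
      rw [e3, e4]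
      linear_combination 2 * hem1
    linear_combination ((1 - 2 * r) / 3) * e1 - 2 * (κ + 1 - r) * hem1
  rw [key]
  have b1 : |-(2 * (κ + 1 - r)) * (e * g)| ≤ 4 * B ^ 2 * e := by
    rw [abs_mul, abs_neg, abs_mul e, abs_of_pos hepos]
    have c1 : |2 * (κ + 1 - r)| ≤ 2 * B := by rw [abs_le]; constructor <;> linarith
    have c2 := mul_le_mul c1 (mul_le_mul_of_nonneg_left hgB hepos.le) (by positivity)
      (by linarith)
    linarith
  have b2 : |κ * (e * m2) + (1 + (1 - r) * κ * e) * A - 2 * (1 - r) * (e * m2) -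
      (1 - r) * (e * m1) + 2 * g + 2 * (1 - r) * κ * (e * m1)| ≤ 40 * B := by
    have d1 : |κ * (e * m2)| ≤ 2 * B := by
      rw [abs_mul, abs_of_nonneg hem20]
      nlinarith [abs_nonneg κ]
    have d2 : |(1 + (1 - r) * κ * e) * A| ≤ 2 := by
      rw [abs_mul, abs_of_nonneg hA0]
      have z : |1 + (1 - r) * κ * e| ≤ 2 := by
        have z1 := abs_add_le (1 : ℝ) ((1 - r) * κ * e)
        have z2 : |(1 - r) * κ * e| ≤ 1 := by
          rw [abs_mul, abs_mul, abs_of_pos hepos, abs_of_pos h1r]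
          have z3 : (1 - r) * |κ| ≤ 1 * B := mul_le_mul (by linarith) (by linarith)
            (abs_nonneg _) (by norm_num)
          have z4 := mul_le_mul_of_nonneg_right z3 hepos.le
          linarith
        rw [abs_one] at z1
        linarith
      nlinarith [abs_nonneg (1 + (1 - r) * κ * e)]
    have d3 : |2 * (1 - r) * (e * m2)| ≤ 4 := by
      rw [abs_of_nonneg (by positivity)]
      nlinarith
    have d4 : |(1 - r) * (e * m1)| ≤ 3 := by
      rw [abs_mul, abs_of_pos h1r]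
      nlinarith [abs_nonneg (e * m1)]
    have d5 : |2 * g| ≤ 4 * B := by
      rw [abs_mul]
      have : |(2 : ℝ)| = 2 := by norm_num
      rw [this]; linarith
    have d6 : |2 * (1 - r) * κ * (e * m1)| ≤ 6 * B := by
      rw [abs_mul, abs_mul, abs_mul, abs_of_pos h1r]
      have : |(2 : ℝ)| = 2 := by norm_num
      rw [this]
      have z3 : (1 - r) * |κ| ≤ 1 * B := mul_le_mul (by linarith) (by linarith)
            (abs_nonneg _) (by norm_num)
      have z4 := mul_le_mul z3 hem1B (abs_nonneg _) (by linarith)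
      linarith
    have a1 := abs_add_le (κ * (e * m2) + (1 + (1 - r) * κ * e) * A - 2 * (1 - r) * (e * m2) -
      (1 - r) * (e * m1) + 2 * g) (2 * (1 - r) * κ * (e * m1))
    have a2 := abs_add_le (κ * (e * m2) + (1 + (1 - r) * κ * e) * A - 2 * (1 - r) * (e * m2) -
      (1 - r) * (e * m1)) (2 * g)
    have a3 := abs_sub (κ * (e * m2) + (1 + (1 - r) * κ * e) * A - 2 * (1 - r) * (e * m2))
      ((1 - r) * (e * m1))
    have a4 := abs_sub (κ * (e * m2) + (1 + (1 - r) * κ * e) * A) (2 * (1 - r) * (e * m2))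
    have a5 := abs_add_le (κ * (e * m2)) ((1 + (1 - r) * κ * e) * A)
    linarith
  have b3 : |(1 - 2 * r) / 3 * (e * (κ * (e * m2) +
        (1 + (1 - r) * κ * e) * A - 2 * (1 - r) * (e * m2) - (1 - r) * (e * m1) +
        2 * g + 2 * (1 - r) * κ * (e * m1)))| ≤ 14 * B * e := by
    rw [abs_mul, abs_mul e, abs_of_pos hepos]
    have c1 : |(1 - 2 * r) / 3| ≤ 1 / 3 := by rw [abs_le]; constructor <;> linarith
    have c2 := mul_le_mul c1 (mul_le_mul_of_nonneg_left b2 hepos.le) (by positivity)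
      (by norm_num)
    have h5 : 0 ≤ B * e := by positivity
    have h6 : 1 / 3 * (e * (40 * B)) = 40 / 3 * (B * e) := by ring
    rw [h6] at c2
    linarith
  have b4 := abs_add_le (-(2 * (κ + 1 - r)) * (e * g)) ((1 - 2 * r) / 3 * (e * (κ * (e * m2) +
        (1 + (1 - r) * κ * e) * A - 2 * (1 - r) * (e * m2) - (1 - r) * (e * m1) +
        2 * g + 2 * (1 - r) * κ * (e * m1))))
  have b5 : B * e ≤ B ^ 2 * e := by
    apply mul_le_mul_of_nonneg_right _ hepos.le
    nlinarith
  have b6 : 0 ≤ B ^ 2 * e := by positivity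
  refine b4.trans ?_
  linarith

end ER

end Pool.Agent.Lib.MP_eb8f1d_pr
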