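import Mathlib

set_option autoImplicit false

namespace Pool.Agent.Lib.MP_eb8f1d_pr

namespace ER

theorem err1 (w c J : ℝ) (hw : 1 ≤ w) (hc : 0 < c) (hJ : c * w ^ 2 ≤ J) :
    40 * (w ^ 3) ^ 2 * (2 / J ^ 4) ≤ 80 / c ^ 4 / w ^ 2 := by
  have hw0 : 0 < w := by linarith
  have hcw : 0 < c * w ^ 2 := by positivity
  have z1 : (2 : ℝ) / J ^ 4 ≤ 2 / (c * w ^ 2) ^ 4 :=
    div_le_div_of_nonneg_left (by norm_num) (by positivity) (pow_le_pow_left₀ hcw.le hJ 4)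
  have z2 : 40 * (w ^ 3) ^ 2 * (2 / (c * w ^ 2) ^ 4) = 80 / c ^ 4 / w ^ 2 := by
    field_simp; norm_num
  rw [← z2]
  exact mul_le_mul_of_nonneg_left z1 (by positivity)

theorem err2 (w c J B : ℝ) (hw : 1 ≤ w) (hc : 0 < c) (hB : 1 ≤ B) (hJ : c * w ^ 2 ≤ J) :
    40 * (w ^ 3) ^ 2 * (4 * B * (1 / w ^ 3) / J ^ 3) ≤ 160 * B / c ^ 3 / w ^ 2 := by
  have hw0 : 0 < w := by linarith
  have hB0 : 0 < B := by linarith
  have hcw : 0 < c * w ^ 2 := by positivity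
  have z1 : 4 * B * (1 / w ^ 3) / J ^ 3 ≤ 4 * B * (1 / w ^ 3) / (c * w ^ 2) ^ 3 :=
    div_le_div_of_nonneg_left (by positivity) (by positivity) (pow_le_pow_left₀ hcw.le hJ 3)
  have z2 : 40 * (w ^ 3) ^ 2 * (4 * B * (1 / w ^ 3) / (c * w ^ 2) ^ 3) =
      160 * B / c ^ 3 / w ^ 3 := by
    field_simp; norm_num
  have z3 : 160 * B / c ^ 3 / w ^ 3 ≤ 160 * B / c ^ 3 / w ^ 2 := by
    apply div_le_div_of_nonneg_left (by positivity) (by positivity)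
    exact pow_le_pow_right₀ hw (by norm_num)
  refine le_trans ?_ z3
  rw [← z2]
  exact mul_le_mul_of_nonneg_left z1 (by positivity)

theorem err3 (w c J : ℝ) (hw : 1 ≤ w) (hc : 0 < c) (hJ : c * w ^ 2 ≤ J) :
    40 * (w ^ 3) ^ 2 * ((1 / w ^ 3) ^ 2 / J) ≤ 40 / c / w ^ 2 := by
  have hw0 : 0 < w := by linarith
  have hcw : 0 < c * w ^ 2 := by positivity
  have z1 : (1 / w ^ 3) ^ 2 / J ≤ (1 / w ^ 3) ^ 2 / (c * w ^ 2) :=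
    div_le_div_of_nonneg_left (by positivity) (by positivity) hJ
  have z2 : 40 * (w ^ 3) ^ 2 * ((1 / w ^ 3) ^ 2 / (c * w ^ 2)) = 40 / c / w ^ 2 := by
    field_simp
  rw [← z2]
  exact mul_le_mul_of_nonneg_left z1 (by positivity)

theorem err4 (w I : ℝ) (hw : 1 ≤ w) (hI0 : 0 ≤ I) (hI : I ≤ w ^ 2) :
    (1 / w ^ 3) + (1 / w ^ 3) ^ 2 * (2 * w ^ 3) + (1 / w ^ 3) ^ 3 * (40 * (w ^ 3) ^ 2) +
      I ^ 2 * (1 / w ^ 3) ^ 4 * (40 * (w ^ 3) ^ 2) ≤ 83 * (1 / w ^ 2) := by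
  have hw0 : 0 < w := by linarith
  have z1 : (1 / w ^ 3) ^ 2 * (2 * w ^ 3) = 2 * (1 / w ^ 3) := by field_simp
  have z2 : (1 / w ^ 3) ^ 3 * (40 * (w ^ 3) ^ 2) = 40 * (1 / w ^ 3) := by field_simp
  have z3 : I ^ 2 * (1 / w ^ 3) ^ 4 * (40 * (w ^ 3) ^ 2) = 40 * (I ^ 2 / w ^ 6) := by
    field_simp
  have z4 : I ^ 2 / w ^ 6 ≤ 1 / w ^ 2 := by
    rw [div_le_div_iff₀ (by positivity) (by positivity)]
    have h1 : I ^ 2 ≤ (w ^ 2) ^ 2 := pow_le_pow_left₀ hI0 hI 2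
    have h2 : (w ^ 2) ^ 2 * w ^ 2 = w ^ 6 := by ring
    have h3 := mul_le_mul_of_nonneg_right h1 (sq_nonneg w)
    linarith
  have z5 : 1 / w ^ 3 ≤ 1 / w ^ 2 :=
    div_le_div_of_nonneg_left (by norm_num) (by positivity) (pow_le_pow_right₀ hw (by norm_num))
  rw [z1, z2, z3]
  linarith

theorem err_all (w c J I B K : ℝ) (hw : 1 ≤ w) (hc : 0 < c) (hB : 1 ≤ B) (hJ : c * w ^ 2 ≤ J)
    (hI0 : 0 ≤ I) (hI : I ≤ w ^ 2)
    (hK : K = 80 / c ^ 4 + 160 * B / c ^ 3 + 40 / c + 83 * (200000 * B ^ 6) + 20 * B ^ 2) :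
    40 * (w ^ 3) ^ 2 * (2 / J ^ 4 + 4 * B * (1 / w ^ 3) / J ^ 3 + (1 / w ^ 3) ^ 2 / J) +
      200000 * B ^ 6 * (1 / w ^ 3 + (1 / w ^ 3) ^ 2 * (2 * w ^ 3) +
        (1 / w ^ 3) ^ 3 * (40 * (w ^ 3) ^ 2) + I ^ 2 * (1 / w ^ 3) ^ 4 * (40 * (w ^ 3) ^ 2)) +
      20 * B ^ 2 * (1 / w ^ 3) ≤ K / w ^ 2 := by
  have hw0 : 0 < w := by linarith
  have a1 := err1 w c J hw hc hJ
  have a2 := err2 w c J B hw hc hB hJ
  have a3 := err3 w c J hw hc hJ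
  have a4 := err4 w I hw hI0 hI
  have a5 := mul_le_mul_of_nonneg_left a4 (show 0 ≤ 200000 * B ^ 6 by positivity)
  have z5 : 1 / w ^ 3 ≤ 1 / w ^ 2 :=
    div_le_div_of_nonneg_left (by norm_num) (by positivity) (pow_le_pow_right₀ hw (by norm_num))
  have a6 := mul_le_mul_of_nonneg_left z5 (show 0 ≤ 20 * B ^ 2 by positivity)
  have a7 : K / w ^ 2 = 80 / c ^ 4 / w ^ 2 + 160 * B / c ^ 3 / w ^ 2 + 40 / c / w ^ 2 +
      200000 * B ^ 6 * (83 * (1 / w ^ 2)) + 20 * B ^ 2 * (1 / w ^ 2) := by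
    rw [hK]; ring
  rw [a7, mul_add, mul_add]
  exact add_le_add (add_le_add (add_le_add (add_le_add a1 a2) a3) a5) a6

theorem err_fin (w K ε f : ℝ) (hw : 0 < w) (hε : 0 < ε) (hf : 0 ≤ f) (hK : 0 < K)
    (hw2 : 64 * K ^ 2 / ε ^ 2 ≤ w) (hlow : 1 ≤ 256 * w ^ 3 * f ^ 2) :
    K / w ^ 2 ≤ 2 * (ε * f) := by
  have z0 : 0 ≤ 2 * (ε * f) := by positivity
  have z1 : (K / w ^ 2) ^ 2 ≤ (2 * (ε * f)) ^ 2 := by
    have y1 : (K / w ^ 2) ^ 2 = K ^ 2 / w ^ 4 := by rw [div_pow]; ring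
    have y2 : 64 * K ^ 2 ≤ w * ε ^ 2 := by
      rwa [div_le_iff₀ (by positivity)] at hw2
    rw [y1, div_le_iff₀ (by positivity)]
    have y3 : (2 * (ε * f)) ^ 2 * w ^ 4 = (ε ^ 2 * w / 64) * (256 * w ^ 3 * f ^ 2) := by ring
    rw [y3]
    have y4 : K ^ 2 ≤ ε ^ 2 * w / 64 := by linarith
    calc K ^ 2 ≤ (ε ^ 2 * w / 64) * 1 := by linarith
      _ ≤ (ε ^ 2 * w / 64) * (256 * w ^ 3 * f ^ 2) :=
        mul_le_mul_of_nonneg_left hlow (by positivity)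
  exact le_of_sq_le_sq z1 z0

/-- the cut-off condition -/
theorem cond_I (w B c I : ℝ) (hB : 1 ≤ B) (hw1 : 2000 * B ^ 3 ≤ w) (hc : c = 1 / (10 * B))
    (hI0 : 0 ≤ I) (hI1 : I ≤ c * w ^ 2) (hIw : I ≤ w ^ 2) :
    400 * B ^ 3 * (1 / w ^ 3 + I * (1 / w ^ 3) + I ^ 3 * (1 / w ^ 3) ^ 2) ≤ 1 := by
  have hB0 : 0 < B := by linarith
  have hB31 : 1 ≤ B ^ 3 := one_le_pow₀ hB
  have hw0 : 0 < w := by linarith
  have hw1' : 1 ≤ w := by linarith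
  have hIe : I * (1 / w ^ 3) ≤ 1 / w := by
    rw [mul_one_div, div_le_div_iff₀ (by positivity) hw0, one_mul]
    have : w ^ 3 = w ^ 2 * w := by ring
    rw [this]
    exact mul_le_mul_of_nonneg_right hIw hw0.le
  have hI3e : I ^ 3 * (1 / w ^ 3) ^ 2 ≤ c ^ 3 := by
    have a1 : I ^ 3 ≤ (c * w ^ 2) ^ 3 := pow_le_pow_left₀ hI0 hI1 3
    have a2 : (c * w ^ 2) ^ 3 * (1 / w ^ 3) ^ 2 = c ^ 3 := by field_simp
    rw [← a2]
    exact mul_le_mul_of_nonneg_right a1 (sq_nonneg _)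
  have hc3 : 400 * B ^ 3 * c ^ 3 = 2 / 5 := by rw [hc]; field_simp; norm_num
  have he1 : 1 / w ^ 3 ≤ 1 / w := by
    apply div_le_div_of_nonneg_left (by norm_num) hw0
    have : w ^ 1 ≤ w ^ 3 := pow_le_pow_right₀ hw1' (by norm_num)
    simpa using this
  have hBinv : 400 * B ^ 3 * (1 / w) ≤ 1 / 5 := by
    rw [mul_one_div, div_le_iff₀ hw0]
    linarith
  have a1 : 400 * B ^ 3 * (1 / w ^ 3 + I * (1 / w ^ 3) + I ^ 3 * (1 / w ^ 3) ^ 2) ≤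
      400 * B ^ 3 * (1 / w + 1 / w + c ^ 3) :=
    mul_le_mul_of_nonneg_left (by linarith) (by positivity)
  have a2 : 400 * B ^ 3 * (1 / w + 1 / w + c ^ 3) =
      2 * (400 * B ^ 3 * (1 / w)) + 400 * B ^ 3 * c ^ 3 := by ring
  rw [a2, hc3] at a1
  linarith

end ER

end Pool.Agent.Lib.MP_eb8f1d_pr
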