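import Pool.Agent.Lib.MP_eb8f1d_pr.RefCore
import Pool.Agent.Lib.MP_eb8f1d_pr.RefAlg
import Pool.Agent.Lib.MP_eb8f1d_pr.RefErr

set_option autoImplicit false

namespace Pool.Agent.Lib.MP_eb8f1d_pr

open Finset

namespace ER

theorem comb (A f e m1 m3 β b X Y : ℝ)
    (h1 : |1 - A - (A - 2 * β * e * m1 + b * e ^ 2 * m3)| ≤ X)
    (h2 : |(-(2 * β * e * m1) + b * e ^ 2 * m3) - (-(2 * β) + 2 * b) * f| ≤ Y) :
    |A - 1 / 2 - (β - b) * f| ≤ 1 / 2 * (X + Y) := by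
  have hdec : A - 1 / 2 - (β - b) * f =
      -(1 / 2) * ((1 - A - (A - 2 * β * e * m1 + b * e ^ 2 * m3)) +
        ((-(2 * β * e * m1) + b * e ^ 2 * m3) - (-(2 * β) + 2 * b) * f)) := by ring
  rw [hdec, abs_mul]
  have y1 : |-(1 / 2 : ℝ)| = 1 / 2 := by rw [abs_neg, abs_of_pos (by norm_num)]
  rw [y1]
  have y2 := abs_add_le (1 - A - (A - 2 * β * e * m1 + b * e ^ 2 * m3))
    ((-(2 * β * e * m1) + b * e ^ 2 * m3) - (-(2 * β) + 2 * b) * f)
  linarith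

theorem refined_aux (r : ℝ) (h0 : 0 < r) (h1 : r < 1) (B ε c K w : ℝ) (hε : 0 < ε) (hB : 1 ≤ B)
    (hc : c = 1 / (10 * B))
    (hK : K = 80 / c ^ 4 + 160 * B / c ^ 3 + 40 / c + 83 * (200000 * B ^ 6) + 20 * B ^ 2)
    (N k : ℕ) (hk : |(k : ℝ) - N * r| ≤ B - 1) (hvw : N * r * (1 - r) = w ^ 3)
    (hw1 : 2000 * B ^ 3 ≤ w) (hw2 : 64 * K ^ 2 / ε ^ 2 ≤ w) :
    |∑ j ∈ range (k + 1), bin N r j - 1 / 2 - (k - N * r + 2 / 3 - r / 3) * bin N r k| ≤
        ε * bin N r k := by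
  have h1r : 0 < 1 - r := by linarith
  have hB0 : 0 < B := by linarith
  have hc0 : 0 < c := by rw [hc]; positivity
  have hc1 : c ≤ 1 := by
    rw [hc, div_le_one (by positivity)]
    linarith
  have hK0 : 0 < K := by rw [hK]; positivity
  have hB31 : 1 ≤ B ^ 3 := one_le_pow₀ hB
  have hB3 : B ≤ B ^ 3 := by
    have : B ^ 1 ≤ B ^ 3 := pow_le_pow_right₀ hB (by norm_num)
    simpa using this
  have hwge : 2000 ≤ w := by linarith
  have hw0 : 0 < w := by linarith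
  have hNpos : 0 < N := by
    rcases Nat.eq_zero_or_pos N with h | h
    · exfalso
      rw [h] at hvw
      simp only [Nat.cast_zero, zero_mul] at hvw
      have : 0 < w ^ 3 := by positivity
      linarith
    · exact h
  have hκ1 := (abs_le.mp hk).1
  have hκ2 := (abs_le.mp hk).2
  have hw2w3 : 2000 * w ^ 2 ≤ w ^ 3 := by
    have : w ^ 3 = w * w ^ 2 := by ring
    rw [this]
    exact mul_le_mul_of_nonneg_right hwge (sq_nonneg w)
  have hBw : 2000 * B ≤ w := by linarith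
  have hww : w ≤ w ^ 2 := by
    have : w ^ 2 = w * w := by ring
    rw [this]
    exact le_mul_of_one_le_left hw0.le (by linarith)
  have hvN : w ^ 3 ≤ N * r := by
    have h2 : 0 ≤ (N : ℝ) * r * r := by positivity
    have e1 : (N : ℝ) * r * (1 - r) = N * r - N * r * r := by ring
    linarith
  have hvN' : w ^ 3 ≤ N * (1 - r) := by
    have h2 : 0 ≤ (N : ℝ) * (1 - r) * (1 - r) := by positivity
    have e1 : (N : ℝ) * r * (1 - r) = N * (1 - r) - N * (1 - r) * (1 - r) := by ring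
    linarith
  obtain ⟨I, hI1, hI2⟩ : ∃ I : ℕ, (I : ℝ) ≤ c * w ^ 2 ∧ c * w ^ 2 ≤ (I : ℝ) + 1 :=
    ⟨Nat.floor (c * w ^ 2), Nat.floor_le (by positivity), (Nat.lt_floor_add_one _).le⟩
  have hI0 : (0 : ℝ) ≤ I := Nat.cast_nonneg I
  have hIw : (I : ℝ) ≤ w ^ 2 := hI1.trans (mul_le_of_le_one_left (sq_nonneg w) hc1)
  have hIk : I ≤ k := by
    have h3 : (I : ℝ) ≤ k := by linarith
    exact_mod_cast h3
  have hIN : k + 1 + I ≤ N := by
    have h3 : (k : ℝ) + 1 + I ≤ N := by linarith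
    exact_mod_cast h3
  have hkN : k ≤ N := by omega
  have hev : 1 / w ^ 3 * w ^ 3 = 1 := by field_simp
  have hIcond := cond_I w B c I hB hw1 hc hI0 hI1 hIw
  have hvB : B ≤ w ^ 3 := by linarith
  have hv1 : 1 ≤ w ^ 3 := by linarith
  have hBsq : B ^ 2 ≤ w ^ 3 := by
    have a1 : B * B ≤ w * w := mul_le_mul (by linarith) (by linarith) hB0.le hw0.le
    have a2 : w * w = w ^ 2 := by ring
    have a3 : B * B = B ^ 2 := by ring
    have a4 : 0 ≤ w ^ 2 := sq_nonneg w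
    linarith
  have hB1 : 0 ≤ B - 1 := by linarith
  have hBm : (B - 1) ^ 2 ≤ w ^ 3 :=
    (pow_le_pow_left₀ hB1 (by linarith) 2).trans hBsq
  have hM2 : ∑ j ∈ range (N + 1), ((k : ℝ) - j) ^ 2 * bin N r j ≤ 2 * w ^ 3 := by
    refine (sum2_le N k r (B - 1) h0 h1 hk).trans ?_
    rw [hvw]
    linarith
  have hM4 : ∑ j ∈ range (N + 1), ((k : ℝ) - j) ^ 4 * bin N r j ≤ 40 * (w ^ 3) ^ 2 := by
    refine (sum4_le N k r (B - 1) h0 h1 hk).trans ?_
    rw [hvw]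
    have a2 : (B - 1) ^ 4 ≤ (w ^ 3) ^ 2 := by
      have : (B - 1) ^ 4 = ((B - 1) ^ 2) ^ 2 := by ring
      rw [this]
      exact pow_le_pow_left₀ (sq_nonneg _) hBm 2
    have a3 : w ^ 3 ≤ (w ^ 3) ^ 2 := by
      have : (w ^ 3) ^ 2 = w ^ 3 * w ^ 3 := by ring
      rw [this]
      exact le_mul_of_one_le_left (by positivity) hv1
    linarith
  have hcore := core N k I r (w ^ 3) (1 / w ^ 3) B (2 * w ^ 3) (40 * (w ^ 3) ^ 2) h0 h1 hNpos
    hvw.symm hev hB (by linarith) hIk hIN hIcond hM2 hM4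
  have hb : ∀ j, 0 ≤ bin N r j := fun j => Med.bin_nonneg h0.le h1.le j
  have hmass := Med.sum_bin N r
  have hA0 : 0 ≤ ∑ j ∈ range (k + 1), bin N r j := Finset.sum_nonneg fun j _ => hb j
  have hA1 : ∑ j ∈ range (k + 1), bin N r j ≤ 1 := by
    rw [← hmass]
    exact Finset.sum_le_sum_of_subset_of_nonneg (Finset.range_mono (by omega)) fun j _ _ => hb j
  have hf0 : 0 ≤ bin N r k := hb k
  have hf1 : bin N r k ≤ 1 := by
    refine le_trans ?_ hA1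
    exact Finset.single_le_sum (f := fun j => bin N r j) (fun j _ => hb j)
      (Finset.mem_range.mpr (by omega))
  have hm20 : 0 ≤ ∑ j ∈ range (k + 1), ((k : ℝ) - j) ^ 2 * bin N r j :=
    Finset.sum_nonneg fun j _ => mul_nonneg (sq_nonneg _) (hb j)
  have hm22 : ∑ j ∈ range (k + 1), ((k : ℝ) - j) ^ 2 * bin N r j ≤ 2 * w ^ 3 := by
    refine le_trans ?_ hM2
    exact Finset.sum_le_sum_of_subset_of_nonneg (Finset.range_mono (by omega))
      fun j _ _ => mul_nonneg (sq_nonneg _) (hb j)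
  have halg := alg_part r ((k : ℝ) - N * r) (w ^ 3) (1 / w ^ 3) B
    (∑ j ∈ range (k + 1), bin N r j) (bin N r k)
    (∑ j ∈ range (k + 1), ((k : ℝ) - j) * bin N r j)
    (∑ j ∈ range (k + 1), ((k : ℝ) - j) ^ 2 * bin N r j)
    (∑ j ∈ range (k + 1), ((k : ℝ) - j) ^ 3 * bin N r j) k h0 h1 hB hk hvB hev hA0 hA1 hf0 hf1
    hm20 hm22 (by
      rw [one1 N k r, ← hvw]; ring) (by rw [← hvw]; ring) (one3 N k r)
  have herr := err_all w c ((I : ℝ) + 1) I B K (by linarith) hc0 hB hI2 hI0 hIw hK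
  have hlow := bin_lower N k r (B - 1) h0 h1 hkN hk (by
    rw [hvw]
    have z1 : (B - 1 + 1) ^ 2 * 256 = 256 * B ^ 2 := by ring
    rw [z1]
    have z2 : B ^ 2 ≤ B ^ 3 := pow_le_pow_right₀ hB (by norm_num)
    linarith)
  rw [hvw] at hlow
  have hlow' : 1 ≤ 256 * w ^ 3 * bin N r k ^ 2 := hlow
  have hfin := err_fin w K ε (bin N r k) hw0 hε hf0 hK0 hw2 hlow'
  have hcomb := comb _ _ _ _ _ _ _ _ _ hcore halg
  have hβ : ((k : ℝ) - N * r + 1 - r) - (1 - 2 * r) / 3 = k - N * r + 2 / 3 - r / 3 := by ring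
  rw [hβ] at hcomb
  refine hcomb.trans ?_
  linarith

end ER

open ER in
/-- refined binomial distribution function near the mean -/
theorem cdf_refined (r : ℝ) (h0 : 0 < r) (h1 : r < 1) (C ε : ℝ) (hε : 0 < ε) :
    ∃ N₀ : ℕ, ∀ N ≥ N₀, ∀ k : ℕ, |(k : ℝ) - N * r| ≤ C →
      |∑ j ∈ range (k + 1), bin N r j - 1 / 2 - (k - N * r + 2 / 3 - r / 3) * bin N r k| ≤
        ε * bin N r k := by
  have h1r : 0 < 1 - r := by linarith
  obtain ⟨B, hBdef⟩ : ∃ B : ℝ, B = |C| + 1 := ⟨_, rfl⟩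
  have hB : 1 ≤ B := by
    have := abs_nonneg C
    linarith
  have hB0 : 0 < B := by linarith
  obtain ⟨c, hc⟩ : ∃ c : ℝ, c = 1 / (10 * B) := ⟨_, rfl⟩
  have hc0 : 0 < c := by rw [hc]; positivity
  obtain ⟨K, hK⟩ : ∃ K : ℝ, K = 80 / c ^ 4 + 160 * B / c ^ 3 + 40 / c +
    83 * (200000 * B ^ 6) + 20 * B ^ 2 := ⟨_, rfl⟩
  have hK0 : 0 < K := by rw [hK]; positivity
  obtain ⟨W, hW⟩ : ∃ W : ℝ, W = 2000 * B ^ 3 + 64 * K ^ 2 / ε ^ 2 := ⟨_, rfl⟩
  have hW0 : 0 < W := by rw [hW]; positivity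
  refine ⟨Nat.ceil (W ^ 3 / (r * (1 - r))), fun N hN k hk => ?_⟩
  have hN' : W ^ 3 / (r * (1 - r)) ≤ N := (Nat.le_ceil _).trans (by exact_mod_cast hN)
  rw [div_le_iff₀ (by positivity)] at hN'
  have hvW : W ^ 3 ≤ N * r * (1 - r) := by linarith
  have hvpos : 0 < (N : ℝ) * r * (1 - r) := lt_of_lt_of_le (by positivity) hvW
  obtain ⟨w, hw0, hw3⟩ : ∃ w : ℝ, 0 < w ∧ w ^ 3 = N * r * (1 - r) := by
    refine ⟨(N * r * (1 - r)) ^ ((1 : ℝ) / 3), Real.rpow_pos_of_pos hvpos _, ?_⟩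
    rw [← Real.rpow_natCast, ← Real.rpow_mul hvpos.le]
    norm_num
  have hwW : W ≤ w := by
    by_contra hcon
    push Not at hcon
    have : w ^ 3 < W ^ 3 := pow_lt_pow_left₀ hcon hw0.le (by norm_num)
    linarith
  have hw1 : 2000 * B ^ 3 ≤ w := by
    have : 0 ≤ 64 * K ^ 2 / ε ^ 2 := by positivity
    linarith
  have hw2 : 64 * K ^ 2 / ε ^ 2 ≤ w := by
    have : 0 ≤ 2000 * B ^ 3 := by positivity
    linarith
  have hkB : |(k : ℝ) - N * r| ≤ B - 1 := by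
    have := le_abs_self C
    linarith
  exact refined_aux r h0 h1 B ε c K w hε hB hc hK N k hkB hw3.symm hw1 hw2

end Pool.Agent.Lib.MP_eb8f1d_pr
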