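import Pool.Agent.Lib.MP_eb8f1d_pr.Fair
import Pool.Agent.Lib.MP_eb8f1d_pr.Refined

set_option autoImplicit false

namespace Pool.Agent.Lib.MP_eb8f1d_pr

open Finset Polynomial

/-! ### comparison of the triangle and the 5-cycle -/

theorem cum_sub' (F G : ℝ[X]) (k : ℕ) : cum (F - G) k = cum F k - cum G k := by
  unfold cum
  simp only [coeff_sub, Finset.sum_sub_distrib]

theorem cum_C_mul' (c : ℝ) (F : ℝ[X]) (k : ℕ) : cum (C c * F) k = c * cum F k := by
  unfold cum
  simp only [coeff_C_mul, Finset.mul_sum]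

theorem gf_three_sub_five (a : ℝ) (m k : ℕ) :
    cum (gf a (3 ::ₘ Multiset.replicate (m + 1) 2)) k -
      cum (gf a (5 ::ₘ Multiset.replicate m 2)) k =
      a ^ 2 * ((gf a (Multiset.replicate m 2)).coeff k -
        (X * gf a (Multiset.replicate m 2)).coeff k) := by
  set G := gf a (Multiset.replicate m 2) with hG
  have e1 : gf a (3 ::ₘ Multiset.replicate (m + 1) 2) - gf a (5 ::ₘ Multiset.replicate m 2) =
      C (a ^ 2) * ((G - X * G) - X * (G - X * G)) := by
    rw [gf_cons, gf_cons, Multiset.replicate_succ, gf_cons, ← hG, cyc_two, cyc_three, cyc_five]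
    simp only [C_sub, C_mul, C_1, C_add, C_pow]
    have h2 : (C 2 : ℝ[X]) = 2 := map_ofNat C 2
    have h3 : (C 3 : ℝ[X]) = 3 := map_ofNat C 3
    have h5 : (C 5 : ℝ[X]) = 5 := map_ofNat C 5
    have h10 : (C 10 : ℝ[X]) = 10 := map_ofNat C 10
    rw [h2, h3, h5, h10]
    ring
  rw [← cum_sub', e1, cum_C_mul', cum_sub', cum_X_mul_eq, coeff_sub]
  ring

theorem bin_le_of (m j : ℕ) (r : ℝ) (h0 : 0 < r) (h1 : r < 1)
    (h : (j : ℝ) + 1 ≤ (m + 1) * r) : bin m r j ≤ bin m r (j + 1) := by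
  have h2 := ER.bin_succ' m r j
  have hb := Med.bin_nonneg (N := m) h0.le h1.le j
  have h1r : 0 < 1 - r := by linarith
  have hp : 0 < ((j : ℝ) + 1) * (1 - r) := by positivity
  have h3 : ((j : ℝ) + 1) * (1 - r) ≤ ((m : ℝ) - j) * r := by linarith
  have h4 := mul_le_mul_of_nonneg_left h3 hb
  rw [← h2] at h4
  exact le_of_mul_le_mul_right h4 hp

theorem bin_ge_of (m j : ℕ) (r : ℝ) (h0 : 0 < r) (h1 : r < 1)
    (h : (m + 1) * r ≤ (j : ℝ) + 1) : bin m r (j + 1) ≤ bin m r j := by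
  have h2 := ER.bin_succ' m r j
  have hb := Med.bin_nonneg (N := m) h0.le h1.le j
  have h1r : 0 < 1 - r := by linarith
  have hp : 0 < ((j : ℝ) + 1) * (1 - r) := by positivity
  have h3 : ((m : ℝ) - j) * r ≤ ((j : ℝ) + 1) * (1 - r) := by linarith
  have h4 := mul_le_mul_of_nonneg_left h3 hb
  rw [← h2] at h4
  exact le_of_mul_le_mul_right h4 hp

theorem gf_coeff (a : ℝ) (m j : ℕ) :
    (gf a (Multiset.replicate m 2)).coeff j = bin m (2 * a) j := by
  rw [gf_pairs, coeff_cyc2_pow]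

/-- for `k` at most the mean the triangle is at least as good -/
theorem five_le_three (a : ℝ) (m k : ℕ) (h0 : 0 < 2 * a) (h1 : 2 * a < 1)
    (h : (k : ℝ) ≤ (m + 1) * (2 * a)) :
    cum (gf a (5 ::ₘ Multiset.replicate m 2)) k ≤
      cum (gf a (3 ::ₘ Multiset.replicate (m + 1) 2)) k := by
  have h2 := gf_three_sub_five a m k
  have h3 : (X * gf a (Multiset.replicate m 2)).coeff k ≤
      (gf a (Multiset.replicate m 2)).coeff k := by
    cases k with
    | zero =>
      rw [coeff_X_mul_zero, gf_coeff]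
      exact Med.bin_nonneg h0.le h1.le 0
    | succ j =>
      rw [coeff_X_mul, gf_coeff, gf_coeff]
      apply bin_le_of m j _ h0 h1
      push_cast at h
      exact h
  have h4 : 0 ≤ a ^ 2 * ((gf a (Multiset.replicate m 2)).coeff k -
        (X * gf a (Multiset.replicate m 2)).coeff k) :=
    mul_nonneg (sq_nonneg a) (by linarith)
  linarith

/-- for `k` at least the mean the 5-cycle is at least as good -/
theorem three_le_five (a : ℝ) (m k : ℕ) (h0 : 0 < 2 * a) (h1 : 2 * a < 1)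
    (h : (m + 1) * (2 * a) ≤ (k : ℝ)) :
    cum (gf a (3 ::ₘ Multiset.replicate (m + 1) 2)) k ≤
      cum (gf a (5 ::ₘ Multiset.replicate m 2)) k := by
  have h2 := gf_three_sub_five a m k
  have h3 : (gf a (Multiset.replicate m 2)).coeff k ≤
      (X * gf a (Multiset.replicate m 2)).coeff k := by
    cases k with
    | zero =>
      exfalso
      have : (0 : ℝ) < (m + 1) * (2 * a) := by positivity
      simp only [Nat.cast_zero] at h
      linarith
    | succ j =>
      rw [coeff_X_mul, gf_coeff, gf_coeff]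
      apply bin_ge_of m j _ h0 h1
      push_cast at h
      exact h
  have h4 : a ^ 2 * ((gf a (Multiset.replicate m 2)).coeff k -
        (X * gf a (Multiset.replicate m 2)).coeff k) ≤ 0 :=
    mul_nonpos_of_nonneg_of_nonpos (sq_nonneg a) (by linarith)
  linarith

/-- the triangle distribution function -/
theorem cum_three' (a : ℝ) (N k : ℕ) :
    cum (gf a (3 ::ₘ Multiset.replicate N 2)) k =
      ∑ j ∈ range (k + 1), bin N (2 * a) j - 3 * a * bin N (2 * a) k := Med.cum_three a N k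

theorem cum_mono {F : ℝ[X]} (hF : ∀ j, 0 ≤ F.coeff j) {k l : ℕ} (h : k ≤ l) :
    cum F k ≤ cum F l := by
  unfold cum
  exact Finset.sum_le_sum_of_subset_of_nonneg (Finset.range_mono (by omega)) fun j _ _ => hF j

theorem three_coeff_nonneg (a : ℝ) (ha : 0 < a) (ha4 : 4 * a ≤ 1) (N j : ℕ) :
    0 ≤ (gf a (3 ::ₘ Multiset.replicate N 2)).coeff j := by
  rw [gf_cons, cyc_three, add_mul, coeff_add, coeff_C_mul, mul_assoc, coeff_C_mul]
  have h1 : ∀ i, 0 ≤ (gf a (Multiset.replicate N 2)).coeff i := by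
    intro i
    rw [gf_coeff]
    exact Med.bin_nonneg (by linarith) (by linarith) i
  have h2 : 0 ≤ (X * gf a (Multiset.replicate N 2)).coeff j := by
    cases j with
    | zero => rw [coeff_X_mul_zero]
    | succ j => rw [coeff_X_mul]; exact h1 j
  have h3 : 0 ≤ 1 - 3 * a := by linarith
  have h4 := h1 j
  positivity

/-- small `p (1 - p)`: the triangle dominates -/
theorem three_dom (a : ℝ) (ha : 0 < a) (h11 : 11 * a ≤ 2) :
    ∃ N₀ : ℕ, ∀ m ≥ N₀, ∀ k : ℕ,
      1 / 2 ≤ cum (gf a (5 ::ₘ Multiset.replicate m 2)) k →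
      1 / 2 ≤ cum (gf a (3 ::ₘ Multiset.replicate (m + 1) 2)) k := by
  have hr0 : 0 < 2 * a := by linarith
  have hr1 : 2 * a < 1 := by linarith
  -- the margin
  obtain ⟨ε, hε, hmargin⟩ : ∃ ε : ℝ, 0 < ε ∧ ∀ N k : ℕ, 0 < (k : ℝ) - N * (2 * a) →
      ε ≤ (k : ℝ) - N * (2 * a) + (2 - 11 * a) / 3 := by
    rcases lt_or_eq_of_le h11 with h | h
    · exact ⟨(2 - 11 * a) / 3, by linarith, fun N k hk => by linarith⟩
    · refine ⟨1 / 11, by norm_num, fun N k hk => ?_⟩
      have ha' : a = 2 / 11 := by linarith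
      rw [ha'] at hk ⊢
      have h2 : (0 : ℝ) < 11 * k - 4 * N := by linarith
      have h3 : 4 * N < 11 * k := by
        have : (4 * (N : ℝ)) < 11 * k := by linarith
        exact_mod_cast this
      have h4 : 4 * (N : ℝ) + 1 ≤ 11 * k := by
        have : 4 * N + 1 ≤ 11 * k := h3
        exact_mod_cast this
      linarith
  obtain ⟨N₀, hN₀⟩ := cdf_refined (2 * a) hr0 hr1 1 ε hε
  refine ⟨N₀, fun m hm k hk => ?_⟩
  rcases le_or_gt (k : ℝ) ((m + 1) * (2 * a)) with h | h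
  · exact hk.trans (five_le_three a m k hr0 hr1 h)
  · -- the least integer above the mean
    obtain ⟨k₁, hk1, hk2, hk3⟩ : ∃ k₁ : ℕ, (m + 1) * (2 * a) < k₁ ∧
        (k₁ : ℝ) ≤ (m + 1) * (2 * a) + 1 ∧ k₁ ≤ k := by
      refine ⟨Nat.floor ((m + 1) * (2 * a)) + 1, ?_, ?_, ?_⟩
      · push_cast
        exact Nat.lt_floor_add_one _
      · push_cast
        have := Nat.floor_le (show 0 ≤ ((m : ℝ) + 1) * (2 * a) by positivity)
        linarith
      · have : Nat.floor (((m : ℝ) + 1) * (2 * a)) < k := by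
          rw [Nat.floor_lt (by positivity)]
          exact h
        omega
    have hmono := cum_mono (three_coeff_nonneg a ha (by linarith) (m + 1)) hk3
    refine le_trans ?_ hmono
    rw [cum_three']
    have hc : (((m + 1 : ℕ) : ℝ)) = (m : ℝ) + 1 := by push_cast; ring
    have hR := hN₀ (m + 1) (by omega) k₁ (by
      rw [hc, abs_le]; constructor <;> linarith)
    have hmar := hmargin (m + 1) k₁ (by rw [hc]; linarith)
    have hf := Med.bin_nonneg (N := m + 1) hr0.le hr1.le k₁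
    have h5 := (abs_le.mp hR).1
    rw [hc] at h5 hmar
    have h6 := mul_le_mul_of_nonneg_right hmar hf
    linarith

/-- large `p (1 - p)`: the 5-cycle dominates -/
theorem five_dom (a : ℝ) (h11 : 2 ≤ 11 * a) (ha4 : 4 * a ≤ 1) :
    ∃ N₀ : ℕ, ∀ m ≥ N₀, ∀ k : ℕ,
      1 / 2 ≤ cum (gf a (3 ::ₘ Multiset.replicate (m + 1) 2)) k →
      1 / 2 ≤ cum (gf a (5 ::ₘ Multiset.replicate m 2)) k := by
  have ha : 0 < a := by linarith
  have hr0 : 0 < 2 * a := by linarith
  have hr1 : 2 * a < 1 := by linarith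
  obtain ⟨ε, hε, hmargin⟩ : ∃ ε : ℝ, 0 < ε ∧ ∀ N k : ℕ, (k : ℝ) - N * (2 * a) < 0 →
      (k : ℝ) - N * (2 * a) + (2 - 11 * a) / 3 + ε < 0 := by
    rcases lt_or_eq_of_le h11 with h | h
    · exact ⟨(11 * a - 2) / 3, by linarith, fun N k hk => by linarith⟩
    · refine ⟨1 / 22, by norm_num, fun N k hk => ?_⟩
      have ha' : a = 2 / 11 := by linarith
      rw [ha'] at hk ⊢
      have h3 : 11 * k < 4 * N := by
        have : (11 : ℝ) * k < 4 * N := by linarith
        exact_mod_cast this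
      have h4 : 11 * (k : ℝ) + 1 ≤ 4 * N := by
        have : 11 * k + 1 ≤ 4 * N := h3
        exact_mod_cast this
      linarith
  obtain ⟨N₀, hN₀⟩ := cdf_refined (2 * a) hr0 hr1 1 ε hε
  refine ⟨N₀, fun m hm k hk => ?_⟩
  rcases le_or_gt (((m : ℝ) + 1) * (2 * a)) k with h | h
  · exact hk.trans (three_le_five a m k hr0 hr1 h)
  · exfalso
    -- the largest integer below the mean
    obtain ⟨k₁, hk1, hk2, hk3⟩ : ∃ k₁ : ℕ, (k₁ : ℝ) < (m + 1) * (2 * a) ∧
        (m + 1) * (2 * a) ≤ k₁ + 1 ∧ k ≤ k₁ := by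
      have hceil : k < Nat.ceil (((m : ℝ) + 1) * (2 * a)) := Nat.lt_ceil.mpr h
      refine ⟨Nat.ceil (((m : ℝ) + 1) * (2 * a)) - 1, ?_, ?_, ?_⟩
      · have h5 := Nat.ceil_lt_add_one (show 0 ≤ ((m : ℝ) + 1) * (2 * a) by positivity)
        have h6 : ((Nat.ceil (((m : ℝ) + 1) * (2 * a)) - 1 : ℕ) : ℝ) =
            (Nat.ceil (((m : ℝ) + 1) * (2 * a)) : ℝ) - 1 := by
          rw [Nat.cast_sub (by omega)]; simp
        rw [h6]
        linarith
      · have h5 := Nat.le_ceil (((m : ℝ) + 1) * (2 * a))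
        have h6 : ((Nat.ceil (((m : ℝ) + 1) * (2 * a)) - 1 : ℕ) : ℝ) =
            (Nat.ceil (((m : ℝ) + 1) * (2 * a)) : ℝ) - 1 := by
          rw [Nat.cast_sub (by omega)]; simp
        rw [h6]
        linarith
      · omega
    have hmono := cum_mono (three_coeff_nonneg a ha ha4 (m + 1)) hk3
    have h3 := hk.trans hmono
    rw [cum_three'] at h3
    have hc : (((m + 1 : ℕ) : ℝ)) = (m : ℝ) + 1 := by push_cast; ring
    have hR := hN₀ (m + 1) (by omega) k₁ (by
      rw [hc, abs_le]; constructor <;> linarith)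
    have hmar := hmargin (m + 1) k₁ (by rw [hc]; linarith)
    have hk1N : k₁ ≤ m + 1 := by
      have : (k₁ : ℝ) < (m : ℝ) + 1 := by
        have : ((m : ℝ) + 1) * (2 * a) ≤ ((m : ℝ) + 1) * 1 :=
          mul_le_mul_of_nonneg_left hr1.le (by positivity)
        linarith
      have : k₁ < m + 1 := by exact_mod_cast this
      omega
    have hf := Med.bin_pos (N := m + 1) hr0 hr1 hk1N
    have h5 := (abs_le.mp hR).2
    rw [hc] at h5 hmar
    have h6 := mul_neg_of_neg_of_pos hmar hf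
    linarith

/-! ### the final form for odd `n` -/

variable {n : ℕ}

/-- general principle: a permutation pattern whose distribution function reaches `1 / 2` as soon
as that of any colouring does is optimal -/
theorem perm_opt {p : ℝ} (h0 : 0 ≤ p) (h1 : p ≤ 1) (s : Multiset ℕ) (hs : s.sum = n)
    (hs2 : ∀ L ∈ s, 2 ≤ L)
    (H : ∀ (c : Coloring n) (k : ℕ), 1 / 2 ≤ Pr p (fun ω => U c ω ≤ k) →
      1 / 2 ≤ cum (gf (p * (1 - p)) s) k) :
    M n p = n - sInf {k : ℕ | 1 / 2 ≤ cum (gf (p * (1 - p)) s) k} ∧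
      ∀ (σ : Equiv.Perm (Fin n)) (hσ : ∀ i, σ i ≠ i), σ.cycleType = s →
        med p (ofPerm σ hσ) = M n p := by
  have key : ∀ (σ : Equiv.Perm (Fin n)) (hσ : ∀ i, σ i ≠ i), σ.cycleType = s →
      med p (ofPerm σ hσ) = n - sInf {k : ℕ | 1 / 2 ≤ cum (gf (p * (1 - p)) s) k} := by
    intro σ hσ hc
    refine med_eq_of h0 h1 _ _ fun k => ?_
    rw [Pr_ofPerm, hc]
  have hle : ∀ c : Coloring n,
      med p c ≤ n - sInf {k : ℕ | 1 / 2 ≤ cum (gf (p * (1 - p)) s) k} :=
    med_le_of h0 h1 _ fun c k hk => H c k hk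
  obtain ⟨σ₀, hσ₀⟩ := exists_cycleType (n := n) s hs hs2
  have hfix : ∀ i, σ₀ i ≠ i := no_fix_of_cycleType (by rw [hσ₀, hs])
  have hM : M n p = n - sInf {k : ℕ | 1 / 2 ≤ cum (gf (p * (1 - p)) s) k} := by
    rw [← key σ₀ hfix hσ₀]
    refine M_eq_of_max _ fun c => ?_
    rw [key σ₀ hfix hσ₀]
    exact hle c
  exact ⟨hM, fun σ hσ hc => by rw [key σ hσ hc, hM]⟩

theorem all_even (p : ℝ) (h0 : 0 < p) (h1 : p < 1) :
    ∃ N : ℕ, ∀ n ≥ N, Even n →
      M n p = n - sInf {k : ℕ | 1 / 2 ≤ F2 n (p * (1 - p)) k} ∧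
      ∀ (σ : Equiv.Perm (Fin n)) (hσ : ∀ i, σ i ≠ i),
        σ.cycleType = Multiset.replicate (n / 2) 2 → med p (ofPerm σ hσ) = M n p := by
  obtain ⟨N, hN⟩ := even_opt_all p h0 h1
  refine ⟨N, fun n hn he => ?_⟩
  have h := perm_opt h0.le h1.le (Multiset.replicate (n / 2) 2)
    (by
      rw [Multiset.sum_replicate, smul_eq_mul]
      exact Nat.div_mul_cancel he.two_dvd)
    (fun L hL => by rw [Multiset.eq_of_mem_replicate hL]) (hN n hn he)
  have hF : ∀ k, cum (gf (p * (1 - p)) (Multiset.replicate (n / 2) 2)) k =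
      F2 n (p * (1 - p)) k := fun k => by rw [cum_pairs]; rfl
  simp only [hF] at h
  exact h

theorem all_odd (p : ℝ) (h0 : 0 < p) (h1 : p < 1) :
    ∃ N : ℕ, ∀ n ≥ N, Odd n →
      (p * (1 - p) ≤ 2 / 11 →
        M n p = n - sInf {k : ℕ | 1 / 2 ≤ F3 n (p * (1 - p)) k} ∧
        ∀ (σ : Equiv.Perm (Fin n)) (hσ : ∀ i, σ i ≠ i),
          σ.cycleType = 3 ::ₘ Multiset.replicate ((n - 3) / 2) 2 →
          med p (ofPerm σ hσ) = M n p) ∧
      (2 / 11 ≤ p * (1 - p) →
        M n p = n - sInf {k : ℕ | 1 / 2 ≤ F5 n (p * (1 - p)) k} ∧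
        ∀ (τ : Equiv.Perm (Fin n)) (hτ : ∀ i, τ i ≠ i),
          τ.cycleType = 5 ::ₘ Multiset.replicate ((n - 5) / 2) 2 →
          med p (ofPerm τ hτ) = M n p) := by
  have ha : 0 < p * (1 - p) := mul_pos h0 (by linarith)
  have ha4 : 4 * (p * (1 - p)) ≤ 1 := by nlinarith [sq_nonneg (1 - 2 * p)]
  obtain ⟨N, hN⟩ := odd_opt_all p h0 h1
  obtain ⟨N3, H3⟩ : ∃ N3 : ℕ, p * (1 - p) ≤ 2 / 11 → ∀ m ≥ N3, ∀ k : ℕ,
      1 / 2 ≤ cum (gf (p * (1 - p)) (5 ::ₘ Multiset.replicate m 2)) k →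
      1 / 2 ≤ cum (gf (p * (1 - p)) (3 ::ₘ Multiset.replicate (m + 1) 2)) k := by
    by_cases h : p * (1 - p) ≤ 2 / 11
    · obtain ⟨N3, H⟩ := three_dom (p * (1 - p)) ha (by linarith)
      exact ⟨N3, fun _ => H⟩
    · exact ⟨0, fun h' => absurd h' h⟩
  obtain ⟨N5, H5⟩ : ∃ N5 : ℕ, 2 / 11 ≤ p * (1 - p) → ∀ m ≥ N5, ∀ k : ℕ,
      1 / 2 ≤ cum (gf (p * (1 - p)) (3 ::ₘ Multiset.replicate (m + 1) 2)) k →
      1 / 2 ≤ cum (gf (p * (1 - p)) (5 ::ₘ Multiset.replicate m 2)) k := by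
    by_cases h : 2 / 11 ≤ p * (1 - p)
    · obtain ⟨N5, H⟩ := five_dom (p * (1 - p)) (by linarith) ha4
      exact ⟨N5, fun _ => H⟩
    · exact ⟨0, fun h' => absurd h' h⟩
  refine ⟨N + 2 * N3 + 2 * N5 + 5, fun n hn ho => ?_⟩
  obtain ⟨m, hm3, hm5, hm3', hm5', hnm⟩ : ∃ m : ℕ, N3 ≤ m ∧ N5 ≤ m ∧ (n - 3) / 2 = m + 1 ∧
      (n - 5) / 2 = m ∧ n = 2 * m + 5 := by
    obtain ⟨l, rfl⟩ := ho
    exact ⟨l - 2, by omega, by omega, by omega, by omega, by omega⟩
  have hall := hN n (by omega) ho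
  rw [hm3', hm5'] at hall
  refine ⟨fun hle => ?_, fun hge => ?_⟩
  · have h := perm_opt (n := n) h0.le h1.le (3 ::ₘ Multiset.replicate (m + 1) 2)
      (by
        rw [Multiset.sum_cons, Multiset.sum_replicate, smul_eq_mul]
        omega)
      (fun L hL => by
        rcases Multiset.mem_cons.mp hL with rfl | h
        · norm_num
        · rw [Multiset.eq_of_mem_replicate h])
      (fun c k hk => by
        rcases hall c k hk with h | h
        · exact h
        · exact H3 hle m hm3 k h)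
    have hF : ∀ k, cum (gf (p * (1 - p)) (3 ::ₘ Multiset.replicate (m + 1) 2)) k =
        F3 n (p * (1 - p)) k := fun k => by rw [cum_three]; unfold F3; rw [hm3']
    simp only [hF] at h
    rw [hm3']
    exact h
  · have h := perm_opt (n := n) h0.le h1.le (5 ::ₘ Multiset.replicate m 2)
      (by
        rw [Multiset.sum_cons, Multiset.sum_replicate, smul_eq_mul]
        omega)
      (fun L hL => by
        rcases Multiset.mem_cons.mp hL with rfl | h
        · norm_num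
        · rw [Multiset.eq_of_mem_replicate h])
      (fun c k hk => by
        rcases hall c k hk with h | h
        · exact H5 hge m hm5 k h
        · exact h)
    have hF : ∀ k, cum (gf (p * (1 - p)) (5 ::ₘ Multiset.replicate m 2)) k =
        F5 n (p * (1 - p)) k := fun k => by rw [cum_five]; unfold F5; rw [hm5']
    simp only [hF] at h
    rw [hm5']
    exact h

end Pool.Agent.Lib.MP_eb8f1d_pr
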