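import Pool.Agent.Lib.MP_eb8f1d_pr.AllSeenMain

/-!
# Few coins on the less likely side
Let `F` be the set of the coins which show heads, `K = |F|`, `T` the set of the tails colours,
`z = n - |T|` and `B` the set of the coins which share their tails colour with another coin, so
`|B| ≤ 2 z`. Unless a coin of `F` has a heads colour all of whose tails coins are in `F`, the number
`U` of unseen colours is at least `max (z, K) - |F ∩ B|`.
-/

namespace Pool.Agent.Lib.MP_eb8f1d_pr

open Finset

variable {n : ℕ}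

namespace Rare

open Classical in
/-- number of coins of `B` which show heads -/
noncomputable def hd (B : Finset (Fin n)) (ω : Fin n → Bool) : ℕ :=
  (B.filter (fun i => ω i = true)).card

open Classical in
/-- tails colours -/
noncomputable def TT (c : Coloring n) : Finset (Fin n) := univ.image c.t

open Classical in
/-- coins which share their tails colour -/
noncomputable def BB (c : Coloring n) : Finset (Fin n) :=
  univ.filter (fun i => ∃ j, j ≠ i ∧ c.t j = c.t i)

theorem injOn_t (c : Coloring n) : Set.InjOn c.t ((BB c)ᶜ : Finset (Fin n)) := by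
  classical
  intro i hi j _ hij
  by_contra hne
  rw [Finset.mem_coe, Finset.mem_compl] at hi
  apply hi
  unfold BB
  rw [Finset.mem_filter]
  exact ⟨Finset.mem_univ _, j, fun h => hne h.symm, hij.symm⟩

theorem not_BB {c : Coloring n} {i : Fin n} (hi : i ∉ BB c) (j : Fin n) (h : c.t j = c.t i) :
    j = i := by
  classical
  by_contra hne
  apply hi
  unfold BB
  rw [Finset.mem_filter]
  exact ⟨Finset.mem_univ _, j, hne, h⟩

theorem card_BB (c : Coloring n) : (BB c).card + 2 * (TT c).card ≤ 2 * n := by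
  classical
  have h1 : 2 * ((BB c).image c.t).card ≤ (BB c).card := by
    rw [Finset.card_eq_sum_card_image c.t (BB c), mul_comm, ← smul_eq_mul]
    refine Finset.card_nsmul_le_sum _ _ _ fun u hu => ?_
    obtain ⟨i, hi, rfl⟩ := Finset.mem_image.1 hu
    have hi' := hi
    unfold BB at hi'
    rw [Finset.mem_filter] at hi'
    obtain ⟨-, j, hji, hj⟩ := hi'
    have hjB : j ∈ BB c := by
      unfold BB
      rw [Finset.mem_filter]
      exact ⟨Finset.mem_univ _, i, fun h => hji h.symm, hj.symm⟩
    have h2 : ({i, j} : Finset (Fin n)) ⊆ (BB c).filter (fun x => c.t x = c.t i) := by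
      intro x hx
      rw [Finset.mem_insert, Finset.mem_singleton] at hx
      rw [Finset.mem_filter]
      rcases hx with rfl | rfl
      · exact ⟨hi, rfl⟩
      · exact ⟨hjB, hj⟩
    have h3 := Finset.card_le_card h2
    rw [Finset.card_pair (fun h => hji h.symm)] at h3
    exact h3
  have h4 : (TT c).card ≤ ((BB c)ᶜ).card + ((BB c).image c.t).card := by
    have h5 : TT c ⊆ ((BB c)ᶜ).image c.t ∪ (BB c).image c.t := by
      intro u hu
      obtain ⟨i, -, rfl⟩ := Finset.mem_image.1 hu
      rw [Finset.mem_union]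
      by_cases hi : i ∈ BB c
      · exact Or.inr (Finset.mem_image_of_mem _ hi)
      · exact Or.inl (Finset.mem_image_of_mem _ (Finset.mem_compl.2 hi))
    exact (Finset.card_le_card h5).trans ((Finset.card_union_le _ _).trans
      (Nat.add_le_add_right Finset.card_image_le _))
  have h6 : (BB c).card + ((BB c)ᶜ).card = n := by
    rw [Finset.card_add_card_compl, Fintype.card_fin]
  omega

theorem hd_split (c : Coloring n) (ω : Fin n → Bool) :
    hd univ ω = hd (BB c) ω + hd (BB c)ᶜ ω := by
  classical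
  unfold hd
  rw [← Finset.card_union_of_disjoint]
  · congr 1
    ext i
    simp only [Finset.mem_filter, Finset.mem_univ, true_and, Finset.mem_union, Finset.mem_compl]
    tauto
  · rw [Finset.disjoint_left]
    intro i hi hi'
    rw [Finset.mem_filter] at hi hi'
    exact (Finset.mem_compl.1 hi'.1) hi.1

theorem TT_le (c : Coloring n) : (TT c).card ≤ n := by
  have := Finset.card_le_univ (TT c)
  rwa [Fintype.card_fin] at this

/-- the deterministic bound -/
theorem U_ge (c : Coloring n) (ω : Fin n → Bool)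
    (hE : ∀ i, ω i = true → c.h i ∈ TT c → ∃ j, ω j = false ∧ c.t j = c.h i) :
    hd univ ω ≤ U c ω + hd (BB c) ω ∧ n ≤ U c ω + hd (BB c) ω + (TT c).card := by
  classical
  have hsU := seen_add_U c ω
  set A1 : Finset (Fin n) := (univ.filter (fun i => ω i = false)).image c.t with hA1
  set A2 : Finset (Fin n) := ((univ.filter (fun i => ω i = true)).image c.h) ∩ (TT c)ᶜ with hA2
  set S : Finset (Fin n) := (((BB c)ᶜ).filter (fun i => ω i = true)).image c.t with hS
  have h1 : seen c ω ≤ A1.card + A2.card := by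
    unfold seen
    refine (Finset.card_le_card ?_).trans (Finset.card_union_le _ _)
    intro v hv
    obtain ⟨i, -, rfl⟩ := Finset.mem_image.1 hv
    rw [Finset.mem_union]
    unfold vis
    by_cases hi : ω i = true
    · rw [if_pos hi]
      by_cases hT : c.h i ∈ TT c
      · obtain ⟨j, hj1, hj2⟩ := hE i hi hT
        left
        rw [hA1, Finset.mem_image]
        exact ⟨j, by rw [Finset.mem_filter]; exact ⟨Finset.mem_univ _, hj1⟩, hj2⟩
      · right
        rw [hA2, Finset.mem_inter, Finset.mem_image, Finset.mem_compl]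
        exact ⟨⟨i, by rw [Finset.mem_filter]; exact ⟨Finset.mem_univ _, hi⟩, rfl⟩, hT⟩
    · left
      rw [if_neg hi, hA1, Finset.mem_image]
      exact ⟨i, by rw [Finset.mem_filter]; exact ⟨Finset.mem_univ _, by simpa using hi⟩, rfl⟩
  have h2 : A2.card ≤ hd univ ω := by
    refine (Finset.card_le_card Finset.inter_subset_left).trans ?_
    exact Finset.card_image_le
  have h3 : A2.card + (TT c).card ≤ n := by
    have h4 : A2.card ≤ ((TT c)ᶜ).card := Finset.card_le_card Finset.inter_subset_right
    have h5 : (TT c).card + ((TT c)ᶜ).card = n := by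
      rw [Finset.card_add_card_compl, Fintype.card_fin]
    omega
  have hScard : S.card = hd (BB c)ᶜ ω := by
    rw [hS, Finset.card_image_of_injOn]
    · rfl
    · intro i hi j hj hij
      rw [Finset.mem_coe, Finset.mem_filter] at hi hj
      exact injOn_t c (Finset.mem_coe.2 hi.1) (Finset.mem_coe.2 hj.1) hij
  have h6 : A1.card + S.card ≤ (TT c).card := by
    rw [← Finset.card_union_of_disjoint]
    · apply Finset.card_le_card
      intro u hu
      rw [Finset.mem_union] at hu
      unfold TT
      rcases hu with hu | hu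
      · obtain ⟨i, -, rfl⟩ := Finset.mem_image.1 hu
        exact Finset.mem_image_of_mem _ (Finset.mem_univ _)
      · obtain ⟨i, -, rfl⟩ := Finset.mem_image.1 hu
        exact Finset.mem_image_of_mem _ (Finset.mem_univ _)
    · rw [Finset.disjoint_left]
      intro u hu hu'
      obtain ⟨j, hj, rfl⟩ := Finset.mem_image.1 hu
      obtain ⟨i, hi, hij⟩ := Finset.mem_image.1 hu'
      rw [Finset.mem_filter] at hi hj
      have h7 := not_BB (Finset.mem_compl.1 hi.1) j hij.symm
      rw [h7] at hj
      rw [hi.2] at hj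
      exact Bool.noConfusion hj.2
  have h8 := hd_split c ω
  omega

/-! ### probabilities -/

theorem Pr_exists_le {p : ℝ} (h0 : 0 ≤ p) (h1 : p ≤ 1) (A : Fin n → (Fin n → Bool) → Prop) :
    Pr p (fun ω => ∃ i, A i ω) ≤ ∑ i, Pr p (A i) := by
  classical
  have h2 : ∑ i, Pr p (A i) = Ex p (fun ω => ∑ i, if A i ω then (1 : ℝ) else 0) := by
    rw [Ex_sum]
    exact Finset.sum_congr rfl fun i _ => Pr_eq (A i)
  rw [h2, Pr_eq]
  refine Ex_mono h0 h1 fun ω => ?_
  by_cases h : ∃ i, A i ω
  · rw [if_pos h]
    obtain ⟨i, hi⟩ := h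
    have h3 := Finset.single_le_sum (f := fun i => if A i ω then (1 : ℝ) else 0)
      (fun j _ => by split_ifs <;> norm_num) (Finset.mem_univ i)
    simp only [hi, if_true] at h3
    exact h3
  · rw [if_neg h]
    exact Finset.sum_nonneg fun i _ => by split_ifs <;> norm_num

theorem Pr_two {p : ℝ} {i j : Fin n} (hij : i ≠ j) :
    Pr p (fun ω : Fin n → Bool => ω i = true ∧ ω j = true) = p ^ 2 := by
  classical
  have h1 : Pr p (fun ω : Fin n → Bool => ω i = true ∧ ω j = true) =
      Ex p (fun ω => (if ω i = true then (1 : ℝ) else 0) * (if ω j = true then 1 else 0)) := by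
    rw [Pr_eq]
    refine Ex_congr fun ω => ?_
    by_cases ha : ω i = true <;> by_cases hb : ω j = true <;> simp [ha, hb]
  rw [h1, Ex_mul_of_dependsOn p {i} _ _ ?_ ?_, AllSeen.Ex_coin, AllSeen.Ex_coin, bw_true]
  · ring
  · intro ω ω' h
    show (if ω i = true then (1 : ℝ) else 0) = if ω' i = true then 1 else 0
    rw [h i (Finset.mem_singleton_self i)]
  · intro ω ω' h
    show (if ω j = true then (1 : ℝ) else 0) = if ω' j = true then 1 else 0
    rw [h j (by rw [Finset.mem_compl, Finset.mem_singleton]; exact hij.symm)]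

theorem Pr_bad {p : ℝ} (h0 : 0 ≤ p) (h1 : p ≤ 1) (c : Coloring n) :
    Pr p (fun ω => ∃ i, ω i = true ∧ c.h i ∈ TT c ∧ ∀ j, c.t j = c.h i → ω j = true) ≤
      n * p ^ 2 := by
  classical
  refine (Pr_exists_le h0 h1 _).trans ?_
  have h2 : ∀ i ∈ (univ : Finset (Fin n)), Pr p (fun ω : Fin n → Bool =>
      ω i = true ∧ c.h i ∈ TT c ∧ ∀ j, c.t j = c.h i → ω j = true) ≤ p ^ 2 := by
    intro i _
    by_cases hT : c.h i ∈ TT c
    · obtain ⟨j, -, hj⟩ := Finset.mem_image.1 hT
      have hij : i ≠ j := by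
        rintro rfl
        exact c.ne i hj.symm
      rw [← Pr_two hij]
      exact Pr_mono h0 h1 fun ω hω => ⟨hω.1, hω.2.2 j hj⟩
    · have h3 : Pr p (fun ω : Fin n → Bool =>
          ω i = true ∧ c.h i ∈ TT c ∧ ∀ j, c.t j = c.h i → ω j = true) = 0 := by
        rw [← AllSeen.Pr_false' (n := n) p]
        exact Pr_congr fun ω => ⟨fun h => hT h.2.1, fun h => h.elim⟩
      rw [h3]
      positivity
  refine (Finset.sum_le_sum h2).trans (le_of_eq ?_)
  rw [Finset.sum_const, Finset.card_univ, Fintype.card_fin, nsmul_eq_mul]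

theorem Ex_hd (p : ℝ) (B : Finset (Fin n)) : Ex p (fun ω => (hd B ω : ℝ)) = B.card * p := by
  classical
  have h1 : ∀ ω : Fin n → Bool, (hd B ω : ℝ) = ∑ i ∈ B, if ω i = true then (1 : ℝ) else 0 := by
    intro ω
    unfold hd
    rw [Finset.card_filter]
    push_cast
    rfl
  rw [Ex_congr h1, Ex_sum]
  rw [Finset.sum_congr rfl fun i _ => AllSeen.Ex_coin p i true, Finset.sum_const, nsmul_eq_mul,
    bw_true]

theorem markov {p : ℝ} (h0 : 0 ≤ p) (h1 : p ≤ 1) (B : Finset (Fin n)) (m : ℕ) :
    Pr p (fun ω => m ≤ hd B ω) * m ≤ B.card * p := by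
  classical
  rw [← Ex_hd, Pr_eq, mul_comm, ← Ex_const_mul]
  refine Ex_mono h0 h1 fun ω => ?_
  split_ifs with h
  · rw [mul_one]
    exact_mod_cast h
  · rw [mul_zero]
    exact Nat.cast_nonneg _

open Polynomial in
theorem Pr_hd (p : ℝ) (k : ℕ) :
    Pr p (fun ω : Fin n → Bool => hd univ ω ≤ k) = bcdf n p (k + 1) := by
  classical
  have hP : (∑ ω : Fin n → Bool, C (wt p ω) * (X : ℝ[X]) ^ hd univ ω) =
      (C (1 - p) + C p * X) ^ n := by
    apply Polynomial.funext
    intro x
    simp only [eval_finsetSum, eval_mul, eval_C, eval_pow, eval_X, eval_add]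
    have h1 : ∑ ω : Fin n → Bool, wt p ω * x ^ hd univ ω =
        Ex p (fun ω => ∏ i, (fun (_ : Fin n) (b : Bool) => if b = true then x else 1) i (ω i)) := by
      unfold Ex
      refine Finset.sum_congr rfl fun ω _ => ?_
      congr 1
      show x ^ hd univ ω = ∏ i, if ω i = true then x else 1
      unfold hd
      rw [Finset.prod_ite, Finset.prod_const, Finset.prod_const_one, mul_one]
    rw [h1, Ex_prod p (fun (_ : Fin n) (b : Bool) => if b = true then x else 1)]
    simp only [if_true, Finset.prod_const, Finset.card_univ, Fintype.card_fin]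
    congr 1
    simp
    ring
  have h2 : bcdf n p (k + 1) = ∑ j ∈ range (k + 1), ((C (1 - p) + C p * X : ℝ[X]) ^ n).coeff j := by
    unfold bcdf
    exact Finset.sum_congr rfl fun j _ => (Med.coeff_pow p n j).symm
  rw [h2, ← hP, Pr_eq]
  unfold Ex
  simp only [Polynomial.finsetSum_coeff, Polynomial.coeff_C_mul, Polynomial.coeff_X_pow]
  rw [Finset.sum_comm]
  refine Finset.sum_congr rfl (fun ω _ => ?_)
  rw [← Finset.mul_sum]
  congr 1
  rw [Finset.sum_ite_eq']
  simp

/-- the upper bound for every colouring -/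
theorem upper {p : ℝ} (h0 : 0 ≤ p) (h1 : p ≤ 1) (c : Coloring n) (k : ℕ) :
    Pr p (fun ω => U c ω ≤ k) ≤ bcdf n p (k + 1) + n * p ^ 2 + 2 * (k + 1) * p := by
  classical
  set m := (TT c).card with hm
  have hmn : m ≤ n := TT_le c
  have hB := card_BB c
  rw [← hm] at hB
  have hBr : ((BB c).card : ℝ) ≤ 2 * ((n : ℝ) - m) := by
    have : ((BB c).card : ℝ) + 2 * m ≤ 2 * n := by exact_mod_cast hB
    linarith
  have hbad := Pr_bad h0 h1 c
  by_cases hz : n ≤ m + k
  · have hstep : Pr p (fun ω => U c ω ≤ k) ≤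
        Pr p (fun ω => (∃ i, ω i = true ∧ c.h i ∈ TT c ∧ ∀ j, c.t j = c.h i → ω j = true) ∨
          (hd univ ω ≤ k ∨ 1 ≤ hd (BB c) ω)) := by
      refine Pr_mono h0 h1 fun ω hω => ?_
      by_contra hcon
      push Not at hcon
      obtain ⟨h2, h3, h4⟩ := hcon
      have h5 := (U_ge c ω (by
        intro i hi hT
        obtain ⟨j, hj1, hj2⟩ := h2 i hi hT
        exact ⟨j, by simpa using hj2, hj1⟩)).1
      omega
    have h6 := markov h0 h1 (BB c) 1
    rw [Nat.cast_one, mul_one] at h6
    have h7 := Pr_or_le h0 h1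
      (fun ω => ∃ i, ω i = true ∧ c.h i ∈ TT c ∧ ∀ j, c.t j = c.h i → ω j = true)
      (fun ω => hd univ ω ≤ k ∨ 1 ≤ hd (BB c) ω)
    have h8 := Pr_or_le h0 h1 (fun ω : Fin n → Bool => hd univ ω ≤ k)
      (fun ω => 1 ≤ hd (BB c) ω)
    rw [Pr_hd] at h8
    have h9 : ((n : ℝ) - m) ≤ k := by
      have : (n : ℝ) ≤ m + k := by exact_mod_cast hz
      linarith
    have h10 : ((BB c).card : ℝ) * p ≤ 2 * (k + 1) * p := by
      apply mul_le_mul_of_nonneg_right _ h0
      linarith
    linarith
  · push Not at hz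
    obtain ⟨j, hj⟩ : ∃ j, n = m + k + j := ⟨n - (m + k), by omega⟩
    have hj1 : 1 ≤ j := by omega
    have hstep : Pr p (fun ω => U c ω ≤ k) ≤
        Pr p (fun ω => (∃ i, ω i = true ∧ c.h i ∈ TT c ∧ ∀ j, c.t j = c.h i → ω j = true) ∨
          j ≤ hd (BB c) ω) := by
      refine Pr_mono h0 h1 fun ω hω => ?_
      by_contra hcon
      push Not at hcon
      obtain ⟨h2, h3⟩ := hcon
      have h5 := (U_ge c ω (by
        intro i hi hT
        obtain ⟨j, hj1, hj2⟩ := h2 i hi hT
        exact ⟨j, by simpa using hj2, hj1⟩)).2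
      omega
    have h6 := markov h0 h1 (BB c) j
    have h7 := Pr_or_le h0 h1
      (fun ω => ∃ i, ω i = true ∧ c.h i ∈ TT c ∧ ∀ j, c.t j = c.h i → ω j = true)
      (fun ω => j ≤ hd (BB c) ω)
    have hjr : (1 : ℝ) ≤ j := by exact_mod_cast hj1
    have hnr : (n : ℝ) = m + k + j := by exact_mod_cast hj
    have hk0 : (0 : ℝ) ≤ k := Nat.cast_nonneg k
    have h8 : Pr p (fun ω => j ≤ hd (BB c) ω) ≤ 2 * (k + 1) * p := by
      have h9 : Pr p (fun ω => j ≤ hd (BB c) ω) * j ≤ (2 * (k + 1) * p) * j := by
        refine h6.trans ?_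
        have h10 : ((BB c).card : ℝ) ≤ 2 * (k + 1) * j := by
          refine hBr.trans ?_
          rw [hnr]
          nlinarith
        nlinarith
      exact le_of_mul_le_mul_right h9 (by linarith)
    have h11 : 0 ≤ bcdf n p (k + 1) := by
      rw [← Pr_hd]
      exact Pr_nonneg h0 h1 _
    linarith

/-- the lower bound for permutation colourings -/
theorem lower {p : ℝ} (h0 : 0 ≤ p) (h1 : p ≤ 1) (c : Coloring n) (hc : IsPerm c) (k : ℕ) :
    bcdf n p (k + 1) ≤ Pr p (fun ω => U c ω ≤ k) := by
  classical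
  rw [← Pr_hd]
  refine Pr_mono h0 h1 fun ω hω => ?_
  have hinj : Function.Injective c.t := by
    intro i j hij
    have h2 := (hc (c.t i)).2
    unfold db at h2
    obtain ⟨x, hx⟩ := Finset.card_eq_one.1 h2
    have hi : i ∈ univ.filter (fun l => c.t l = c.t i) := by
      rw [Finset.mem_filter]; exact ⟨Finset.mem_univ _, rfl⟩
    have hj : j ∈ univ.filter (fun l => c.t l = c.t i) := by
      rw [Finset.mem_filter]; exact ⟨Finset.mem_univ _, hij.symm⟩
    rw [hx, Finset.mem_singleton] at hi hj
    rw [hi, hj]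
  have hsU := seen_add_U c ω
  have h3 : (univ.filter (fun i => ω i = false)).card ≤ seen c ω := by
    unfold seen
    rw [← Finset.card_image_of_injective _ hinj]
    apply Finset.card_le_card
    intro u hu
    obtain ⟨i, hi, rfl⟩ := Finset.mem_image.1 hu
    rw [Finset.mem_filter] at hi
    rw [Finset.mem_image]
    refine ⟨i, Finset.mem_univ _, ?_⟩
    unfold vis
    rw [if_neg (by rw [hi.2]; simp)]
  have h4 : hd univ ω + (univ.filter (fun i => ω i = false)).card = n := by
    have h5 := Finset.card_filter_add_card_filter_not (s := (univ : Finset (Fin n)))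
      (fun i => ω i = true)
    rw [Finset.card_univ, Fintype.card_fin] at h5
    unfold hd
    have h6 : (univ.filter (fun i => ω i = false)) = univ.filter (fun i => ¬ ω i = true) := by
      ext i
      simp
    rw [h6]
    exact h5
  omega

end Rare

end Pool.Agent.Lib.MP_eb8f1d_pr
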