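import Pool.Agent.Lib.MP_eb8f1d_pr.RareHeads

/-!
# Few coins on the less likely side: the median
-/

namespace Pool.Agent.Lib.MP_eb8f1d_pr

open Finset

variable {n : ℕ}

namespace Rare

/-- exchange of the two sides of all coins -/
def sw (c : Coloring n) : Coloring n := ⟨c.t, c.h, fun i => (c.ne i).symm⟩

theorem Pr_sw (p : ℝ) (c : Coloring n) (A : ℕ → Prop) :
    Pr (1 - p) (fun ω => A (seen c ω)) = Pr p (fun ω => A (seen (sw c) ω)) := by
  classical
  let e : (Fin n → Bool) ≃ (Fin n → Bool) := Equiv.arrowCongr (Equiv.refl _) Equiv.boolNot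
  rw [Pr_eq, Pr_eq, Ex, Ex, ← e.sum_comp]
  refine Finset.sum_congr rfl fun ω _ => ?_
  have he : ∀ i, e ω i = !(ω i) := fun i => rfl
  have h1 : wt (1 - p) (e ω) = wt p ω := by
    unfold wt
    refine Finset.prod_congr rfl fun i _ => ?_
    rw [he]
    cases ω i <;> simp
  have h2 : seen c (e ω) = seen (sw c) ω := by
    unfold seen
    congr 2
    funext i
    unfold vis
    rw [he]
    cases ω i <;> simp [sw]
  rw [h1, h2]

theorem med_sw (p : ℝ) (c : Coloring n) : med (1 - p) c = med p (sw c) := by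
  unfold med
  congr 1
  ext m
  have h := Pr_sw p c (fun s => m ≤ s)
  simp only [Set.mem_ofPred_eq, h]

theorem M_sw (p : ℝ) : M n (1 - p) = M n p := by
  unfold M
  congr 1
  ext m
  constructor
  · rintro ⟨c, rfl⟩
    exact ⟨sw c, (med_sw p c).symm⟩
  · rintro ⟨c, rfl⟩
    exact ⟨sw c, med_sw p (sw c)⟩

theorem perm_sw {c : Coloring n} (hc : IsPerm c) : IsPerm (sw c) := fun v => ⟨(hc v).2, (hc v).1⟩

theorem exists_isPerm (hn : 2 ≤ n) : ∃ c : Coloring n, IsPerm c := by
  obtain ⟨σ, hσ, -⟩ := AllSeen.exists_perm n {n} (by simp) (by simpa using hn)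
  refine ⟨ofPerm σ hσ, fun v => ⟨?_, ?_⟩⟩
  · unfold da
    rw [Finset.card_eq_one]
    refine ⟨v, ?_⟩
    ext i
    simp [ofPerm]
  · unfold db
    rw [Finset.card_eq_one]
    refine ⟨σ.symm v, ?_⟩
    ext i
    simp only [ofPerm, Finset.mem_filter, Finset.mem_univ, true_and, Finset.mem_singleton]
    rw [Equiv.eq_symm_apply]

theorem main_p (n k : ℕ) (hn : 2 ≤ n) (p : ℝ) (h0 : 0 < p) (h1 : p < 1)
    (hk1 : bcdf n p k + n * p ^ 2 + 2 * k * p < 1 / 2) (hk2 : 1 / 2 ≤ bcdf n p (k + 1)) :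
    M n p = n - k ∧ ∀ c : Coloring n, IsPerm c → med p c = n - k := by
  classical
  -- lower bound
  have hlow : ∀ c : Coloring n, IsPerm c → n - k ≤ med p c := by
    intro c hc
    rw [AllSeen.le_med_iff h0.le h1.le]
    refine (hk2.trans (lower h0.le h1.le c hc k)).trans (Pr_mono h0.le h1.le fun ω hω => ?_)
    have := seen_add_U c ω
    omega
  -- upper bound
  have hup : ∀ c : Coloring n, med p c ≤ n - k := by
    intro c
    rcases Nat.eq_zero_or_pos k with hk | hk
    · subst hk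
      exact AllSeen.med_le_n h0.le h1.le c
    obtain ⟨j, rfl⟩ : ∃ j, k = j + 1 := ⟨k - 1, by omega⟩
    have hu := upper h0.le h1.le c j
    have hlt : Pr p (fun ω => U c ω ≤ j) < 1 / 2 := by
      push_cast at hk1
      linarith
    have hjn : j + 1 ≤ n := by
      by_contra hcon
      push Not at hcon
      have h2 : Pr p (fun ω => U c ω ≤ j) = 1 := by
        rw [← AllSeen.Pr_true' (n := n) p]
        refine Pr_congr fun ω => ?_
        have := seen_add_U c ω
        simp only [iff_true]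
        omega
      linarith
    by_contra hcon
    push Not at hcon
    have h3 := (AllSeen.le_med_iff h0.le h1.le c (n - (j + 1) + 1)).1 hcon
    have h4 : Pr p (fun ω => n - (j + 1) + 1 ≤ seen c ω) = Pr p (fun ω => U c ω ≤ j) := by
      refine Pr_congr fun ω => ?_
      have := seen_add_U c ω
      omega
    linarith
  obtain ⟨c₀, hc₀⟩ := exists_isPerm (n := n) hn
  refine ⟨?_, fun c hc => le_antisymm (hup c) (hlow c hc)⟩
  obtain ⟨c, hc⟩ := AllSeen.M_attained h0.le h1.le c₀
  refine le_antisymm ?_ ((hlow c₀ hc₀).trans (AllSeen.med_le_M h0.le h1.le c₀))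
  rw [← hc]
  exact hup c

theorem main (n k : ℕ) (hn : 2 ≤ n) (p r : ℝ) (h0 : 0 < p) (h1 : p < 1) (hr : r = p ∨ r = 1 - p)
    (hk1 : bcdf n r k + n * r ^ 2 + 2 * k * r < 1 / 2) (hk2 : 1 / 2 ≤ bcdf n r (k + 1)) :
    M n p = n - k ∧ ∀ c : Coloring n, IsPerm c → med p c = n - k := by
  rcases hr with rfl | rfl
  · exact main_p n k hn r h0 h1 hk1 hk2
  · obtain ⟨h2, h3⟩ := main_p n k hn (1 - p) (by linarith) (by linarith) hk1 hk2
    refine ⟨by rw [← M_sw]; exact h2, fun c hc => ?_⟩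
    have h4 := h3 (sw c) (perm_sw hc)
    rw [med_sw] at h4
    exact h4

end Rare

end Pool.Agent.Lib.MP_eb8f1d_pr
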