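import Pool.Agent.Lib.MP_eb8f1d_pr.RareMain

/-!
# Few coins on the less likely side: the sharper error term
`K` is the number of heads, `j < K` and `U ≤ j`: then `K - j` is at most the number of heads among
the coins which share their tails colour plus the number of bad coins, and given `K = m` the
expectation of these numbers is at most `2 j m / n` and `m (m - 1) / (n - 1)`, as the coins are
exchangeable.
-/

namespace Pool.Agent.Lib.MP_eb8f1d_pr

open Finset

variable {n : ℕ}

namespace Rare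

/-- indicator of heads -/
def ind (i : Fin n) (ω : Fin n → Bool) : ℝ := if ω i = true then 1 else 0

theorem ind_nonneg (i : Fin n) (ω : Fin n → Bool) : 0 ≤ ind i ω := by
  unfold ind; split_ifs <;> norm_num

theorem hd_eq (B : Finset (Fin n)) (ω : Fin n → Bool) : (hd B ω : ℝ) = ∑ i ∈ B, ind i ω := by
  classical
  unfold hd ind
  rw [Finset.card_filter]
  push_cast
  rfl

theorem Ex_perm (p : ℝ) (σ : Equiv.Perm (Fin n)) (f : (Fin n → Bool) → ℝ) :
    Ex p (fun ω => f (fun i => ω (σ i))) = Ex p f := by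
  unfold Ex
  let e : (Fin n → Bool) ≃ (Fin n → Bool) := Equiv.arrowCongr σ (Equiv.refl _)
  rw [← e.sum_comp]
  refine Finset.sum_congr rfl fun ω _ => ?_
  have he : ∀ i, e ω i = ω (σ.symm i) := fun i => rfl
  have h1 : wt p (e ω) = wt p ω := by
    unfold wt
    rw [← Equiv.prod_comp σ]
    exact Finset.prod_congr rfl fun i _ => by rw [he, Equiv.symm_apply_apply]
  have h2 : (fun i => e ω (σ i)) = ω := by
    funext i
    rw [he, Equiv.symm_apply_apply]
  show wt p (e ω) * f (fun i => e ω (σ i)) = wt p ω * f ω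
  rw [h1, h2]

theorem hd_perm (σ : Equiv.Perm (Fin n)) (ω : Fin n → Bool) :
    hd univ (fun i => ω (σ i)) = hd univ ω := by
  have h : (hd univ (fun i => ω (σ i)) : ℝ) = hd univ ω := by
    rw [hd_eq, hd_eq]
    exact Equiv.sum_comp σ (fun i => ind i ω)
  exact_mod_cast h

theorem Ex_one_coin (p : ℝ) (i : Fin n) (ψ : ℕ → ℝ) :
    (n : ℝ) * Ex p (fun ω : Fin n → Bool => ind i ω * ψ (hd univ ω)) =
      Ex p (fun ω : Fin n → Bool => (hd univ ω : ℝ) * ψ (hd univ ω)) := by
  have h1 : ∀ j : Fin n, Ex p (fun ω : Fin n → Bool => ind j ω * ψ (hd univ ω)) =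
      Ex p (fun ω : Fin n → Bool => ind i ω * ψ (hd univ ω)) := by
    intro j
    rw [← Ex_perm p (Equiv.swap i j) (fun ω : Fin n → Bool => ind j ω * ψ (hd univ ω))]
    refine Ex_congr fun ω => ?_
    rw [hd_perm]
    congr 1
    show (if ω (Equiv.swap i j j) = true then (1 : ℝ) else 0) = if ω i = true then 1 else 0
    rw [Equiv.swap_apply_right]
  have h2 : Ex p (fun ω : Fin n → Bool => (hd univ ω : ℝ) * ψ (hd univ ω)) =
      ∑ j : Fin n, Ex p (fun ω : Fin n → Bool => ind j ω * ψ (hd univ ω)) := by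
    rw [← Ex_sum]
    refine Ex_congr fun ω => ?_
    rw [hd_eq, Finset.sum_mul]
  rw [h2, Finset.sum_congr rfl fun j _ => h1 j, Finset.sum_const, Finset.card_univ,
    Fintype.card_fin, nsmul_eq_mul]

theorem Ex_two_coins (p : ℝ) (i j : Fin n) (hij : i ≠ j) (ψ : ℕ → ℝ) :
    ((n : ℝ) - 1) * Ex p (fun ω : Fin n → Bool => ind i ω * ind j ω * ψ (hd univ ω)) =
      Ex p (fun ω : Fin n → Bool => ind i ω * (((hd univ ω : ℝ) - 1) * ψ (hd univ ω))) := by
  classical
  have h1 : ∀ l ∈ univ.erase i,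
      Ex p (fun ω : Fin n → Bool => ind i ω * ind l ω * ψ (hd univ ω)) =
      Ex p (fun ω : Fin n → Bool => ind i ω * ind j ω * ψ (hd univ ω)) := by
    intro l hl
    have hli : l ≠ i := Finset.ne_of_mem_erase hl
    rw [← Ex_perm p (Equiv.swap j l)
      (fun ω : Fin n → Bool => ind i ω * ind l ω * ψ (hd univ ω))]
    refine Ex_congr fun ω => ?_
    rw [hd_perm]
    show (if ω (Equiv.swap j l i) = true then (1 : ℝ) else 0) *
      (if ω (Equiv.swap j l l) = true then (1 : ℝ) else 0) * _ = _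
    rw [Equiv.swap_apply_right, Equiv.swap_apply_of_ne_of_ne hij hli.symm]
    rfl
  have h2 : Ex p (fun ω : Fin n → Bool => ind i ω * (((hd univ ω : ℝ) - 1) * ψ (hd univ ω))) =
      ∑ l ∈ univ.erase i,
        Ex p (fun ω : Fin n → Bool => ind i ω * ind l ω * ψ (hd univ ω)) := by
    rw [← Ex_sum]
    refine Ex_congr fun ω => ?_
    have h3 : (hd univ ω : ℝ) = ind i ω + ∑ l ∈ univ.erase i, ind l ω := by
      rw [hd_eq, Finset.add_sum_erase _ (fun i => ind i ω) (Finset.mem_univ i)]
    have h4 : ind i ω * ((hd univ ω : ℝ) - 1) = ∑ l ∈ univ.erase i, ind i ω * ind l ω := by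
      rw [← Finset.mul_sum, h3]
      have h5 : ind i ω * ind i ω = ind i ω := by
        unfold ind; split_ifs <;> norm_num
      linear_combination h5
    rw [← mul_assoc, h4, Finset.sum_mul]
  rw [h2, Finset.sum_congr rfl h1, Finset.sum_const, Finset.card_erase_of_mem (Finset.mem_univ i),
    Finset.card_univ, Fintype.card_fin, nsmul_eq_mul]
  have hn : 1 ≤ n := by
    have := i.pos
    omega
  rw [Nat.cast_sub hn, Nat.cast_one]

theorem Ex_law (p : ℝ) (ψ : ℕ → ℝ) :
    Ex p (fun ω : Fin n → Bool => ψ (hd univ ω)) = ∑ m ∈ range (n + 1), bin n p m * ψ m := by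
  classical
  have h1 : ∀ m, bin n p m = bcdf n p (m + 1) - bcdf n p m := by
    intro m
    unfold bcdf
    rw [Finset.sum_range_succ]
    ring
  have hb : ∀ m, bin n p m = Ex p (fun ω : Fin n → Bool => if hd univ ω = m then 1 else 0) := by
    intro m
    rw [h1]
    cases m with
    | zero =>
      have : bcdf n p 0 = 0 := by simp [bcdf]
      rw [this, sub_zero, ← Pr_hd, Pr_eq]
      refine Ex_congr fun ω => ?_
      simp
    | succ m =>
      rw [← Pr_hd, ← Pr_hd, Pr_eq, Pr_eq, ← Ex_sub]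
      refine Ex_congr fun ω => ?_
      by_cases h2 : hd univ ω ≤ m
      · rw [if_pos (by omega), if_pos h2, if_neg (by omega)]
        norm_num
      · by_cases h3 : hd univ ω = m + 1
        · rw [if_pos (by omega), if_neg h2, if_pos h3]
          norm_num
        · rw [if_neg (by omega), if_neg h2, if_neg h3]
          norm_num
  have hle : ∀ ω : Fin n → Bool, hd univ ω ≤ n := by
    intro ω
    unfold hd
    exact (Finset.card_filter_le _ _).trans (by rw [Finset.card_univ, Fintype.card_fin])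
  have h4 : ∀ ω : Fin n → Bool, ψ (hd univ ω) =
      ∑ m ∈ range (n + 1), ψ m * (if hd univ ω = m then (1 : ℝ) else 0) := by
    intro ω
    rw [Finset.sum_eq_single (hd univ ω)]
    · rw [if_pos rfl, mul_one]
    · intro m _ hm
      rw [if_neg (fun h => hm h.symm), mul_zero]
    · intro h
      exact absurd (Finset.mem_range.2 (Nat.lt_succ_of_le (hle ω))) h
  rw [Ex_congr h4, Ex_sum]
  refine Finset.sum_congr rfl fun m _ => ?_
  rw [Ex_const_mul, hb m]
  ring

open Classical in
/-- number of heads coins whose heads colour is a tails colour, all of whose tails coins show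
heads -/
noncomputable def gd (c : Coloring n) (ω : Fin n → Bool) : ℕ :=
  (univ.filter (fun i => ω i = true ∧ c.h i ∈ TT c ∧ ∀ j, c.t j = c.h i → ω j = true)).card

/-- the deterministic bound, with the number of bad coins -/
theorem U_ge_gd (c : Coloring n) (ω : Fin n → Bool) :
    hd univ ω ≤ U c ω + (hd (BB c) ω + gd c ω) := by
  classical
  have hsU := seen_add_U c ω
  set A1 : Finset (Fin n) := (univ.filter (fun i => ω i = false)).image c.t with hA1
  set A2 : Finset (Fin n) := ((univ.filter (fun i => ω i = true)).image c.h) ∩ (TT c)ᶜ with hA2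
  set A3 : Finset (Fin n) := (univ.filter (fun i => ω i = true ∧ c.h i ∈ TT c ∧
    ∀ j, c.t j = c.h i → ω j = true)).image c.h with hA3
  set S : Finset (Fin n) := (((BB c)ᶜ).filter (fun i => ω i = true)).image c.t with hS
  have h1 : seen c ω ≤ A1.card + A2.card + A3.card := by
    unfold seen
    refine (Finset.card_le_card (?_ : _ ⊆ (A1 ∪ A2) ∪ A3)).trans
      ((Finset.card_union_le _ _).trans
        (Nat.add_le_add_right (Finset.card_union_le _ _) _))
    intro v hv
    obtain ⟨i, -, rfl⟩ := Finset.mem_image.1 hv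
    rw [Finset.mem_union, Finset.mem_union]
    unfold vis
    by_cases hi : ω i = true
    · rw [if_pos hi]
      by_cases hT : c.h i ∈ TT c
      · by_cases hb : ∀ j, c.t j = c.h i → ω j = true
        · right
          rw [hA3, Finset.mem_image]
          exact ⟨i, by rw [Finset.mem_filter]; exact ⟨Finset.mem_univ _, hi, hT, hb⟩, rfl⟩
        · push Not at hb
          obtain ⟨j, hj1, hj2⟩ := hb
          left; left
          rw [hA1, Finset.mem_image]
          exact ⟨j, by rw [Finset.mem_filter]; exact ⟨Finset.mem_univ _, by simpa using hj2⟩, hj1⟩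
      · left; right
        rw [hA2, Finset.mem_inter, Finset.mem_image, Finset.mem_compl]
        exact ⟨⟨i, by rw [Finset.mem_filter]; exact ⟨Finset.mem_univ _, hi⟩, rfl⟩, hT⟩
    · left; left
      rw [if_neg hi, hA1, Finset.mem_image]
      exact ⟨i, by rw [Finset.mem_filter]; exact ⟨Finset.mem_univ _, by simpa using hi⟩, rfl⟩
  have h2 : A3.card ≤ gd c ω := Finset.card_image_le
  have h3 : A2.card + (TT c).card ≤ n := by
    have h4 : A2.card ≤ ((TT c)ᶜ).card := Finset.card_le_card Finset.inter_subset_right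
    have h5 : (TT c).card + ((TT c)ᶜ).card = n := by
      rw [Finset.card_add_card_compl, Fintype.card_fin]
    omega
  have hScard : S.card = hd (BB c)ᶜ ω := by
    rw [hS, Finset.card_image_of_injOn]
    · rfl
    · intro i hi j hj hij
      rw [Finset.mem_coe, Finset.mem_filter] at hi hj
      exact injOn_t c (Finset.mem_coe.2 hi.1) (Finset.mem_coe.2 hj.1) hij
  have h6 : A1.card + S.card ≤ (TT c).card := by
    rw [← Finset.card_union_of_disjoint]
    · apply Finset.card_le_card
      intro u hu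
      rw [Finset.mem_union] at hu
      unfold TT
      rcases hu with hu | hu
      · obtain ⟨i, -, rfl⟩ := Finset.mem_image.1 hu
        exact Finset.mem_image_of_mem _ (Finset.mem_univ _)
      · obtain ⟨i, -, rfl⟩ := Finset.mem_image.1 hu
        exact Finset.mem_image_of_mem _ (Finset.mem_univ _)
    · rw [Finset.disjoint_left]
      intro u hu hu'
      obtain ⟨j, hj, rfl⟩ := Finset.mem_image.1 hu
      obtain ⟨i, hi, hij⟩ := Finset.mem_image.1 hu'
      rw [Finset.mem_filter] at hi hj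
      have h7 := not_BB (Finset.mem_compl.1 hi.1) j hij.symm
      rw [h7] at hj
      rw [hi.2] at hj
      exact Bool.noConfusion hj.2
  have h8 := hd_split c ω
  omega

/-- the weight of the bad coins -/
theorem Ex_gd_le {p : ℝ} (h0 : 0 ≤ p) (h1 : p ≤ 1) (hn : 2 ≤ n) (c : Coloring n) (φ : ℕ → ℝ)
    (hφ : ∀ m, 0 ≤ φ m) :
    Ex p (fun ω : Fin n → Bool => (gd c ω : ℝ) * φ (hd univ ω)) ≤
      Ex p (fun ω : Fin n → Bool =>
        (hd univ ω : ℝ) * (((hd univ ω : ℝ) - 1) / ((n : ℝ) - 1) * φ (hd univ ω))) := by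
  classical
  have hn1 : (0 : ℝ) < (n : ℝ) - 1 := by
    have : (2 : ℝ) ≤ n := by exact_mod_cast hn
    linarith
  have hn0 : (0 : ℝ) < (n : ℝ) := by linarith
  have h2 : ∀ i ∈ (univ : Finset (Fin n)), Ex p (fun ω : Fin n → Bool =>
      (if (ω i = true ∧ c.h i ∈ TT c ∧ ∀ j, c.t j = c.h i → ω j = true) then (1 : ℝ) else 0) *
        φ (hd univ ω)) ≤ Ex p (fun ω : Fin n → Bool => ind i ω *
        (((hd univ ω : ℝ) - 1) / ((n : ℝ) - 1) * φ (hd univ ω))) := by
    intro i _
    by_cases hT : c.h i ∈ TT c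
    · obtain ⟨j, -, hj⟩ := Finset.mem_image.1 hT
      have hij : i ≠ j := by
        rintro rfl
        exact c.ne i hj.symm
      have h3 : Ex p (fun ω : Fin n → Bool => ind i ω *
          (((hd univ ω : ℝ) - 1) / ((n : ℝ) - 1) * φ (hd univ ω))) =
          Ex p (fun ω : Fin n → Bool => ind i ω * ind j ω * φ (hd univ ω)) := by
        have h4 := Ex_two_coins p i j hij φ
        have h5 : Ex p (fun ω : Fin n → Bool => ind i ω *
          (((hd univ ω : ℝ) - 1) / ((n : ℝ) - 1) * φ (hd univ ω))) =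
            ((n : ℝ) - 1)⁻¹ * Ex p (fun ω : Fin n → Bool => ind i ω *
              (((hd univ ω : ℝ) - 1) * φ (hd univ ω))) := by
          rw [← Ex_const_mul]
          refine Ex_congr fun ω => ?_
          field_simp
        rw [h5, ← h4]
        field_simp
      rw [h3]
      refine Ex_mono h0 h1 fun ω => ?_
      apply mul_le_mul_of_nonneg_right _ (hφ _)
      split_ifs with h
      · have ha : ind i ω = 1 := if_pos h.1
        have hb : ind j ω = 1 := if_pos (h.2.2 j hj)
        rw [ha, hb, one_mul]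
      · exact mul_nonneg (ind_nonneg _ _) (ind_nonneg _ _)
    · refine Ex_mono h0 h1 fun ω => ?_
      rw [if_neg (fun h => hT h.2.1), zero_mul]
      unfold ind
      split_ifs with h
      · have h5 : 1 ≤ hd univ ω := by
          unfold hd
          exact Finset.card_pos.2 ⟨i, by rw [Finset.mem_filter]; exact ⟨Finset.mem_univ _, h⟩⟩
        have h6 : (1 : ℝ) ≤ (hd univ ω : ℝ) := by exact_mod_cast h5
        have h7 := hφ (hd univ ω)
        have h8 : 0 ≤ ((hd univ ω : ℝ) - 1) / ((n : ℝ) - 1) := div_nonneg (by linarith) hn1.le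
        rw [one_mul]
        exact mul_nonneg h8 h7
      · rw [zero_mul]
  have h4 : Ex p (fun ω : Fin n → Bool => (gd c ω : ℝ) * φ (hd univ ω)) =
      ∑ i, Ex p (fun ω : Fin n → Bool =>
      (if (ω i = true ∧ c.h i ∈ TT c ∧ ∀ j, c.t j = c.h i → ω j = true) then (1 : ℝ) else 0) *
        φ (hd univ ω)) := by
    rw [← Ex_sum]
    refine Ex_congr fun ω => ?_
    unfold gd
    rw [Finset.card_filter, ← Finset.sum_mul]
    push_cast
    rfl
  have h5 : Ex p (fun ω : Fin n → Bool =>
        (hd univ ω : ℝ) * (((hd univ ω : ℝ) - 1) / ((n : ℝ) - 1) * φ (hd univ ω))) =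
      ∑ i, Ex p (fun ω : Fin n → Bool => ind i ω *
        (((hd univ ω : ℝ) - 1) / ((n : ℝ) - 1) * φ (hd univ ω))) := by
    rw [← Ex_sum]
    refine Ex_congr fun ω => ?_
    rw [hd_eq univ ω, Finset.sum_mul]
  rw [h4, h5]
  exact Finset.sum_le_sum h2

/-- the weight of the heads among the coins of `B` -/
theorem Ex_hdB {p : ℝ} (hn : 2 ≤ n) (B : Finset (Fin n)) (φ : ℕ → ℝ) :
    Ex p (fun ω : Fin n → Bool => (hd B ω : ℝ) * φ (hd univ ω)) =
      (B.card : ℝ) / n * Ex p (fun ω : Fin n → Bool => (hd univ ω : ℝ) * φ (hd univ ω)) := by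
  classical
  have hn0 : (0 : ℝ) < (n : ℝ) := by
    have : (2 : ℝ) ≤ n := by exact_mod_cast hn
    linarith
  have h1 : Ex p (fun ω : Fin n → Bool => (hd B ω : ℝ) * φ (hd univ ω)) =
      ∑ i ∈ B, Ex p (fun ω : Fin n → Bool => ind i ω * φ (hd univ ω)) := by
    rw [← Ex_sum]
    refine Ex_congr fun ω => ?_
    rw [hd_eq B ω, Finset.sum_mul]
  have h2 : ∀ i ∈ B, Ex p (fun ω : Fin n → Bool => ind i ω * φ (hd univ ω)) =
      (n : ℝ)⁻¹ * Ex p (fun ω : Fin n → Bool => (hd univ ω : ℝ) * φ (hd univ ω)) := by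
    intro i _
    rw [← Ex_one_coin p i φ]
    field_simp
  rw [h1, Finset.sum_congr rfl h2, Finset.sum_const, nsmul_eq_mul]
  ring

/-- the upper bound for every colouring, sharper form -/
theorem upper_sharp {p : ℝ} (h0 : 0 ≤ p) (h1 : p ≤ 1) (hn : 2 ≤ n) (c : Coloring n) (k : ℕ)
    (hz : n ≤ (TT c).card + k) :
    Pr p (fun ω => U c ω ≤ k) ≤ bcdf n p (k + 1) +
      ∑ m ∈ Icc (k + 1) n, bin n p m *
        ((2 * k * m / n + m * (m - 1) / (n - 1)) / (m - k)) := by
  classical
  have hn1 : (0 : ℝ) < (n : ℝ) - 1 := by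
    have : (2 : ℝ) ≤ n := by exact_mod_cast hn
    linarith
  have hn0 : (0 : ℝ) < (n : ℝ) := by linarith
  set φ : ℕ → ℝ := fun m => if k < m then 1 / ((m : ℝ) - k) else 0 with hφ
  have hφ0 : ∀ m, 0 ≤ φ m := by
    intro m
    rw [hφ]
    dsimp only
    split_ifs with h
    · have : (k : ℝ) < m := by exact_mod_cast h
      exact div_nonneg zero_le_one (by linarith)
    · exact le_refl _
  have hB := card_BB c
  have hBr : ((BB c).card : ℝ) ≤ 2 * k := by
    have : (BB c).card ≤ 2 * k := by omega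
    exact_mod_cast this
  have hstep : Pr p (fun ω => U c ω ≤ k) ≤
      Ex p (fun ω : Fin n → Bool => (if hd univ ω ≤ k then (1 : ℝ) else 0) +
        ((hd (BB c) ω : ℝ) * φ (hd univ ω) + (gd c ω : ℝ) * φ (hd univ ω))) := by
    rw [Pr_eq]
    refine Ex_mono h0 h1 fun ω => ?_
    have h5 := U_ge_gd c ω
    have ha : 0 ≤ (hd (BB c) ω : ℝ) * φ (hd univ ω) := mul_nonneg (Nat.cast_nonneg _) (hφ0 _)
    have hb : 0 ≤ (gd c ω : ℝ) * φ (hd univ ω) := mul_nonneg (Nat.cast_nonneg _) (hφ0 _)
    by_cases hU : U c ω ≤ k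
    · rw [if_pos hU]
      by_cases hK : hd univ ω ≤ k
      · rw [if_pos hK]
        linarith
      · rw [if_neg hK]
        push Not at hK
        have h6 : φ (hd univ ω) = 1 / ((hd univ ω : ℝ) - k) := by
          rw [hφ]
          exact if_pos hK
        have h7 : (0 : ℝ) < (hd univ ω : ℝ) - k := by
          have : (k : ℝ) < hd univ ω := by exact_mod_cast hK
          linarith
        have h8 : (hd univ ω : ℝ) - k ≤ (hd (BB c) ω : ℝ) + gd c ω := by
          have : (hd univ ω : ℝ) ≤ k + (hd (BB c) ω + gd c ω) := by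
            have h9 : hd univ ω ≤ k + (hd (BB c) ω + gd c ω) := by omega
            exact_mod_cast h9
          linarith
        rw [h6, ← add_mul, mul_one_div, zero_add]
        rwa [le_div_iff₀ h7, one_mul]
    · rw [if_neg hU]
      have hc : (0 : ℝ) ≤ if hd univ ω ≤ k then (1 : ℝ) else 0 := by split_ifs <;> norm_num
      linarith
  have h2 : Ex p (fun ω : Fin n → Bool => (if hd univ ω ≤ k then (1 : ℝ) else 0) +
        ((hd (BB c) ω : ℝ) * φ (hd univ ω) + (gd c ω : ℝ) * φ (hd univ ω))) =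
      bcdf n p (k + 1) + (Ex p (fun ω : Fin n → Bool => (hd (BB c) ω : ℝ) * φ (hd univ ω)) +
        Ex p (fun ω : Fin n → Bool => (gd c ω : ℝ) * φ (hd univ ω))) := by
    rw [Ex_add, Ex_add, ← Pr_hd, Pr_eq]
  have h3 := Ex_gd_le h0 h1 hn c φ hφ0
  have h4 := Ex_hdB (p := p) hn (BB c) φ
  have h5 : (0 : ℝ) ≤ Ex p (fun ω : Fin n → Bool => (hd univ ω : ℝ) * φ (hd univ ω)) := by
    have : Ex p (fun _ : Fin n → Bool => (0 : ℝ)) ≤
        Ex p (fun ω : Fin n → Bool => (hd univ ω : ℝ) * φ (hd univ ω)) :=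
      Ex_mono h0 h1 fun ω => mul_nonneg (Nat.cast_nonneg _) (hφ0 _)
    have h6 : Ex p (fun _ : Fin n → Bool => (0 : ℝ)) = 0 := by
      unfold Ex
      simp
    linarith
  have h6 : ((BB c).card : ℝ) / n * Ex p (fun ω : Fin n → Bool =>
      (hd univ ω : ℝ) * φ (hd univ ω)) ≤ 2 * k / n * Ex p (fun ω : Fin n → Bool =>
      (hd univ ω : ℝ) * φ (hd univ ω)) := by
    apply mul_le_mul_of_nonneg_right _ h5
    gcongr
  have h7 := Ex_law (n := n) p (fun m => (m : ℝ) * φ m)
  have h8 := Ex_law (n := n) p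
    (fun m => (m : ℝ) * (((m : ℝ) - 1) / ((n : ℝ) - 1) * φ m))
  rw [h2] at hstep
  rw [h4] at hstep
  rw [h8] at h3
  rw [h7] at h6
  refine hstep.trans ?_
  have h9 : 2 * (k : ℝ) / n * (∑ m ∈ range (n + 1), bin n p m * ((m : ℝ) * φ m)) +
      (∑ m ∈ range (n + 1), bin n p m * ((m : ℝ) * (((m : ℝ) - 1) / ((n : ℝ) - 1) * φ m))) =
      ∑ m ∈ Icc (k + 1) n, bin n p m *
        ((2 * k * m / n + m * (m - 1) / (n - 1)) / (m - k)) := by
    rw [Finset.mul_sum, ← Finset.sum_add_distrib]
    symm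
    apply Finset.sum_subset_zero_on_sdiff
    · intro m hm
      rw [Finset.mem_Icc] at hm
      exact Finset.mem_range.2 (by omega)
    · intro m hm
      rw [Finset.mem_sdiff, Finset.mem_range, Finset.mem_Icc] at hm
      have : ¬ k < m := by omega
      have h10 : φ m = 0 := by
        rw [hφ]
        exact if_neg this
      rw [h10]
      ring
    · intro m hm
      rw [Finset.mem_Icc] at hm
      have h10 : φ m = 1 / ((m : ℝ) - k) := by
        rw [hφ]
        exact if_pos (by omega)
      have h11 : (0 : ℝ) < (m : ℝ) - k := by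
        have : (k : ℝ) < m := by
          have : k < m := by omega
          exact_mod_cast this
        linarith
      rw [h10]
      field_simp
  have h7' := h7
  rw [h7]
  linarith

/-- the upper bound for colourings with more than `k` colours on no tails side -/
theorem upper_big {p : ℝ} (h0 : 0 ≤ p) (h1 : p ≤ 1) (c : Coloring n) (k : ℕ)
    (hz : ¬ n ≤ (TT c).card + k) :
    Pr p (fun ω => U c ω ≤ k) ≤ n * p ^ 2 + 2 * (k + 1) * p := by
  classical
  set m := (TT c).card with hm
  have hmn : m ≤ n := TT_le c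
  have hB := card_BB c
  rw [← hm] at hB
  have hBr : ((BB c).card : ℝ) ≤ 2 * ((n : ℝ) - m) := by
    have : ((BB c).card : ℝ) + 2 * m ≤ 2 * n := by exact_mod_cast hB
    linarith
  have hbad := Pr_bad h0 h1 c
  push Not at hz
  obtain ⟨j, hj⟩ : ∃ j, n = m + k + j := ⟨n - (m + k), by omega⟩
  have hj1 : 1 ≤ j := by omega
  have hstep : Pr p (fun ω => U c ω ≤ k) ≤
      Pr p (fun ω => (∃ i, ω i = true ∧ c.h i ∈ TT c ∧ ∀ j, c.t j = c.h i → ω j = true) ∨
        j ≤ hd (BB c) ω) := by
    refine Pr_mono h0 h1 fun ω hω => ?_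
    by_contra hcon
    push Not at hcon
    obtain ⟨h2, h3⟩ := hcon
    have h5 := (U_ge c ω (by
      intro i hi hT
      obtain ⟨j, hj1, hj2⟩ := h2 i hi hT
      exact ⟨j, by simpa using hj2, hj1⟩)).2
    omega
  have h6 := markov h0 h1 (BB c) j
  have h7 := Pr_or_le h0 h1
    (fun ω => ∃ i, ω i = true ∧ c.h i ∈ TT c ∧ ∀ j, c.t j = c.h i → ω j = true)
    (fun ω => j ≤ hd (BB c) ω)
  have hjr : (1 : ℝ) ≤ j := by exact_mod_cast hj1
  have hnr : (n : ℝ) = m + k + j := by exact_mod_cast hj
  have hk0 : (0 : ℝ) ≤ k := Nat.cast_nonneg k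
  have h8 : Pr p (fun ω => j ≤ hd (BB c) ω) ≤ 2 * (k + 1) * p := by
    have h9 : Pr p (fun ω => j ≤ hd (BB c) ω) * j ≤ (2 * (k + 1) * p) * j := by
      refine h6.trans ?_
      have h10 : ((BB c).card : ℝ) ≤ 2 * (k + 1) * j := by
        refine hBr.trans ?_
        rw [hnr]
        nlinarith
      nlinarith
    exact le_of_mul_le_mul_right h9 (by linarith)
  linarith

theorem main_p_two (n j k : ℕ) (hn : 2 ≤ n) (p : ℝ) (h0 : 0 < p) (h1 : p < 1)
    (hj0 : n * p ^ 2 + 2 * j * p < 1 / 2)
    (hj1 : bcdf n p j + ∑ m ∈ Icc j n, bin n p m *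
        ((2 * j * m / n + m * (m - 1) / (n - 1)) / (m - j + 1)) < 1 / 2)
    (hk : 1 / 2 ≤ bcdf n p (k + 1)) :
    n - k ≤ M n p ∧ M n p ≤ n - j ∧ ∀ c : Coloring n, IsPerm c → n - k ≤ med p c := by
  classical
  -- lower bound
  have hlow : ∀ c : Coloring n, IsPerm c → n - k ≤ med p c := by
    intro c hc
    rw [AllSeen.le_med_iff h0.le h1.le]
    refine (hk.trans (lower h0.le h1.le c hc k)).trans (Pr_mono h0.le h1.le fun ω hω => ?_)
    have := seen_add_U c ω
    omega
  -- upper bound
  have hup : ∀ c : Coloring n, med p c ≤ n - j := by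
    intro c
    rcases Nat.eq_zero_or_pos j with hj | hj
    · subst hj
      exact AllSeen.med_le_n h0.le h1.le c
    obtain ⟨i, rfl⟩ : ∃ i, j = i + 1 := ⟨j - 1, by omega⟩
    have hn1 : (0 : ℝ) < (n : ℝ) - 1 := by
      have : (2 : ℝ) ≤ n := by exact_mod_cast hn
      linarith
    have hn0 : (0 : ℝ) < (n : ℝ) := by linarith
    have hlt : Pr p (fun ω => U c ω ≤ i) < 1 / 2 := by
      by_cases hz : n ≤ (TT c).card + i
      · refine lt_of_le_of_lt ?_ hj1
        refine (upper_sharp h0.le h1.le hn c i hz).trans ?_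
        apply add_le_add_right
        refine Finset.sum_le_sum fun m hm => ?_
        rw [Finset.mem_Icc] at hm
        have hbin : 0 ≤ bin n p m := by
          unfold bin
          have : 0 ≤ 1 - p := by linarith
          positivity
        apply mul_le_mul_of_nonneg_left _ hbin
        have hmj : (0 : ℝ) < (m : ℝ) - i := by
          have : (i : ℝ) < m := by
            have : i < m := by omega
            exact_mod_cast this
          linarith
        push_cast
        rw [show (m : ℝ) - ((i : ℝ) + 1) + 1 = m - i by ring]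
        have hm0 : (0 : ℝ) ≤ m := Nat.cast_nonneg m
        gcongr
        linarith
      · refine lt_of_le_of_lt (upper_big h0.le h1.le c i hz) ?_
        push_cast at hj0
        exact hj0
    have hjn : i + 1 ≤ n := by
      by_contra hcon
      push Not at hcon
      have h2 : Pr p (fun ω => U c ω ≤ i) = 1 := by
        rw [← AllSeen.Pr_true' (n := n) p]
        refine Pr_congr fun ω => ?_
        have := seen_add_U c ω
        simp only [iff_true]
        omega
      linarith
    by_contra hcon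
    push Not at hcon
    have h3 := (AllSeen.le_med_iff h0.le h1.le c (n - (i + 1) + 1)).1 hcon
    have h4 : Pr p (fun ω => n - (i + 1) + 1 ≤ seen c ω) = Pr p (fun ω => U c ω ≤ i) := by
      refine Pr_congr fun ω => ?_
      have := seen_add_U c ω
      omega
    linarith
  obtain ⟨c₀, hc₀⟩ := exists_isPerm (n := n) hn
  obtain ⟨c, hc⟩ := AllSeen.M_attained h0.le h1.le c₀
  refine ⟨(hlow c₀ hc₀).trans (AllSeen.med_le_M h0.le h1.le c₀), ?_, hlow⟩
  rw [← hc]
  exact hup c

theorem main_two (n j k : ℕ) (hn : 2 ≤ n) (p r : ℝ) (h0 : 0 < p) (h1 : p < 1)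
    (hr : r = p ∨ r = 1 - p)
    (hj0 : n * r ^ 2 + 2 * j * r < 1 / 2)
    (hj1 : bcdf n r j + ∑ m ∈ Icc j n, bin n r m *
        ((2 * j * m / n + m * (m - 1) / (n - 1)) / (m - j + 1)) < 1 / 2)
    (hk : 1 / 2 ≤ bcdf n r (k + 1)) :
    n - k ≤ M n p ∧ M n p ≤ n - j ∧ ∀ c : Coloring n, IsPerm c → n - k ≤ med p c := by
  rcases hr with rfl | rfl
  · exact main_p_two n j k hn r h0 h1 hj0 hj1 hk
  · obtain ⟨h2, h3, h5⟩ := main_p_two n j k hn (1 - p) (by linarith) (by linarith) hj0 hj1 hk
    refine ⟨by rw [← M_sw]; exact h2, by rw [← M_sw]; exact h3, fun c hc => ?_⟩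
    have h4 := h5 (sw c) (perm_sw hc)
    rw [med_sw] at h4
    exact h4

end Rare

end Pool.Agent.Lib.MP_eb8f1d_pr
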