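import Pool.Agent.Lib.MP_eb8f1d_pr.BinSeq

set_option autoImplicit false

namespace Pool.Agent.Lib.MP_eb8f1d_pr

open Finset

namespace ER

theorem reflect_sum (N k : ℕ) (r : ℝ) (g : ℝ → ℝ) :
    ∑ i ∈ range (k + 1), g i * bin N r (k - i) =
      ∑ j ∈ range (k + 1), g ((k : ℝ) - j) * bin N r j := by
  rw [← Finset.sum_range_reflect]
  refine Finset.sum_congr rfl fun j hj => ?_
  have hj' : j ≤ k := by
    have := Finset.mem_range.mp hj
    omega
  rw [show k + 1 - 1 - j = k - j by omega, show k - (k - j) = j by omega, Nat.cast_sub hj']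

theorem core (N k I : ℕ) (r v e B M2 M4 : ℝ) (h0 : 0 < r) (h1 : r < 1) (hN : 0 < N)
    (hv : v = N * r * (1 - r)) (he : e * v = 1) (hB : 1 ≤ B)
    (hκ : |(k : ℝ) - N * r| + 1 ≤ B) (hIk : I ≤ k) (hIN : k + 1 + I ≤ N)
    (hI : 400 * B ^ 3 * (e + I * e + (I : ℝ) ^ 3 * e ^ 2) ≤ 1)
    (hM2 : ∑ j ∈ range (N + 1), ((k : ℝ) - j) ^ 2 * bin N r j ≤ M2)
    (hM4 : ∑ j ∈ range (N + 1), ((k : ℝ) - j) ^ 4 * bin N r j ≤ M4) :
    |1 - ∑ j ∈ range (k + 1), bin N r j -
      (∑ j ∈ range (k + 1), bin N r j -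
        2 * ((k : ℝ) - N * r + 1 - r) * e * ∑ j ∈ range (k + 1), ((k : ℝ) - j) * bin N r j +
        (1 - 2 * r) / 3 * e ^ 2 * ∑ j ∈ range (k + 1), ((k : ℝ) - j) ^ 3 * bin N r j)| ≤
      M4 * (2 / ((I : ℝ) + 1) ^ 4 + 4 * B * e / ((I : ℝ) + 1) ^ 3 + e ^ 2 / ((I : ℝ) + 1)) +
      200000 * B ^ 6 * (e + e ^ 2 * M2 + e ^ 3 * M4 + (I : ℝ) ^ 2 * e ^ 4 * M4) := by
  have h1r : 0 < 1 - r := by linarith
  have hNr : (0 : ℝ) < N := by exact_mod_cast hN
  have hvpos : 0 < v := by rw [hv]; positivity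
  have hepos : 0 < e := by
    by_contra hcon
    push Not at hcon
    nlinarith only [h0, h1, hcon, he, hvpos]
  have hb : ∀ j, 0 ≤ bin N r j := fun j => Med.bin_nonneg h0.le h1.le j
  set κ : ℝ := (k : ℝ) - N * r with hκdef
  have hκB : |κ| ≤ B - 1 := by linarith
  have hκ1 := (abs_le.mp hκB).1
  have hκ2 := (abs_le.mp hκB).2
  have hx : |r * κ| ≤ B := by
    rw [abs_mul, abs_of_pos h0]
    nlinarith only [h0, h1, hB, hκ, abs_nonneg κ]
  have hy : |(1 - r) * (κ + 1)| ≤ B := by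
    rw [abs_mul, abs_of_pos h1r]
    have : |κ + 1| ≤ B := by rw [abs_le]; constructor <;> linarith
    nlinarith only [h0, this, abs_nonneg (κ + 1)]
  have hp0 : 0 ≤ r ^ 2 := sq_nonneg r
  have hp1 : r ^ 2 ≤ 1 := by nlinarith only [h1, hv, hvpos]
  have hq0 : 0 ≤ (1 - r) ^ 2 := sq_nonneg _
  have hq1 : (1 - r) ^ 2 ≤ 1 := by nlinarith only [h0, h1]
  set h : ℕ → ℝ := hh (r * κ) ((1 - r) * (κ + 1)) (r ^ 2) ((1 - r) ^ 2) e with hh'
  set P : ℕ → ℝ := PP (r * κ) ((1 - r) * (κ + 1)) (r ^ 2) ((1 - r) ^ 2) e with hP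
  have hPeq : ∀ i : ℕ, P i = 1 - 2 * (κ + 1 - r) * e * i + (1 - 2 * r) / 3 * e ^ 2 * (i : ℝ) ^ 3 := by
    intro i
    rw [hP]
    unfold PP
    ring
  have hratio : ∀ i ≤ k, bin N r (k + 1 + i) = h i * bin N r (k - i) := by
    intro i hi
    apply bin_ratio N k r v e h0 h1 hN hv he i hi
    intro l hl
    have e2 : 1 + (1 - r) * ((k : ℝ) - N * r + 1) * e = (1 - r) * ((k : ℝ) + 1) * e := by
      have : 1 = e * (N * r * (1 - r)) := by rw [← hv, he]
      linear_combination this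
    rw [e2]
    have hk1 : (0 : ℝ) < (k : ℝ) + 1 := by positivity
    refine ⟨by positivity, ?_⟩
    have hlk : (l : ℝ) ≤ k := by exact_mod_cast hl
    have hl0 : (0 : ℝ) ≤ l := Nat.cast_nonneg l
    have : ((1 - r) * ((k : ℝ) + 1) * e) ^ 2 - (1 - r) ^ 2 * ((l : ℝ) * e) ^ 2 =
        (1 - r) ^ 2 * e ^ 2 * (((k : ℝ) + 1) ^ 2 - (l : ℝ) ^ 2) := by ring
    rw [this]
    have h3 : 0 < ((k : ℝ) + 1) ^ 2 - (l : ℝ) ^ 2 := by nlinarith only [h0, h1, hlk]
    positivity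
  have hfine : ∀ i ≤ I, |h i - P i| ≤ 200000 * B ^ 6 *
      (e + ((i : ℝ) ^ 2 * e ^ 2 + (i : ℝ) ^ 4 * e ^ 3 + (i : ℝ) ^ 6 * e ^ 4)) := by
    intro i hi
    exact hh_fine hB hx hy hp0 hp1 hq0 hq1 hepos.le i (mono_I hB hepos.le hi hI)
  -- sums over `i`
  have hA : ∑ i ∈ range (k + 1), bin N r (k - i) = ∑ j ∈ range (k + 1), bin N r j := by
    have := reflect_sum N k r (fun _ => 1)
    simpa using this
  have hm1 := reflect_sum N k r (fun x => x)
  have hm3 := reflect_sum N k r (fun x => x ^ 3)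
  have hm2 := reflect_sum N k r (fun x => x ^ 2)
  have hm4 := reflect_sum N k r (fun x => x ^ 4)
  have hkN : k + 1 ≤ N + 1 := by omega
  have hsub : ∀ s : ℕ, Even s → ∑ j ∈ range (k + 1), ((k : ℝ) - j) ^ s * bin N r j ≤
      ∑ j ∈ range (N + 1), ((k : ℝ) - j) ^ s * bin N r j := by
    intro s hs
    apply Finset.sum_le_sum_of_subset_of_nonneg (Finset.range_mono hkN)
    intro j _ _
    exact mul_nonneg (hs.pow_nonneg _) (hb j)
  have hm2' : ∑ i ∈ range (k + 1), (i : ℝ) ^ 2 * bin N r (k - i) ≤ M2 := by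
    rw [hm2]; exact (hsub 2 (by norm_num)).trans hM2
  have hm4' : ∑ i ∈ range (k + 1), (i : ℝ) ^ 4 * bin N r (k - i) ≤ M4 := by
    rw [hm4]; exact (hsub 4 (by decide)).trans hM4
  have hup4 : ∑ i ∈ range (N - k), ((i : ℝ) + 1) ^ 4 * bin N r (k + 1 + i) ≤ M4 := by
    refine le_trans ?_ hM4
    have hsplit : N + 1 = (k + 1) + (N - k) := by omega
    rw [hsplit, Finset.sum_range_add]
    have : ∑ x ∈ range (N - k), ((k : ℝ) - ((k + 1 + x : ℕ) : ℝ)) ^ 4 * bin N r (k + 1 + x) =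
        ∑ i ∈ range (N - k), ((i : ℝ) + 1) ^ 4 * bin N r (k + 1 + i) := by
      refine Finset.sum_congr rfl fun i _ => ?_
      push_cast
      ring
    rw [this]
    have : 0 ≤ ∑ x ∈ range (k + 1), ((k : ℝ) - x) ^ 4 * bin N r x :=
      Finset.sum_nonneg fun j _ => mul_nonneg (by positivity) (hb j)
    linarith
  -- upper side
  have hmass := Med.sum_bin N r
  have hup : 1 - ∑ j ∈ range (k + 1), bin N r j = ∑ i ∈ range (N - k), bin N r (k + 1 + i) := by
    rw [show N + 1 = (k + 1) + (N - k) by omega, Finset.sum_range_add] at hmass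
    linarith only [hmass]
  have hI1 : (0 : ℝ) < (I : ℝ) + 1 := by positivity
  have hupsplit : ∑ i ∈ range (N - k), bin N r (k + 1 + i) =
      ∑ i ∈ range (I + 1), bin N r (k + 1 + i) + ∑ i ∈ Finset.Ico (I + 1) (N - k), bin N r (k + 1 + i) := by
    rw [Finset.range_eq_Ico, Finset.range_eq_Ico,
      Finset.sum_Ico_consecutive _ (Nat.zero_le _) (by omega)]
  have htailp : ∑ i ∈ Finset.Ico (I + 1) (N - k), bin N r (k + 1 + i) ≤
      M4 * (1 / ((I : ℝ) + 1) ^ 4) := by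
    have c1 : ∑ i ∈ Finset.Ico (I + 1) (N - k), bin N r (k + 1 + i) ≤
        ∑ i ∈ Finset.Ico (I + 1) (N - k),
          (1 / ((I : ℝ) + 1) ^ 4) * (((i : ℝ) + 1) ^ 4 * bin N r (k + 1 + i)) := by
      refine Finset.sum_le_sum fun i hi => ?_
      have hi' : (I : ℝ) + 1 ≤ (i : ℝ) + 1 := by
        have := (Finset.mem_Ico.mp hi).1
        exact_mod_cast (by omega : I + 1 ≤ i + 1)
      have c2 : (1 : ℝ) ≤ 1 / ((I : ℝ) + 1) ^ 4 * ((i : ℝ) + 1) ^ 4 := by
        rw [one_div_mul_eq_div, le_div_iff₀ (by (clear * -; positivity)), one_mul]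
        exact pow_le_pow_left₀ hI1.le hi' 4
      have := mul_le_mul_of_nonneg_right c2 (hb (k + 1 + i))
      linarith only [this]
    refine c1.trans ?_
    rw [← Finset.mul_sum, mul_comm M4]
    apply mul_le_mul_of_nonneg_left _ (by positivity)
    refine le_trans ?_ hup4
    apply Finset.sum_le_sum_of_subset_of_nonneg
    · intro i hi
      exact Finset.mem_range.mpr (Finset.mem_Ico.mp hi).2
    · intro i _ _
      exact mul_nonneg (by positivity) (hb _)
  have htailp0 : 0 ≤ ∑ i ∈ Finset.Ico (I + 1) (N - k), bin N r (k + 1 + i) :=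
    Finset.sum_nonneg fun i _ => hb _
  -- main part
  have hmain : |∑ i ∈ range (I + 1), bin N r (k + 1 + i) -
      ∑ i ∈ range (I + 1), P i * bin N r (k - i)| ≤
      200000 * B ^ 6 * (e + e ^ 2 * M2 + e ^ 3 * M4 + (I : ℝ) ^ 2 * e ^ 4 * M4) := by
    rw [← Finset.sum_sub_distrib]
    refine (Finset.abs_sum_le_sum_abs _ _).trans ?_
    have c1 : ∀ i ∈ range (I + 1), |bin N r (k + 1 + i) - P i * bin N r (k - i)| ≤
        200000 * B ^ 6 * (e * bin N r (k - i) + (e ^ 2 * ((i : ℝ) ^ 2 * bin N r (k - i)) +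
          e ^ 3 * ((i : ℝ) ^ 4 * bin N r (k - i)) +
            (I : ℝ) ^ 2 * e ^ 4 * ((i : ℝ) ^ 4 * bin N r (k - i)))) := by
      intro i hi
      have hiI : i ≤ I := by
        have := Finset.mem_range.mp hi
        omega
      rw [hratio i (hiI.trans hIk), ← sub_mul, abs_mul, abs_of_nonneg (hb (k - i))]
      refine (mul_le_mul_of_nonneg_right (hfine i hiI) (hb (k - i))).trans ?_
      have hiI' : (i : ℝ) ≤ I := by exact_mod_cast hiI
      have c2 : (i : ℝ) ^ 6 ≤ (I : ℝ) ^ 2 * (i : ℝ) ^ 4 := by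
        have : (i : ℝ) ^ 6 = (i : ℝ) ^ 2 * (i : ℝ) ^ 4 := by ring
        rw [this]
        apply mul_le_mul_of_nonneg_right _ (by positivity)
        exact pow_le_pow_left₀ (Nat.cast_nonneg i) hiI' 2
      have c3 : (i : ℝ) ^ 6 * e ^ 4 * bin N r (k - i) ≤
          (I : ℝ) ^ 2 * (i : ℝ) ^ 4 * e ^ 4 * bin N r (k - i) :=
        mul_le_mul_of_nonneg_right (mul_le_mul_of_nonneg_right c2 (by positivity)) (hb _)
      rw [mul_assoc (200000 * B ^ 6)]
      apply mul_le_mul_of_nonneg_left _ (by positivity)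
      linarith
    refine (Finset.sum_le_sum c1).trans ?_
    rw [← Finset.mul_sum]
    apply mul_le_mul_of_nonneg_left _ (by positivity)
    rw [Finset.sum_add_distrib, Finset.sum_add_distrib, Finset.sum_add_distrib, ← Finset.mul_sum,
      ← Finset.mul_sum, ← Finset.mul_sum, ← Finset.mul_sum]
    have hss : Finset.range (I + 1) ⊆ Finset.range (k + 1) := Finset.range_mono (by omega)
    have d0 : ∑ i ∈ range (I + 1), bin N r (k - i) ≤ 1 := by
      have d1 : ∑ i ∈ range (I + 1), bin N r (k - i) ≤ ∑ i ∈ range (k + 1), bin N r (k - i) :=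
        Finset.sum_le_sum_of_subset_of_nonneg hss fun i _ _ => hb _
      have d2 : 0 ≤ ∑ i ∈ range (N - k), bin N r (k + 1 + i) :=
        Finset.sum_nonneg fun i _ => hb _
      rw [hA] at d1
      linarith
    have d2 : ∑ i ∈ range (I + 1), (i : ℝ) ^ 2 * bin N r (k - i) ≤ M2 :=
      (Finset.sum_le_sum_of_subset_of_nonneg hss fun i _ _ =>
        mul_nonneg (by (clear * -; positivity)) (hb _)).trans hm2'
    have d4 : ∑ i ∈ range (I + 1), (i : ℝ) ^ 4 * bin N r (k - i) ≤ M4 :=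
      (Finset.sum_le_sum_of_subset_of_nonneg hss fun i _ _ =>
        mul_nonneg (by (clear * -; positivity)) (hb _)).trans hm4'
    have f0 := mul_le_mul_of_nonneg_left d0 hepos.le
    have f2 := mul_le_mul_of_nonneg_left d2 (show 0 ≤ e ^ 2 by positivity)
    have f3 := mul_le_mul_of_nonneg_left d4 (show 0 ≤ e ^ 3 by positivity)
    have f4 := mul_le_mul_of_nonneg_left d4 (show 0 ≤ (I : ℝ) ^ 2 * e ^ 4 by positivity)
    linarith
  -- lower tail of `P`
  have hPsplit : ∑ i ∈ range (k + 1), P i * bin N r (k - i) =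
      ∑ i ∈ range (I + 1), P i * bin N r (k - i) +
        ∑ i ∈ Finset.Ico (I + 1) (k + 1), P i * bin N r (k - i) := by
    rw [Finset.range_eq_Ico, Finset.range_eq_Ico,
      Finset.sum_Ico_consecutive _ (Nat.zero_le _) (by omega)]
  have htailm : |∑ i ∈ Finset.Ico (I + 1) (k + 1), P i * bin N r (k - i)| ≤
      M4 * (1 / ((I : ℝ) + 1) ^ 4 + 4 * B * e / ((I : ℝ) + 1) ^ 3 + e ^ 2 / ((I : ℝ) + 1)) := by
    refine (Finset.abs_sum_le_sum_abs _ _).trans ?_
    have c1 : ∀ i ∈ Finset.Ico (I + 1) (k + 1), |P i * bin N r (k - i)| ≤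
        (1 / ((I : ℝ) + 1) ^ 4 + 4 * B * e / ((I : ℝ) + 1) ^ 3 + e ^ 2 / ((I : ℝ) + 1)) *
          ((i : ℝ) ^ 4 * bin N r (k - i)) := by
      intro i hi
      have hi' : (I : ℝ) + 1 ≤ i := by
        have := (Finset.mem_Ico.mp hi).1
        exact_mod_cast this
      have hi0 : (0 : ℝ) < i := by linarith only [h0, h1, hi']
      rw [abs_mul, abs_of_nonneg (hb (k - i)), ← mul_assoc]
      apply mul_le_mul_of_nonneg_right _ (hb _)
      rw [hPeq]
      have c2 : |1 - 2 * (κ + 1 - r) * e * i + (1 - 2 * r) / 3 * e ^ 2 * (i : ℝ) ^ 3| ≤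
          1 + 4 * B * e * i + e ^ 2 * (i : ℝ) ^ 3 := by
        have d1 := abs_add_le (1 - 2 * (κ + 1 - r) * e * i) ((1 - 2 * r) / 3 * e ^ 2 * (i : ℝ) ^ 3)
        have d2 := abs_sub (1 : ℝ) (2 * (κ + 1 - r) * e * i)
        have d3 : |2 * (κ + 1 - r) * e * i| ≤ 4 * B * e * i := by
          rw [abs_mul, abs_mul, abs_of_pos hi0, abs_of_pos hepos]
          apply mul_le_mul_of_nonneg_right _ hi0.le
          apply mul_le_mul_of_nonneg_right _ hepos.le
          rw [abs_le]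
          constructor <;> linarith
        have d4 : |(1 - 2 * r) / 3 * e ^ 2 * (i : ℝ) ^ 3| ≤ e ^ 2 * (i : ℝ) ^ 3 := by
          rw [mul_assoc, abs_mul, abs_of_nonneg (show 0 ≤ e ^ 2 * (i : ℝ) ^ 3 by positivity)]
          have : |(1 - 2 * r) / 3| ≤ 1 := by rw [abs_le]; constructor <;> linarith only [h0, h1]
          have := mul_le_mul_of_nonneg_right this (show 0 ≤ e ^ 2 * (i : ℝ) ^ 3 by positivity)
          linarith only [this]
        rw [abs_one] at d2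
        linarith only [d1, d2, d3, d4]
      refine c2.trans ?_
      have g4 : (1 : ℝ) ≤ 1 / ((I : ℝ) + 1) ^ 4 * (i : ℝ) ^ 4 := by
        rw [one_div_mul_eq_div, le_div_iff₀ (by positivity), one_mul]
        exact pow_le_pow_left₀ hI1.le hi' 4
      have g3 : 4 * B * e * i ≤ 4 * B * e / ((I : ℝ) + 1) ^ 3 * (i : ℝ) ^ 4 := by
        rw [div_mul_eq_mul_div, le_div_iff₀ (by positivity)]
        have : ((I : ℝ) + 1) ^ 3 ≤ (i : ℝ) ^ 3 := pow_le_pow_left₀ hI1.le hi' 3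
        have := mul_le_mul_of_nonneg_left this (show 0 ≤ 4 * B * e * i by positivity)
        linarith
      have g1 : e ^ 2 * (i : ℝ) ^ 3 ≤ e ^ 2 / ((I : ℝ) + 1) * (i : ℝ) ^ 4 := by
        rw [div_mul_eq_mul_div, le_div_iff₀ hI1]
        have := mul_le_mul_of_nonneg_left hi' (show 0 ≤ e ^ 2 * (i : ℝ) ^ 3 by (clear * - hepos hi0; positivity))
        linarith only [this]
      linarith only [g1, g3, g4]
    refine (Finset.sum_le_sum c1).trans ?_
    rw [← Finset.mul_sum, mul_comm M4]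
    apply mul_le_mul_of_nonneg_left _ (by (clear * - hB hepos; positivity))
    refine le_trans ?_ hm4'
    apply Finset.sum_le_sum_of_subset_of_nonneg
    · intro i hi
      exact Finset.mem_range.mpr (Finset.mem_Ico.mp hi).2
    · intro i _ _
      exact mul_nonneg (by (clear * -; positivity)) (hb _)
  -- the full sum of `P`
  have hPfull : ∑ i ∈ range (k + 1), P i * bin N r (k - i) =
      ∑ j ∈ range (k + 1), bin N r j -
        2 * (κ + 1 - r) * e * ∑ j ∈ range (k + 1), ((k : ℝ) - j) * bin N r j +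
        (1 - 2 * r) / 3 * e ^ 2 * ∑ j ∈ range (k + 1), ((k : ℝ) - j) ^ 3 * bin N r j := by
    rw [← hm1, ← hm3, ← hA, Finset.mul_sum, Finset.mul_sum, ← Finset.sum_sub_distrib,
      ← Finset.sum_add_distrib]
    refine Finset.sum_congr rfl fun i _ => ?_
    rw [hPeq]
    ring
  rw [← hPfull, hup, hupsplit, hPsplit]
  have hfin : ∑ i ∈ range (I + 1), bin N r (k + 1 + i) +
      ∑ i ∈ Finset.Ico (I + 1) (N - k), bin N r (k + 1 + i) -
      (∑ i ∈ range (I + 1), P i * bin N r (k - i) +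
        ∑ i ∈ Finset.Ico (I + 1) (k + 1), P i * bin N r (k - i)) =
      (∑ i ∈ range (I + 1), bin N r (k + 1 + i) - ∑ i ∈ range (I + 1), P i * bin N r (k - i)) +
      (∑ i ∈ Finset.Ico (I + 1) (N - k), bin N r (k + 1 + i) -
        ∑ i ∈ Finset.Ico (I + 1) (k + 1), P i * bin N r (k - i)) := by ring
  rw [hfin]
  have z1 := abs_add_le (∑ i ∈ range (I + 1), bin N r (k + 1 + i) -
      ∑ i ∈ range (I + 1), P i * bin N r (k - i))
      (∑ i ∈ Finset.Ico (I + 1) (N - k), bin N r (k + 1 + i) -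
        ∑ i ∈ Finset.Ico (I + 1) (k + 1), P i * bin N r (k - i))
  have z2 := abs_sub (∑ i ∈ Finset.Ico (I + 1) (N - k), bin N r (k + 1 + i))
    (∑ i ∈ Finset.Ico (I + 1) (k + 1), P i * bin N r (k - i))
  rw [abs_of_nonneg htailp0] at z2
  have z3 : M4 * (2 / ((I : ℝ) + 1) ^ 4 + 4 * B * e / ((I : ℝ) + 1) ^ 3 + e ^ 2 / ((I : ℝ) + 1)) =
      M4 * (1 / ((I : ℝ) + 1) ^ 4) +
      M4 * (1 / ((I : ℝ) + 1) ^ 4 + 4 * B * e / ((I : ℝ) + 1) ^ 3 + e ^ 2 / ((I : ℝ) + 1)) := by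
    ring
  rw [z3]
  linarith only [hmain, htailm, htailp, z1, z2]

end ER

end Pool.Agent.Lib.MP_eb8f1d_pr
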