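import Pool.Agent.Lib.MP_eb8f1d_pr.Basic

set_option autoImplicit false

namespace Pool.Agent.Lib.MP_eb8f1d_pr

open Finset

variable {n : ℕ}

/-- number of active gadgets of `G` whose coin shows `b` -/
noncomputable def JJ (G : Finset (Fin n)) (act : Fin n → (Fin n → Bool) → Prop) (b : Bool)
    (ω : Fin n → Bool) : ℝ := by
  classical exact ((G.filter (fun e => act e ω ∧ ω e = b)).card : ℝ)

open Classical in
theorem JJ_eq_sum (G : Finset (Fin n)) (act : Fin n → (Fin n → Bool) → Prop) (b : Bool)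
    (ω : Fin n → Bool) : JJ G act b ω = ∑ e ∈ G, if act e ω ∧ ω e = b then (1 : ℝ) else 0 := by
  unfold JJ
  rw [Finset.card_filter]
  push_cast
  rfl

theorem JJ_nonneg (G : Finset (Fin n)) (act : Fin n → (Fin n → Bool) → Prop) (b : Bool)
    (ω : Fin n → Bool) : 0 ≤ JJ G act b ω := by
  unfold JJ
  exact Nat.cast_nonneg _

theorem JJ_le (G : Finset (Fin n)) (act : Fin n → (Fin n → Bool) → Prop) (b : Bool)
    (ω : Fin n → Bool) : JJ G act b ω ≤ n := by
  classical
  unfold JJ
  have := (Finset.card_le_univ (G.filter (fun e => act e ω ∧ ω e = b)))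
  rw [Fintype.card_fin] at this
  exact_mod_cast this

open Classical in
theorem switching (p : ℝ) (V : (Fin n → Bool) → ℤ)
    (E : (Fin n → Bool) → Prop) (G : Finset (Fin n)) (act : Fin n → (Fin n → Bool) → Prop)
    (h1 : ∀ e ∈ G, ∀ ω, act e (flp e ω) ↔ act e ω)
    (h2 : ∀ e ∈ G, ∀ ω, act e ω → ω e = true → V (flp e ω) = V ω + 1)
    (h3 : ∀ e ∈ G, ∀ ω, E (flp e ω) ↔ E ω) (j : ℤ) :
    (1 - p) * Ex p (fun ω => if E ω ∧ V ω = j then JJ G act true ω else 0) =
      p * Ex p (fun ω => if E ω ∧ V ω = j + 1 then JJ G act false ω else 0) := by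
  have hl : Ex p (fun ω => if E ω ∧ V ω = j then JJ G act true ω else 0) =
      ∑ e ∈ G, Ex p (fun ω => if ω e = true then
        (if E (flp e ω) ∧ V (flp e ω) = j + 1 ∧ act e (flp e ω) then (1 : ℝ) else 0) else 0) := by
    rw [← Ex_sum]
    refine Ex_congr fun ω => ?_
    rw [JJ_eq_sum]
    by_cases hA : E ω ∧ V ω = j
    · rw [if_pos hA]
      refine Finset.sum_congr rfl fun e he => ?_
      by_cases hω : ω e = true
      · by_cases ha : act e ω
        · have q1 := (h3 e he ω).mpr hA.1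
          have q2 := h2 e he ω ha hω
          have q3 := (h1 e he ω).mpr ha
          rw [hA.2] at q2
          rw [if_pos ⟨ha, hω⟩, if_pos hω, if_pos ⟨q1, q2, q3⟩]
        · have q3 : ¬ act e (flp e ω) := fun h => ha ((h1 e he ω).mp h)
          rw [if_neg (fun h => ha h.1), if_pos hω, if_neg (fun h => q3 h.2.2)]
      · rw [if_neg (fun h => hω h.2), if_neg hω]
    · rw [if_neg hA]
      symm
      refine Finset.sum_eq_zero fun e he => ?_
      by_cases hω : ω e = true
      · rw [if_pos hω, if_neg]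
        rintro ⟨q1, q2, q3⟩
        have ha := (h1 e he ω).mp q3
        have q4 := h2 e he ω ha hω
        rw [q2] at q4
        exact hA ⟨(h3 e he ω).mp q1, by linarith⟩
      · rw [if_neg hω]
  have hr : Ex p (fun ω => if E ω ∧ V ω = j + 1 then JJ G act false ω else 0) =
      ∑ e ∈ G, Ex p (fun ω => if ω e = true then 0 else
        (if E ω ∧ V ω = j + 1 ∧ act e ω then (1 : ℝ) else 0)) := by
    rw [← Ex_sum]
    refine Ex_congr fun ω => ?_
    rw [JJ_eq_sum]
    by_cases hA : E ω ∧ V ω = j + 1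
    · rw [if_pos hA]
      refine Finset.sum_congr rfl fun e he => ?_
      by_cases hω : ω e = true
      · rw [if_neg (fun h => by rw [hω] at h; exact absurd h.2 (by simp)), if_pos hω]
      · have hω' : ω e = false := by simpa using hω
        by_cases ha : act e ω
        · rw [if_pos ⟨ha, hω'⟩, if_neg hω, if_pos ⟨hA.1, hA.2, ha⟩]
        · rw [if_neg (fun h => ha h.1), if_neg hω, if_neg (fun h => ha h.2.2)]
    · rw [if_neg hA]
      symm
      refine Finset.sum_eq_zero fun e he => ?_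
      by_cases hω : ω e = true
      · rw [if_pos hω]
      · rw [if_neg hω, if_neg]
        rintro ⟨q1, q2, -⟩
        exact hA ⟨q1, q2⟩
  rw [hl, hr, Finset.mul_sum, Finset.mul_sum]
  refine Finset.sum_congr rfl fun e he => ?_
  exact Ex_flp p e (fun ω => if E ω ∧ V ω = j + 1 ∧ act e ω then (1 : ℝ) else 0)

open Classical in
theorem ratio_aux {p : ℝ} (h0 : 0 < p) (h1 : p < 1) (A : (Fin n → Bool) → Prop)
    (J : (Fin n → Bool) → ℝ) (hJ0 : ∀ ω, 0 ≤ J ω) (hJn : ∀ ω, J ω ≤ n) (μ ε η : ℝ)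
    (hμ : 0 < μ) (hε : 0 ≤ ε) (hε1 : ε < 1)
    (hT : Pr p (fun ω => ε * μ < |J ω - μ|) ≤ η) :
    (1 - ε) * μ * (Pr p A - η) ≤ Ex p (fun ω => if A ω then J ω else 0) ∧
      Ex p (fun ω => if A ω then J ω else 0) ≤ (1 + ε) * μ * Pr p A + n * η := by
  have hp0 := h0.le
  have hp1 := h1.le
  constructor
  · have h2 : (1 - ε) * μ * (Pr p A - Pr p (fun ω => ε * μ < |J ω - μ|)) ≤
        Ex p (fun ω => if A ω then J ω else 0) := by
      unfold Pr
      rw [← Ex_sub, ← Ex_const_mul]
      refine Ex_mono hp0 hp1 fun ω => ?_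
      by_cases hA : A ω
      · by_cases hb : ε * μ < |J ω - μ|
        · simp only [hA, hb, if_true]
          have := hJ0 ω
          linarith
        · simp only [hA, hb, if_true, if_false]
          rw [not_lt, abs_le] at hb
          linarith [hb.1]
      · have hμ1 : 0 < (1 - ε) * μ := mul_pos (by linarith) hμ
        by_cases hb : ε * μ < |J ω - μ|
        · simp only [hA, hb, if_true, if_false]
          linarith
        · simp only [hA, hb, if_false]
          linarith
    have hμ1 : 0 < (1 - ε) * μ := mul_pos (by linarith) hμ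
    have h3 : (1 - ε) * μ * (Pr p A - η) ≤
        (1 - ε) * μ * (Pr p A - Pr p (fun ω => ε * μ < |J ω - μ|)) :=
      mul_le_mul_of_nonneg_left (by linarith) hμ1.le
    linarith
  · have hμ1 : 0 < (1 + ε) * μ := mul_pos (by linarith) hμ
    have hn0 : (0 : ℝ) ≤ n := Nat.cast_nonneg n
    have h2 : Ex p (fun ω => if A ω then J ω else 0) ≤
        (1 + ε) * μ * Pr p A + n * Pr p (fun ω => ε * μ < |J ω - μ|) := by
      unfold Pr
      rw [← Ex_const_mul, ← Ex_const_mul, ← Ex_add]
      refine Ex_mono hp0 hp1 fun ω => ?_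
      by_cases hA : A ω
      · by_cases hb : ε * μ < |J ω - μ|
        · simp only [hA, hb, if_true]
          have := hJn ω
          linarith
        · simp only [hA, hb, if_true, if_false]
          rw [not_lt, abs_le] at hb
          linarith [hb.2]
      · by_cases hb : ε * μ < |J ω - μ|
        · simp only [hA, hb, if_true, if_false]
          linarith
        · simp only [hA, hb, if_false]
          linarith
    have h3 : (n : ℝ) * Pr p (fun ω => ε * μ < |J ω - μ|) ≤ n * η :=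
      mul_le_mul_of_nonneg_left hT hn0
    linarith

theorem ratio_num (P Q p κ ε η N : ℝ) (h0 : 0 < p) (h1 : p < 1) (hκ : 0 < κ)
    (hε : 0 ≤ ε) (hη : 0 ≤ η)
    (h : (1 - p) * ((1 - ε) * (p * κ) * (P - η)) ≤
      p * ((1 + ε) * ((1 - p) * κ) * Q + N * η)) :
    (1 - ε) * P ≤ (1 + ε) * Q + (1 + N / ((1 - p) * κ)) * η := by
  have hp : 0 < 1 - p := by linarith
  have h2 : p * ((1 - p) * κ) * ((1 - ε) * P) ≤
      p * ((1 - p) * κ) * ((1 + ε) * Q + (1 + N / ((1 - p) * κ)) * η) := by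
    have e1 : p * ((1 - p) * κ) * ((1 + ε) * Q + (1 + N / ((1 - p) * κ)) * η) =
        p * ((1 + ε) * ((1 - p) * κ) * Q + N * η) + p * ((1 - p) * κ) * η := by
      field_simp
      ring
    rw [e1]
    have e2 : 0 ≤ ε * (p * ((1 - p) * κ) * η) := by positivity
    nlinarith
  exact le_of_mul_le_mul_left h2 (by positivity)

/-- `JJ` is concentrated: `JJ true ≈ p κ`, `JJ false ≈ (1 - p) κ` -/
theorem ratio {p : ℝ} (h0 : 0 < p) (h1 : p < 1) (V : (Fin n → Bool) → ℤ)
    (E : (Fin n → Bool) → Prop) (G : Finset (Fin n)) (act : Fin n → (Fin n → Bool) → Prop)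
    (H1 : ∀ e ∈ G, ∀ ω, act e (flp e ω) ↔ act e ω)
    (H2 : ∀ e ∈ G, ∀ ω, act e ω → ω e = true → V (flp e ω) = V ω + 1)
    (H3 : ∀ e ∈ G, ∀ ω, E (flp e ω) ↔ E ω) (κ ε η : ℝ) (hκ : 0 < κ) (hε : 0 ≤ ε)
    (hε1 : ε < 1) (hη : 0 ≤ η)
    (hT : Pr p (fun ω => ε * (p * κ) < |JJ G act true ω - p * κ|) ≤ η)
    (hF : Pr p (fun ω => ε * ((1 - p) * κ) < |JJ G act false ω - (1 - p) * κ|) ≤ η) (j : ℤ) :
    (1 - ε) * Pr p (fun ω => E ω ∧ V ω = j) ≤
        (1 + ε) * Pr p (fun ω => E ω ∧ V ω = j + 1) + (1 + n / ((1 - p) * κ)) * η ∧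
      (1 - ε) * Pr p (fun ω => E ω ∧ V ω = j + 1) ≤
        (1 + ε) * Pr p (fun ω => E ω ∧ V ω = j) + (1 + n / (p * κ)) * η := by
  classical
  have hq : 0 < 1 - p := by linarith
  have hs : (1 - p) * Ex p (fun ω => @ite ℝ (E ω ∧ V ω = j) (Classical.propDecidable _)
      (JJ G act true ω) 0) =
      p * Ex p (fun ω => @ite ℝ (E ω ∧ V ω = j + 1) (Classical.propDecidable _)
      (JJ G act false ω) 0) := by
    convert switching p V E G act H1 H2 H3 j
  obtain ⟨a1, a2⟩ := ratio_aux h0 h1 (fun ω => E ω ∧ V ω = j) (JJ G act true)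
    (JJ_nonneg G act true) (JJ_le G act true) (p * κ) ε η (by positivity) hε hε1 hT
  obtain ⟨b1, b2⟩ := ratio_aux h0 h1 (fun ω => E ω ∧ V ω = j + 1) (JJ G act false)
    (JJ_nonneg G act false) (JJ_le G act false) ((1 - p) * κ) ε η (by positivity) hε hε1 hF
  constructor
  · refine ratio_num _ _ p κ ε η n h0 h1 hκ hε hη ?_
    have c1 := mul_le_mul_of_nonneg_left a1 hq.le
    have c2 := mul_le_mul_of_nonneg_left b2 h0.le
    linarith
  · have c1 := mul_le_mul_of_nonneg_left a2 hq.le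
    have c2 := mul_le_mul_of_nonneg_left b1 h0.le
    have := ratio_num (Pr p (fun ω => E ω ∧ V ω = j + 1)) (Pr p (fun ω => E ω ∧ V ω = j))
      (1 - p) κ ε η n hq (by linarith) hκ hε hη (by
        have e : 1 - (1 - p) = p := by ring
        rw [e]
        linarith)
    have e : 1 - (1 - p) = p := by ring
    rw [e] at this
    exact this

end Pool.Agent.Lib.MP_eb8f1d_pr
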