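import Pool.Agent.Lib.MP_eb8f1d_pr.Moments
import Pool.Agent.Lib.MP_eb8f1d_pr.Excess

set_option autoImplicit false

namespace Pool.Agent.Lib.MP_eb8f1d_pr

open Finset

variable {n : ℕ}

/-- number of unseen colours which are on at most two sides -/
def Um (c : Coloring n) (ω : Fin n → Bool) : ℕ :=
  (univ.filter (fun v => Unseen c ω v ∧ da c v + db c v ≤ 2)).card

theorem Um_le_U (c : Coloring n) (ω : Fin n → Bool) : Um c ω ≤ U c ω := by
  unfold Um U
  apply Finset.card_le_card
  intro v hv
  rw [Finset.mem_filter] at hv ⊢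
  exact ⟨hv.1, hv.2.1⟩

theorem Ex_Um (p : ℝ) (c : Coloring n) : Ex p (fun ω => (Um c ω : ℝ)) =
    ∑ v ∈ univ.filter (fun v => da c v + db c v ≤ 2), wgt p (da c v) (db c v) := by
  have h : ∀ ω : Fin n → Bool, (Um c ω : ℝ) =
      ∑ v ∈ univ.filter (fun v => da c v + db c v ≤ 2), (if Unseen c ω v then (1 : ℝ) else 0) := by
    intro ω
    unfold Um
    rw [Finset.card_filter, Finset.sum_filter]
    push_cast
    refine Finset.sum_congr rfl fun v _ => ?_
    by_cases h1 : Unseen c ω v <;> by_cases h2 : da c v + db c v ≤ 2 <;> simp [h1, h2]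
  rw [Ex_congr h, Ex_sum]
  exact Finset.sum_congr rfl fun v _ => Ex_unseen p c v

theorem mean_Um (c : Coloring n) :
    (n : ℝ) / 4 ≤ Ex (1 / 2) (fun ω => (Um c ω : ℝ)) := by
  rw [Ex_Um]
  have h1 : ∀ v, (3 - ((da c v : ℝ) + db c v)) / 4 ≤
      (if da c v + db c v ≤ 2 then wgt (1 / 2) (da c v) (db c v) else 0) := by
    intro v
    split_ifs with h
    · have h' : wgt (1 / 2) (da c v) (db c v) = (1 / 2 : ℝ) ^ (da c v + db c v) := by
        unfold wgt
        rw [pow_add]
        norm_num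
      rw [h', show ((da c v : ℝ) + db c v) = ((da c v + db c v : ℕ) : ℝ) by push_cast; ring]
      generalize da c v + db c v = d at h
      interval_cases d <;> norm_num
    · have : (3 : ℝ) ≤ (da c v : ℝ) + db c v := by
        exact_mod_cast (by omega : 3 ≤ da c v + db c v)
      linarith
  rw [Finset.sum_filter]
  refine le_trans (le_of_eq ?_) (Finset.sum_le_sum fun v _ => h1 v)
  rw [← Finset.sum_div, Finset.sum_sub_distrib, Finset.sum_add_distrib]
  have e1 : (∑ v, (da c v : ℝ)) = n := by exact_mod_cast sum_da c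
  have e2 : (∑ v, (db c v : ℝ)) = n := by exact_mod_cast sum_db c
  rw [e1, e2]
  simp
  ring

end Pool.Agent.Lib.MP_eb8f1d_pr
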